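import Mathlib
import Pool.Agent.Lib.H55K.D2
import Pool.Agent.Lib.H55K.D0
import Pool.Agent.Lib.H55K.M0
import Pool.Agent.Lib.H55K.CG
import Pool.Agent.Lib.H55K.KD
import Pool.Agent.Lib.H13R.D

/-!
# H55G: the reduction of curves with complex multiplication at primes of good reduction which divide the discriminant of the given equation

Definitions. See PROOF.md.
-/

open NumberField IsDedekindDomain WeierstrassCurve Polynomial

namespace H55G

open H55P (IQ embF eF LF Per IsHecke Pt ac Inert Dec Nm)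
open H35P (WAB Ker GoodW IntW)
open H55K (CMA Tor TN ak xc yc cj GoodAt acr Abw)
open H55K.MG (VC Crd)

/-! ## The number of points of the minimal model -/

/-- The number of points over the residue field of the reduction of the minimal model at w. -/
noncomputable def NW {k : Type} [Field k] [NumberField k] (W : WeierstrassCurve k) (w : HeightOneSpectrum (𝓞 k)) : ℕ :=
  Nat.card (((W⁄(w.adicCompletion k)).minimal (w.adicCompletionIntegers k)).reduction
    (w.adicCompletionIntegers k)).toAffine.Point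

/-- At the primes of M which divide the discriminant of W₀ and at which W₀ has good reduction, p does not divide the number of points. -/
def OkM {F : Type} [Field F] [NumberField F] {Ω : Type} [Field Ω] [Algebra F Ω] (p : ℕ) (W₀ : WeierstrassCurve (𝓞 F))
    (M : IntermediateField F Ω) [NumberField M] : Prop :=
  ∀ w : HeightOneSpectrum (𝓞 M), algebraMap (𝓞 F) (𝓞 M) W₀.Δ ∈ w.asIdeal → GoodAt ((W₀⁄F)⁄M) w →
    ¬ p ∣ NW ((W₀⁄F)⁄M) w

/-! ## Abstract groups with complex multiplication -/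

section abs

variable {F : Type} [Field F] [NumberField F] [IQ F] {G κ : Type} [AddCommGroup G] [Field κ]

/-- b is a prime element which acts injectively, and for c prime to b the kernel of c is a cyclic module with annihilator (c). -/
structure RB (ρ : 𝓞 F →+* AddMonoid.End G) (b : 𝓞 F) : Prop where
  prime : Prime b
  inj : ∀ P : G, ρ b P = 0 → P = 0
  gen : ∀ c : 𝓞 F, ¬ b ∣ c → ∃ T : G, (∀ P : G, ρ c P = 0 → ∃ a : 𝓞 F, P = ρ a T) ∧ ∀ a : 𝓞 F, ρ a T = 0 ↔ c ∣ a

/-- The group of points G of an elliptic curve over the algebraically closed field κ with complex multiplication: X is the x-coordinate; b is the prime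
of F below the characteristic of κ at which the multiplication is purely inseparable. -/
structure RG (ρ : 𝓞 F →+* AddMonoid.End G) (X : G → κ) : Prop where
  inf : Infinite κ
  xinj : ∀ P Q : G, P ≠ 0 → Q ≠ 0 → (X P = X Q ↔ P = Q ∨ P = -Q)
  xsurj : ∀ x : κ, ∃ P : G, P ≠ 0 ∧ X P = x
  surj : ∀ a : 𝓞 F, a ≠ 0 → ∀ P : G, ∃ Q : G, ρ a Q = P
  b : ∃ b : 𝓞 F, RB ρ b
  rf : ∀ a : 𝓞 F, a ≠ 0 → ∃ N D : κ[X], (N ≠ 0 ∨ D ≠ 0) ∧ N.natDegree ≤ Nm a ∧ D.natDegree ≤ Nm a ∧
    ∀ P : G, P ≠ 0 → ρ a P ≠ 0 → D.eval (X P) * X (ρ a P) = N.eval (X P)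

/-- φ is the Frobenius endomorphism of a curve over the field with q elements. -/
structure Fr (X : G → κ) (q : ℕ) (φ : AddMonoid.End G) : Prop where
  two : 2 ≤ q
  bij : Function.Bijective φ
  x : ∀ P : G, P ≠ 0 → X (φ P) = X P ^ q
  card : Nat.card {x : κ // x ^ q = x} = q

end abs

/-- The number of elements of the kernel of f. -/
noncomputable def kk {G : Type} [AddCommGroup G] (f : AddMonoid.End G) : ℕ :=
  Nat.card {P : G // f P = 0}

/-! ## A good model at a valuation ring -/

section gd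

variable {F : Type} [Field F] {Ω : Type} [Field Ω] [DecidableEq Ω] [Algebra F Ω] {W : WeierstrassCurve F}

/-- W' is a good model at V of W over Ω; Kg is the kernel of reduction. -/
structure GD (V : ValuationSubring Ω) (W' : WeierstrassCurve Ω) (u r s t : Ω)
    (Θ : Pt W Ω ≃+ W'.toAffine.Point) (Kg : AddSubgroup (Pt W Ω)) : Prop where
  une : u ≠ 0
  good : GoodW W' V
  crd : Crd u r s t Θ
  kg : ∀ P : Pt W Ω, P ∈ Kg ↔ Ker V (Θ P)

/-- The x-coordinate of the good model. -/
noncomputable def xp {W' : WeierstrassCurve Ω} (Θ : Pt W Ω ≃+ W'.toAffine.Point) (P : Pt W Ω) : Ω := xc (Θ P)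

/-- The y-coordinate of the good model. -/
noncomputable def yp {W' : WeierstrassCurve Ω} (Θ : Pt W Ω ≃+ W'.toAffine.Point) (P : Pt W Ω) : Ω := yc (Θ P)

open Classical in
/-- The residue class of an element of V (0 outside V). -/
noncomputable def rs (V : ValuationSubring Ω) (x : Ω) : IsLocalRing.ResidueField V :=
  if h : x ∈ V then IsLocalRing.residue V ⟨x, h⟩ else 0

/-- The x-coordinate of the reduced curve. -/
noncomputable def XG (V : ValuationSubring Ω) {W' : WeierstrassCurve Ω} (Θ : Pt W Ω ≃+ W'.toAffine.Point)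
    (Kg : AddSubgroup (Pt W Ω)) (g : Pt W Ω ⧸ Kg) : IsLocalRing.ResidueField V :=
  rs V (xp Θ g.out)

/-- The y-coordinate of the reduced curve. -/
noncomputable def YG (V : ValuationSubring Ω) {W' : WeierstrassCurve Ω} (Θ : Pt W Ω ≃+ W'.toAffine.Point)
    (Kg : AddSubgroup (Pt W Ω)) (g : Pt W Ω ⧸ Kg) : IsLocalRing.ResidueField V :=
  rs V (yp Θ g.out)

/-- The endomorphism of the quotient by Kg. -/
def qmap (Kg : AddSubgroup (Pt W Ω)) (f : AddMonoid.End (Pt W Ω)) (hf : ∀ P ∈ Kg, f P ∈ Kg) :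
    AddMonoid.End (Pt W Ω ⧸ Kg) :=
  QuotientAddGroup.map Kg Kg f hf

theorem qmap_mk (Kg : AddSubgroup (Pt W Ω)) (f : AddMonoid.End (Pt W Ω)) (hf : ∀ P ∈ Kg, f P ∈ Kg) (P : Pt W Ω) :
    qmap Kg f hf (P : Pt W Ω ⧸ Kg) = ((f P : Pt W Ω) : Pt W Ω ⧸ Kg) := rfl

/-- The action of the integers on the quotient by Kg. -/
def rhoG (Kg : AddSubgroup (Pt W Ω)) (act : 𝓞 F →+* AddMonoid.End (Pt W Ω)) (hst : ∀ a : 𝓞 F, ∀ P ∈ Kg, act a P ∈ Kg) :
    𝓞 F →+* AddMonoid.End (Pt W Ω ⧸ Kg) where
  toFun a := qmap Kg (act a) (hst a)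
  map_one' := by
    refine AddMonoidHom.ext fun g => ?_
    induction g using QuotientAddGroup.induction_on with
    | H P => exact congrArg (fun f : AddMonoid.End (Pt W Ω) => ((f P : Pt W Ω) : Pt W Ω ⧸ Kg)) (map_one act)
  map_mul' a b := by
    refine AddMonoidHom.ext fun g => ?_
    induction g using QuotientAddGroup.induction_on with
    | H P => exact congrArg (fun f : AddMonoid.End (Pt W Ω) => ((f P : Pt W Ω) : Pt W Ω ⧸ Kg)) (map_mul act a b)
  map_zero' := by
    refine AddMonoidHom.ext fun g => ?_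
    induction g using QuotientAddGroup.induction_on with
    | H P => exact congrArg (fun f : AddMonoid.End (Pt W Ω) => ((f P : Pt W Ω) : Pt W Ω ⧸ Kg)) (map_zero act)
  map_add' a b := by
    refine AddMonoidHom.ext fun g => ?_
    induction g using QuotientAddGroup.induction_on with
    | H P => exact congrArg (fun f : AddMonoid.End (Pt W Ω) => ((f P : Pt W Ω) : Pt W Ω ⧸ Kg)) (map_add act a b)

theorem rhoG_mk (Kg : AddSubgroup (Pt W Ω)) (act : 𝓞 F →+* AddMonoid.End (Pt W Ω)) (hst : ∀ a : 𝓞 F, ∀ P ∈ Kg, act a P ∈ Kg)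
    (a : 𝓞 F) (P : Pt W Ω) : rhoG Kg act hst a (P : Pt W Ω ⧸ Kg) = ((act a P : Pt W Ω) : Pt W Ω ⧸ Kg) := rfl

end gd

/-- s is an automorphism of Ω over the number field k which is a Frobenius element at V, V above the prime w of k. -/
structure FrD (k : Type) [Field k] [NumberField k] {Ω : Type} [Field Ω] [Algebra k Ω] (V : ValuationSubring Ω)
    (w : HeightOneSpectrum (𝓞 k)) (s : Ω ≃+* Ω) : Prop where
  abw : Abw V w
  fix : ∀ x : k, s (algebraMap k Ω x) = algebraMap k Ω x
  frob : ∀ x ∈ V, V.valuation (s x - x ^ Ideal.absNorm w.asIdeal) < 1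

end H55G
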