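import Mathlib
import Pool.Agent.Lib.H55G.D0

/-! # H55G, part A: kernels of multiplications -/

open NumberField IsDedekindDomain WeierstrassCurve Polynomial

namespace H55G

open H55P (IQ embF eF Nm)
open H55K (cj cj_cj mul_cj Nm_cj Nm_mul Nm_nat e_cj)

variable {F : Type} [Field F] [NumberField F] [IQ F] {G κ : Type} [AddCommGroup G] [Field κ]
  {ρ : 𝓞 F →+* AddMonoid.End G} {X : G → κ}

/-- Chunk A1 (S/M). T from hb.gen c. The map a ↦ ρ a T from 𝓞 F to the kernel of ρ c is well defined (ρ c (ρ a T) = ρ a (ρ c T) = 0: map_mul, mul_comm, and ρ c T = 0 since c ∣ c), surjective (first property of T) and ρ a T = ρ a' T iff c ∣ a - a' (map_sub). So the kernel is in bijection with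
𝓞 F ⧸ span {c} (Ideal.Quotient; Quotient.lift or Nat.card_congr of Equiv.ofBijective), which has Nm c elements (Nm c is by definition Ideal.absNorm (span {c}), Ideal.absNorm_apply, Submodule.cardQuot_apply): see H55K.tor_card (Lib/H55K/G4A.lean), of which this is a port. -/
theorem kk_nb {b : 𝓞 F} (hb : RB ρ b) {c : 𝓞 F} (hc : ¬ b ∣ c) : kk (ρ c) = Nm c := by
  obtain ⟨T₀, h1, h2⟩ := hb.gen c hc
  let f : 𝓞 F →+ G :=
    { toFun := fun a => ρ a T₀
      map_zero' := by rw [map_zero]; rfl
      map_add' := fun a d => by rw [map_add]; rfl }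
  have hf : ∀ a, f a = ρ a T₀ := fun a => rfl
  have hker : f.ker = (Ideal.span {c} : Ideal (𝓞 F)).toAddSubgroup := by
    ext a
    rw [AddMonoidHom.mem_ker, hf, h2]
    exact Ideal.mem_span_singleton.symm
  have hT₀ : ρ c T₀ = 0 := (h2 c).2 dvd_rfl
  have hran : f.range = AddMonoidHom.ker (ρ c) := by
    ext T
    rw [AddMonoidHom.mem_range, AddMonoidHom.mem_ker]
    constructor
    · rintro ⟨a, rfl⟩
      have e : ρ c (ρ a T₀) = ρ a (ρ c T₀) := by
        have e1 : ρ (c * a) = ρ (a * c) := by rw [mul_comm]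
        rw [map_mul, map_mul] at e1
        exact congrArg (fun φ : AddMonoid.End G => φ T₀) e1
      exact e.trans ((congrArg (ρ a) hT₀).trans (map_zero (ρ a)))
    · intro hT
      obtain ⟨a, ha⟩ := h1 T hT
      exact ⟨a, ha.symm⟩
  have h3 := AddSubgroup.index_ker f
  rw [hker, hran] at h3
  have h4 : kk (ρ c) = Nat.card (AddMonoidHom.ker (ρ c)) := rfl
  rw [h4, ← h3]
  rfl

end H55G
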