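import Mathlib
import Pool.Agent.Lib.H55G.D0
import Pool.Agent.Lib.H55G.A1a

/-! # H55G, part A: kernels of multiplications -/

open NumberField IsDedekindDomain WeierstrassCurve Polynomial

namespace H55G

open H55P (IQ embF eF Nm)
open H55K (cj cj_cj mul_cj Nm_cj Nm_mul Nm_nat e_cj)

variable {F : Type} [Field F] [NumberField F] [IQ F] {G κ : Type} [AddCommGroup G] [Field κ]
  {ρ : 𝓞 F →+* AddMonoid.End G} {X : G → κ}

omit [IQ F] in
theorem a1b_pow (c : 𝓞 F) (k : ℕ) : Nm (c ^ k) = Nm c ^ k := by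
  unfold Nm
  rw [← Ideal.span_singleton_pow, map_pow]

omit [NumberField F] [IQ F] in
theorem a1b_mul (a c : 𝓞 F) (P : G) : ρ (a * c) P = ρ a (ρ c P) := by
  rw [map_mul]
  rfl

omit [NumberField F] [IQ F] in
theorem a1b_inj {b : 𝓞 F} (hb : RB ρ b) (k : ℕ) (Q : G) (h : ρ (b ^ k) Q = 0) : Q = 0 := by
  induction k with
  | zero =>
    rw [pow_zero, map_one] at h
    exact h
  | succ k ih =>
    rw [pow_succ', a1b_mul] at h
    exact ih (hb.inj _ h)

/-- Chunk A1. c ≠ 0 and b prime: c = b^k c' with c' not divisible by b (the multiplicity is finite in the Dedekind domain 𝓞 F: FiniteMultiplicity.of_prime_left or WfDvdMonoid.max_power_factor). ρ c P = ρ (b^k) (ρ c' P) = 0 iff ρ c' P = 0 (hb.inj, induction on k; write c = c' b^k or b^k c': the ring 𝓞 F is commutative). Then kk_nb and Nm_mul (Nm of a power: induction or the map_pow of absNorm). -/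
theorem kk_split {b : 𝓞 F} (hb : RB ρ b) {c : 𝓞 F} (hc : c ≠ 0) : ∃ (k : ℕ) (c' : 𝓞 F), c = b ^ k * c' ∧ ¬ b ∣ c' ∧
    kk (ρ c) = Nm c' ∧ Nm c = Nm b ^ k * Nm c' := by
  obtain ⟨k, c', hc', rfl⟩ := WfDvdMonoid.max_power_factor hc hb.prime.irreducible
  refine ⟨k, c', rfl, hc', ?_, ?_⟩
  · rw [← kk_nb hb hc']
    unfold kk
    refine Nat.card_congr (Equiv.subtypeEquivRight fun P => ?_)
    rw [a1b_mul]
    refine ⟨fun h => a1b_inj hb k _ h, fun h => ?_⟩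
    rw [h, map_zero]
  · rw [Nm_mul, a1b_pow]

/-- Chunk A1. From kk_split: Nm c' > 0 (H55P.Nm_eq_zero: c' ≠ 0 because b ∣ 0), Nm b ≥ 1, so 0 < kk (ρ c) ≤ Nm c; finite because Nat.card is not 0 (Nat.finite_of_card_ne_zero). -/
theorem kk_fin {b : 𝓞 F} (hb : RB ρ b) {c : 𝓞 F} (hc : c ≠ 0) : Finite {P : G // ρ c P = 0} ∧ 0 < kk (ρ c) ∧ kk (ρ c) ≤ Nm c := by
  obtain ⟨k, c', -, h1, h2, h3⟩ := kk_split hb hc
  have h4 : 0 < Nm c' := by
    refine Nat.pos_of_ne_zero fun h0 => h1 ?_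
    rw [H55P.Nm_eq_zero] at h0
    rw [h0]
    exact dvd_zero b
  have h5 : 0 < Nm b := by
    refine Nat.pos_of_ne_zero fun h0 => hb.prime.ne_zero ?_
    rwa [H55P.Nm_eq_zero] at h0
  have h6 : 0 < kk (ρ c) := by rw [h2]; exact h4
  refine ⟨Nat.finite_of_card_ne_zero h6.ne', h6, ?_⟩
  rw [h2, h3]
  exact Nat.le_mul_of_pos_left _ (pow_pos h5 k)

end H55G
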