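import Mathlib
import Pool.Agent.Lib.H55G.D0

/-! # H55G, part A: the points fixed by the Frobenius endomorphism up to sign -/

open NumberField IsDedekindDomain WeierstrassCurve Polynomial

namespace H55G

open H55P (IQ embF eF Nm)
open H55K (cj cj_cj mul_cj Nm_cj Nm_mul Nm_nat e_cj)

variable {F : Type} [Field F] [NumberField F] [IQ F] {G κ : Type} [AddCommGroup G] [Field κ]
  {ρ : 𝓞 F →+* AddMonoid.End G} {X : G → κ}

/-- Helper: a set with two elements. -/
theorem a2_two {α : Type} (x y : α) (hxy : x ≠ y) (h : ∀ z : α, z = x ∨ z = y) : Nat.card α = 2 := by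
  refine Nat.card_eq_two_iff.2 ⟨x, y, hxy, ?_⟩
  ext z
  simpa using h z

/-- Chunk A2 (M). Let R = {x : κ // x^q = x}, finite with q elements (hφ.card, hφ.two: Nat.finite_of_card_ne_zero). For P ≠ 0: φ P ≠ 0 (hφ.bij injective, map_zero), and X P in R iff X (φ P) = X P (hφ.x) iff φ P = P or φ P = -P (h.xinj). For x in R the set of the nonzero P with X P = x is {P₀, -P₀} (h.xsurj, h.xinj), and
all its elements satisfy φ P = ± P. Count pairs: let U = {P ≠ 0 : φ P = P}, U' = {P ≠ 0 : φ P = -P}. Both are finite (X maps U ∪ U' to the finite R with fibres of at most 2 elements). For x in R: #{P in U : X P = x} + #{P in U' : X P = x} = 2: if P₀ ≠ -P₀ then exactly one of φ P₀ = P₀, φ P₀ = -P₀ holds and it holds for -P₀ as well (map_neg), so one of the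
two numbers is 2 and the other 0; if P₀ = -P₀ the fibre is {P₀} and P₀ is in both. Sum over x in R (Finset.card_eq_sum_card_fiberwise or Finset.card_sigma): #U + #U' = 2 q. With P = 0, in both sets: 2 q + 2. -/
theorem fr_two (h : RG ρ X) {q : ℕ} {φ : AddMonoid.End G} (hφ : Fr X q φ) :
    Finite {P : G // φ P = P} ∧ Finite {P : G // φ P = -P} ∧
      Nat.card {P : G // φ P = P} + Nat.card {P : G // φ P = -P} = 2 * (q + 1) := by
  classical
  have hneg : ∀ P : G, P ≠ 0 → X (-P) = X P := fun P hP => (h.xinj (-P) P (neg_ne_zero.2 hP) hP).2 (Or.inr rfl)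
  have hq : q ≠ 0 := by
    have := hφ.two
    omega
  have hSfin : Finite {x : κ // x ^ q = x} := Nat.finite_of_card_ne_zero (by rw [hφ.card]; exact hq)
  let v : {P : G // φ P = P} ⊕ {P : G // φ P = -P} → G := Sum.elim Subtype.val Subtype.val
  have hv : ∀ d, v d ≠ 0 → X (v d) ^ q = X (v d) := by
    rintro (⟨P, hP⟩ | ⟨P, hP⟩) h0
    · change P ≠ 0 at h0
      have h1 := hφ.x P h0
      rw [hP] at h1
      exact h1.symm
    · change P ≠ 0 at h0
      have h1 := hφ.x P h0
      rw [hP, hneg P h0] at h1
      exact h1.symm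
  let Fm : {P : G // φ P = P} ⊕ {P : G // φ P = -P} → Option {x : κ // x ^ q = x} :=
    fun d => if hd : v d = 0 then none else some ⟨X (v d), hv d hd⟩
  have hφ0 : φ 0 = 0 := map_zero φ
  have hfib : ∀ y, Nat.card {d // Fm d = y} = 2 := by
    intro y
    rcases y with _ | x
    · have hmem : ∀ d, Fm d = none ↔ v d = 0 := by
        intro d
        by_cases hd : v d = 0
        · exact ⟨fun _ => hd, fun _ => dif_pos hd⟩
        · have h3 : Fm d = some ⟨X (v d), hv d hd⟩ := dif_neg hd
          rw [h3]
          exact ⟨fun h1 => absurd h1 (Option.some_ne_none _), fun h1 => absurd h1 hd⟩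
      refine a2_two ⟨Sum.inl ⟨0, hφ0⟩, (hmem _).2 rfl⟩ ⟨Sum.inr ⟨0, by rw [hφ0, neg_zero]⟩, (hmem _).2 rfl⟩ ?_ ?_
      · intro he
        exact Sum.inl_ne_inr (congrArg Subtype.val he)
      · rintro ⟨(⟨P, hP⟩ | ⟨P, hP⟩), hd⟩
        · left
          exact Subtype.ext (congrArg Sum.inl (Subtype.ext ((hmem _).1 hd)))
        · right
          exact Subtype.ext (congrArg Sum.inr (Subtype.ext ((hmem _).1 hd)))
    · obtain ⟨P₀, hP0, hPx⟩ := h.xsurj x.1
      have hmem : ∀ d, Fm d = some x ↔ v d = P₀ ∨ v d = -P₀ := by
        intro d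
        by_cases hd : v d = 0
        · have h3 : Fm d = none := dif_pos hd
          rw [h3]
          constructor
          · intro h1
            exact absurd h1.symm (Option.some_ne_none _)
          · intro h1
            rw [hd] at h1
            rcases h1 with h1 | h1
            · exact absurd h1.symm hP0
            · exact absurd h1.symm (neg_ne_zero.2 hP0)
        · have h3 : Fm d = some ⟨X (v d), hv d hd⟩ := dif_neg hd
          rw [h3, Option.some_inj, Subtype.ext_iff]
          change X (v d) = x.1 ↔ _
          rw [← hPx]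
          exact h.xinj _ _ hd hP0
      have hφP : φ P₀ = P₀ ∨ φ P₀ = -P₀ := by
        have h1 : φ P₀ ≠ 0 := fun h2 => hP0 (hφ.bij.1 (h2.trans hφ0.symm))
        refine (h.xinj _ _ h1 hP0).1 ?_
        rw [hφ.x P₀ hP0, hPx]
        exact x.2
      by_cases h2 : P₀ = -P₀
      · have h3 : φ P₀ = P₀ := by
          rcases hφP with h3 | h3
          · exact h3
          · rw [h3]
            exact h2.symm
        refine a2_two ⟨Sum.inl ⟨P₀, h3⟩, (hmem _).2 (Or.inl rfl)⟩ ⟨Sum.inr ⟨P₀, h3.trans h2⟩, (hmem _).2 (Or.inl rfl)⟩ ?_ ?_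
        · intro he
          exact Sum.inl_ne_inr (congrArg Subtype.val he)
        · rintro ⟨(⟨P, hP⟩ | ⟨P, hP⟩), hd⟩
          · left
            refine Subtype.ext (congrArg Sum.inl (Subtype.ext ?_))
            rcases (hmem _).1 hd with h4 | h4
            · exact h4
            · exact (show P = -P₀ from h4).trans h2.symm
          · right
            refine Subtype.ext (congrArg Sum.inr (Subtype.ext ?_))
            rcases (hmem _).1 hd with h4 | h4
            · exact h4
            · exact (show P = -P₀ from h4).trans h2.symm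
      · rcases hφP with h3 | h3
        · have h3' : φ (-P₀) = -P₀ := by rw [map_neg, h3]
          refine a2_two ⟨Sum.inl ⟨P₀, h3⟩, (hmem _).2 (Or.inl rfl)⟩ ⟨Sum.inl ⟨-P₀, h3'⟩, (hmem _).2 (Or.inr rfl)⟩ ?_ ?_
          · intro he
            exact h2 (congrArg Subtype.val (Sum.inl_injective (congrArg Subtype.val he)))
          · rintro ⟨(⟨P, hP⟩ | ⟨P, hP⟩), hd⟩
            · rcases (hmem _).1 hd with h4 | h4
              · left
                exact Subtype.ext (congrArg Sum.inl (Subtype.ext h4))
              · right
                exact Subtype.ext (congrArg Sum.inl (Subtype.ext h4))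
            · exfalso
              rcases (hmem _).1 hd with h4 | h4
              · change P = P₀ at h4
                rw [h4, h3] at hP
                exact h2 hP
              · change P = -P₀ at h4
                rw [h4, h3', neg_neg] at hP
                exact h2 hP.symm
        · have h3' : φ (-P₀) = -(-P₀) := by rw [map_neg, h3]
          refine a2_two ⟨Sum.inr ⟨P₀, h3⟩, (hmem _).2 (Or.inl rfl)⟩ ⟨Sum.inr ⟨-P₀, h3'⟩, (hmem _).2 (Or.inr rfl)⟩ ?_ ?_
          · intro he
            exact h2 (congrArg Subtype.val (Sum.inr_injective (congrArg Subtype.val he)))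
          · rintro ⟨(⟨P, hP⟩ | ⟨P, hP⟩), hd⟩
            · exfalso
              rcases (hmem _).1 hd with h4 | h4
              · change P = P₀ at h4
                rw [h4, h3] at hP
                exact h2 hP.symm
              · change P = -P₀ at h4
                rw [h4, h3', neg_neg] at hP
                exact h2 hP
            · rcases (hmem _).1 hd with h4 | h4
              · left
                exact Subtype.ext (congrArg Sum.inr (Subtype.ext h4))
              · right
                exact Subtype.ext (congrArg Sum.inr (Subtype.ext h4))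
  have hfin : ∀ y, Finite {d // Fm d = y} := fun y => Nat.finite_of_card_ne_zero (by rw [hfib y]; norm_num)
  have e := Equiv.sigmaFiberEquiv Fm
  have hD : Finite ({P : G // φ P = P} ⊕ {P : G // φ P = -P}) := Finite.of_equiv _ e
  have hA : Finite {P : G // φ P = P} := Finite.of_injective (Sum.inl : _ → {P : G // φ P = P} ⊕ {P : G // φ P = -P}) Sum.inl_injective
  have hB : Finite {P : G // φ P = -P} := Finite.of_injective (Sum.inr : _ → {P : G // φ P = P} ⊕ {P : G // φ P = -P}) Sum.inr_injective
  refine ⟨hA, hB, ?_⟩
  have : Fintype {x : κ // x ^ q = x} := Fintype.ofFinite _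
  rw [← Nat.card_sum, ← Nat.card_congr e, Nat.card_sigma, Finset.sum_congr rfl fun y _ => hfib y, Finset.sum_const,
    Finset.card_univ, Fintype.card_option, ← Nat.card_eq_fintype_card, hφ.card]
  simp only [smul_eq_mul]
  ring

end H55G
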