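import Mathlib
import Pool.Agent.Lib.H55G.D0

/-! # H55G, part A: kernels of compositions -/

open NumberField IsDedekindDomain WeierstrassCurve Polynomial

namespace H55G

open H55P (IQ embF eF Nm)
open H55K (cj cj_cj mul_cj Nm_cj Nm_mul Nm_nat e_cj)

variable {F : Type} [Field F] [NumberField F] [IQ F] {G κ : Type} [AddCommGroup G] [Field κ]
  {ρ : 𝓞 F →+* AddMonoid.End G} {X : G → κ}

omit [Field κ] in
/-- Chunk A3 (S). (f * g) P = f (g P). The kernel of f * g maps onto the kernel of f by g (hg) with kernel the kernel of g; as sets: choose for each Q in the kernel of f a P_Q with g P_Q = Q; (Q, R) ↦ P_Q + R is a bijection from ker f × ker g to ker (f * g). Nat.card_congr, Nat.card_prod. -/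
theorem kk_mul {f g : AddMonoid.End G} (hg : Function.Surjective g) : kk (f * g) = kk f * kk g := by
  choose s hs using hg
  unfold kk
  rw [← Nat.card_prod]
  refine Nat.card_congr
    { toFun := fun P => (⟨g P.1, P.2⟩, ⟨P.1 - s (g P.1), by rw [map_sub, hs, sub_self]⟩)
      invFun := fun QR => ⟨s QR.1.1 + QR.2.1, by
        show f (g (s QR.1.1 + QR.2.1)) = 0
        rw [map_add g, hs, QR.2.2, add_zero, QR.1.2]⟩
      left_inv := ?_
      right_inv := ?_ }
  · rintro ⟨P, hP⟩
    apply Subtype.ext
    show s (g P) + (P - s (g P)) = P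
    abel
  · rintro ⟨⟨Q, hQ⟩, ⟨R, hR⟩⟩
    have h1 : g (s Q + R) = Q := by rw [map_add, hs, hR, add_zero]
    refine Prod.ext (Subtype.ext h1) (Subtype.ext ?_)
    show s Q + R - s (g (s Q + R)) = R
    rw [h1]
    abel

omit [Field κ] in
/-- Chunk A3 (S). g maps the kernel of f * g to the kernel of f, with fibres of at most kk g elements (two elements of a fibre differ by an element of the kernel of g): the map P ↦ (g P, P - P_Q) with P_Q chosen in the fibre of Q = g P (Classical) is injective into ker f × ker g (finite). -/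
theorem kk_mul_le {f g : AddMonoid.End G} (hf : Finite {P : G // f P = 0}) (hg : Finite {P : G // g P = 0}) :
    Finite {P : G // (f * g) P = 0} ∧ kk (f * g) ≤ kk f * kk g := by
  classical
  have hc : ∀ Q : G, ∃ P : G, (∃ P', g P' = Q) → g P = Q := by
    intro Q
    by_cases h : ∃ P', g P' = Q
    · obtain ⟨P', hP'⟩ := h
      exact ⟨P', fun _ => hP'⟩
    · exact ⟨0, fun h' => absurd h' h⟩
  choose c hc using hc
  let F : {P : G // (f * g) P = 0} → {P : G // f P = 0} × {P : G // g P = 0} := fun P =>
    (⟨g P.1, P.2⟩, ⟨P.1 - c (g P.1), by rw [map_sub, hc (g P.1) ⟨P.1, rfl⟩, sub_self]⟩)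
  have hF : Function.Injective F := by
    rintro ⟨P, hP⟩ ⟨P', hP'⟩ h
    have h1 : g P = g P' := congrArg Subtype.val (congrArg Prod.fst h)
    have h2 : P - c (g P) = P' - c (g P') := congrArg Subtype.val (congrArg Prod.snd h)
    rw [h1] at h2
    exact Subtype.ext (sub_left_injective h2)
  refine ⟨Finite.of_injective F hF, ?_⟩
  unfold kk
  rw [← Nat.card_prod]
  exact Nat.card_le_card_of_injective F hF

end H55G
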