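import Mathlib
import Pool.Agent.Lib.H55G.D0
import Pool.Agent.Lib.H55G.A3a

/-! # H55G, part A: kernels of compositions -/

open NumberField IsDedekindDomain WeierstrassCurve Polynomial

namespace H55G

open H55P (IQ embF eF Nm)
open H55K (cj cj_cj mul_cj Nm_cj Nm_mul Nm_nat e_cj)

variable {F : Type} [Field F] [NumberField F] [IQ F] {G κ : Type} [AddCommGroup G] [Field κ]
  {ρ : 𝓞 F →+* AddMonoid.End G} {X : G → κ}

omit [Field κ] in
/-- Chunk A3 (S). The kernels are the same set: f (g P) = 0 iff g P = 0. -/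
theorem kk_inj {f g : AddMonoid.End G} (hf : ∀ P : G, f P = 0 → P = 0) : kk (f * g) = kk g := by
  refine Nat.card_congr (Equiv.subtypeEquivRight fun P => ⟨fun h => hf _ h, fun h => ?_⟩)
  show f (g P) = 0
  rw [h, map_zero]

omit [Field κ] in
/-- Chunk A3 (S). φ P = P iff (φ - 1) P = 0, φ P = -P iff (φ + 1) P = 0. -/
theorem kk_pm (φ : AddMonoid.End G) : kk (φ - 1) = Nat.card {P : G // φ P = P} ∧ kk (φ + 1) = Nat.card {P : G // φ P = -P} := by
  refine ⟨Nat.card_congr (Equiv.subtypeEquivRight fun P => ?_), Nat.card_congr (Equiv.subtypeEquivRight fun P => ?_)⟩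
  · show φ P - P = 0 ↔ φ P = P
    exact sub_eq_zero
  · show φ P + P = 0 ↔ φ P = -P
    exact eq_neg_iff_add_eq_zero.symm

omit [Field κ] in
/-- The kernel of a composition. -/
theorem a3b_mul {A B C : Type} [AddCommGroup A] [AddCommGroup B] [AddCommGroup C] (u : A →+ B) (hu : Function.Surjective u) (v : B →+ C) :
    Nat.card {P : A // v (u P) = 0} = Nat.card {P : B // v P = 0} * Nat.card {P : A // u P = 0} := by
  rw [← Nat.card_prod]
  choose s hs using hu
  refine Nat.card_congr
    { toFun := fun x => (⟨u x.1, x.2⟩, ⟨x.1 - s (u x.1), by rw [map_sub, hs, sub_self]⟩)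
      invFun := fun y => ⟨s y.1.1 + y.2.1, by rw [map_add, hs, y.2.2, add_zero, y.1.2]⟩
      left_inv := fun x => Subtype.ext (by
        show s (u x.1) + (x.1 - s (u x.1)) = x.1
        abel)
      right_inv := fun y => ?_ }
  have h1 : u (s y.1.1 + y.2.1) = y.1.1 := by rw [map_add, hs, y.2.2, add_zero]
  refine Prod.ext (Subtype.ext h1) (Subtype.ext ?_)
  show s y.1.1 + y.2.1 - s (u (s y.1.1 + y.2.1)) = y.2.1
  rw [h1]
  abel

/-- Chunk A3 (S/M). Two groups, f : G → G' surjective with finite kernel, f φ = φ' f, φ - 1 surjective on G: the kernel of f ∘ (φ - 1) has #ker f · #ker (φ - 1) elements (φ - 1 is surjective), and f ∘ (φ - 1) = (φ' - 1) ∘ f has a kernel with #ker (φ' - 1) · #ker f elements (f is surjective); cancel #ker f > 0. (General form of the bijection in kk_mul for homomorphisms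
u : A → B surjective, v : B → C: #ker (v u) = #ker v · #ker u.) -/
theorem iso_count {G G' : Type} [AddCommGroup G] [AddCommGroup G'] (f : G →+ G') (hf : Function.Surjective f)
    (hfin : Finite {P : G // f P = 0}) (φ : AddMonoid.End G) (φ' : AddMonoid.End G') (hc : ∀ P, f (φ P) = φ' (f P))
    (hs : ∀ P, ∃ Q, φ Q - Q = P) : Nat.card {P : G // φ P = P} = Nat.card {P : G' // φ' P = P} := by
  have h1 := a3b_mul (φ - 1 : AddMonoid.End G) (fun P => by
    obtain ⟨Q, hQ⟩ := hs P
    exact ⟨Q, hQ⟩) f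
  have h2 := a3b_mul f hf (φ' - 1 : AddMonoid.End G')
  have h3 : Nat.card {P : G // f ((φ - 1 : AddMonoid.End G) P) = 0} = Nat.card {P : G // (φ' - 1 : AddMonoid.End G') (f P) = 0} := by
    refine Nat.card_congr (Equiv.subtypeEquivRight fun P => ?_)
    show f (φ P - P) = 0 ↔ φ' (f P) - f P = 0
    rw [map_sub, hc]
  have h4 : Nat.card {P : G // (φ - 1 : AddMonoid.End G) P = 0} = Nat.card {P : G // φ P = P} :=
    Nat.card_congr (Equiv.subtypeEquivRight fun P => sub_eq_zero)
  have h5 : Nat.card {P : G' // (φ' - 1 : AddMonoid.End G') P = 0} = Nat.card {P : G' // φ' P = P} :=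
    Nat.card_congr (Equiv.subtypeEquivRight fun P => sub_eq_zero)
  have h6 : 0 < Nat.card {P : G // f P = 0} := by
    have hne : Nonempty {P : G // f P = 0} := ⟨⟨0, map_zero f⟩⟩
    exact Nat.card_pos
  have h7 : Nat.card {P : G // f P = 0} * Nat.card {P : G' // φ' P = P} = Nat.card {P : G // f P = 0} * Nat.card {P : G // φ P = P} := by
    rw [← h4, ← h5, mul_comm]
    exact h2.symm.trans (h3.symm.trans h1)
  exact (Nat.eq_of_mul_eq_mul_left h6 h7).symm

end H55G
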