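import Mathlib
import Pool.Agent.Lib.H55G.D0

/-! # H55G, part A: a group which is the union of two subgroups up to a finite set -/

namespace H55G

/-- A subgroup of finite complement in an infinite group. -/
theorem a4a_top {G : Type} [AddCommGroup G] [Infinite G] (H : AddSubgroup G) (hf : {g : G | g ∉ H}.Finite) : H = ⊤ := by
  by_contra hne
  obtain ⟨P, hP⟩ : ∃ P, P ∉ H := by
    by_contra hall
    push Not at hall
    exact hne ((AddSubgroup.eq_top_iff' H).2 hall)
  have h1 : (H : Set G).Finite := by
    have h2 : ((fun h => P + h) '' (H : Set G)).Finite := by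
      refine hf.subset ?_
      rintro _ ⟨h, hh, rfl⟩
      intro h3
      apply hP
      have h4 := H.sub_mem h3 hh
      have h5 : P + h - h = P := add_sub_cancel_right P h
      rwa [h5] at h4
    exact h2.of_finite_image (fun a _ b _ hab => add_left_cancel hab)
  have h6 : (Set.univ : Set G).Finite := by
    refine (h1.union hf).subset fun g _ => ?_
    by_cases hg : g ∈ H
    · exact Or.inl hg
    · exact Or.inr hg
  exact Set.infinite_univ h6

/-- Chunk A4A (S, PURE). (i) If H is a subgroup which is not ⊤ and G ∖ H is finite then a contradiction: P not in H; the coset P + H is contained in G ∖ H, so H is finite (translation is injective), and G = H ∪ (G ∖ H) is finite. (ii) Suppose H₁ ≠ ⊤ and H₂ ≠ ⊤; P not in H₁. For h in H₁, P + h is not in H₁, so P + h in H₂ or P + h in S. If H₁ is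
finite then G ∖ H₂ is contained in S ∪ H₁, finite: (i). If H₁ is infinite: for h₀ in H₁ there is h in H₁ such that P + h and P + h + h₀ are both not in S (the h for which one of them is in S form a finite set), so both are in H₂ and h₀ is in H₂: H₁ ≤ H₂; then G ∖ H₂ is contained in S, finite: (i). -/
theorem union_cofin {G : Type} [AddCommGroup G] [Infinite G] (H₁ H₂ : AddSubgroup G) (S : Set G) (hS : S.Finite)
    (h : ∀ g : G, g ∉ S → g ∈ H₁ ∨ g ∈ H₂) : H₁ = ⊤ ∨ H₂ = ⊤ := by
  by_contra hcon
  push Not at hcon
  obtain ⟨hn1, hn2⟩ := hcon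
  obtain ⟨P, hP⟩ : ∃ P, P ∉ H₁ := by
    by_contra hall
    push Not at hall
    exact hn1 ((AddSubgroup.eq_top_iff' H₁).2 hall)
  apply hn2
  apply a4a_top
  by_cases hfin : (H₁ : Set G).Finite
  · refine (hS.union hfin).subset fun g hg => ?_
    by_cases hgS : g ∈ S
    · exact Or.inl hgS
    · rcases h g hgS with h1 | h1
      · exact Or.inr h1
      · exact absurd h1 hg
  · have hle : H₁ ≤ H₂ := by
      intro h₀ hh₀
      have hf1 : ((fun x => P + x) ⁻¹' S).Finite := hS.preimage (fun a _ b _ hab => add_left_cancel hab)
      have hf2 : ((fun x => P + (x + h₀)) ⁻¹' S).Finite :=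
        hS.preimage (fun a _ b _ hab => add_right_cancel (add_left_cancel hab))
      obtain ⟨x, hx, hx2⟩ := (Set.Infinite.sdiff hfin (hf1.union hf2)).nonempty
      rw [Set.mem_union, not_or] at hx2
      obtain ⟨hx3, hx4⟩ := hx2
      have h1 : P + x ∈ H₂ := by
        rcases h _ hx3 with h2 | h2
        · exfalso
          apply hP
          have h4 := H₁.sub_mem h2 hx
          rwa [add_sub_cancel_right] at h4
        · exact h2
      have h2 : P + (x + h₀) ∈ H₂ := by
        rcases h _ hx4 with h2 | h2
        · exfalso
          apply hP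
          have h4 := H₁.sub_mem h2 (H₁.add_mem hx hh₀)
          rwa [add_sub_cancel_right] at h4
        · exact h2
      have h3 := H₂.sub_mem h2 h1
      have h5 : P + (x + h₀) - (P + x) = h₀ := by abel
      rwa [h5] at h3
    refine hS.subset fun g hg => ?_
    by_contra hgS
    rcases h g hgS with h1 | h1
    · exact hg (hle h1)
    · exact hg h1

end H55G
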