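import Mathlib
import Pool.Agent.Lib.H55G.D0

import Pool.Agent.Lib.H55G.A1
import Pool.Agent.Lib.H55G.A4A

/-! # H55G, part A: the number of solutions of a P = b φ P -/

open NumberField IsDedekindDomain WeierstrassCurve Polynomial

namespace H55G

open H55P (IQ embF eF Nm)
open H55K (cj cj_cj mul_cj Nm_cj Nm_mul Nm_nat e_cj)

variable {F : Type} [Field F] [NumberField F] [IQ F] {G κ : Type} [AddCommGroup G] [Field κ]
  {ρ : 𝓞 F →+* AddMonoid.End G} {X : G → κ}

/-- The points with X-coordinate in a finite set. -/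
theorem a4b_fib (h : RG ρ X) (E : Finset κ) :
    {P : G | P ≠ 0 ∧ X P ∈ E}.Finite ∧ {P : G | P ≠ 0 ∧ X P ∈ E}.ncard ≤ 2 * E.card := by
  classical
  choose c hc0 hc using h.xsurj
  have hsub : {P : G | P ≠ 0 ∧ X P ∈ E} ⊆ ((E.biUnion fun x => ({c x, -c x} : Finset G) : Finset G) : Set G) := by
    rintro P ⟨hP, hE⟩
    rw [Finset.mem_coe, Finset.mem_biUnion]
    refine ⟨X P, hE, ?_⟩
    have h1 := (h.xinj P (c (X P)) hP (hc0 _)).1 (hc _).symm
    rw [Finset.mem_insert, Finset.mem_singleton]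
    exact h1
  have hfin := (E.biUnion fun x => ({c x, -c x} : Finset G)).finite_toSet.subset hsub
  refine ⟨hfin, ?_⟩
  refine (Set.ncard_le_ncard hsub (Finset.finite_toSet _)).trans ?_
  rw [Set.ncard_coe_finset, mul_comm]
  exact Finset.card_biUnion_le_card_mul _ _ _ fun x _ => Finset.card_le_two

theorem a4b_ker (h : RG ρ X) {a : 𝓞 F} (ha : a ≠ 0) : {P : G | ρ a P = 0}.Finite ∧ {P : G | ρ a P = 0}.ncard ≤ Nm a := by
  obtain ⟨b₀, hb₀⟩ := h.b
  obtain ⟨h1, _, h3⟩ := kk_fin hb₀ ha
  have h1' : Finite ({P : G | ρ a P = 0} : Set G) := h1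
  refine ⟨Set.toFinite _, ?_⟩
  rw [← Nat.card_coe_set_eq]
  exact h3

theorem a4b_inf (h : RG ρ X) : Infinite G := by
  have := h.inf
  exact Infinite.of_surjective X fun x => by
    obtain ⟨P, _, hP⟩ := h.xsurj x
    exact ⟨P, hP⟩

theorem a4b_ne (h : RG ρ X) {a : 𝓞 F} (ha : a ≠ 0) {N D : κ[X]} (hND : N ≠ 0 ∨ D ≠ 0)
    (hx : ∀ P : G, P ≠ 0 → ρ a P ≠ 0 → D.eval (X P) * X (ρ a P) = N.eval (X P)) : D ≠ 0 := by
  classical
  rintro rfl
  have hN : N ≠ 0 := hND.resolve_right fun h0 => h0 rfl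
  have hG := a4b_inf h
  have hcov : (Set.univ : Set G) ⊆ ({0} ∪ {P : G | ρ a P = 0}) ∪ {P : G | P ≠ 0 ∧ X P ∈ N.roots.toFinset} := by
    intro P _
    by_cases hP : P = 0
    · exact Or.inl (Or.inl hP)
    · by_cases hP2 : ρ a P = 0
      · exact Or.inl (Or.inr hP2)
      · refine Or.inr ⟨hP, ?_⟩
        have h1 := hx P hP hP2
        rw [eval_zero, zero_mul] at h1
        rw [Multiset.mem_toFinset, mem_roots hN]
        exact h1.symm
  exact Set.infinite_univ ((((Set.finite_singleton (0 : G)).union (a4b_ker h ha).1).union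
    (a4b_fib h N.roots.toFinset).1).subset hcov)

/-- Chunk A4B (M/L). h.rf gives N_a, D_a for a and N_b, D_b for b, of degree ≤ Nm a, Nm b. Q = N_a · D_b(T^q) - N_b(T^q) · D_a in κ[T] (D_b(T^q) = D_b.expand q, Polynomial.expand or comp (X^q), natDegree ≤ q Nm b), natDegree Q ≤ Nm a + q Nm b. Let P ≠ 0, x = X P.
(1) If ρ a P ≠ 0, ρ b (φ P) ≠ 0 (φ P ≠ 0, X (φ P) = x^q): D_a(x) X(ρ a P) = N_a(x), D_b(x^q) X(ρ b (φ P)) = N_b(x^q), so Q(x) = D_a(x) D_b(x^q) (X (ρ a P) - X (ρ b (φ P))).
(2) Q ≠ 0: let Z = {P : ρ a P = ρ b (φ P)}. The P in Z with ρ a P = 0 are at most Nm a in number (kk_fin); the others have P ≠ 0 and Q(X P) = 0 by (1); Q has at most natDegree Q ≤ Nm a + q Nm b roots and X has fibres of at most 2 elements on the nonzero points (h.xinj: P or -P): at most 2 (Nm a + q Nm b). Third case.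
(3) Q = 0: the set S of the P with P = 0 or ρ a P = 0 or ρ b (φ P) = 0 or D_a(X P) = 0 or D_b(X(P)^q) = 0 is finite: kk_fin (φ injective), and D_a ≠ 0, D_b ≠ 0: if D_a = 0 then N_a ≠ 0 and N_a(X P) = 0 for all P ≠ 0 with ρ a P ≠ 0, but these take infinitely many values X P (κ is infinite, h.xsurj, finitely many P excluded); roots are finite in number, fibres of X have at most 2
elements, and x^q = y^q for x, y: the set of the x with D_b(x^q) = 0 is the set of roots of D_b.expand q ≠ 0. For P not in S: X(ρ a P) = X(ρ b (φ P)) by (1), so ρ a P = ± ρ b (φ P) (h.xinj). G is infinite (h.xsurj, h.inf). union_cofin with the kernels of ρ a - ρ b * φ and ρ a + ρ b * φ: first or second case. -/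
theorem four (h : RG ρ X) {q : ℕ} {φ : AddMonoid.End G} (hφ : Fr X q φ) {a b : 𝓞 F} (ha : a ≠ 0) (hb : b ≠ 0) :
    (∀ P, ρ a P = ρ b (φ P)) ∨ (∀ P, ρ a P = -ρ b (φ P)) ∨
      (Finite {P : G // ρ a P = ρ b (φ P)} ∧
        Nat.card {P : G // ρ a P = ρ b (φ P)} ≤ 2 * (Nm a + q * Nm b) + Nm a) := by
  classical
  obtain ⟨Na, Da, ha1, ha2, ha3, ha4⟩ := h.rf a ha
  obtain ⟨Nb, Db, hb1, hb2, hb3, hb4⟩ := h.rf b hb
  have hq : 0 < q := lt_of_lt_of_le two_pos hφ.two
  have hG := a4b_inf h
  have hφ0 : ∀ P : G, φ P = 0 → P = 0 := by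
    intro P hP
    exact hφ.bij.1 (hP.trans (map_zero φ).symm)
  have hDa := a4b_ne h ha ha1 ha4
  have hDb := a4b_ne h hb hb1 hb4
  have hDb' : expand κ q Db ≠ 0 := (expand_ne_zero hq).2 hDb
  obtain ⟨Q, hQ⟩ : ∃ Q : κ[X], Q = Na * expand κ q Db - expand κ q Nb * Da := ⟨_, rfl⟩
  have hdeg : Q.natDegree ≤ Nm a + q * Nm b := by
    rw [hQ]
    refine (natDegree_sub_le _ _).trans (max_le ?_ ?_)
    · refine natDegree_mul_le.trans ?_
      rw [natDegree_expand, mul_comm _ q]
      exact add_le_add ha2 (Nat.mul_le_mul_left q hb3)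
    · refine natDegree_mul_le.trans ?_
      rw [natDegree_expand, mul_comm _ q, add_comm]
      exact add_le_add ha3 (Nat.mul_le_mul_left q hb2)
  have hQe : ∀ P : G, P ≠ 0 → ρ a P ≠ 0 → ρ b (φ P) ≠ 0 → Q.eval (X P) =
      Da.eval (X P) * Db.eval (X P ^ q) * (X (ρ a P) - X (ρ b (φ P))) := by
    intro P hP h1 h2
    have e1 := ha4 P hP h1
    have e2 := hb4 (φ P) (fun h0 => hP (hφ0 P h0)) h2
    rw [hφ.x P hP] at e2
    rw [hQ, eval_sub, eval_mul, eval_mul, expand_eval, expand_eval, ← e1, ← e2]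
    ring
  have hK1 := a4b_ker h ha
  by_cases hQ0 : Q = 0
  · have hK2 : {P : G | ρ b (φ P) = 0}.Finite := by
      have h1 := (a4b_ker h hb).1.preimage (f := φ) (hφ.bij.1.injOn)
      exact h1
    have hS : (({0} ∪ {P : G | ρ a P = 0}) ∪ {P : G | ρ b (φ P) = 0} ∪
        ({P : G | P ≠ 0 ∧ X P ∈ Da.roots.toFinset} ∪ {P : G | P ≠ 0 ∧ X P ∈ (expand κ q Db).roots.toFinset})).Finite :=
      (((Set.finite_singleton (0 : G)).union hK1.1).union hK2).union
        ((a4b_fib h Da.roots.toFinset).1.union (a4b_fib h (expand κ q Db).roots.toFinset).1)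
    let H₁ : AddSubgroup G :=
      { carrier := {P | ρ a P = ρ b (φ P)}
        zero_mem' := by simp
        add_mem' := by
          intro x y hx hy
          rw [Set.mem_ofPred_eq] at hx hy ⊢
          rw [map_add, map_add, map_add, hx, hy]
        neg_mem' := by
          intro x hx
          rw [Set.mem_ofPred_eq] at hx ⊢
          rw [map_neg, map_neg, map_neg, hx] }
    let H₂ : AddSubgroup G :=
      { carrier := {P | ρ a P = -ρ b (φ P)}
        zero_mem' := by simp
        add_mem' := by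
          intro x y hx hy
          rw [Set.mem_ofPred_eq] at hx hy ⊢
          rw [map_add, map_add, map_add, hx, hy, neg_add]
        neg_mem' := by
          intro x hx
          rw [Set.mem_ofPred_eq] at hx ⊢
          rw [map_neg, map_neg, map_neg, hx] }
    have key := union_cofin H₁ H₂ _ hS ?_
    · rcases key with h1 | h1
      · left
        intro P
        have h2 : P ∈ H₁ := by
          rw [h1]
          exact AddSubgroup.mem_top P
        exact h2
      · right
        left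
        intro P
        have h2 : P ∈ H₂ := by
          rw [h1]
          exact AddSubgroup.mem_top P
        exact h2
    · intro P hP
      simp only [Set.mem_union, Set.mem_singleton_iff, Set.mem_ofPred_eq, not_or] at hP
      obtain ⟨⟨⟨h0, h1⟩, h2⟩, h3, h4⟩ := hP
      have e1 := hQe P h0 h1 h2
      rw [hQ0, eval_zero] at e1
      have n1 : Da.eval (X P) ≠ 0 := by
        intro h5
        apply h3
        refine ⟨h0, ?_⟩
        rw [Multiset.mem_toFinset, mem_roots hDa]
        exact h5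
      have n2 : Db.eval (X P ^ q) ≠ 0 := by
        intro h5
        apply h4
        refine ⟨h0, ?_⟩
        rw [Multiset.mem_toFinset, mem_roots hDb', IsRoot.def, expand_eval]
        exact h5
      have e2 : X (ρ a P) = X (ρ b (φ P)) := by
        rcases mul_eq_zero.1 e1.symm with h6 | h6
        · rcases mul_eq_zero.1 h6 with h7 | h7
          · exact absurd h7 n1
          · exact absurd h7 n2
        · exact sub_eq_zero.1 h6
      exact (h.xinj _ _ h1 h2).1 e2
  · right
    right
    have hsub : {P : G | ρ a P = ρ b (φ P)} ⊆ {P : G | ρ a P = 0} ∪ {P : G | P ≠ 0 ∧ X P ∈ Q.roots.toFinset} := by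
      intro P hP
      rw [Set.mem_ofPred_eq] at hP
      by_cases h1 : ρ a P = 0
      · exact Or.inl h1
      · have h0 : P ≠ 0 := by
          rintro rfl
          exact h1 (map_zero _)
        refine Or.inr ⟨h0, ?_⟩
        have h2 : ρ b (φ P) ≠ 0 := by
          rw [← hP]
          exact h1
        have e1 := hQe P h0 h1 h2
        rw [hP, sub_self, mul_zero] at e1
        rw [Multiset.mem_toFinset, mem_roots hQ0]
        exact e1
    have hF := a4b_fib h Q.roots.toFinset
    have hfin : {P : G | ρ a P = ρ b (φ P)}.Finite := (hK1.1.union hF.1).subset hsub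
    refine ⟨hfin.to_subtype, ?_⟩
    have h1 : Nat.card {P : G // ρ a P = ρ b (φ P)} = {P : G | ρ a P = ρ b (φ P)}.ncard :=
      Nat.card_coe_set_eq _
    rw [h1]
    refine (Set.ncard_le_ncard hsub (hK1.1.union hF.1)).trans ?_
    refine (Set.ncard_union_le _ _).trans ?_
    have h2 : Q.roots.toFinset.card ≤ Nm a + q * Nm b :=
      (Multiset.toFinset_card_le _).trans ((card_roots' Q).trans hdeg)
    have h3 := hF.2
    have h4 := hK1.2
    omega

end H55G
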