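import Mathlib
import Pool.Agent.Lib.H55G.D0

/-! # H55G, part A: pigeonhole -/

open NumberField

namespace H55G

open H55P (IQ embF eF Nm)

/-- Auxiliary: the norm of a combination of the basis. -/
theorem a5_bd (F : Type) [Field F] [NumberField F] [IQ F] (m : ℕ) (x y : ℤ) (hx : |x| ≤ m) (hy : |y| ≤ m) :
    (Nm (x • H55P.bF F 0 + y • H55P.bF F 1) : ℝ) ≤
      (m : ℝ) ^ 2 * (‖eF F (H55P.bF F 0)‖ + ‖eF F (H55P.bF F 1)‖) ^ 2 := by
  have h1 : ‖eF F (x • H55P.bF F 0 + y • H55P.bF F 1)‖ ≤ m * (‖eF F (H55P.bF F 0)‖ + ‖eF F (H55P.bF F 1)‖) := by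
    rw [map_add, zsmul_eq_mul, zsmul_eq_mul, map_mul, map_mul, map_intCast, map_intCast]
    refine (norm_add_le _ _).trans ?_
    rw [norm_mul, norm_mul, Complex.norm_intCast, Complex.norm_intCast, mul_add]
    have h2 : |(x : ℝ)| ≤ m := by exact_mod_cast hx
    have h3 : |(y : ℝ)| ≤ m := by exact_mod_cast hy
    exact add_le_add (mul_le_mul_of_nonneg_right h2 (norm_nonneg _)) (mul_le_mul_of_nonneg_right h3 (norm_nonneg _))
  rw [H55P.Nm_eq, ← mul_pow]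
  exact pow_le_pow_left₀ (norm_nonneg _) h1 2

/-- Chunk A5 (M). 𝓞 F is a free ℤ-module of rank 2 (RingOfIntegers.basis or Module.finBasis ℤ (𝓞 F), Module.finrank ℤ (𝓞 F) = Module.finrank ℚ F = 2 by IQ.deg): basis e₁, e₂. C = ⌈(‖eF e₁‖ + ‖eF e₂‖)^2⌉ (Nat.ceil). Let n > 0, c; m = Nat.sqrt n, so n < (m + 1)^2. The elements x e₁ + y e₂ with x, y in {0..m} are (m+1)^2 in number, the pairs (a, b)
of them (m+1)^4 > n^2 = Nm n = card (𝓞 F ⧸ (n)) (H55K.Nm_nat; Nm n = absNorm (span {n}) = Nat.card of the quotient). Pigeonhole (Fintype.exists_ne_map_eq_of_card_lt or Finset.exists_ne_map_eq_of_card_lt_of_maps_to) for the map (x, y, x', y') ↦ class of a - b c from Fin (m+1)^4: two different quadruples with the same class; the differences a, b have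
coordinates of absolute value ≤ m, (a, b) ≠ (0, 0) because e₁, e₂ is a basis, n ∣ a - b c. ‖eF a‖ ≤ m (‖eF e₁‖ + ‖eF e₂‖), so Nm a = ‖eF a‖^2 ≤ m^2 C ≤ n C (H55P.Nm_eq), Nat.sqrt_le'. -/
theorem pigeon (F : Type) [Field F] [NumberField F] [IQ F] : ∃ C : ℕ, ∀ n : ℕ, 0 < n → ∀ c : 𝓞 F, ∃ a b : 𝓞 F,
    (a ≠ 0 ∨ b ≠ 0) ∧ (n : 𝓞 F) ∣ a - b * c ∧ Nm a ≤ C * n ∧ Nm b ≤ C * n := by
  classical
  let S : ℝ := ‖eF F (H55P.bF F 0)‖ + ‖eF F (H55P.bF F 1)‖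
  refine ⟨⌈S ^ 2⌉₊, fun n hn c => ?_⟩
  let m := Nat.sqrt n
  have hm1 : n < (m + 1) ^ 2 := Nat.lt_succ_sqrt' n
  have hm2 : m ^ 2 ≤ n := Nat.sqrt_le' n
  let I : Ideal (𝓞 F) := Ideal.span {(n : 𝓞 F)}
  have hcard : Nat.card (𝓞 F ⧸ I) = n ^ 2 := by
    have h1 : (Nm (n : 𝓞 F) : ℝ) = ‖eF F (n : 𝓞 F)‖ ^ 2 := H55P.Nm_eq _
    rw [map_natCast, Complex.norm_natCast] at h1
    have h2 : Nm (n : 𝓞 F) = n ^ 2 := by exact_mod_cast h1
    rw [← h2]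
    unfold Nm
    rw [Ideal.absNorm_apply, Submodule.cardQuot_apply]
  have hfin : Finite (𝓞 F ⧸ I) := Nat.finite_of_card_ne_zero (by
    rw [hcard]
    exact pow_ne_zero _ hn.ne')
  let _ : Fintype (𝓞 F ⧸ I) := Fintype.ofFinite _
  let el : Fin (m + 1) × Fin (m + 1) → 𝓞 F := fun p => ((p.1 : ℕ) : ℤ) • H55P.bF F 0 + ((p.2 : ℕ) : ℤ) • H55P.bF F 1
  let f : (Fin (m + 1) × Fin (m + 1)) × (Fin (m + 1) × Fin (m + 1)) → 𝓞 F ⧸ I :=
    fun t => Ideal.Quotient.mk I (el t.1 - el t.2 * c)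
  have hlt : Fintype.card (𝓞 F ⧸ I) < Fintype.card ((Fin (m + 1) × Fin (m + 1)) × (Fin (m + 1) × Fin (m + 1))) := by
    rw [← Nat.card_eq_fintype_card, hcard, Fintype.card_prod, Fintype.card_prod, Fintype.card_fin]
    have h1 : (m + 1) * (m + 1) * ((m + 1) * (m + 1)) = ((m + 1) ^ 2) ^ 2 := by ring
    rw [h1]
    exact Nat.pow_lt_pow_left hm1 two_ne_zero
  obtain ⟨⟨p, p'⟩, ⟨r, r'⟩, hne, hf⟩ := Fintype.exists_ne_map_eq_of_card_lt f hlt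
  have hel : ∀ p r : Fin (m + 1) × Fin (m + 1), el p - el r =
      (((p.1 : ℕ) : ℤ) - ((r.1 : ℕ) : ℤ)) • H55P.bF F 0 + (((p.2 : ℕ) : ℤ) - ((r.2 : ℕ) : ℤ)) • H55P.bF F 1 := by
    intro p r
    change (((p.1 : ℕ) : ℤ) • H55P.bF F 0 + ((p.2 : ℕ) : ℤ) • H55P.bF F 1) -
      (((r.1 : ℕ) : ℤ) • H55P.bF F 0 + ((r.2 : ℕ) : ℤ) • H55P.bF F 1) = _
    rw [sub_smul, sub_smul]
    abel
  have hinj : ∀ p r : Fin (m + 1) × Fin (m + 1), el p - el r = 0 → p = r := by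
    intro p r h
    rw [hel] at h
    have h1 := Fintype.linearIndependent_iff.1 (H55P.bF F).linearIndependent
      ![((p.1 : ℕ) : ℤ) - ((r.1 : ℕ) : ℤ), ((p.2 : ℕ) : ℤ) - ((r.2 : ℕ) : ℤ)] (by
        rw [Fin.sum_univ_two]
        exact h)
    have h2 : ((p.1 : ℕ) : ℤ) - ((r.1 : ℕ) : ℤ) = 0 := h1 0
    have h3 : ((p.2 : ℕ) : ℤ) - ((r.2 : ℕ) : ℤ) = 0 := h1 1
    refine Prod.ext (Fin.ext ?_) (Fin.ext ?_)
    · omega
    · omega
  have hbd : ∀ p r : Fin (m + 1) × Fin (m + 1), Nm (el p - el r) ≤ ⌈S ^ 2⌉₊ * n := by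
    intro p r
    have h1 : |((p.1 : ℕ) : ℤ) - ((r.1 : ℕ) : ℤ)| ≤ m := by
      rw [abs_le]
      have := p.1.2
      have := r.1.2
      constructor <;> omega
    have h2 : |((p.2 : ℕ) : ℤ) - ((r.2 : ℕ) : ℤ)| ≤ m := by
      rw [abs_le]
      have := p.2.2
      have := r.2.2
      constructor <;> omega
    have h3 := a5_bd F m _ _ h1 h2
    rw [← hel] at h3
    have h4 : (m : ℝ) ^ 2 ≤ n := by exact_mod_cast hm2
    have h5 : S ^ 2 ≤ (⌈S ^ 2⌉₊ : ℝ) := Nat.le_ceil _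
    have h6 : (Nm (el p - el r) : ℝ) ≤ ((⌈S ^ 2⌉₊ * n : ℕ) : ℝ) := by
      refine h3.trans ?_
      rw [Nat.cast_mul, mul_comm]
      exact mul_le_mul h5 h4 (sq_nonneg _) (Nat.cast_nonneg _)
    exact_mod_cast h6
  refine ⟨el p - el r, el p' - el r', ?_, ?_, hbd p r, hbd p' r'⟩
  · by_contra hcon
    push Not at hcon
    exact hne (Prod.ext (hinj p r hcon.1) (hinj p' r' hcon.2))
  · have h1 : (el p - el p' * c) - (el r - el r' * c) ∈ I := by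
      rw [← Ideal.Quotient.eq_zero_iff_mem, map_sub]
      exact sub_eq_zero.2 hf
    rw [Ideal.mem_span_singleton] at h1
    have h2 : el p - el r - (el p' - el r') * c = (el p - el p' * c) - (el r - el r' * c) := by ring
    rw [h2]
    exact h1

end H55G
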