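import Mathlib
import Pool.Agent.Lib.H55G.D0

import Pool.Agent.Lib.H55G.A4B
import Pool.Agent.Lib.H55G.A5

/-! # H55G, part A: the Frobenius endomorphism is a quotient of multiplications -/

open NumberField IsDedekindDomain WeierstrassCurve Polynomial

namespace H55G

open H55P (IQ embF eF Nm)
open H55K (cj cj_cj mul_cj Nm_cj Nm_mul Nm_nat e_cj)

variable {F : Type} [Field F] [NumberField F] [IQ F] {G κ : Type} [AddCommGroup G] [Field κ]
  {ρ : 𝓞 F →+* AddMonoid.End G} {X : G → κ}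

/-- Chunk A6 (M). b₀ with hb : RB ρ b₀ (h.b), C from pigeon. Put n = Nm b₀ * M + 1 with M = (3 + 2 q) * C + 1 (so n > (3 + 2 q) C and n > C). b₀ does not divide n: b₀ ∣ Nm b₀ (mul_cj), so b₀ ∣ n would give b₀ ∣ 1. T = the generator of the kernel of ρ n (hb.gen). φ T is in the kernel (hlin), φ T = ρ c T for some c; by hlin φ P = ρ c P for all P in the kernel
(P = ρ a T). pigeon n c: a, b not both 0, n ∣ a - b c, Nm a ≤ C n, Nm b ≤ C n. For P with ρ n P = 0: ρ a P - ρ b (φ P) = ρ (a - b c) P = 0. kk (ρ n) = Nm n = n^2 (kk_nb, Nm_nat).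
b ≠ 0: otherwise n ∣ a ≠ 0, so n^2 = Nm n ≤ Nm a ≤ C n (Nm_mul), contradiction. a ≠ 0: otherwise ρ b (φ P) = 0 on the kernel of ρ n; φ is injective (hφ.bij) and maps the finite kernel to itself, so it is onto it: ρ b kills the kernel, ρ b T = 0, n ∣ b ≠ 0, the same contradiction. four for a, b: first case: done. Second case: -a, b (map_neg). Third case: the kernel of ρ n is contained in
the finite set, n^2 ≤ 2 (Nm a + q Nm b) + Nm a ≤ (3 + 2 q) C n: contradiction. -/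
theorem rel (h : RG ρ X) {q : ℕ} {φ : AddMonoid.End G} (hφ : Fr X q φ) (hlin : ∀ (a : 𝓞 F) (P : G), φ (ρ a P) = ρ a (φ P)) :
    ∃ a b : 𝓞 F, a ≠ 0 ∧ b ≠ 0 ∧ ∀ P : G, ρ a P = ρ b (φ P) := by
  classical
  obtain ⟨b₀, hb⟩ := h.b
  obtain ⟨C, hC⟩ := pigeon F
  obtain ⟨n, hn⟩ : ∃ n : ℕ, n = Nm b₀ * ((3 + 2 * q) * C + 1) + 1 := ⟨_, rfl⟩
  have hn0 : 0 < n := by rw [hn]; exact Nat.succ_pos _
  have hNb : 1 ≤ Nm b₀ := Nat.one_le_iff_ne_zero.2 fun h0 => hb.prime.ne_zero (H55P.Nm_eq_zero.1 h0)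
  have hnC : (3 + 2 * q) * C < n := by
    have h1 : 1 * ((3 + 2 * q) * C + 1) ≤ Nm b₀ * ((3 + 2 * q) * C + 1) := Nat.mul_le_mul_right _ hNb
    omega
  have hnC' : C < n := by
    have h1 : 1 * C ≤ (3 + 2 * q) * C := Nat.mul_le_mul_right _ (by omega)
    omega
  have hbn : ¬ b₀ ∣ (n : 𝓞 F) := by
    intro h1
    have h2 : b₀ ∣ (Nm b₀ : 𝓞 F) := ⟨cj b₀, (mul_cj b₀).symm⟩
    have h3 : (n : 𝓞 F) = (Nm b₀ : 𝓞 F) * (((3 + 2 * q) * C + 1 : ℕ) : 𝓞 F) + 1 := by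
      rw [hn]
      push_cast
      ring
    rw [h3] at h1
    have h4 : b₀ ∣ 1 := (dvd_add_right (h2.mul_right _)).1 h1
    exact hb.prime.not_isUnit (isUnit_of_dvd_one h4)
  obtain ⟨T, hT1, hT2⟩ := hb.gen _ hbn
  have hcomm : ∀ (a c : 𝓞 F) (P : G), ρ a (ρ c P) = ρ c (ρ a P) := by
    intro a c P
    have h1 : ρ (a * c) P = ρ (c * a) P := by rw [mul_comm]
    rw [map_mul, map_mul] at h1
    exact h1
  have hnT : ρ (n : 𝓞 F) T = 0 := (hT2 _).2 dvd_rfl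
  have hker : ∀ P : G, ρ (n : 𝓞 F) P = 0 → ρ (n : 𝓞 F) (φ P) = 0 := by
    intro P hP
    rw [← hlin, hP, map_zero]
  obtain ⟨c, hc⟩ := hT1 (φ T) (hker T hnT)
  have hφc : ∀ P : G, ρ (n : 𝓞 F) P = 0 → φ P = ρ c P := by
    intro P hP
    obtain ⟨a, rfl⟩ := hT1 P hP
    rw [hlin, hc, hcomm]
  obtain ⟨a, b, hab, hdvd, ha, hb'⟩ := hC n hn0 c
  have hrel : ∀ P : G, ρ (n : 𝓞 F) P = 0 → ρ a P = ρ b (φ P) := by
    intro P hP
    obtain ⟨d, hd⟩ := hdvd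
    have h1 : ρ (a - b * c) P = 0 := by
      rw [hd, mul_comm, map_mul]
      change ρ d (ρ (n : 𝓞 F) P) = 0
      rw [hP, map_zero]
    rw [map_sub, map_mul] at h1
    have h2 : ρ a P - ρ b (ρ c P) = 0 := h1
    rw [hφc P hP]
    exact sub_eq_zero.1 h2
  have hbig : ∀ x : 𝓞 F, x ≠ 0 → (n : 𝓞 F) ∣ x → Nm x ≤ C * n → False := by
    rintro x hx ⟨d, rfl⟩ h1
    rw [Nm_mul, Nm_nat] at h1
    have hd : 1 ≤ Nm d := Nat.one_le_iff_ne_zero.2 fun h0 => hx (by rw [H55P.Nm_eq_zero.1 h0, mul_zero])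
    have h2 : n * n ≤ n ^ 2 * Nm d := by
      calc n * n = n ^ 2 * 1 := by ring
        _ ≤ n ^ 2 * Nm d := Nat.mul_le_mul_left _ hd
    have h3 : n * n ≤ C * n := h2.trans h1
    have h4 := Nat.le_of_mul_le_mul_right h3 hn0
    omega
  have hcard : kk (ρ (n : 𝓞 F)) = n ^ 2 := by rw [kk_nb hb hbn, Nm_nat]
  have hfin : Finite {P : G // ρ (n : 𝓞 F) P = 0} := Nat.finite_of_card_ne_zero (by
    change kk (ρ (n : 𝓞 F)) ≠ 0
    rw [hcard]
    exact pow_ne_zero _ hn0.ne')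
  have hb0 : b ≠ 0 := by
    intro h0
    have ha0 : a ≠ 0 := hab.resolve_right fun h1 => h1 h0
    rw [h0, zero_mul, sub_zero] at hdvd
    exact hbig a ha0 hdvd ha
  have ha0 : a ≠ 0 := by
    intro h0
    let g : {P : G // ρ (n : 𝓞 F) P = 0} → {P : G // ρ (n : 𝓞 F) P = 0} := fun P => ⟨φ P.1, hker P.1 P.2⟩
    have hginj : Function.Injective g := by
      intro P Q hPQ
      exact Subtype.ext (hφ.bij.1 (congrArg Subtype.val hPQ))
    obtain ⟨P, hP⟩ := (Finite.injective_iff_surjective.1 hginj) ⟨T, hnT⟩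
    have h1 : φ P.1 = T := congrArg Subtype.val hP
    have h2 := hrel P.1 P.2
    rw [h1, h0, map_zero] at h2
    have h3 : ρ b T = 0 := h2.symm
    exact hbig b hb0 ((hT2 b).1 h3) hb'
  rcases four h hφ ha0 hb0 with h1 | h1 | ⟨h1, h2⟩
  · exact ⟨a, b, ha0, hb0, h1⟩
  · refine ⟨-a, b, neg_ne_zero.2 ha0, hb0, fun P => ?_⟩
    rw [map_neg]
    change -(ρ a P) = _
    rw [h1 P, neg_neg]
  · exfalso
    have h3 : Nat.card {P : G // ρ (n : 𝓞 F) P = 0} ≤ Nat.card {P : G // ρ a P = ρ b (φ P)} :=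
      Nat.card_le_card_of_injective (fun P => (⟨P.1, hrel P.1 P.2⟩ : {P : G // ρ a P = ρ b (φ P)})) (by
        intro P Q hPQ
        exact Subtype.ext (congrArg (fun R : {P : G // ρ a P = ρ b (φ P)} => R.1) hPQ))
    have h4 : n ^ 2 ≤ 2 * (Nm a + q * Nm b) + Nm a := by
      rw [← hcard]
      exact h3.trans h2
    have h5 : 2 * (Nm a + q * Nm b) + Nm a ≤ ((3 + 2 * q) * C) * n := by
      have h6 : q * Nm b ≤ q * (C * n) := Nat.mul_le_mul_left _ hb'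
      calc 2 * (Nm a + q * Nm b) + Nm a ≤ 2 * (C * n + q * (C * n)) + C * n := by omega
        _ = ((3 + 2 * q) * C) * n := by ring
    have h6 : n * n ≤ ((3 + 2 * q) * C) * n := by
      rw [← pow_two]
      exact h4.trans h5
    have h7 := Nat.le_of_mul_le_mul_right h6 hn0
    omega

end H55G
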