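import Mathlib
import Pool.Agent.Lib.H55G.D0

import Pool.Agent.Lib.H55G.A1
import Pool.Agent.Lib.H55G.A2
import Pool.Agent.Lib.H55G.A3
import Pool.Agent.Lib.H55G.A6

/-! # H55G, part A: the Hasse bound -/

open NumberField IsDedekindDomain WeierstrassCurve Polynomial

namespace H55G

open H55P (IQ embF eF Nm)
open H55K (cj cj_cj mul_cj Nm_cj Nm_mul Nm_nat e_cj)

variable {F : Type} [Field F] [NumberField F] [IQ F] {G κ : Type} [AddCommGroup G] [Field κ]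
  {ρ : 𝓞 F →+* AddMonoid.End G} {X : G → κ}

/-- Chunk A7 (S). eF is injective, ‖α + β‖^2 + ‖α - β‖^2 = 2 ‖α‖^2 + 2 ‖β‖^2 for α = eF a, β = eF b (parallelogram law), H55P.Nm_eq, cast to ℕ. -/
theorem nm_par (a b : 𝓞 F) : Nm (a + b) + Nm (a - b) = 2 * (Nm a + Nm b) := by
  have h1 : ((Nm (a + b) + Nm (a - b) : ℕ) : ℝ) = ((2 * (Nm a + Nm b) : ℕ) : ℝ) := by
    push_cast
    rw [H55P.Nm_eq, H55P.Nm_eq, H55P.Nm_eq, H55P.Nm_eq, map_add, map_sub, Complex.sq_norm, Complex.sq_norm,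
      Complex.sq_norm, Complex.sq_norm, Complex.normSq_apply, Complex.normSq_apply, Complex.normSq_apply,
      Complex.normSq_apply, Complex.add_re, Complex.add_im, Complex.sub_re, Complex.sub_im]
    ring
  exact_mod_cast h1

/-- Chunk A7 (S). Nm a + Nm b - Nm (a - b) = 2 Re(α conj β), of square ≤ 4 |α|^2 |β|^2. -/
theorem nm_cs (a b : 𝓞 F) : ((Nm a : ℤ) + Nm b - Nm (a - b)) ^ 2 ≤ 4 * Nm a * Nm b := by
  have h1 : ((((Nm a : ℤ) + Nm b - Nm (a - b)) ^ 2 : ℤ) : ℝ) ≤ ((4 * Nm a * Nm b : ℤ) : ℝ) := by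
    push_cast
    rw [H55P.Nm_eq, H55P.Nm_eq, H55P.Nm_eq, map_sub, Complex.sq_norm, Complex.sq_norm,
      Complex.sq_norm, Complex.normSq_apply, Complex.normSq_apply, Complex.normSq_apply,
      Complex.sub_re, Complex.sub_im]
    generalize (eF F a).re = x
    generalize (eF F a).im = y
    generalize (eF F b).re = u
    generalize (eF F b).im = v
    have h2 : 4 * (x * x + y * y) * (u * u + v * v) - (x * x + y * y + (u * u + v * v) -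
        ((x - u) * (x - u) + (y - v) * (y - v))) ^ 2 = 4 * (x * v - y * u) ^ 2 := by ring
    have h3 := sq_nonneg (x * v - y * u)
    linarith
  exact_mod_cast h1

/-- Chunk A7 (S/M). From rel: a₁, b₁ ≠ 0 with ρ a₁ P = ρ b₁ (φ P). Cancel the common powers of β (β prime; hb.inj: if a₁ = β a₂, b₁ = β b₂ then ρ β (ρ a₂ P - ρ b₂ (φ P)) = 0): strong induction on Nm a₁ (Nm β > 1 since β is not a unit) or take a relation with Nm a minimal (Nat.find). -/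
theorem rel_red (h : RG ρ X) {β : 𝓞 F} (hb : RB ρ β) {q : ℕ} {φ : AddMonoid.End G} (hφ : Fr X q φ)
    (hlin : ∀ (a : 𝓞 F) (P : G), φ (ρ a P) = ρ a (φ P)) :
    ∃ a b : 𝓞 F, a ≠ 0 ∧ b ≠ 0 ∧ (∀ P : G, ρ a P = ρ b (φ P)) ∧ ¬ (β ∣ a ∧ β ∣ b) := by
  classical
  let S : ℕ → Prop := fun n => ∃ a b : 𝓞 F, a ≠ 0 ∧ b ≠ 0 ∧ (∀ P : G, ρ a P = ρ b (φ P)) ∧ Nm a = n
  have hS : ∃ n, S n := by
    obtain ⟨a, b, ha, hb1, hr⟩ := rel h hφ hlin
    exact ⟨Nm a, a, b, ha, hb1, hr, rfl⟩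
  obtain ⟨a, b, ha, hb1, hr, hn⟩ := Nat.find_spec hS
  refine ⟨a, b, ha, hb1, hr, ?_⟩
  rintro ⟨⟨a₂, rfl⟩, ⟨b₂, rfl⟩⟩
  have ha₂ : a₂ ≠ 0 := right_ne_zero_of_mul ha
  have hb₂ : b₂ ≠ 0 := right_ne_zero_of_mul hb1
  have hr₂ : ∀ P : G, ρ a₂ P = ρ b₂ (φ P) := by
    intro P
    have h1 := hr P
    rw [map_mul, map_mul] at h1
    have h2 : ρ β (ρ a₂ P) = ρ β (ρ b₂ (φ P)) := h1
    have h3 : ρ β (ρ a₂ P - ρ b₂ (φ P)) = 0 := by rw [map_sub, h2, sub_self]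
    exact sub_eq_zero.1 (hb.inj _ h3)
  have hβ0 : Nm β ≠ 0 := fun h0 => hb.prime.ne_zero (H55P.Nm_eq_zero.1 h0)
  have hβ1 : Nm β ≠ 1 := by
    intro h1
    unfold Nm at h1
    rw [Ideal.absNorm_eq_one_iff, Ideal.span_singleton_eq_top] at h1
    exact hb.prime.not_isUnit h1
  have hNa : 0 < Nm a₂ := Nat.pos_of_ne_zero fun h0 => ha₂ (H55P.Nm_eq_zero.1 h0)
  have hlt : Nm a₂ < Nat.find hS := by
    rw [← hn, Nm_mul]
    have h2 : 2 * Nm a₂ ≤ Nm β * Nm a₂ := Nat.mul_le_mul_right _ (by omega)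
    omega
  exact Nat.find_min hS hlt ⟨a₂, b₂, ha₂, hb₂, hr₂, rfl⟩

end H55G
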