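import Mathlib
import Pool.Agent.Lib.H55G.D0
import Pool.Agent.Lib.H55G.A7a

import Pool.Agent.Lib.H55G.A1
import Pool.Agent.Lib.H55G.A2
import Pool.Agent.Lib.H55G.A3
import Pool.Agent.Lib.H55G.A6

/-! # H55G, part A: the Hasse bound -/

open NumberField IsDedekindDomain WeierstrassCurve Polynomial

namespace H55G

open H55P (IQ embF eF Nm)
open H55K (cj cj_cj mul_cj Nm_cj Nm_mul Nm_nat e_cj)

variable {F : Type} [Field F] [NumberField F] [IQ F] {G κ : Type} [AddCommGroup G] [Field κ]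
  {ρ : 𝓞 F →+* AddMonoid.End G} {X : G → κ}

/-- Chunk A7 (S/M). ρ b * (φ - 1) = ρ (a - b) and (φ - 1) * ρ b = ρ (a - b) (hlin). With N₊ = card {φ P = P} = kk (φ - 1), N₋ = kk (φ + 1) (kk_pm): kk (ρ (a - b)) = kk ((φ - 1) * ρ b) = N₊ kk (ρ b) (kk_mul, ρ b surjective by h.surj), the same with +. N₊ > 0 and N₋ > 0 (they contain 0 and are finite, fr_two), kk (ρ b) > 0 (kk_fin).
a ≠ b: otherwise kk (ρ 0) = Nat.card G = 0 as G is infinite (h.xsurj, h.inf). a ≠ -b the same. -/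
theorem rel_card (h : RG ρ X) {q : ℕ} {φ : AddMonoid.End G} (hφ : Fr X q φ)
    (hlin : ∀ (a : 𝓞 F) (P : G), φ (ρ a P) = ρ a (φ P)) {a b : 𝓞 F} (ha : a ≠ 0) (hb : b ≠ 0)
    (hab : ∀ P : G, ρ a P = ρ b (φ P)) :
    kk (ρ (a - b)) = Nat.card {P : G // φ P = P} * kk (ρ b) ∧ kk (ρ (a + b)) = Nat.card {P : G // φ P = -P} * kk (ρ b) ∧
      a - b ≠ 0 ∧ a + b ≠ 0 ∧ kk (ρ a) = kk (ρ b) := by
  have hfr := fr_two h hφ
  have hs := h.surj b hb
  have hsb : Function.Surjective (ρ b) := fun P => hs P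
  have e1 : (φ - 1) * ρ b = ρ (a - b) := by
    refine AddMonoidHom.ext fun P => ?_
    have h1 : ((φ - 1) * ρ b) P = φ (ρ b P) - ρ b P := rfl
    have h2 : ρ (a - b) P = ρ a P - ρ b P := by
      rw [map_sub]
      rfl
    have h3 : φ (ρ b P) - ρ b P = ρ a P - ρ b P := by rw [hlin, ← hab]
    exact h1.trans (h3.trans h2.symm)
  have e2 : (φ + 1) * ρ b = ρ (a + b) := by
    refine AddMonoidHom.ext fun P => ?_
    have h1 : ((φ + 1) * ρ b) P = φ (ρ b P) + ρ b P := rfl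
    have h2 : ρ (a + b) P = ρ a P + ρ b P := by
      rw [map_add]
      rfl
    have h3 : φ (ρ b P) + ρ b P = ρ a P + ρ b P := by rw [hlin, ← hab]
    exact h1.trans (h3.trans h2.symm)
  have e3 : ρ a = ρ b * φ := AddMonoidHom.ext fun P => hab P
  have g1 : kk (ρ (a - b)) = Nat.card {P : G // φ P = P} * kk (ρ b) := by
    rw [← e1, kk_mul hsb, (kk_pm φ).1]
  have g2 : kk (ρ (a + b)) = Nat.card {P : G // φ P = -P} * kk (ρ b) := by
    rw [← e2, kk_mul hsb, (kk_pm φ).2]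
  have g3 : kk φ = 1 := by
    have h1 : Subsingleton {P : G // φ P = 0} := ⟨fun x y => Subtype.ext (hφ.bij.1 (x.2.trans y.2.symm))⟩
    have h2 : Nonempty {P : G // φ P = 0} := ⟨⟨0, map_zero φ⟩⟩
    have : Unique {P : G // φ P = 0} := ⟨⟨⟨0, map_zero φ⟩⟩, fun x => Subsingleton.elim _ _⟩
    exact Nat.card_unique
  have g4 : kk (ρ a) = kk (ρ b) := by
    rw [e3, kk_mul hφ.bij.2, g3, mul_one]
  obtain ⟨β, hβ⟩ := h.b
  have hkb := (kk_fin hβ hb).2.1
  have n1 : 0 < Nat.card {P : G // φ P = P} := by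
    have := hfr.1
    have h2 : Nonempty {P : G // φ P = P} := ⟨⟨0, map_zero φ⟩⟩
    exact Nat.card_pos
  have n2 : 0 < Nat.card {P : G // φ P = -P} := by
    have := hfr.2.1
    have h2 : Nonempty {P : G // φ P = -P} := ⟨⟨0, by rw [map_zero, neg_zero]⟩⟩
    exact Nat.card_pos
  have hG : Infinite G := by
    have := h.inf
    choose f hf0 hf using h.xsurj
    exact Infinite.of_injective f fun x y hxy => by rw [← hf x, ← hf y, hxy]
  have k0 : kk (ρ 0) = 0 := by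
    have h1 : Infinite {P : G // ρ 0 P = 0} := by
      refine Infinite.of_injective (fun P : G => (⟨P, by rw [map_zero]; rfl⟩ : {P : G // ρ 0 P = 0})) ?_
      intro P Q hPQ
      exact congrArg Subtype.val hPQ
    exact Nat.card_eq_zero_of_infinite
  refine ⟨g1, g2, fun h1 => ?_, fun h1 => ?_, g4⟩
  · rw [h1, k0] at g1
    exact (Nat.mul_pos n1 hkb).ne g1
  · rw [h1, k0] at g2
    exact (Nat.mul_pos n2 hkb).ne g2

end H55G
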