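import Mathlib
import Pool.Agent.Lib.H55G.D0
import Pool.Agent.Lib.H55G.A7b

import Pool.Agent.Lib.H55G.A1
import Pool.Agent.Lib.H55G.A2
import Pool.Agent.Lib.H55G.A3
import Pool.Agent.Lib.H55G.A6

/-! # H55G, part A: the Hasse bound -/

open NumberField IsDedekindDomain WeierstrassCurve Polynomial

namespace H55G

open H55P (IQ embF eF Nm)
open H55K (cj cj_cj mul_cj Nm_cj Nm_mul Nm_nat e_cj)

variable {F : Type} [Field F] [NumberField F] [IQ F] {G κ : Type} [AddCommGroup G] [Field κ]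
  {ρ : 𝓞 F →+* AddMonoid.End G} {X : G → κ}

/-- Chunk A7 (M). β from h.b, a, b from rel_red, N₊, N₋ as in rel_card; N₊ + N₋ = 2 (q + 1) (fr_two). (For kk (ρ a) = kk (ρ b) in rel_card: kk (ρ b * φ) = kk (ρ b) kk φ (kk_mul, φ surjective) and kk φ = 1, φ injective.)
Case 1: β does not divide b, β ∣ a. Then β does not divide a - b, a + b; kk (ρ b) = Nm b, kk (ρ (a ± b)) = Nm (a ± b) (kk_nb): Nm b N₊ = Nm (a - b), Nm b N₋ = Nm (a + b); the sum and nm_par: 2 (q + 1) Nm b = 2 (Nm a + Nm b), so Nm a = q Nm b. (q + 1 - N₊) Nm b = Nm a + Nm b - Nm (a - b); nm_cs: (q + 1 - N₊)^2 Nm b^2 ≤ 4 Nm a Nm b = 4 q Nm b^2; Nm b > 0.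
Case 2: β ∣ b, β does not divide a: b = β^k b'' with kk (ρ b) = Nm b'', Nm b = Nm β^k Nm b'' (kk_split), kk (ρ a) = Nm a, so Nm a = Nm b''. β does not divide a ± b. Nm b'' N± = Nm (a ∓ b), sum: 2 (q + 1) Nm b'' = 2 (Nm a + Nm b) = 2 (1 + Nm β^k) Nm b'', so Nm β^k = q. (q + 1 - N₊) Nm b'' = Nm b + Nm a - Nm (a - b); nm_cs: (q + 1 - N₊)^2 Nm b''^2 ≤ 4 Nm a Nm b = 4 Nm b'' q Nm b''.
Case 3: β divides neither: kk (ρ a) = Nm a, kk (ρ b) = Nm b: Nm a = Nm b. kk (ρ (a ± b)) ≤ Nm (a ± b) (kk_fin): 2 (q + 1) Nm b = Nm b (N₊ + N₋) ≤ Nm (a - b) + Nm (a + b) = 4 Nm b: q + 1 ≤ 2, against q ≥ 2. -/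
theorem hasse (h : RG ρ X) {q : ℕ} {φ : AddMonoid.End G} (hφ : Fr X q φ)
    (hlin : ∀ (a : 𝓞 F) (P : G), φ (ρ a P) = ρ a (φ P)) :
    ((q : ℤ) + 1 - (Nat.card {P : G // φ P = P} : ℤ)) ^ 2 ≤ 4 * q := by
  obtain ⟨β, hβ⟩ := h.b
  obtain ⟨a, b, ha, hb, hab, hred⟩ := rel_red h hβ hφ hlin
  obtain ⟨r1, r2, r3, r4, r5⟩ := rel_card h hφ hlin ha hb hab
  obtain ⟨-, -, hsum⟩ := fr_two h hφ
  have hpar := nm_par a b
  have hcs := nm_cs a b
  have hq := hφ.two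
  set N := Nat.card {P : G // φ P = P} with hN
  set N' := Nat.card {P : G // φ P = -P} with hN'
  have key : ∀ D : ℕ, 0 < D → Nm (a - b) = N * D → Nm (a + b) = N' * D → (Nm a : ℤ) * Nm b = q * (D : ℤ) ^ 2 →
      Nm a + Nm b = (q + 1) * D → ((q : ℤ) + 1 - (N : ℤ)) ^ 2 ≤ 4 * q := by
    intro D hD h1 h2 h3 h4
    have h5 : ((Nm a : ℤ) + Nm b - Nm (a - b)) = ((q : ℤ) + 1 - N) * D := by
      have h6 : (Nm a : ℤ) + Nm b = (q + 1) * D := by exact_mod_cast h4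
      have h7 : (Nm (a - b) : ℤ) = N * D := by exact_mod_cast h1
      rw [h6, h7]
      ring
    rw [h5, mul_pow, mul_assoc, h3, ← mul_assoc] at hcs
    have h8 : (0 : ℤ) < (D : ℤ) ^ 2 := by positivity
    exact le_of_mul_le_mul_right hcs h8
  have hpos : 0 < Nm b := Nat.pos_of_ne_zero fun h0 => hb (H55P.Nm_eq_zero.1 h0)
  have hposa : 0 < Nm a := Nat.pos_of_ne_zero fun h0 => ha (H55P.Nm_eq_zero.1 h0)
  have dvd1 : ∀ {x y : 𝓞 F}, β ∣ x → ¬ β ∣ y → ¬ β ∣ x - y ∧ ¬ β ∣ x + y := by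
    intro x y hx hy
    refine ⟨fun h1 => hy ?_, fun h1 => hy ?_⟩
    · have := dvd_sub hx h1
      rwa [sub_sub_cancel] at this
    · exact (dvd_add_right hx).1 h1
  have dvd2 : ∀ {x y : 𝓞 F}, ¬ β ∣ x → β ∣ y → ¬ β ∣ x - y ∧ ¬ β ∣ x + y := by
    intro x y hx hy
    refine ⟨fun h1 => hx ?_, fun h1 => hx ?_⟩
    · have := dvd_add h1 hy
      rwa [sub_add_cancel] at this
    · exact (dvd_add_left hy).1 h1
  by_cases hβb : β ∣ b
  · have hβa : ¬ β ∣ a := fun h1 => hred ⟨h1, hβb⟩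
    obtain ⟨d1, d2⟩ := dvd2 hβa hβb
    obtain ⟨k, b'', hb1, hb2, hb3, hb4⟩ := kk_split hβ hb
    rw [kk_nb hβ d1] at r1
    rw [kk_nb hβ d2] at r2
    rw [kk_nb hβ hβa] at r5
    rw [← r5] at r1 r2
    have h1 : Nm b = q * Nm a := by
      have h2 : N * Nm a + N' * Nm a = 2 * (q + 1) * Nm a := by rw [← add_mul, hsum]
      rw [← r1, ← r2] at h2
      nlinarith
    refine key (Nm a) hposa r1 r2 ?_ ?_
    · rw [h1]
      push_cast
      ring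
    · rw [h1]
      ring
  · by_cases hβa : β ∣ a
    · obtain ⟨d1, d2⟩ := dvd1 hβa hβb
      rw [kk_nb hβ d1, kk_nb hβ hβb] at r1
      rw [kk_nb hβ d2, kk_nb hβ hβb] at r2
      have h1 : Nm a = q * Nm b := by
        have h2 : N * Nm b + N' * Nm b = 2 * (q + 1) * Nm b := by rw [← add_mul, hsum]
        rw [← r1, ← r2] at h2
        nlinarith
      refine key (Nm b) hpos r1 r2 ?_ ?_
      · rw [h1]
        push_cast
        ring
      · rw [h1]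
        ring
    · exfalso
      rw [kk_nb hβ hβa, kk_nb hβ hβb] at r5
      rw [kk_nb hβ hβb] at r1 r2
      have h1 := (kk_fin hβ r3).2.2
      have h2 := (kk_fin hβ r4).2.2
      rw [r1] at h1
      rw [r2] at h2
      have h3 : N * Nm b + N' * Nm b = 2 * (q + 1) * Nm b := by rw [← add_mul, hsum]
      nlinarith

/-- Chunk A7 (S). a, b from rel: (φ - 1) (ρ b Q) = ρ (a - b) Q (hlin), a - b ≠ 0 (rel_card), so every P is ρ (a - b) Q = φ (ρ b Q) - ρ b Q (h.surj). The same with +. -/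
theorem fr_surj (h : RG ρ X) {q : ℕ} {φ : AddMonoid.End G} (hφ : Fr X q φ)
    (hlin : ∀ (a : 𝓞 F) (P : G), φ (ρ a P) = ρ a (φ P)) : (∀ P : G, ∃ Q : G, φ Q - Q = P) ∧ ∀ P : G, ∃ Q : G, φ Q + Q = P := by
  obtain ⟨a, b, ha, hb, hab⟩ := rel h hφ hlin
  obtain ⟨-, -, r3, r4, -⟩ := rel_card h hφ hlin ha hb hab
  refine ⟨fun P => ?_, fun P => ?_⟩
  · obtain ⟨Q, hQ⟩ := h.surj (a - b) r3 P
    refine ⟨ρ b Q, ?_⟩
    rw [← hQ, map_sub, hlin, ← hab]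
    rfl
  · obtain ⟨Q, hQ⟩ := h.surj (a + b) r4 P
    refine ⟨ρ b Q, ?_⟩
    rw [← hQ, map_add, hlin, ← hab]
    rfl

end H55G
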