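import Mathlib
import Pool.Agent.Lib.H55G.D0

import Pool.Agent.Lib.H55G.A7

/-! # H55G, part A: antilinear Frobenius endomorphisms -/

open NumberField IsDedekindDomain WeierstrassCurve Polynomial

namespace H55G

open H55P (IQ embF eF Nm)
open H55K (cj cj_cj mul_cj Nm_cj Nm_mul Nm_nat e_cj)

variable {F : Type} [Field F] [NumberField F] [IQ F] {G κ : Type} [AddCommGroup G] [Field κ]
  {ρ : 𝓞 F →+* AddMonoid.End G} {X : G → κ}

/-- Chunk A8 (S). cj is not the identity on 𝓞 F (IQ.im: eF a not real for some a; e_cj): δ = a - cj a, cj δ = -δ (cj_cj). -/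
theorem exists_delta (F : Type) [Field F] [NumberField F] [IQ F] : ∃ δ : 𝓞 F, δ ≠ 0 ∧ cj δ = -δ := by
  have ha : ∃ a : 𝓞 F, (eF F a).im ≠ 0 := by
    by_contra hn
    push Not at hn
    obtain ⟨x, hx⟩ := IQ.im (F := F)
    obtain ⟨a, b, -, hab⟩ := IsFractionRing.div_surjective (A := 𝓞 F) x
    apply hx
    have e1 : (IQ.emb : F →+* ℂ) x = eF F a / eF F b := by
      rw [← hab, map_div₀]
      rfl
    have e2 : ∀ c : 𝓞 F, eF F c = (((eF F c).re : ℝ) : ℂ) := fun c =>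
      Complex.ext (by simp) (by simp [hn c])
    rw [e1, e2 a, e2 b, ← Complex.ofReal_div]
    exact Complex.ofReal_im _
  obtain ⟨a, ha⟩ := ha
  refine ⟨a - cj a, ?_, ?_⟩
  · intro h0
    have h1 : a = cj a := sub_eq_zero.1 h0
    have h2 : eF F a = (starRingEnd ℂ) (eF F a) := by
      rw [← e_cj, ← h1]
    exact ha (Complex.conj_eq_iff_im.1 h2.symm)
  · rw [map_sub, cj_cj, neg_sub]

theorem a8_kk {G : Type} [AddCommGroup G] {f g : AddMonoid.End G} (h : ∀ P : G, f P = 0 ↔ g P = 0) :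
    kk f = kk g :=
  Nat.card_congr (Equiv.subtypeEquivRight h)

/-- Chunk A8 (M). δ from exists_delta. φ (ρ δ P) = -ρ δ (φ P) (hanti, map_neg), so (φ - 1) * ρ δ = -(ρ δ * (φ + 1)) and (φ + 1) * ρ δ = -(ρ δ * (φ - 1)). kk ((φ - 1) * ρ δ) = kk (φ - 1) kk (ρ δ) (kk_mul, h.surj), kk (ρ δ * (φ + 1)) ≤ kk (ρ δ) kk (φ + 1) (kk_mul_le; the kernel of -f is the kernel of f), kk (ρ δ) > 0 (kk_fin): kk (φ - 1) ≤ kk (φ + 1), and the same with the signs
exchanged: equal. kk_pm, fr_two: both are q + 1 (first claim). φ * φ is linear: φ (φ (ρ a P)) = ρ (cj (cj a)) .. = ρ a (φ (φ P)) (cj_cj). fr_surj for φ * φ (hφ2): for P there is Q with φ (φ Q) - Q = P; Q' = φ Q + Q satisfies φ Q' - Q' = φ (φ Q) - Q = P: φ - 1 is surjective, and Q'' = φ Q - Q satisfies φ Q'' + Q'' = P: φ + 1 is surjective.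
φ * φ - 1 = (φ - 1) * (φ + 1): kk = kk (φ - 1) kk (φ + 1) = (q + 1)^2 (kk_mul; {P // φ (φ P) = P} is the kernel of φ * φ - 1: kk_pm for φ * φ). -/
theorem anti (h : RG ρ X) {q : ℕ} {φ : AddMonoid.End G} (hφ : Fr X q φ) (hφ2 : Fr X (q ^ 2) (φ * φ))
    (hanti : ∀ (a : 𝓞 F) (P : G), φ (ρ a P) = ρ (cj a) (φ P)) :
    Nat.card {P : G // φ P = P} = q + 1 ∧ Nat.card {P : G // φ (φ P) = P} = (q + 1) ^ 2 ∧ ∀ P : G, ∃ Q : G, φ Q - Q = P := by
  obtain ⟨δ, hδ, hcj⟩ := exists_delta F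
  obtain ⟨b, hb⟩ := h.b
  obtain ⟨f1, f2, hsum⟩ := fr_two h hφ
  obtain ⟨p1, p2⟩ := kk_pm φ
  obtain ⟨k1, k2, -⟩ := kk_fin hb hδ
  have hδs : Function.Surjective (ρ δ) := fun P => h.surj δ hδ P
  have han : ∀ P : G, φ (ρ δ P) = -(ρ δ (φ P)) := by
    intro P
    rw [hanti, hcj, map_neg]
    rfl
  have fm : Finite {P : G // (φ - 1) P = 0} := by
    refine Finite.of_equiv _ (Equiv.subtypeEquivRight (p := fun P : G => φ P = P) fun P => ?_)
    change φ P = P ↔ φ P - P = 0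
    exact sub_eq_zero.symm
  have fp : Finite {P : G // (φ + 1) P = 0} := by
    refine Finite.of_equiv _ (Equiv.subtypeEquivRight (p := fun P : G => φ P = -P) fun P => ?_)
    change φ P = -P ↔ φ P + P = 0
    exact eq_neg_iff_add_eq_zero
  have e1 : kk ((φ - 1) * ρ δ) = kk (ρ δ * (φ + 1)) := by
    refine a8_kk fun P => ?_
    change φ (ρ δ P) - ρ δ P = 0 ↔ ρ δ (φ P + P) = 0
    rw [han, map_add, ← neg_eq_zero, neg_sub, sub_neg_eq_add, add_comm]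
  have e2 : kk ((φ + 1) * ρ δ) = kk (ρ δ * (φ - 1)) := by
    refine a8_kk fun P => ?_
    change φ (ρ δ P) + ρ δ P = 0 ↔ ρ δ (φ P - P) = 0
    rw [han, map_sub, ← neg_eq_zero, neg_add, neg_neg, sub_eq_add_neg]
  have l1 : kk (φ - 1) ≤ kk (φ + 1) := by
    have h1 := (kk_mul_le (f := ρ δ) (g := φ + 1) k1 fp).2
    rw [← e1, kk_mul hδs, mul_comm] at h1
    exact Nat.le_of_mul_le_mul_left h1 k2
  have l2 : kk (φ + 1) ≤ kk (φ - 1) := by
    have h1 := (kk_mul_le (f := ρ δ) (g := φ - 1) k1 fm).2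
    rw [← e2, kk_mul hδs, mul_comm] at h1
    exact Nat.le_of_mul_le_mul_left h1 k2
  have hm : kk (φ - 1) = q + 1 := by omega
  have hp : kk (φ + 1) = q + 1 := by omega
  have hlin2 : ∀ (a : 𝓞 F) (P : G), (φ * φ) (ρ a P) = ρ a ((φ * φ) P) := by
    intro a P
    change φ (φ (ρ a P)) = ρ a (φ (φ P))
    rw [hanti, hanti, cj_cj]
  obtain ⟨s1, -⟩ := fr_surj h hφ2 hlin2
  have sm : ∀ P : G, ∃ Q : G, φ Q - Q = P := by
    intro P
    obtain ⟨Q, hQ⟩ := s1 P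
    refine ⟨φ Q + Q, ?_⟩
    rw [map_add]
    change φ (φ Q) - Q = P at hQ
    rw [← hQ]
    abel
  have sp : Function.Surjective ((φ + 1 : AddMonoid.End G) : G → G) := by
    intro P
    obtain ⟨Q, hQ⟩ := s1 P
    refine ⟨φ Q - Q, ?_⟩
    change φ (φ Q - Q) + (φ Q - Q) = P
    change φ (φ Q) - Q = P at hQ
    rw [map_sub, ← hQ]
    abel
  refine ⟨by rw [← p1, hm], ?_, sm⟩
  have e3 : kk (φ * φ - 1) = kk ((φ - 1) * (φ + 1)) := by
    refine a8_kk fun P => ?_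
    change φ (φ P) - P = 0 ↔ φ (φ P + P) - (φ P + P) = 0
    have e4 : φ (φ P + P) - (φ P + P) = φ (φ P) - P := by
      rw [map_add]
      abel
    rw [e4]
  have e5 : Nat.card {P : G // φ (φ P) = P} = kk (φ * φ - 1) := (kk_pm (φ * φ)).1.symm
  rw [e5, e3, kk_mul sp, hm, hp, sq]

end H55G
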