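import Mathlib
import Pool.Agent.Lib.H55G.D0
import Pool.Agent.Lib.H35P.FG
import Pool.Agent.Lib.H55K.M3A
import Pool.Agent.Lib.H55K.M3B
import Pool.Agent.Lib.H13R.R1

/-! # H55G, part B: coordinates of the good model -/

open NumberField IsDedekindDomain WeierstrassCurve Polynomial

namespace H55G

open H55P (IQ embF eF LF Per IsHecke Pt ac Inert Dec Nm)
open H35P (WAB Ker GoodW IntW)
open H55K (CMA Tor TN ak xc yc cj cj_cj mul_cj Nm_cj Nm_mul Nm_nat)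
open H55K.MG (VC Crd)

variable {F : Type} [Field F] [NumberField F] [IQ F] {A B : F} {Om : ℂ} {Ω : Type} [Field Ω] [DecidableEq Ω]
  [Algebra F Ω] {j : Ω →+* ℂ} {act : 𝓞 F →+* AddMonoid.End (Pt (WAB A B) Ω)} {V : ValuationSubring Ω}
  {W' : WeierstrassCurve Ω} {u r s t : Ω} {Θ : Pt (WAB A B) Ω ≃+ W'.toAffine.Point} {Kg : AddSubgroup (Pt (WAB A B) Ω)}

omit [NumberField F] [IQ F] in
/-- Chunk B1 (S). Θ P is not in the kernel of reduction (hG.kg); MG.int_crd (M3A.lean), Θ P ≠ 0 iff P ≠ 0. -/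
theorem xp_int (hG : GD V W' u r s t Θ Kg) {P : Pt (WAB A B) Ω} (hP : P ∉ Kg) :
    P ≠ 0 ∧ xp Θ P ∈ V ∧ yp Θ P ∈ V := by
  obtain ⟨h0, h1, h2⟩ := H55K.MG.int_crd hG.good (P := Θ P) (fun hk => hP ((hG.kg P).2 hk))
  refine ⟨?_, h1, h2⟩
  rintro rfl
  exact h0 (map_zero Θ)

omit [NumberField F] [IQ F] in
/-- Chunk B1 (S). MG.ker_crd (M3A.lean): V(x(Θ P)) > 1; V(x(Θ Q)) ≤ 1 (xp_int); Valuation.map_sub_eq_of_lt_right or left. -/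
theorem xp_far (hG : GD V W' u r s t Θ Kg) {P Q : Pt (WAB A B) Ω} (hP : P ∈ Kg) (h0 : P ≠ 0) (hQ : Q ∉ Kg) :
    1 < V.valuation (xp Θ P) ∧ V.valuation (xp Θ P - xp Θ Q) = V.valuation (xp Θ P) := by
  have h1 : Θ P ≠ 0 := fun hh => h0 ((map_eq_zero_iff Θ Θ.injective).1 hh)
  have h2 : 1 < V.valuation (xp Θ P) := (H55K.MG.ker_crd h1).1 ((hG.kg P).1 hP)
  have h3 : V.valuation (xp Θ Q) ≤ 1 := (V.valuation_le_one_iff _).2 (xp_int hG hQ).2.1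
  exact ⟨h2, Valuation.map_sub_eq_of_lt_left _ (lt_of_le_of_lt h3 h2)⟩

omit [NumberField F] [IQ F] in
/-- Chunk B1 (S). MG.unit_diff (M3A.lean) for Θ P, Θ Q (map_sub, map_add, hG.kg). -/
theorem xp_diff (hG : GD V W' u r s t Θ Kg) {P Q : Pt (WAB A B) Ω} (hP : P ∉ Kg) (hQ : Q ∉ Kg) (h1 : P - Q ∉ Kg)
    (h2 : P + Q ∉ Kg) : V.valuation (xp Θ P - xp Θ Q) = 1 := by
  refine H55K.MG.unit_diff hG.good (fun hk => hP ((hG.kg P).2 hk)) (fun hk => hQ ((hG.kg Q).2 hk)) (fun hk => h1 ?_)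
    (fun hk => h2 ?_)
  · rw [hG.kg, map_sub]
    exact hk
  · rw [hG.kg, map_add]
    exact hk

omit [NumberField F] [IQ F] in
/-- Chunk B1 (S). H13R.cls_convR (Lib/H13R/R1.lean). -/
theorem xp_cong (hG : GD V W' u r s t Θ Kg) {P Q : Pt (WAB A B) Ω} (hP : P ∉ Kg) (h1 : Q - P ∈ Kg) :
    Q ∉ Kg ∧ V.valuation (xp Θ Q - xp Θ P) < 1 ∧ V.valuation (yp Θ Q - yp Θ P) < 1 := by
  have h2 : H35P.Ker V (Θ Q - Θ P) := by
    rw [← map_sub]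
    exact (hG.kg _).1 h1
  obtain ⟨h3, h4, h5⟩ := H13R.cls_convR hG.good (P := Θ P) (Q := Θ Q) (fun hk => hP ((hG.kg P).2 hk)) h2
  exact ⟨fun hk => h3 ((hG.kg Q).1 hk), h4, h5⟩

end H55G
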