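import Mathlib
import Pool.Agent.Lib.H55G.D0
import Pool.Agent.Lib.H35P.FG
import Pool.Agent.Lib.H55K.M3A
import Pool.Agent.Lib.H55K.M3B
import Pool.Agent.Lib.H13R.R1
import Pool.Agent.Lib.H55G.B1a

/-! # H55G, part B: coordinates of the good model -/

open NumberField IsDedekindDomain WeierstrassCurve Polynomial

namespace H55G

open H55P (IQ embF eF LF Per IsHecke Pt ac Inert Dec Nm)
open H35P (WAB Ker GoodW IntW)
open H55K (CMA Tor TN ak xc yc cj cj_cj mul_cj Nm_cj Nm_mul Nm_nat)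
open H55K.MG (VC Crd)

variable {F : Type} [Field F] [NumberField F] [IQ F] {A B : F} {Om : ℂ} {Ω : Type} [Field Ω] [DecidableEq Ω]
  [Algebra F Ω] {j : Ω →+* ℂ} {act : 𝓞 F →+* AddMonoid.End (Pt (WAB A B) Ω)} {V : ValuationSubring Ω}
  {W' : WeierstrassCurve Ω} {u r s t : Ω} {Θ : Pt (WAB A B) Ω ≃+ W'.toAffine.Point} {Kg : AddSubgroup (Pt (WAB A B) Ω)}

/-- Chunk B1 (S/M). h.e2 for b, S, X, Y: all points X, Y, act b X, act b Y, R in S, X + R (act b (X + R) = act b X ≠ 0) are nonzero, so xc P - xc Q = u^2 (xp P - xp Q) for them (hG.crd); the left side has 1 + card S such factors, and so has the right side (Finset.prod_mul_distrib, Finset.prod_const): cancel u^(2 (1 + card S)) ≠ 0. -/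
theorem e2x (h : CMA F A B Om j act) (hG : GD V W' u r s t Θ Kg) {b : 𝓞 F} {S : Finset (Pt (WAB A B) Ω)} (hb : b ≠ 0)
    (hS : TN act b S) {X Y : Pt (WAB A B) Ω} (hX : act b X ≠ 0) (hY : act b Y ≠ 0) :
    ak Ω b ^ 2 * (xp Θ (act b X) - xp Θ (act b Y)) * ∏ R ∈ S, (xp Θ R - xp Θ Y) =
      (xp Θ X - xp Θ Y) * ∏ R ∈ S, (xp Θ (X + R) - xp Θ Y) := by
  have key : ∀ P Q : Pt (WAB A B) Ω, P ≠ 0 → Q ≠ 0 → xc P - xc Q = u ^ 2 * (xp Θ P - xp Θ Q) := by
    intro P Q hP hQ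
    rw [(hG.crd P hP).2.1, (hG.crd Q hQ).2.1]
    simp only [xp]
    ring
  have hX0 : X ≠ 0 := by
    rintro rfl
    exact hX (map_zero _)
  have hY0 : Y ≠ 0 := by
    rintro rfl
    exact hY (map_zero _)
  have e := h.e2 b S hb hS X Y hX hY
  have p1 : ∏ R ∈ S, (xc R - xc Y) = ∏ R ∈ S, (u ^ 2 * (xp Θ R - xp Θ Y)) :=
    Finset.prod_congr rfl fun R hR => key R Y ((hS R).1 hR).2 hY0
  have p2 : ∏ R ∈ S, (xc (X + R) - xc Y) = ∏ R ∈ S, (u ^ 2 * (xp Θ (X + R) - xp Θ Y)) := by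
    refine Finset.prod_congr rfl fun R hR => key (X + R) Y (fun h0 => hX ?_) hY0
    have h1 : act b (X + R) = 0 := by rw [h0, map_zero]
    rwa [map_add, ((hS R).1 hR).1, add_zero] at h1
  rw [key _ _ hX hY, key _ _ hX0 hY0, p1, p2, Finset.prod_mul_distrib, Finset.prod_mul_distrib, Finset.prod_const] at e
  have hu : u ^ 2 * (u ^ 2) ^ S.card ≠ 0 :=
    mul_ne_zero (pow_ne_zero _ hG.une) (pow_ne_zero _ (pow_ne_zero _ hG.une))
  apply mul_left_cancel₀ hu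
  linear_combination e

end H55G
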