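import Mathlib
import Pool.Agent.Lib.H55G.D0
import Pool.Agent.Lib.H55K.M3B
import Pool.Agent.Lib.H55K.G4A
import Pool.Agent.Lib.H55K.C17

/-! # H55G, part B: generic pairs of points -/

open NumberField IsDedekindDomain WeierstrassCurve Polynomial

namespace H55G

open H55P (IQ embF eF LF Per IsHecke Pt ac Inert Dec Nm)
open H35P (WAB Ker GoodW IntW)
open H55K (CMA Tor TN ak xc yc cj cj_cj mul_cj Nm_cj Nm_mul Nm_nat)
open H55K.MG (VC Crd)

variable {F : Type} [Field F] [NumberField F] [IQ F] {A B : F} {Om : ℂ} {Ω : Type} [Field Ω] [DecidableEq Ω]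
  [Algebra F Ω] {j : Ω →+* ℂ} {act : 𝓞 F →+* AddMonoid.End (Pt (WAB A B) Ω)} {V : ValuationSubring Ω}
  {W' : WeierstrassCurve Ω} {u r s t : Ω} {Θ : Pt (WAB A B) Ω ≃+ W'.toAffine.Point} {Kg : AddSubgroup (Pt (WAB A B) Ω)}

open scoped Pointwise in
omit F Ω in
/-- Auxiliary form of the chunk, where the pointwise notation is open. -/
theorem b2a_avoid {G : Type} [AddCommGroup G] (hdiv : ∀ n : ℕ, n ≠ 0 → ∀ g : G, ∃ g' : G, n • g' = g) {ι : Type} (I : Set ι)
    (hI : I.Finite) (H : ι → AddSubgroup G) (hne : ∀ i ∈ I, H i ≠ ⊤) (c : ι → G) : ∃ g : G, ∀ i ∈ I, g - c i ∉ H i := by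
  classical
  by_contra hcon
  push Not at hcon
  have hcov : ⋃ i ∈ hI.toFinset, (c i) +ᵥ (H i : Set G) = Set.univ := by
    rw [Set.eq_univ_iff_forall]
    intro g
    obtain ⟨i, hi, hg⟩ := hcon g
    simp only [Set.mem_iUnion]
    refine ⟨i, by simpa using hi, ?_⟩
    rw [mem_leftAddCoset_iff]
    have e : -c i + g = g - c i := by abel
    rw [e]
    exact hg
  obtain ⟨i, hi, hf⟩ := AddSubgroup.exists_finiteIndex_of_leftCoset_cover hcov
  have hi' : i ∈ I := by simpa using hi
  refine hne i hi' ?_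
  rw [eq_top_iff]
  intro g _
  obtain ⟨g', rfl⟩ := hdiv (H i).index hf.index_ne_zero g
  exact AddSubgroup.nsmul_index_mem (H := H i) g'

omit F Ω in
/-- Chunk B2 (S/M, PURE). If the cosets c i + H i (i in I) cover G then some H i (i in I) has finite index (AddSubgroup.exists_finiteIndex_of_leftCoset_cover, B. H. Neumann; or a direct induction), and a subgroup of finite index n of a divisible group is everything (n • g in H for all g: AddSubgroup.nsmul_index_mem or the quotient; and n • is surjective). -/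
theorem avoid {G : Type} [AddCommGroup G] (hdiv : ∀ n : ℕ, n ≠ 0 → ∀ g : G, ∃ g' : G, n • g' = g) {ι : Type} (I : Set ι)
    (hI : I.Finite) (H : ι → AddSubgroup G) (hne : ∀ i ∈ I, H i ≠ ⊤) (c : ι → G) : ∃ g : G, ∀ i ∈ I, g - c i ∉ H i :=
  b2a_avoid hdiv I hI H hne c

end H55G
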