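import Mathlib
import Pool.Agent.Lib.H55G.D0
import Pool.Agent.Lib.H55K.M3B
import Pool.Agent.Lib.H55K.G4A
import Pool.Agent.Lib.H55K.C17
import Pool.Agent.Lib.H55G.B2a

/-! # H55G, part B: generic pairs of points -/

open NumberField IsDedekindDomain WeierstrassCurve Polynomial

namespace H55G

open H55P (IQ embF eF LF Per IsHecke Pt ac Inert Dec Nm)
open H35P (WAB Ker GoodW IntW)
open H55K (CMA Tor TN ak xc yc cj cj_cj mul_cj Nm_cj Nm_mul Nm_nat)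
open H55K.MG (VC Crd)

variable {F : Type} [Field F] [NumberField F] [IQ F] {A B : F} {Om : ℂ} {Ω : Type} [Field Ω] [DecidableEq Ω]
  [Algebra F Ω] {j : Ω →+* ℂ} {act : 𝓞 F →+* AddMonoid.End (Pt (WAB A B) Ω)} {V : ValuationSubring Ω}
  {W' : WeierstrassCurve Ω} {u r s t : Ω} {Θ : Pt (WAB A B) Ω ≃+ W'.toAffine.Point} {Kg : AddSubgroup (Pt (WAB A B) Ω)}

/-- Auxiliary: l ≥ 2 does not divide 1 in the ring of integers. -/
theorem b2b_ndvd {l : ℕ} (hl : 2 ≤ l) : ¬ ((l : 𝓞 F) ∣ 1) := by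
  rintro ⟨c, hc⟩
  have h1 : H55P.Nm ((1 : ℕ) : 𝓞 F) = H55P.Nm (l : 𝓞 F) * H55P.Nm c := by
    rw [← Nm_mul, ← hc, Nat.cast_one]
  rw [Nm_nat, Nm_nat, one_pow] at h1
  have h2 : l ^ 2 = 1 := Nat.eq_one_of_mul_eq_one_right h1.symm
  have h3 : 2 ^ 2 ≤ l ^ 2 := Nat.pow_le_pow_left hl 2
  omega

omit F Ω in
/-- Auxiliary: 2 or 3 is a unit at V. -/
theorem b2b_unit {K : Type} [Field K] (V : ValuationSubring K) : ∃ l : ℕ, 2 ≤ l ∧ V.valuation (l : K) = 1 := by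
  have hle : ∀ n : ℕ, V.valuation (n : K) ≤ 1 := fun n => (V.valuation_le_one_iff _).2 (natCast_mem V n)
  by_contra hcon
  push Not at hcon
  have h2 : V.valuation ((2 : ℕ) : K) < 1 := lt_of_le_of_ne (hle 2) (hcon 2 le_rfl)
  have h3 : V.valuation ((3 : ℕ) : K) < 1 := lt_of_le_of_ne (hle 3) (hcon 3 (by norm_num))
  have h4 : V.valuation (((3 : ℕ) : K) - ((2 : ℕ) : K)) < 1 := Valuation.map_sub_lt _ h3 h2
  have h5 : ((3 : ℕ) : K) - ((2 : ℕ) : K) = 1 := by norm_num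
  rw [h5, map_one] at h4
  exact lt_irrefl _ h4

/-- Chunk B2 (S). l = 2 or l = 3 has V(l) = 1 (V(3 - 2) = 1). h.gen l gives T₀ ≠ 0 (act 1 T₀ = 0 iff l ∣ 1) with act l T₀ = 0, i.e. l • T₀ = 0 (map_natCast). MG.kg_tors (M3B.lean): T₀ in Kg would be 0. -/
theorem kg_ne (h : CMA F A B Om j act) (hG : GD V W' u r s t Θ Kg) : ∃ P : Pt (WAB A B) Ω, P ∉ Kg := by
  obtain ⟨l, hl2, hl⟩ := b2b_unit V
  have hl0 : (l : 𝓞 F) ≠ 0 := by
    rw [Nat.cast_ne_zero]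
    omega
  obtain ⟨T, hT, -, hT2, -⟩ := h.gen (l : 𝓞 F) hl0
  refine ⟨T, fun hTK => ?_⟩
  have hT0 : l • T = 0 := by
    have h1 : act (l : 𝓞 F) T = 0 := hT
    rw [map_natCast] at h1
    exact h1
  have h0 : T = 0 := H55K.MG.kg_tors (Θ := Θ) hG.good hl ((hG.kg T).1 hTK) hT0
  refine b2b_ndvd (F := F) hl2 ((hT2 1).1 ?_)
  rw [h0, map_zero]

/-- Chunk B2 (M). avoid for G = Pt × Pt (divisible: h.surj for n, map_natCast), I = Sg, H (α, β, R) = the preimage of Kg under (X, Y) ↦ act α X + act β Y (not ⊤: if α ≠ 0 choose X with act α X = P, P not in Kg (h.surj, kg_ne), and Y = 0; similarly β ≠ 0), c (α, β, R) = a pair (X₀, Y₀) with act α X₀ + act β Y₀ = R (the same way, Classical). -/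
theorem generic (h : CMA F A B Om j act) (hG : GD V W' u r s t Θ Kg)
    (Sg : Set (𝓞 F × 𝓞 F × Pt (WAB A B) Ω)) (hf : Sg.Finite) (h0 : ∀ σ ∈ Sg, σ.1 ≠ 0 ∨ σ.2.1 ≠ 0) :
    ∃ X Y : Pt (WAB A B) Ω, ∀ σ ∈ Sg, act σ.1 X + act σ.2.1 Y - σ.2.2 ∉ Kg := by
  classical
  obtain ⟨P, hP⟩ := kg_ne h hG
  -- the map (X, Y) ↦ act α X + act β Y
  let L : 𝓞 F × 𝓞 F × Pt (WAB A B) Ω → (Pt (WAB A B) Ω × Pt (WAB A B) Ω →+ Pt (WAB A B) Ω) := fun σ =>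
    ((act σ.1 : Pt (WAB A B) Ω →+ Pt (WAB A B) Ω).comp (AddMonoidHom.fst _ _)) +
      ((act σ.2.1 : Pt (WAB A B) Ω →+ Pt (WAB A B) Ω).comp (AddMonoidHom.snd _ _))
  have hL : ∀ σ XY, L σ XY = act σ.1 XY.1 + act σ.2.1 XY.2 := fun σ XY => rfl
  have hsur : ∀ σ ∈ Sg, ∀ R : Pt (WAB A B) Ω, ∃ XY : Pt (WAB A B) Ω × Pt (WAB A B) Ω, L σ XY = R := by
    intro σ hσ R
    rcases h0 σ hσ with hα | hβ
    · obtain ⟨X, hX⟩ := h.surj _ hα R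
      exact ⟨(X, 0), by rw [hL]; simp only [map_zero, add_zero]; exact hX⟩
    · obtain ⟨Y, hY⟩ := h.surj _ hβ R
      exact ⟨(0, Y), by rw [hL]; simp only [map_zero, zero_add]; exact hY⟩
  let c : 𝓞 F × 𝓞 F × Pt (WAB A B) Ω → Pt (WAB A B) Ω × Pt (WAB A B) Ω := fun σ =>
    if hσ : σ ∈ Sg then (hsur σ hσ σ.2.2).choose else 0
  have hc : ∀ σ ∈ Sg, L σ (c σ) = σ.2.2 := by
    intro σ hσ
    have e : c σ = (hsur σ hσ σ.2.2).choose := by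
      simp only [c, dif_pos hσ]
    rw [e]
    exact (hsur σ hσ σ.2.2).choose_spec
  have hdiv : ∀ n : ℕ, n ≠ 0 → ∀ g : Pt (WAB A B) Ω × Pt (WAB A B) Ω, ∃ g', n • g' = g := by
    intro n hn g
    have hn' : (n : 𝓞 F) ≠ 0 := Nat.cast_ne_zero.2 hn
    have key : ∀ R : Pt (WAB A B) Ω, ∃ Q, n • Q = R := by
      intro R
      obtain ⟨Q, hQ⟩ := h.surj _ hn' R
      refine ⟨Q, ?_⟩
      rw [map_natCast] at hQ
      exact hQ
    obtain ⟨X, hX⟩ := key g.1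
    obtain ⟨Y, hY⟩ := key g.2
    exact ⟨(X, Y), Prod.ext hX hY⟩
  obtain ⟨g, hg⟩ := avoid hdiv Sg hf (fun σ => Kg.comap (L σ)) (by
    intro σ hσ htop
    obtain ⟨XY, hXY⟩ := hsur σ hσ P
    have h1 : XY ∈ Kg.comap (L σ) := by rw [htop]; trivial
    rw [AddSubgroup.mem_comap, hXY] at h1
    exact hP h1) c
  refine ⟨g.1, g.2, fun σ hσ hmem => hg σ hσ ?_⟩
  rw [AddSubgroup.mem_comap, map_sub, hc σ hσ]
  exact hmem

end H55G
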