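import Mathlib
import Pool.Agent.Lib.H55G.D0
import Pool.Agent.Lib.H55K.M3B
import Pool.Agent.Lib.H55K.G4A
import Pool.Agent.Lib.H55K.C17
import Pool.Agent.Lib.H55G.B2b

/-! # H55G, part B: generic pairs of points -/

open NumberField IsDedekindDomain WeierstrassCurve Polynomial

namespace H55G

open H55P (IQ embF eF LF Per IsHecke Pt ac Inert Dec Nm)
open H35P (WAB Ker GoodW IntW)
open H55K (CMA Tor TN ak xc yc cj cj_cj mul_cj Nm_cj Nm_mul Nm_nat)
open H55K.MG (VC Crd)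

variable {F : Type} [Field F] [NumberField F] [IQ F] {A B : F} {Om : ℂ} {Ω : Type} [Field Ω] [DecidableEq Ω]
  [Algebra F Ω] {j : Ω →+* ℂ} {act : 𝓞 F →+* AddMonoid.End (Pt (WAB A B) Ω)} {V : ValuationSubring Ω}
  {W' : WeierstrassCurve Ω} {u r s t : Ω} {Θ : Pt (WAB A B) Ω ≃+ W'.toAffine.Point} {Kg : AddSubgroup (Pt (WAB A B) Ω)}

/-- The pair X, Y is generic with respect to a and S. -/
structure Gen (act : 𝓞 F →+* AddMonoid.End (Pt (WAB A B) Ω)) (Kg : AddSubgroup (Pt (WAB A B) Ω)) (a : 𝓞 F)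
    (S : Finset (Pt (WAB A B) Ω)) (X Y : Pt (WAB A B) Ω) : Prop where
  x : X ∉ Kg
  y : Y ∉ Kg
  ax : act a X ∉ Kg
  ay : act a Y ∉ Kg
  m : X - Y ∉ Kg
  p : X + Y ∉ Kg
  am : act a X - act a Y ∉ Kg
  ap : act a X + act a Y ∉ Kg
  xr : ∀ R ∈ S, X + R ∉ Kg
  rm : ∀ R ∈ S, R - Y ∉ Kg
  rp : ∀ R ∈ S, R + Y ∉ Kg
  xrm : ∀ R ∈ S, X + R - Y ∉ Kg
  xrp : ∀ R ∈ S, X + R + Y ∉ Kg

/-- Chunk B2 (S/M). generic for the finite set of the triples (1, 0, 0), (0, 1, 0), (a, 0, 0), (0, a, 0), (1, -1, 0), (1, 1, 0), (a, -a, 0), (a, a, 0) and, for R in S, (1, 0, -R), (0, 1, R) [Y - R not in Kg: R - Y = -(Y - R)], (0, 1, -R), (1, -1, -R), (1, 1, -R). map_one, map_zero, map_neg. -/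
theorem exists_gen (h : CMA F A B Om j act) (hG : GD V W' u r s t Θ Kg) {a : 𝓞 F} (ha : a ≠ 0)
    (S : Finset (Pt (WAB A B) Ω)) : ∃ X Y : Pt (WAB A B) Ω, Gen act Kg a S X Y := by
  classical
  let S0 : Finset (𝓞 F × 𝓞 F × Pt (WAB A B) Ω) :=
    {(1, 0, 0), (0, 1, 0), (a, 0, 0), (0, a, 0), (1, -1, 0), (1, 1, 0), (a, -a, 0), (a, a, 0)}
  let S1 : Finset (𝓞 F × 𝓞 F × Pt (WAB A B) Ω) := S.image fun R => (1, 0, -R)
  let S2 : Finset (𝓞 F × 𝓞 F × Pt (WAB A B) Ω) := S.image fun R => (0, 1, R)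
  let S3 : Finset (𝓞 F × 𝓞 F × Pt (WAB A B) Ω) := S.image fun R => (0, 1, -R)
  let S4 : Finset (𝓞 F × 𝓞 F × Pt (WAB A B) Ω) := S.image fun R => (1, -1, -R)
  let S5 : Finset (𝓞 F × 𝓞 F × Pt (WAB A B) Ω) := S.image fun R => (1, 1, -R)
  obtain ⟨X, Y, hXY⟩ := generic h hG (↑(S0 ∪ (S1 ∪ (S2 ∪ (S3 ∪ (S4 ∪ S5)))))) (Finset.finite_toSet _) (by
    intro σ hσ
    rw [Finset.mem_coe] at hσ
    simp only [S0, S1, S2, S3, S4, S5, Finset.mem_union, Finset.mem_insert, Finset.mem_singleton, Finset.mem_image] at hσ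
    rcases hσ with (rfl | rfl | rfl | rfl | rfl | rfl | rfl | rfl) | ⟨R, -, rfl⟩ | ⟨R, -, rfl⟩ | ⟨R, -, rfl⟩ | ⟨R, -, rfl⟩ |
      ⟨R, -, rfl⟩ <;> simp [ha])
  have H0 : ∀ σ ∈ S0, act σ.1 X + act σ.2.1 Y - σ.2.2 ∉ Kg := fun σ hσ =>
    hXY σ (Finset.mem_coe.2 (Finset.mem_union_left _ hσ))
  have H1 : ∀ σ ∈ S1, act σ.1 X + act σ.2.1 Y - σ.2.2 ∉ Kg := fun σ hσ =>
    hXY σ (Finset.mem_coe.2 (Finset.mem_union_right _ (Finset.mem_union_left _ hσ)))
  have H2 : ∀ σ ∈ S2, act σ.1 X + act σ.2.1 Y - σ.2.2 ∉ Kg := fun σ hσ =>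
    hXY σ (Finset.mem_coe.2 (Finset.mem_union_right _ (Finset.mem_union_right _ (Finset.mem_union_left _ hσ))))
  have H3 : ∀ σ ∈ S3, act σ.1 X + act σ.2.1 Y - σ.2.2 ∉ Kg := fun σ hσ =>
    hXY σ (Finset.mem_coe.2 (Finset.mem_union_right _ (Finset.mem_union_right _ (Finset.mem_union_right _
      (Finset.mem_union_left _ hσ)))))
  have H4 : ∀ σ ∈ S4, act σ.1 X + act σ.2.1 Y - σ.2.2 ∉ Kg := fun σ hσ =>
    hXY σ (Finset.mem_coe.2 (Finset.mem_union_right _ (Finset.mem_union_right _ (Finset.mem_union_right _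
      (Finset.mem_union_right _ (Finset.mem_union_left _ hσ))))))
  have H5 : ∀ σ ∈ S5, act σ.1 X + act σ.2.1 Y - σ.2.2 ∉ Kg := fun σ hσ =>
    hXY σ (Finset.mem_coe.2 (Finset.mem_union_right _ (Finset.mem_union_right _ (Finset.mem_union_right _
      (Finset.mem_union_right _ (Finset.mem_union_right _ hσ))))))
  have e1 : ∀ P : Pt (WAB A B) Ω, act 1 P = P := fun P => by rw [map_one]; rfl
  have e0 : ∀ P : Pt (WAB A B) Ω, act 0 P = 0 := fun P => by rw [map_zero]; rfl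
  have en : ∀ (b : 𝓞 F) (P : Pt (WAB A B) Ω), act (-b) P = -act b P := fun b P => by rw [map_neg]; rfl
  refine ⟨X, Y, ?_, ?_, ?_, ?_, ?_, ?_, ?_, ?_, fun R hR => ?_, fun R hR => ?_, fun R hR => ?_, fun R hR => ?_,
    fun R hR => ?_⟩
  · have := H0 (1, 0, 0) (by simp [S0])
    simpa only [e1, e0, add_zero, sub_zero] using this
  · have := H0 (0, 1, 0) (by simp [S0])
    simpa only [e1, e0, zero_add, sub_zero] using this
  · have := H0 (a, 0, 0) (by simp [S0])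
    simpa only [e1, e0, add_zero, sub_zero] using this
  · have := H0 (0, a, 0) (by simp [S0])
    simpa only [e1, e0, zero_add, sub_zero] using this
  · have := H0 (1, -1, 0) (by simp [S0])
    simpa only [e1, e0, en, sub_zero, ← sub_eq_add_neg] using this
  · have := H0 (1, 1, 0) (by simp [S0])
    simpa only [e1, e0, en, sub_zero] using this
  · have := H0 (a, -a, 0) (by simp [S0])
    simpa only [e1, e0, en, sub_zero, ← sub_eq_add_neg] using this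
  · have := H0 (a, a, 0) (by simp [S0])
    simpa only [e1, e0, en, sub_zero] using this
  · have := H1 (1, 0, -R) (Finset.mem_image.2 ⟨R, hR, rfl⟩)
    simpa only [e1, e0, add_zero, sub_neg_eq_add] using this
  · have := H2 (0, 1, R) (Finset.mem_image.2 ⟨R, hR, rfl⟩)
    simp only [e1, e0, zero_add] at this
    intro hm
    refine this ?_
    have := Kg.neg_mem hm
    rwa [neg_sub] at this
  · have := H3 (0, 1, -R) (Finset.mem_image.2 ⟨R, hR, rfl⟩)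
    simp only [e1, e0, zero_add, sub_neg_eq_add] at this
    rwa [add_comm] at this
  · have := H4 (1, -1, -R) (Finset.mem_image.2 ⟨R, hR, rfl⟩)
    simp only [e1, en, sub_neg_eq_add] at this
    have e : X + R - Y = X + -Y + R := by abel
    rwa [e]
  · have := H5 (1, 1, -R) (Finset.mem_image.2 ⟨R, hR, rfl⟩)
    simp only [e1, sub_neg_eq_add] at this
    have e : X + R + Y = X + Y + R := by abel
    rwa [e]

end H55G
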