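import Mathlib
import Pool.Agent.Lib.H55G.B1
import Pool.Agent.Lib.H55G.B2

/-! # H55G, part B: the kernel of reduction and the action -/

open NumberField IsDedekindDomain WeierstrassCurve Polynomial

namespace H55G

open H55P (IQ embF eF LF Per IsHecke Pt ac Inert Dec Nm)
open H35P (WAB Ker GoodW IntW)
open H55K (CMA Tor TN ak xc yc cj cj_cj mul_cj Nm_cj Nm_mul Nm_nat)
open H55K.MG (VC Crd)

variable {F : Type} [Field F] [NumberField F] [IQ F] {A B : F} {Om : ℂ} {Ω : Type} [Field Ω] [DecidableEq Ω]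
  [Algebra F Ω] {j : Ω →+* ℂ} {act : 𝓞 F →+* AddMonoid.End (Pt (WAB A B) Ω)} {V : ValuationSubring Ω}
  {W' : WeierstrassCurve Ω} {u r s t : Ω} {Θ : Pt (WAB A B) Ω ≃+ W'.toAffine.Point} {Kg : AddSubgroup (Pt (WAB A B) Ω)}

/-- Chunk B3 (M). S the set of the nonzero T with act a T = 0 (H55K.exists_TN, G4A.lean), X, Y generic (exists_gen) for a, S. act a X, act a Y are nonzero (not in Kg). e2x; all the factors of the right side have value 1 (xp_diff for X, Y and for X + R, Y), and so have V(a)^2 and V(xp (aX) - xp (aY)) (xp_diff). In the left product the factor of R not in Kg has value 1 (xp_diff, rm, rp), that of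
R in Kg has the value V(xp R) > 1 (xp_far, R ≠ 0). So the product over S of values ≥ 1 is 1: no factor is > 1 (Finset.prod: if one is > 1 the product is > 1, e.g. Finset.one_lt_prod' or induction in the linearly ordered group with zero), S ∩ Kg is empty. -/
theorem tor_kg (h : CMA F A B Om j act) (hG : GD V W' u r s t Θ Kg) {a : 𝓞 F} (ha : V.valuation (ak Ω a) = 1)
    {T : Pt (WAB A B) Ω} (hT : act a T = 0) (hK : T ∈ Kg) : T = 0 := by
  classical
  by_contra hT0
  have ha0 : a ≠ 0 := by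
    rintro rfl
    have h1 : ak Ω (0 : 𝓞 F) = 0 := by
      show algebraMap F Ω (algebraMap (𝓞 F) F 0) = 0
      rw [map_zero, map_zero]
    rw [h1, map_zero] at ha
    exact zero_ne_one ha
  obtain ⟨S, hS, -⟩ := H55K.exists_TN h ha0
  obtain ⟨X, Y, g⟩ := exists_gen h hG ha0 S
  have haX : act a X ≠ 0 := fun h0 => g.ax (by rw [h0]; exact Kg.zero_mem)
  have haY : act a Y ≠ 0 := fun h0 => g.ay (by rw [h0]; exact Kg.zero_mem)
  have e := congrArg V.valuation (e2x h hG ha0 hS haX haY)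
  simp only [map_mul, map_pow, map_prod] at e
  rw [ha, xp_diff hG g.ax g.ay g.am g.ap, xp_diff hG g.x g.y g.m g.p, one_pow, one_mul, one_mul, one_mul] at e
  have p2 : ∏ R ∈ S, V.valuation (xp Θ (X + R) - xp Θ Y) = 1 :=
    Finset.prod_eq_one fun R hR => xp_diff hG (g.xr R hR) g.y (g.xrm R hR) (g.xrp R hR)
  rw [p2] at e
  have hge : ∀ R ∈ S, 1 ≤ V.valuation (xp Θ R - xp Θ Y) := by
    intro R hR
    by_cases hRK : R ∈ Kg
    · have h1 := xp_far hG hRK ((hS R).1 hR).2 g.y
      rw [h1.2]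
      exact h1.1.le
    · rw [xp_diff hG hRK g.y (g.rm R hR) (g.rp R hR)]
  have hTS : T ∈ S := (hS T).2 ⟨hT, hT0⟩
  have hgt : 1 < V.valuation (xp Θ T - xp Θ Y) := by
    have h1 := xp_far hG hK hT0 g.y
    rw [h1.2]
    exact h1.1
  rw [← Finset.mul_prod_erase S _ hTS] at e
  have h2 : 1 ≤ ∏ R ∈ S.erase T, V.valuation (xp Θ R - xp Θ Y) :=
    Finset.one_le_prod' fun R hR => hge R (Finset.mem_of_mem_erase hR)
  have h3 : V.valuation (xp Θ T - xp Θ Y) ≤
      V.valuation (xp Θ T - xp Θ Y) * ∏ R ∈ S.erase T, V.valuation (xp Θ R - xp Θ Y) := le_mul_of_one_le_right' h2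
  rw [e] at h3
  exact absurd (lt_of_lt_of_le hgt h3) (lt_irrefl _)

end H55G
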