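import Mathlib
import Pool.Agent.Lib.H55G.B1
import Pool.Agent.Lib.H55G.B2
import Pool.Agent.Lib.H55G.B3a

/-! # H55G, part B: the kernel of reduction and the action -/

open NumberField IsDedekindDomain WeierstrassCurve Polynomial

namespace H55G

open H55P (IQ embF eF LF Per IsHecke Pt ac Inert Dec Nm)
open H35P (WAB Ker GoodW IntW)
open H55K (CMA Tor TN ak xc yc cj cj_cj mul_cj Nm_cj Nm_mul Nm_nat)
open H55K.MG (VC Crd)

variable {F : Type} [Field F] [NumberField F] [IQ F] {A B : F} {Om : ℂ} {Ω : Type} [Field Ω] [DecidableEq Ω]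
  [Algebra F Ω] {j : Ω →+* ℂ} {act : 𝓞 F →+* AddMonoid.End (Pt (WAB A B) Ω)} {V : ValuationSubring Ω}
  {W' : WeierstrassCurve Ω} {u r s t : Ω} {Θ : Pt (WAB A B) Ω ≃+ W'.toAffine.Point} {Kg : AddSubgroup (Pt (WAB A B) Ω)}

omit [NumberField F] [IQ F] [DecidableEq Ω] in
/-- Auxiliary: integers of F are in V. -/
theorem b3b_le (V : ValuationSubring Ω) (a : 𝓞 F) : V.valuation (ak Ω a) ≤ 1 := by
  rw [V.valuation_le_one_iff]
  have h1 : IsIntegral ℤ (ak Ω a) := by
    have h2 : IsIntegral ℤ (a : F) := RingOfIntegers.isIntegral_coe a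
    exact h2.map ((algebraMap F Ω).toIntAlgHom)
  have h3 : IsIntegral V (ak Ω a) := h1.tower_top
  obtain ⟨y, hy⟩ := IsIntegrallyClosed.isIntegral_iff.1 h3
  rw [← hy]
  exact y.2

/-- Auxiliary: the case V(a) = 1. -/
theorem b3b_unit (h : CMA F A B Om j act) (hG : GD V W' u r s t Θ Kg) {a : 𝓞 F} (ha : V.valuation (ak Ω a) = 1)
    {P : Pt (WAB A B) Ω} (hP : P ∈ Kg) : act a P ∈ Kg := by
  classical
  by_contra hc
  have haP : act a P ≠ 0 := fun h0 => hc (by rw [h0]; exact Kg.zero_mem)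
  have hP0 : P ≠ 0 := by
    rintro rfl
    exact haP (map_zero _)
  have ha0 : a ≠ 0 := by
    rintro rfl
    exact haP (by rw [map_zero]; rfl)
  obtain ⟨S, hS, -⟩ := H55K.exists_TN h ha0
  obtain ⟨X, Y, g⟩ := exists_gen h hG ha0 S
  have haY : act a Y ≠ 0 := fun h0 => g.ay (by rw [h0]; exact Kg.zero_mem)
  have e := congrArg V.valuation (e2x h hG ha0 hS haP haY)
  simp only [map_mul, map_pow, map_prod] at e
  have hR : ∀ R ∈ S, R ∉ Kg := fun R hR hRK => ((hS R).1 hR).2 (tor_kg h hG ha ((hS R).1 hR).1 hRK)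
  have p1 : ∏ R ∈ S, V.valuation (xp Θ R - xp Θ Y) = 1 :=
    Finset.prod_eq_one fun R hRS => xp_diff hG (hR R hRS) g.y (g.rm R hRS) (g.rp R hRS)
  have p2 : ∏ R ∈ S, V.valuation (xp Θ (P + R) - xp Θ Y) = 1 := by
    refine Finset.prod_eq_one fun R hRS => xp_diff hG (fun hm => hR R hRS ?_) g.y (fun hm => g.rm R hRS ?_)
      (fun hm => g.rp R hRS ?_)
    · exact (Kg.add_mem_cancel_left hP).1 hm
    · rw [add_sub_assoc] at hm
      exact (Kg.add_mem_cancel_left hP).1 hm
    · rw [add_assoc] at hm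
      exact (Kg.add_mem_cancel_left hP).1 hm
  have hf := xp_far hG hP hP0 g.y
  rw [p1, p2, ha, one_pow, one_mul, mul_one, mul_one, hf.2] at e
  have h1 : V.valuation (xp Θ (act a P)) ≤ 1 := (V.valuation_le_one_iff _).2 (xp_int hG hc).2.1
  have h2 : V.valuation (xp Θ (act a Y)) ≤ 1 := (V.valuation_le_one_iff _).2 (xp_int hG g.ay).2.1
  have h3 : V.valuation (xp Θ (act a P) - xp Θ (act a Y)) ≤ 1 := V.valuation.map_sub_le h1 h2
  rw [e] at h3
  exact absurd (lt_of_lt_of_le hf.1 h3) (lt_irrefl _)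

/-- Chunk B3 (M). First V(a) = 1 (so a ≠ 0). P in Kg; assume P ≠ 0 and act a P ≠ 0. S as in tor_kg, X, Y generic for a, S (only Y is used). e2x with P, Y: for R in S: R is not in Kg (tor_kg), P + R is not in Kg, P + R - Y, P + R + Y are not in Kg (rm, rp, P in Kg): V(xp (P + R) - xp Y) = 1 and V(xp R - xp Y) = 1. So V(xp (aP) - xp (aY)) = V(xp P - xp Y) = V(xp P) > 1 (xp_far).
If aP were not in Kg then V(xp (aP)) ≤ 1 and V(xp (aY)) ≤ 1 (xp_int): contradiction. General a: V(a) ≤ 1 (integers of F are in V: H55K.TQ.t9c_int or ak_le); if V(a) < 1 then V(a - 1) = 1 and act a P = act (a - 1) P + P. -/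
theorem kg_stable (h : CMA F A B Om j act) (hG : GD V W' u r s t Θ Kg) (a : 𝓞 F) {P : Pt (WAB A B) Ω} (hP : P ∈ Kg) :
    act a P ∈ Kg := by
  by_cases ha : V.valuation (ak Ω a) = 1
  · exact b3b_unit h hG ha hP
  · have hle : V.valuation (ak Ω a) ≤ 1 := b3b_le V a
    have hlt : V.valuation (ak Ω a) < 1 := lt_of_le_of_ne hle ha
    have h1 : V.valuation (ak Ω (a - 1)) = 1 := by
      have e : ak Ω (a - 1) = ak Ω a - 1 := by
        show algebraMap F Ω (algebraMap (𝓞 F) F (a - 1)) = algebraMap F Ω (algebraMap (𝓞 F) F a) - 1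
        rw [map_sub, map_sub, map_one, map_one]
      rw [e]
      have h2 : V.valuation (ak Ω a) < V.valuation 1 := by rwa [map_one]
      rw [Valuation.map_sub_eq_of_lt_right _ h2, map_one]
    have h3 : act a P = act (a - 1) P + P := by
      have e : act a = act (a - 1) + 1 := by
        rw [map_sub, map_one, sub_add_cancel]
      rw [e]
      rfl
    rw [h3]
    exact Kg.add_mem (b3b_unit h hG h1 hP) hP

end H55G
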