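import Mathlib
import Pool.Agent.Lib.H55G.B3

/-! # H55G, part B: the prime below V -/

open NumberField IsDedekindDomain WeierstrassCurve Polynomial

namespace H55G

open H55P (IQ embF eF LF Per IsHecke Pt ac Inert Dec Nm)
open H35P (WAB Ker GoodW IntW)
open H55K (CMA Tor TN ak xc yc cj cj_cj mul_cj Nm_cj Nm_mul Nm_nat)
open H55K.MG (VC Crd)

variable {F : Type} [Field F] [NumberField F] [IQ F] {A B : F} {Om : ℂ} {Ω : Type} [Field Ω] [DecidableEq Ω]
  [Algebra F Ω] {j : Ω →+* ℂ} {act : 𝓞 F →+* AddMonoid.End (Pt (WAB A B) Ω)} {V : ValuationSubring Ω}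
  {W' : WeierstrassCurve Ω} {u r s t : Ω} {Θ : Pt (WAB A B) Ω ≃+ W'.toAffine.Point} {Kg : AddSubgroup (Pt (WAB A B) Ω)}

omit [IQ F] [DecidableEq Ω] in
theorem b4a_le (c : 𝓞 F) : V.valuation (ak Ω c) ≤ 1 := by
  rw [V.valuation_le_one_iff]
  have h1 : IsIntegral ℤ (ak Ω c) := by
    have h2 : IsIntegral ℤ (c : F) := RingOfIntegers.isIntegral_coe c
    exact h2.map ((algebraMap F Ω).toIntAlgHom)
  have h3 : IsIntegral V (ak Ω c) := h1.tower_top
  obtain ⟨y, hy⟩ := IsIntegrallyClosed.isIntegral_iff.1 h3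
  rw [← hy]
  exact y.2

omit [IQ F] in
theorem b4a_inv {b c : 𝓞 F} (hb : Prime b) (hc : ¬ b ∣ c) : ∃ y d : 𝓞 F, y * c + b * d = 1 := by
  have h1 : (Ideal.span {b} : Ideal (𝓞 F)).IsPrime := (Ideal.span_singleton_prime hb.ne_zero).2 hb
  have h2 : (Ideal.span {b} : Ideal (𝓞 F)).IsMaximal :=
    h1.isMaximal (by rw [Ne, Ideal.span_singleton_eq_bot]; exact hb.ne_zero)
  have h3 : c ∉ (Ideal.span {b} : Ideal (𝓞 F)) := fun h => hc (Ideal.mem_span_singleton.1 h)
  obtain ⟨y, i, hi, hy⟩ := h2.exists_inv h3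
  obtain ⟨d, rfl⟩ := Ideal.mem_span_singleton.1 hi
  exact ⟨y, d, hy⟩

omit [DecidableEq Ω] in
/-- A product of elements of value 1 has value 1. -/
theorem b4a_prod {ι : Type} (S : Finset ι) (f : ι → Ω) (hf : ∀ R ∈ S, V.valuation (f R) = 1) :
    V.valuation (∏ R ∈ S, f R) = 1 := by
  rw [map_prod]
  exact Finset.prod_eq_one hf

omit [NumberField F] [IQ F] in
theorem b4a_mul (act : 𝓞 F →+* AddMonoid.End (Pt (WAB A B) Ω)) (a c : 𝓞 F) (P : Pt (WAB A B) Ω) :
    act (a * c) P = act a (act c P) := by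
  rw [map_mul]
  rfl

omit [NumberField F] [IQ F] in
theorem b4a_add (act : 𝓞 F →+* AddMonoid.End (Pt (WAB A B) Ω)) (a c : 𝓞 F) (P : Pt (WAB A B) Ω) :
    act (a + c) P = act a P + act c P := by
  rw [map_add]
  rfl

omit [NumberField F] [IQ F] in
theorem b4a_comm (act : 𝓞 F →+* AddMonoid.End (Pt (WAB A B) Ω)) (a c : 𝓞 F) (P : Pt (WAB A B) Ω) :
    act a (act c P) = act c (act a P) := by
  rw [← b4a_mul, ← b4a_mul, mul_comm]

omit [DecidableEq Ω] in
/-- Chunk B4 (S). 𝓞 F is a principal ideal domain (IQ F; or only: span {b} is a maximal ideal since b is a prime element of the Dedekind domain), so x b + y c = 1 for some x, y; V(x b) < 1, so V(y c) = 1, V(c) = 1 (all values ≤ 1: t9c_int). Conversely b ∣ c gives V(c) < 1. -/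
theorem val_nb {b : 𝓞 F} (hb : Prime b) (hV : V.valuation (ak Ω b) < 1) (c : 𝓞 F) :
    (¬ b ∣ c → V.valuation (ak Ω c) = 1) ∧ (b ∣ c → V.valuation (ak Ω c) < 1) := by
  refine ⟨fun hc => ?_, fun hc => ?_⟩
  · obtain ⟨y, d, hy⟩ := b4a_inv hb hc
    have h1 : ak Ω y * ak Ω c + ak Ω b * ak Ω d = 1 := by
      have h2 := congrArg (fun z : 𝓞 F => ak Ω z) hy
      simp only [ak, map_add, map_mul, map_one] at h2 ⊢
      exact h2
    have h2 : V.valuation (ak Ω b * ak Ω d) < 1 := by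
      rw [map_mul]
      exact mul_lt_one_of_lt_of_le hV (b4a_le d)
    have h3 : V.valuation (ak Ω y * ak Ω c) = 1 := by
      have h4 : ak Ω y * ak Ω c = 1 - ak Ω b * ak Ω d := by rw [← h1, add_sub_cancel_right]
      rw [h4]
      have h5 : V.valuation (ak Ω b * ak Ω d) < V.valuation (1 : Ω) := by rw [map_one]; exact h2
      rw [Valuation.map_sub_eq_of_lt_left _ h5, map_one]
    rw [map_mul] at h3
    refine le_antisymm (b4a_le c) ?_
    rw [← h3]
    exact mul_le_of_le_one_left' (b4a_le y)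
  · obtain ⟨d, rfl⟩ := hc
    have h1 : ak Ω (b * d) = ak Ω b * ak Ω d := by
      simp only [ak, map_mul]
    rw [h1, map_mul]
    exact mul_lt_one_of_lt_of_le hV (b4a_le d)

/-- Chunk B4 (M). Suppose T with act b T = 0, T not in Kg. Then no nonzero element of the kernel of act b is in Kg: let T' ≠ 0 be one. The kernel is {act c T₀} with act c T₀ = 0 iff b ∣ c (h.gen); T = act c T₀ and T' = act c' T₀ with b not dividing c'; there is x with x c' - c divisible by b (span {b} maximal), act x T' = T, in Kg by kg_stable: contradiction. So for S = the nonzero elements of the kernel (exists_TN) all R in S are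
not in Kg; X, Y generic: in e2x all factors except V(b)^2 < 1 have value 1 (xp_diff): contradiction. -/
theorem torb_kg (h : CMA F A B Om j act) (hG : GD V W' u r s t Θ Kg) {b : 𝓞 F} (hb : Prime b)
    (hV : V.valuation (ak Ω b) < 1) {T : Pt (WAB A B) Ω} (hT : act b T = 0) : T ∈ Kg := by
  by_contra hTK
  have hb0 : b ≠ 0 := hb.ne_zero
  have hT0 : T ≠ 0 := fun h0 => hTK (h0 ▸ Kg.zero_mem)
  obtain ⟨T₀, hT₀, hgen, hdvd, -⟩ := h.gen b hb0
  obtain ⟨c, hc⟩ := hgen T hT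
  have key : ∀ T' : Pt (WAB A B) Ω, act b T' = 0 → T' ≠ 0 → T' ∉ Kg := by
    intro T' hT' hT'0 hT'K
    obtain ⟨c', hc'⟩ := hgen T' hT'
    have hnd : ¬ b ∣ c' := fun hd => hT'0 (by rw [hc']; exact (hdvd c').2 hd)
    obtain ⟨y, d, hy⟩ := b4a_inv hb hnd
    have h1 : T = act (c * y) T' := by
      have h2 : c = c * y * c' + c * (b * d) := by rw [mul_assoc, ← mul_add, hy, mul_one]
      have h3 : act (c * (b * d)) T₀ = 0 := (hdvd _).2 ⟨c * d, by ring⟩
      rw [hc, hc', ← b4a_mul]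
      conv_lhs => rw [h2]
      rw [b4a_add, h3, add_zero]
    exact hTK (h1 ▸ kg_stable h hG (c * y) hT'K)
  obtain ⟨S, hS, -⟩ := H55K.exists_TN h hb0
  obtain ⟨X, Y, g⟩ := exists_gen h hG hb0 S
  have hSK : ∀ R ∈ S, R ∉ Kg := fun R hR => key R ((hS R).1 hR).1 ((hS R).1 hR).2
  have haX : act b X ≠ 0 := fun h0 => g.ax (h0 ▸ Kg.zero_mem)
  have haY : act b Y ≠ 0 := fun h0 => g.ay (h0 ▸ Kg.zero_mem)
  have e := congrArg V.valuation (e2x h hG hb0 hS haX haY)
  rw [map_mul, map_mul, map_mul, map_pow, xp_diff hG g.ax g.ay g.am g.ap, xp_diff hG g.x g.y g.m g.p,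
    b4a_prod S _ fun R hR => xp_diff hG (hSK R hR) g.y (g.rm R hR) (g.rp R hR),
    b4a_prod S _ fun R hR => xp_diff hG (g.xr R hR) g.y (g.xrm R hR) (g.xrp R hR), mul_one, mul_one, mul_one] at e
  exact absurd e (ne_of_lt (pow_lt_one' hV two_ne_zero))

end H55G
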