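import Mathlib
import Pool.Agent.Lib.H55G.B3
import Pool.Agent.Lib.H55G.B4a

/-! # H55G, part B: the prime below V -/

open NumberField IsDedekindDomain WeierstrassCurve Polynomial

namespace H55G

open H55P (IQ embF eF LF Per IsHecke Pt ac Inert Dec Nm)
open H35P (WAB Ker GoodW IntW)
open H55K (CMA Tor TN ak xc yc cj cj_cj mul_cj Nm_cj Nm_mul Nm_nat)
open H55K.MG (VC Crd)

variable {F : Type} [Field F] [NumberField F] [IQ F] {A B : F} {Om : ℂ} {Ω : Type} [Field Ω] [DecidableEq Ω]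
  [Algebra F Ω] {j : Ω →+* ℂ} {act : 𝓞 F →+* AddMonoid.End (Pt (WAB A B) Ω)} {V : ValuationSubring Ω}
  {W' : WeierstrassCurve Ω} {u r s t : Ω} {Θ : Pt (WAB A B) Ω ≃+ W'.toAffine.Point} {Kg : AddSubgroup (Pt (WAB A B) Ω)}

/-- Chunk B4 (S/M). X, Y generic for b, S. e2x: V(b)^2 · 1 · ∏ V(xp R) = 1 · ∏ 1: for R in S, R in Kg (torb_kg), V(xp R - xp Y) = V(xp R) (xp_far). -/
theorem cb_one (h : CMA F A B Om j act) (hG : GD V W' u r s t Θ Kg) {b : 𝓞 F} (hb : Prime b)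
    (hV : V.valuation (ak Ω b) < 1) {S : Finset (Pt (WAB A B) Ω)} (hS : TN act b S) :
    V.valuation (ak Ω b ^ 2 * ∏ R ∈ S, xp Θ R) = 1 := by
  have hb0 : b ≠ 0 := hb.ne_zero
  obtain ⟨X, Y, g⟩ := exists_gen h hG hb0 S
  have haX : act b X ≠ 0 := fun h0 => g.ax (h0 ▸ Kg.zero_mem)
  have haY : act b Y ≠ 0 := fun h0 => g.ay (h0 ▸ Kg.zero_mem)
  have e := congrArg V.valuation (e2x h hG hb0 hS haX haY)
  have h1 : V.valuation (∏ R ∈ S, (xp Θ R - xp Θ Y)) = V.valuation (∏ R ∈ S, xp Θ R) := by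
    rw [map_prod, map_prod]
    refine Finset.prod_congr rfl fun R hR => ?_
    exact (xp_far hG (torb_kg h hG hb hV ((hS R).1 hR).1) ((hS R).1 hR).2 g.y).2
  rw [map_mul, map_mul, map_mul, xp_diff hG g.ax g.ay g.am g.ap, xp_diff hG g.x g.y g.m g.p, h1,
    b4a_prod S _ fun R hR => xp_diff hG (g.xr R hR) g.y (g.xrm R hR) (g.xrp R hR), mul_one, mul_one] at e
  rw [map_mul]
  exact e

end H55G
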