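import Mathlib
import Pool.Agent.Lib.H55G.B3
import Pool.Agent.Lib.H55G.B4b

/-! # H55G, part B: the prime below V -/

open NumberField IsDedekindDomain WeierstrassCurve Polynomial

namespace H55G

open H55P (IQ embF eF LF Per IsHecke Pt ac Inert Dec Nm)
open H35P (WAB Ker GoodW IntW)
open H55K (CMA Tor TN ak xc yc cj cj_cj mul_cj Nm_cj Nm_mul Nm_nat)
open H55K.MG (VC Crd)

variable {F : Type} [Field F] [NumberField F] [IQ F] {A B : F} {Om : ℂ} {Ω : Type} [Field Ω] [DecidableEq Ω]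
  [Algebra F Ω] {j : Ω →+* ℂ} {act : 𝓞 F →+* AddMonoid.End (Pt (WAB A B) Ω)} {V : ValuationSubring Ω}
  {W' : WeierstrassCurve Ω} {u r s t : Ω} {Θ : Pt (WAB A B) Ω ≃+ W'.toAffine.Point} {Kg : AddSubgroup (Pt (WAB A B) Ω)}

omit [DecidableEq Ω] in
theorem b4c_mul {x y : V.ValueGroup} (hx : x ≤ 1) (hy : y < 1) : x * y < 1 := by
  rw [mul_comm]
  exact mul_lt_one_of_lt_of_le hy hx

omit [DecidableEq Ω] in
/-- Congruent factors of value at most 1 have congruent products. -/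
theorem b4c_prod {ι : Type} (S : Finset ι) (f g : ι → Ω) (hf : ∀ R ∈ S, V.valuation (f R) ≤ 1)
    (hg : ∀ R ∈ S, V.valuation (g R) ≤ 1) (hfg : ∀ R ∈ S, V.valuation (f R - g R) < 1) :
    V.valuation (∏ R ∈ S, f R - ∏ R ∈ S, g R) < 1 := by
  classical
  induction S using Finset.induction_on with
  | empty =>
    rw [Finset.prod_empty, Finset.prod_empty, sub_self, map_zero]
    exact zero_lt_one
  | insert a S ha ih =>
    rw [Finset.prod_insert ha, Finset.prod_insert ha]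
    have h1 := ih (fun R hR => hf R (Finset.mem_insert_of_mem hR)) (fun R hR => hg R (Finset.mem_insert_of_mem hR))
      (fun R hR => hfg R (Finset.mem_insert_of_mem hR))
    have h2 : f a * ∏ R ∈ S, f R - g a * ∏ R ∈ S, g R =
        f a * (∏ R ∈ S, f R - ∏ R ∈ S, g R) + (f a - g a) * ∏ R ∈ S, g R := by ring
    rw [h2]
    refine V.valuation.map_add_lt ?_ ?_
    · rw [map_mul]
      exact b4c_mul (hf a (Finset.mem_insert_self a S)) h1
    · rw [map_mul]
      refine mul_lt_one_of_lt_of_le (hfg a (Finset.mem_insert_self a S)) ?_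
      rw [map_prod]
      exact Finset.prod_le_one' fun R hR => hg R (Finset.mem_insert_of_mem hR)

/-- Chunk B4 (M). c = b^2 ∏ xp R, V(c) = 1 (cb_one). act b X ≠ 0: otherwise X in Kg (torb_kg). e2x: b^2 (xp (bX) - xp (bY)) ∏ (xp R - xp Y) = (xp X - xp Y) ∏ (xp (X + R) - xp Y). ∏ (xp R - xp Y) = (∏ xp R)(1 + m) with V(m) < 1 (each xp R - xp Y = xp R (1 - xp Y / xp R), V(xp Y/xp R) < 1; products of elements 1 + m_i); the right side is (xp X - xp Y)^(Nm b) + m' with V(m') < 1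
(xp (X + R) - xp X has value < 1: xp_cong; all in V; card S + 1 = Nm b since S is the set of exists_TN, being determined by TN). So c (xp (bX) - xp (bY)) (1 + m) = (xp X - xp Y)^(Nm b) + m'; the right side has value ≤ 1, 1 + m has value 1, so V(c (xp (bX) - xp (bY))) ≤ 1 and c (xp (bX) - xp (bY)) - (xp X - xp Y)^(Nm b) = m' - m c (xp (bX) - xp (bY)) has value < 1. -/
theorem cb_cong (h : CMA F A B Om j act) (hG : GD V W' u r s t Θ Kg) {b : 𝓞 F} (hb : Prime b)
    (hV : V.valuation (ak Ω b) < 1) {S : Finset (Pt (WAB A B) Ω)} (hS : TN act b S) {X Y : Pt (WAB A B) Ω} (hX : X ∉ Kg)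
    (hY : Y ∉ Kg) :
    V.valuation (ak Ω b ^ 2 * (∏ R ∈ S, xp Θ R) * (xp Θ (act b X) - xp Θ (act b Y)) - (xp Θ X - xp Θ Y) ^ Nm b) < 1 := by
  have hb0 : b ≠ 0 := hb.ne_zero
  have haX : act b X ≠ 0 := fun h0 => hX (torb_kg h hG hb hV h0)
  have haY : act b Y ≠ 0 := fun h0 => hY (torb_kg h hG hb hV h0)
  have e := e2x h hG hb0 hS haX haY
  have hc := cb_one h hG hb hV hS
  have hXV : V.valuation (xp Θ X) ≤ 1 := (V.valuation_le_one_iff _).2 (xp_int hG hX).2.1
  have hYV : V.valuation (xp Θ Y) ≤ 1 := (V.valuation_le_one_iff _).2 (xp_int hG hY).2.1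
  have hXY : V.valuation (xp Θ X - xp Θ Y) ≤ 1 := V.valuation.map_sub_le hXV hYV
  have hSK : ∀ R ∈ S, R ∈ Kg := fun R hR => torb_kg h hG hb hV ((hS R).1 hR).1
  have hS0 : ∀ R ∈ S, R ≠ 0 := fun R hR => ((hS R).1 hR).2
  -- the cardinality
  have hcard : S.card + 1 = Nm b := by
    obtain ⟨S', hS', hc'⟩ := H55K.exists_TN h hb0
    have hSS : S = S' := by
      ext R
      rw [hS R, hS' R]
    have hN : Nm b ≠ 0 := by
      intro h0
      have h1 : Ideal.absNorm (Ideal.span {b} : Ideal (𝓞 F)) = 0 := h0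
      rw [Ideal.absNorm_eq_zero_iff, Ideal.span_singleton_eq_bot] at h1
      exact hb0 h1
    rw [hSS, hc']
    omega
  -- the right side
  have hr : V.valuation ((xp Θ X - xp Θ Y) * ∏ R ∈ S, (xp Θ (X + R) - xp Θ Y) - (xp Θ X - xp Θ Y) ^ Nm b) < 1 := by
    have h1 : (xp Θ X - xp Θ Y) * ∏ R ∈ S, (xp Θ (X + R) - xp Θ Y) - (xp Θ X - xp Θ Y) ^ Nm b =
        (xp Θ X - xp Θ Y) * (∏ R ∈ S, (xp Θ (X + R) - xp Θ Y) - ∏ R ∈ S, (xp Θ X - xp Θ Y)) := by
      rw [← hcard, Finset.prod_const, pow_succ]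
      ring
    rw [h1, map_mul]
    refine b4c_mul hXY (b4c_prod S _ _ ?_ (fun R hR => hXY) ?_)
    · intro R hR
      have h2 : X + R ∉ Kg := fun h3 => hX (by
        have h4 := Kg.sub_mem h3 (hSK R hR)
        rwa [add_sub_cancel_right] at h4)
      exact V.valuation.map_sub_le ((V.valuation_le_one_iff _).2 (xp_int hG h2).2.1) hYV
    · intro R hR
      have h2 : xp Θ (X + R) - xp Θ Y - (xp Θ X - xp Θ Y) = xp Θ (X + R) - xp Θ X := by ring
      rw [h2]
      refine (xp_cong hG hX ?_).2.1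
      rw [add_sub_cancel_left]
      exact hSK R hR
  have hr1 : V.valuation ((xp Θ X - xp Θ Y) * ∏ R ∈ S, (xp Θ (X + R) - xp Θ Y)) ≤ 1 := by
    have h1 : (xp Θ X - xp Θ Y) * ∏ R ∈ S, (xp Θ (X + R) - xp Θ Y) =
        ((xp Θ X - xp Θ Y) * ∏ R ∈ S, (xp Θ (X + R) - xp Θ Y) - (xp Θ X - xp Θ Y) ^ Nm b) +
          (xp Θ X - xp Θ Y) ^ Nm b := by ring
    rw [h1]
    refine V.valuation.map_add_le hr.le ?_
    rw [map_pow]
    exact pow_le_one' hXY _
  -- the left side
  have hm : V.valuation (∏ R ∈ S, (1 - xp Θ Y / xp Θ R) - 1) < 1 := by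
    have h0 : ∀ R ∈ S, V.valuation (xp Θ Y / xp Θ R) < 1 := by
      intro R hR
      have h1 := (xp_far hG (hSK R hR) (hS0 R hR) hY).1
      rw [map_div₀]
      have h2 : 0 < V.valuation (xp Θ R) := lt_trans zero_lt_one h1
      rw [div_lt_one₀ h2]
      exact lt_of_le_of_lt hYV h1
    have h1 := b4c_prod (V := V) S (fun R => 1 - xp Θ Y / xp Θ R) (fun _ => (1 : Ω)) (fun R hR =>
      V.valuation.map_sub_le (map_one V.valuation).le (h0 R hR).le) (fun R hR => (map_one V.valuation).le) (fun R hR => by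
        rw [sub_sub_cancel_left, Valuation.map_neg]
        exact h0 R hR)
    rw [Finset.prod_const_one] at h1
    exact h1
  have hl : ∏ R ∈ S, (xp Θ R - xp Θ Y) = (∏ R ∈ S, xp Θ R) * ∏ R ∈ S, (1 - xp Θ Y / xp Θ R) := by
    rw [← Finset.prod_mul_distrib]
    refine Finset.prod_congr rfl fun R hR => ?_
    have h1 := (xp_far hG (hSK R hR) (hS0 R hR) hY).1
    have h2 : xp Θ R ≠ 0 := by
      intro h3
      rw [h3, map_zero] at h1
      exact absurd h1 (not_lt.2 zero_le_one)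
    field_simp
  rw [hl] at e
  set P1 := ∏ R ∈ S, xp Θ R with hP1
  set M := ∏ R ∈ S, (1 - xp Θ Y / xp Θ R) with hM
  set D := xp Θ (act b X) - xp Θ (act b Y) with hD
  set RR := (xp Θ X - xp Θ Y) * ∏ R ∈ S, (xp Θ (X + R) - xp Θ Y) with hRR
  have hM1 : V.valuation M = 1 := by
    have h1 : V.valuation (M - 1) < V.valuation (1 : Ω) := by rw [map_one]; exact hm
    have h2 : M = (M - 1) + 1 := by ring
    rw [h2, Valuation.map_add_eq_of_lt_right _ h1, map_one]
  have e' : ak Ω b ^ 2 * P1 * D * M = RR := by rw [← e]; ring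
  have hcD : V.valuation (ak Ω b ^ 2 * P1 * D) ≤ 1 := by
    have h1 := congrArg V.valuation e'
    rw [map_mul _ (ak Ω b ^ 2 * P1 * D), hM1, mul_one] at h1
    rw [h1]
    exact hr1
  have h1 : ak Ω b ^ 2 * P1 * D - (xp Θ X - xp Θ Y) ^ Nm b =
      (RR - (xp Θ X - xp Θ Y) ^ Nm b) - (ak Ω b ^ 2 * P1 * D) * (M - 1) := by
    rw [← e']; ring
  rw [h1]
  refine V.valuation.map_sub_lt hr ?_
  rw [map_mul]
  exact b4c_mul hcD hm

end H55G
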