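import Mathlib
import Pool.Agent.Lib.H55G.B3
import Pool.Agent.Lib.H55G.B4c

/-! # H55G, part B: the prime below V -/

open NumberField IsDedekindDomain WeierstrassCurve Polynomial

namespace H55G

open H55P (IQ embF eF LF Per IsHecke Pt ac Inert Dec Nm)
open H35P (WAB Ker GoodW IntW)
open H55K (CMA Tor TN ak xc yc cj cj_cj mul_cj Nm_cj Nm_mul Nm_nat)
open H55K.MG (VC Crd)

variable {F : Type} [Field F] [NumberField F] [IQ F] {A B : F} {Om : ℂ} {Ω : Type} [Field Ω] [DecidableEq Ω]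
  [Algebra F Ω] {j : Ω →+* ℂ} {act : 𝓞 F →+* AddMonoid.End (Pt (WAB A B) Ω)} {V : ValuationSubring Ω}
  {W' : WeierstrassCurve Ω} {u r s t : Ω} {Θ : Pt (WAB A B) Ω ≃+ W'.toAffine.Point} {Kg : AddSubgroup (Pt (WAB A B) Ω)}

/-- Chunk B4 (S). Y from exists_gen with act b Y not in Kg; cb_cong and cb_one: V(xp (bX) - xp (bY)) ≤ 1, so V(xp (bX)) ≤ 1 and bX is not in Kg (bX ≠ 0 by torb_kg; xp_far). -/
theorem b_kg (h : CMA F A B Om j act) (hG : GD V W' u r s t Θ Kg) {b : 𝓞 F} (hb : Prime b)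
    (hV : V.valuation (ak Ω b) < 1) {X : Pt (WAB A B) Ω} (hX : act b X ∈ Kg) : X ∈ Kg := by
  by_contra hXK
  have hb0 : b ≠ 0 := hb.ne_zero
  obtain ⟨S, hS, -⟩ := H55K.exists_TN h hb0
  obtain ⟨X', Y, g⟩ := exists_gen h hG hb0 S
  have hbX0 : act b X ≠ 0 := fun h0 => hXK (torb_kg h hG hb hV h0)
  have hXV : V.valuation (xp Θ X) ≤ 1 := (V.valuation_le_one_iff _).2 (xp_int hG hXK).2.1
  have hYV : V.valuation (xp Θ Y) ≤ 1 := (V.valuation_le_one_iff _).2 (xp_int hG g.y).2.1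
  have hXY : V.valuation (xp Θ X - xp Θ Y) ≤ 1 := V.valuation.map_sub_le hXV hYV
  have h1 := cb_cong h hG hb hV hS hXK g.y
  have h2 := cb_one h hG hb hV hS
  have h3 : V.valuation (ak Ω b ^ 2 * (∏ R ∈ S, xp Θ R) * (xp Θ (act b X) - xp Θ (act b Y))) ≤ 1 := by
    have h4 : ak Ω b ^ 2 * (∏ R ∈ S, xp Θ R) * (xp Θ (act b X) - xp Θ (act b Y)) =
        (ak Ω b ^ 2 * (∏ R ∈ S, xp Θ R) * (xp Θ (act b X) - xp Θ (act b Y)) - (xp Θ X - xp Θ Y) ^ Nm b) +
          (xp Θ X - xp Θ Y) ^ Nm b := by ring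
    rw [h4]
    refine V.valuation.map_add_le h1.le ?_
    rw [map_pow]
    exact pow_le_one' hXY _
  rw [map_mul, h2, one_mul, (xp_far hG hX hbX0 g.ay).2] at h3
  exact absurd (xp_far hG hX hbX0 g.ay).1 (not_lt.2 h3)

/-- Chunk B4 (S/M). If X in Kg: T = 0. Otherwise, if act c X = 0: T = X. Otherwise S = the nonzero elements of the kernel of act c, Y generic for c, S. e2x with X, Y: the left side has value V(xp (cX) - xp (cY)) ∏ V(xp R - xp Y), where V(xp (cX) - xp (cY)) > 1 (xp_far) and V(xp R - xp Y) = 1 (R not in Kg by tor_kg; rm, rp; xp_diff). V(xp X - xp Y) ≤ 1. So some factor xp (X + R) - xp Y has value > 1 (otherwise the product is ≤ 1), hence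
V(xp (X + R)) > 1, X + R in Kg: T = -R. -/
theorem lift_tor (h : CMA F A B Om j act) (hG : GD V W' u r s t Θ Kg) {c : 𝓞 F} (hc : V.valuation (ak Ω c) = 1)
    {X : Pt (WAB A B) Ω} (hX : act c X ∈ Kg) : ∃ T : Pt (WAB A B) Ω, act c T = 0 ∧ X - T ∈ Kg := by
  by_cases hXK : X ∈ Kg
  · exact ⟨0, map_zero _, by rw [sub_zero]; exact hXK⟩
  by_cases hcX0 : act c X = 0
  · exact ⟨X, hcX0, by rw [sub_self]; exact Kg.zero_mem⟩
  have hc0 : c ≠ 0 := by
    rintro rfl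
    have h0 : ak Ω (0 : 𝓞 F) = 0 := by simp only [ak, map_zero]
    rw [h0, map_zero] at hc
    exact zero_ne_one hc
  obtain ⟨S, hS, -⟩ := H55K.exists_TN h hc0
  obtain ⟨X', Y, g⟩ := exists_gen h hG hc0 S
  have hcY0 : act c Y ≠ 0 := fun h0 => g.ay (h0 ▸ Kg.zero_mem)
  have hXV : V.valuation (xp Θ X) ≤ 1 := (V.valuation_le_one_iff _).2 (xp_int hG hXK).2.1
  have hYV : V.valuation (xp Θ Y) ≤ 1 := (V.valuation_le_one_iff _).2 (xp_int hG g.y).2.1
  have hXY : V.valuation (xp Θ X - xp Θ Y) ≤ 1 := V.valuation.map_sub_le hXV hYV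
  have e := congrArg V.valuation (e2x h hG hc0 hS hcX0 hcY0)
  have hSK : ∀ R ∈ S, R ∉ Kg := fun R hR hK => ((hS R).1 hR).2 (tor_kg h hG hc ((hS R).1 hR).1 hK)
  rw [map_mul, map_mul, map_pow, hc, one_pow, one_mul, (xp_far hG hX hcX0 g.ay).2,
    b4a_prod S _ fun R hR => xp_diff hG (hSK R hR) g.y (g.rm R hR) (g.rp R hR), mul_one, map_mul] at e
  have h1 := (xp_far hG hX hcX0 g.ay).1
  by_contra hcon
  have h2 : ∀ R ∈ S, X + R ∉ Kg := by
    intro R hR hK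
    refine hcon ⟨-R, ?_, ?_⟩
    · rw [map_neg, ((hS R).1 hR).1, neg_zero]
    · rw [sub_neg_eq_add]
      exact hK
  have h3 : V.valuation (∏ R ∈ S, (xp Θ (X + R) - xp Θ Y)) ≤ 1 := by
    rw [map_prod]
    refine Finset.prod_le_one' fun R hR => ?_
    exact V.valuation.map_sub_le ((V.valuation_le_one_iff _).2 (xp_int hG (h2 R hR)).2.1) hYV
  rw [e] at h1
  exact absurd h1 (not_lt.2 (mul_le_one' hXY h3))

end H55G
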