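import Mathlib
import Pool.Agent.Lib.H55G.D0

/-! # H55G, part C: the residue field of V -/

open NumberField IsDedekindDomain WeierstrassCurve Polynomial

namespace H55G

variable {Ω : Type} [Field Ω] {V : ValuationSubring Ω}

theorem c1a_rs {x : Ω} (hx : x ∈ V) : rs V x = IsLocalRing.residue V ⟨x, hx⟩ := dif_pos hx

/-- Chunk C1 (S). dif_pos; the residue map is a ring homomorphism and its kernel is the maximal ideal: IsLocalRing.residue_eq_zero_iff, ValuationSubring.valuation_lt_one_iff (or mem_nonunits_iff). Every residue class is the class of an element of V (IsLocalRing.residue_surjective). -/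
theorem rs_add {x y : Ω} (hx : x ∈ V) (hy : y ∈ V) : rs V (x + y) = rs V x + rs V y := by
  rw [c1a_rs hx, c1a_rs hy, c1a_rs (add_mem hx hy), ← map_add]
  rfl

theorem rs_sub {x y : Ω} (hx : x ∈ V) (hy : y ∈ V) : rs V (x - y) = rs V x - rs V y := by
  rw [c1a_rs hx, c1a_rs hy, c1a_rs (sub_mem hx hy), ← map_sub]
  rfl

theorem rs_mul {x y : Ω} (hx : x ∈ V) (hy : y ∈ V) : rs V (x * y) = rs V x * rs V y := by
  rw [c1a_rs hx, c1a_rs hy, c1a_rs (mul_mem hx hy), ← map_mul]
  rfl

theorem rs_pow {x : Ω} (hx : x ∈ V) (n : ℕ) : rs V (x ^ n) = rs V x ^ n := by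
  rw [c1a_rs hx, c1a_rs (pow_mem hx n), ← map_pow]
  rfl

theorem rs_one : rs V (1 : Ω) = 1 := by
  rw [c1a_rs V.one_mem]
  exact map_one _

theorem rs_zero : rs V (0 : Ω) = 0 := by
  rw [c1a_rs V.zero_mem]
  exact map_zero _

theorem rs_prod {ι : Type} (S : Finset ι) (f : ι → Ω) (hf : ∀ i ∈ S, f i ∈ V) : rs V (∏ i ∈ S, f i) = ∏ i ∈ S, rs V (f i) := by
  classical
  induction S using Finset.induction_on with
  | empty => rw [Finset.prod_empty, Finset.prod_empty, rs_one]
  | insert a T ha ih =>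
    rw [Finset.prod_insert ha, Finset.prod_insert ha, rs_mul (hf a (Finset.mem_insert_self _ _))
      (prod_mem fun i hi => hf i (Finset.mem_insert_of_mem hi)), ih fun i hi => hf i (Finset.mem_insert_of_mem hi)]

theorem rs_eq_zero {x : Ω} (hx : x ∈ V) : rs V x = 0 ↔ V.valuation x < 1 := by
  rw [c1a_rs hx, IsLocalRing.residue_eq_zero_iff]
  exact V.valuation_lt_one_iff ⟨x, hx⟩

theorem rs_eq {x y : Ω} (hx : x ∈ V) (hy : y ∈ V) : rs V x = rs V y ↔ V.valuation (x - y) < 1 := by
  rw [← sub_eq_zero, ← rs_sub hx hy, rs_eq_zero (sub_mem hx hy)]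

theorem rs_surj (V : ValuationSubring Ω) (z : IsLocalRing.ResidueField V) : ∃ x ∈ V, rs V x = z := by
  obtain ⟨⟨x, hx⟩, h⟩ := IsLocalRing.residue_surjective z
  exact ⟨x, hx, (c1a_rs hx).trans h⟩

end H55G
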