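import Mathlib
import Pool.Agent.Lib.H55G.D0
import Pool.Agent.Lib.H55G.C1a

/-! # H55G, part C: the residue field of V -/

open NumberField IsDedekindDomain WeierstrassCurve Polynomial

namespace H55G

variable {Ω : Type} [Field Ω] {V : ValuationSubring Ω}

/-- Chunk C1 (S/M). A monic polynomial over the residue field of degree ≥ 1 lifts to a monic polynomial over V of the same degree (Polynomial.lifts_and_natDegree_eq_and_monic, the residue map is surjective); it has a root in Ω (IsAlgClosed), which is integral over V, so it is in V (V is integrally closed in Ω: ValuationSubring / IsIntegrallyClosed, or directly with the valuation);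
its class is a root. IsAlgClosed.of_exists_root. -/
theorem rs_algClosed [IsAlgClosed Ω] (V : ValuationSubring Ω) : IsAlgClosed (IsLocalRing.ResidueField V) := by
  refine IsAlgClosed.of_exists_root _ fun p hp hirr => ?_
  have hdeg : 0 < p.natDegree := hirr.natDegree_pos
  have hl : p ∈ Polynomial.lifts (IsLocalRing.residue V) := by
    rw [Polynomial.lifts_iff_coeff_lifts]
    intro n
    exact IsLocalRing.residue_surjective _
  obtain ⟨P, hP, hPd, hPm⟩ := Polynomial.lifts_and_natDegree_eq_and_monic hl hp
  have hPd' : (P.map (algebraMap V Ω)).degree ≠ 0 := by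
    rw [hPm.degree_map, Polynomial.degree_eq_natDegree hPm.ne_zero, hPd]
    exact_mod_cast hdeg.ne'
  obtain ⟨x, hx⟩ := IsAlgClosed.exists_root _ hPd'
  have hint : IsIntegral V x := ⟨P, hPm, by
    rw [← Polynomial.eval_map]
    exact hx⟩
  obtain ⟨y, hy⟩ := IsIntegrallyClosed.isIntegral_iff.1 hint
  refine ⟨IsLocalRing.residue V y, ?_⟩
  have h1 : P.eval y = 0 := by
    apply IsFractionRing.injective V Ω
    rw [map_zero]
    have h2 : (algebraMap V Ω) (P.eval y) = (P.map (algebraMap V Ω)).eval (algebraMap V Ω y) := by
      rw [Polynomial.eval_map, Polynomial.eval₂_at_apply]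
    rw [h2, hy]
    exact hx
  rw [← hP, Polynomial.eval_map, Polynomial.eval₂_at_apply, h1, map_zero]

/-- Chunk C1 (S). κ algebraically closed of characteristic l, q = l^f with f ≥ 1: T^q - T is separable (its derivative is -1: galois_poly_separable, or FiniteField.X_pow_card_sub_X), so it has q roots (Polynomial.card_rootSet_eq_natDegree or IsAlgClosed.splits). -/
theorem card_fix {κ : Type} [Field κ] [IsAlgClosed κ] {l : ℕ} (hl : l.Prime) (hc : (l : κ) = 0) {q f : ℕ} (hf : f ≠ 0) (hq : q = l ^ f) :
    Nat.card {x : κ // x ^ q = x} = q := by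
  classical
  have hq1 : 1 < q := by
    rw [hq]
    exact Nat.one_lt_pow hf hl.one_lt
  have hcq : (q : κ) = 0 := by
    rw [hq, Nat.cast_pow, hc, zero_pow hf]
  have hsep : (X ^ q - X : κ[X]).Separable := by
    rw [Polynomial.separable_def]
    refine ⟨0, -1, ?_⟩
    rw [Polynomial.derivative_sub, Polynomial.derivative_X_pow, Polynomial.derivative_X, hcq]
    simp
  have hdeg : (X ^ q - X : κ[X]).natDegree = q := FiniteField.X_pow_card_sub_X_natDegree_eq κ hq1
  have hne : (X ^ q - X : κ[X]) ≠ 0 := FiniteField.X_pow_card_sub_X_ne_zero κ hq1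
  have h1 : (X ^ q - X : κ[X]).roots.card = q :=
    (IsAlgClosed.splits (X ^ q - X : κ[X])).natDegree_eq_card_roots.symm.trans hdeg
  have h2 : (X ^ q - X : κ[X]).roots.toFinset.card = q := by
    rw [Multiset.toFinset_card_of_nodup (Polynomial.nodup_roots hsep), h1]
  have h3 : {x : κ // x ^ q = x} ≃ (X ^ q - X : κ[X]).roots.toFinset := by
    refine Equiv.subtypeEquivRight fun x => ?_
    rw [Multiset.mem_toFinset, Polynomial.mem_roots hne, Polynomial.IsRoot.def, Polynomial.eval_sub,
      Polynomial.eval_pow, Polynomial.eval_X, sub_eq_zero]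
  rw [Nat.card_congr h3, Nat.card_eq_fintype_card, Fintype.card_coe, h2]

end H55G
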