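import Mathlib
import Pool.Agent.Lib.H55G.B1
import Pool.Agent.Lib.H55G.B2
import Pool.Agent.Lib.H55G.C1

/-! # H55G, part C: the group of points of the reduced curve -/

open NumberField IsDedekindDomain WeierstrassCurve Polynomial

namespace H55G

open H55P (IQ embF eF LF Per IsHecke Pt ac Inert Dec Nm)
open H35P (WAB Ker GoodW IntW)
open H55K (CMA Tor TN ak xc yc cj cj_cj mul_cj Nm_cj Nm_mul Nm_nat)
open H55K.MG (VC Crd)

variable {F : Type} [Field F] [NumberField F] [IQ F] {A B : F} {Om : ℂ} {Ω : Type} [Field Ω] [DecidableEq Ω]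
  [Algebra F Ω] {j : Ω →+* ℂ} {act : 𝓞 F →+* AddMonoid.End (Pt (WAB A B) Ω)} {V : ValuationSubring Ω}
  {W' : WeierstrassCurve Ω} {u r s t : Ω} {Θ : Pt (WAB A B) Ω ≃+ W'.toAffine.Point} {Kg : AddSubgroup (Pt (WAB A B) Ω)}

omit [NumberField F] [IQ F] in
/-- Chunk C2 (S). The chosen representative Q of the class of P (Quotient.out) satisfies Q - P in Kg (QuotientAddGroup.eq: -Q + P in Kg), so xp_cong: xp Q - xp P has value < 1; both in V (xp_int); rs_eq. -/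
theorem XG_mk (hG : GD V W' u r s t Θ Kg) {P : Pt (WAB A B) Ω} (hP : P ∉ Kg) :
    XG V Θ Kg (P : Pt (WAB A B) Ω ⧸ Kg) = rs V (xp Θ P) ∧ YG V Θ Kg (P : Pt (WAB A B) Ω ⧸ Kg) = rs V (yp Θ P) := by
  set Q : Pt (WAB A B) Ω := (P : Pt (WAB A B) Ω ⧸ Kg).out with hQ
  have h1 : Q - P ∈ Kg := by
    have h2 : ((Q : Pt (WAB A B) Ω) : Pt (WAB A B) Ω ⧸ Kg) = (P : Pt (WAB A B) Ω ⧸ Kg) := QuotientAddGroup.out_eq' _
    have h3 := QuotientAddGroup.eq.1 h2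
    have h4 := neg_mem h3
    rwa [neg_add, neg_neg, ← sub_eq_add_neg] at h4
  obtain ⟨hQk, hx, hy⟩ := xp_cong hG hP h1
  obtain ⟨-, hPx, hPy⟩ := xp_int hG hP
  obtain ⟨-, hQx, hQy⟩ := xp_int hG hQk
  exact ⟨(rs_eq hQx hPx).2 hx, (rs_eq hQy hPy).2 hy⟩

/-- (x, y) satisfies the reduced equation. -/
def Eqr (V : ValuationSubring Ω) (W' : WeierstrassCurve Ω) (x y : IsLocalRing.ResidueField V) : Prop :=
  y ^ 2 + rs V W'.a₁ * x * y + rs V W'.a₃ * y = x ^ 3 + rs V W'.a₂ * x ^ 2 + rs V W'.a₄ * x + rs V W'.a₆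

omit [NumberField F] [IQ F] in
/-- Chunk C2 (S). g = class of P, P not in Kg. Θ P = some x y _ with the equation of W' (Affine.equation_iff), coefficients in V (hG.good), x, y in V (xp_int): apply rs (rs_add, rs_mul, rs_pow). -/
theorem XG_eqr (hG : GD V W' u r s t Θ Kg) {g : Pt (WAB A B) Ω ⧸ Kg} (hg : g ≠ 0) :
    Eqr V W' (XG V Θ Kg g) (YG V Θ Kg g) := by
  obtain ⟨P, rfl⟩ := QuotientAddGroup.mk_surjective g
  have hP : P ∉ Kg := fun h => hg ((QuotientAddGroup.eq_zero_iff P).2 h)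
  obtain ⟨e1, e2⟩ := XG_mk hG hP
  obtain ⟨hP0, hPx, hPy⟩ := xp_int hG hP
  rw [e1, e2]
  have h1 := hG.good.a1
  have h2 := hG.good.a2
  have h3 := hG.good.a3
  have h4 := hG.good.a4
  have h6 := hG.good.a6
  have heq : yp Θ P ^ 2 + W'.a₁ * xp Θ P * yp Θ P + W'.a₃ * yp Θ P =
      xp Θ P ^ 3 + W'.a₂ * xp Θ P ^ 2 + W'.a₄ * xp Θ P + W'.a₆ := by
    have hT0 : Θ P ≠ 0 := fun h => hP0 (Θ.injective (h.trans (map_zero Θ).symm))
    unfold xp yp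
    generalize Θ P = T at hT0
    rcases T with _ | ⟨x, y, hn⟩
    · exact absurd rfl hT0
    · exact (Affine.equation_iff _ _).1 hn.1
  generalize xp Θ P = x at heq hPx
  generalize yp Θ P = y at heq hPy
  have l1 : rs V (y ^ 2 + W'.a₁ * x * y + W'.a₃ * y) = rs V y ^ 2 + rs V W'.a₁ * rs V x * rs V y + rs V W'.a₃ * rs V y := by
    rw [rs_add (add_mem (pow_mem hPy 2) (mul_mem (mul_mem h1 hPx) hPy)) (mul_mem h3 hPy),
      rs_add (pow_mem hPy 2) (mul_mem (mul_mem h1 hPx) hPy), rs_pow hPy, rs_mul (mul_mem h1 hPx) hPy, rs_mul h1 hPx,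
      rs_mul h3 hPy]
  have l2 : rs V (x ^ 3 + W'.a₂ * x ^ 2 + W'.a₄ * x + W'.a₆) = rs V x ^ 3 + rs V W'.a₂ * rs V x ^ 2 + rs V W'.a₄ * rs V x +
      rs V W'.a₆ := by
    rw [rs_add (add_mem (add_mem (pow_mem hPx 3) (mul_mem h2 (pow_mem hPx 2))) (mul_mem h4 hPx)) h6,
      rs_add (add_mem (pow_mem hPx 3) (mul_mem h2 (pow_mem hPx 2))) (mul_mem h4 hPx),
      rs_add (pow_mem hPx 3) (mul_mem h2 (pow_mem hPx 2)), rs_pow hPx, rs_mul h2 (pow_mem hPx 2), rs_pow hPx, rs_mul h4 hPx]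
  unfold Eqr
  rw [← l1, ← l2, heq]

omit [NumberField F] [IQ F] in
/-- Chunk C2 (S/M). g, g' classes of P, P' not in Kg; XG_mk and rs_eq: V(xp P - xp P') < 1, V(yp P - yp P') < 1; MG.cong_ker (M3A.lean): Θ P - Θ P' in Ker, P - P' in Kg. -/
theorem XG_ext (hG : GD V W' u r s t Θ Kg) {g g' : Pt (WAB A B) Ω ⧸ Kg} (hg : g ≠ 0) (hg' : g' ≠ 0)
    (h1 : XG V Θ Kg g = XG V Θ Kg g') (h2 : YG V Θ Kg g = YG V Θ Kg g') : g = g' := by
  obtain ⟨P, rfl⟩ := QuotientAddGroup.mk_surjective g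
  obtain ⟨P', rfl⟩ := QuotientAddGroup.mk_surjective g'
  have hP : P ∉ Kg := fun h => hg ((QuotientAddGroup.eq_zero_iff P).2 h)
  have hP' : P' ∉ Kg := fun h => hg' ((QuotientAddGroup.eq_zero_iff P').2 h)
  obtain ⟨e1, e2⟩ := XG_mk hG hP
  obtain ⟨e1', e2'⟩ := XG_mk hG hP'
  rw [e1, e1'] at h1
  rw [e2, e2'] at h2
  obtain ⟨-, hPx, hPy⟩ := xp_int hG hP
  obtain ⟨-, hPx', hPy'⟩ := xp_int hG hP'
  have k1 : ¬ Ker V (Θ P) := fun h => hP ((hG.kg P).2 h)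
  have k2 : ¬ Ker V (Θ P') := fun h => hP' ((hG.kg P').2 h)
  have k3 := H55K.MG.cong_ker hG.good k1 k2 ((rs_eq hPx hPx').1 h1) ((rs_eq hPy hPy').1 h2)
  rw [← map_sub] at k3
  have k4 := (hG.kg _).2 k3
  refine QuotientAddGroup.eq.2 ?_
  have k5 := neg_mem k4
  rwa [neg_sub, sub_eq_neg_add] at k5

end H55G
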