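import Mathlib
import Pool.Agent.Lib.H55G.B1
import Pool.Agent.Lib.H55G.B2
import Pool.Agent.Lib.H55G.C1
import Pool.Agent.Lib.H55G.C2a

/-! # H55G, part C: the group of points of the reduced curve -/

open NumberField IsDedekindDomain WeierstrassCurve Polynomial

namespace H55G

open H55P (IQ embF eF LF Per IsHecke Pt ac Inert Dec Nm)
open H35P (WAB Ker GoodW IntW)
open H55K (CMA Tor TN ak xc yc cj cj_cj mul_cj Nm_cj Nm_mul Nm_nat)
open H55K.MG (VC Crd)

variable {F : Type} [Field F] [NumberField F] [IQ F] {A B : F} {Om : ℂ} {Ω : Type} [Field Ω] [DecidableEq Ω]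
  [Algebra F Ω] {j : Ω →+* ℂ} {act : 𝓞 F →+* AddMonoid.End (Pt (WAB A B) Ω)} {V : ValuationSubring Ω}
  {W' : WeierstrassCurve Ω} {u r s t : Ω} {Θ : Pt (WAB A B) Ω ≃+ W'.toAffine.Point} {Kg : AddSubgroup (Pt (WAB A B) Ω)}

omit [NumberField F] [IQ F] in
/-- Chunk C2 (S/M). If g ≠ g' and g ≠ -g' then P - P', P + P' are not in Kg and V(xp P - xp P') = 1 (xp_diff), so the classes differ (rs_eq). Conversely if g = g' clear, if g = -g': P + P' in Kg; -P' has the same x-coordinate as P' (Θ (-P') = -Θ P', Affine.Point.neg_some) and P - (-P') in Kg: XG_mk and xp_cong. -/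
theorem XG_inj (hG : GD V W' u r s t Θ Kg) {g g' : Pt (WAB A B) Ω ⧸ Kg} (hg : g ≠ 0) (hg' : g' ≠ 0) :
    XG V Θ Kg g = XG V Θ Kg g' ↔ g = g' ∨ g = -g' := by
  obtain ⟨P, rfl⟩ := QuotientAddGroup.mk_surjective g
  obtain ⟨P', rfl⟩ := QuotientAddGroup.mk_surjective g'
  have hP : P ∉ Kg := fun h => hg ((QuotientAddGroup.eq_zero_iff P).2 h)
  have hP' : P' ∉ Kg := fun h => hg' ((QuotientAddGroup.eq_zero_iff P').2 h)
  obtain ⟨-, hPx, -⟩ := xp_int hG hP
  obtain ⟨-, hPx', -⟩ := xp_int hG hP'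
  constructor
  · intro h1
    by_contra h2
    push Not at h2
    obtain ⟨h3, h4⟩ := h2
    rw [(XG_mk hG hP).1, (XG_mk hG hP').1, rs_eq hPx hPx'] at h1
    have h5 : P - P' ∉ Kg := by
      intro h6
      apply h3
      refine QuotientAddGroup.eq.2 ?_
      have k5 := neg_mem h6
      rwa [neg_sub, sub_eq_neg_add] at k5
    have h7 : P + P' ∉ Kg := by
      intro h6
      apply h4
      refine QuotientAddGroup.eq.2 ?_
      have k5 := neg_mem h6
      rwa [neg_add] at k5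
    exact h1.ne (xp_diff hG hP hP' h5 h7)
  · rintro (h1 | h1)
    · rw [h1]
    · have h2 : -P' ∉ Kg := fun h => hP' ((neg_mem_iff).1 h)
      have h3 : xp Θ (-P') = xp Θ P' := by
        unfold xp
        rw [map_neg]
        generalize Θ P' = T
        rcases T with _ | ⟨x, y, hn⟩ <;> rfl
      rw [h1]
      change XG V Θ Kg ((-P' : Pt (WAB A B) Ω) : Pt (WAB A B) Ω ⧸ Kg) = _
      rw [(XG_mk hG h2).1, (XG_mk hG hP').1, h3]

end H55G
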