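import Mathlib
import Pool.Agent.Lib.H55G.B1
import Pool.Agent.Lib.H55G.B2
import Pool.Agent.Lib.H55G.C1
import Pool.Agent.Lib.H55G.C2b

/-! # H55G, part C: the group of points of the reduced curve -/

open NumberField IsDedekindDomain WeierstrassCurve Polynomial

namespace H55G

open H55P (IQ embF eF LF Per IsHecke Pt ac Inert Dec Nm)
open H35P (WAB Ker GoodW IntW)
open H55K (CMA Tor TN ak xc yc cj cj_cj mul_cj Nm_cj Nm_mul Nm_nat)
open H55K.MG (VC Crd)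

variable {F : Type} [Field F] [NumberField F] [IQ F] {A B : F} {Om : ℂ} {Ω : Type} [Field Ω] [DecidableEq Ω]
  [Algebra F Ω] {j : Ω →+* ℂ} {act : 𝓞 F →+* AddMonoid.End (Pt (WAB A B) Ω)} {V : ValuationSubring Ω}
  {W' : WeierstrassCurve Ω} {u r s t : Ω} {Θ : Pt (WAB A B) Ω ≃+ W'.toAffine.Point} {Kg : AddSubgroup (Pt (WAB A B) Ω)}

omit [NumberField F] [IQ F] in
/-- Chunk C2 (M). Lift x to x₁ in V and y to y₁ in V (rs_surj). T^2 + (a₁ x₁ + a₃) T - (x₁^3 + a₂ x₁^2 + a₄ x₁ + a₆) has roots z, z' in Ω (IsAlgClosed: z a root, z' = -(a₁ x₁ + a₃) - z), both in V (monic with coefficients in V), and (y₁ - z)(y₁ - z') = the value at y₁, of value < 1 by Eqr (rs_eq_zero): V(y₁ - z) < 1 or V(y₁ - z') < 1; call it z.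
(x₁, z) is on W', nonsingular since Δ ≠ 0 (hG.good.disc; Affine.equation_iff_nonsingular_of_Δ_ne_zero); P = Θ.symm (some x₁ z _): V(x₁) ≤ 1, so P is not in Kg, xp P = x₁, yp P = z. XG_mk. Compare H13R.r2_lift (Lib/H13R/R2.lean). -/
theorem XG_lift [IsAlgClosed Ω] (hG : GD V W' u r s t Θ Kg) {x y : IsLocalRing.ResidueField V} (h : Eqr V W' x y) :
    ∃ g : Pt (WAB A B) Ω ⧸ Kg, g ≠ 0 ∧ XG V Θ Kg g = x ∧ YG V Θ Kg g = y := by
  obtain ⟨x₁, hx₁, ex⟩ := rs_surj V x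
  obtain ⟨y₁, hy₁, ey⟩ := rs_surj V y
  have h1 := hG.good.a1
  have h2 := hG.good.a2
  have h3 := hG.good.a3
  have h4 := hG.good.a4
  have h6 := hG.good.a6
  set β : Ω := W'.a₁ * x₁ + W'.a₃ with hβ
  set γ : Ω := -(x₁ ^ 3 + W'.a₂ * x₁ ^ 2 + W'.a₄ * x₁ + W'.a₆) with hγ
  have hβV : β ∈ V := add_mem (mul_mem h1 hx₁) h3
  have hRV : x₁ ^ 3 + W'.a₂ * x₁ ^ 2 + W'.a₄ * x₁ + W'.a₆ ∈ V :=
    add_mem (add_mem (add_mem (pow_mem hx₁ 3) (mul_mem h2 (pow_mem hx₁ 2))) (mul_mem h4 hx₁)) h6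
  have hLV : y₁ ^ 2 + W'.a₁ * x₁ * y₁ + W'.a₃ * y₁ ∈ V :=
    add_mem (add_mem (pow_mem hy₁ 2) (mul_mem (mul_mem h1 hx₁) hy₁)) (mul_mem h3 hy₁)
  obtain ⟨z, hz⟩ : ∃ z : Ω, z ^ 2 + β * z + γ = 0 := by
    have hd : (Polynomial.X ^ 2 + Polynomial.C β * Polynomial.X + Polynomial.C γ : Polynomial Ω).degree = 2 := by
      compute_degree!
    obtain ⟨z, hz⟩ := IsAlgClosed.exists_root (Polynomial.X ^ 2 + Polynomial.C β * Polynomial.X +
      Polynomial.C γ : Polynomial Ω) (by rw [hd]; norm_num)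
    refine ⟨z, ?_⟩
    rw [Polynomial.IsRoot.def] at hz
    simpa using hz
  have hval : V.valuation ((y₁ ^ 2 + W'.a₁ * x₁ * y₁ + W'.a₃ * y₁) - (x₁ ^ 3 + W'.a₂ * x₁ ^ 2 + W'.a₄ * x₁ + W'.a₆)) < 1 := by
    rw [← rs_eq hLV hRV]
    have l1 : rs V (y₁ ^ 2 + W'.a₁ * x₁ * y₁ + W'.a₃ * y₁) = rs V y₁ ^ 2 + rs V W'.a₁ * rs V x₁ * rs V y₁ + rs V W'.a₃ * rs V y₁ := by
      rw [rs_add (add_mem (pow_mem hy₁ 2) (mul_mem (mul_mem h1 hx₁) hy₁)) (mul_mem h3 hy₁),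
        rs_add (pow_mem hy₁ 2) (mul_mem (mul_mem h1 hx₁) hy₁), rs_pow hy₁, rs_mul (mul_mem h1 hx₁) hy₁, rs_mul h1 hx₁,
        rs_mul h3 hy₁]
    have l2 : rs V (x₁ ^ 3 + W'.a₂ * x₁ ^ 2 + W'.a₄ * x₁ + W'.a₆) = rs V x₁ ^ 3 + rs V W'.a₂ * rs V x₁ ^ 2 + rs V W'.a₄ * rs V x₁ +
        rs V W'.a₆ := by
      rw [rs_add (add_mem (add_mem (pow_mem hx₁ 3) (mul_mem h2 (pow_mem hx₁ 2))) (mul_mem h4 hx₁)) h6,
        rs_add (add_mem (pow_mem hx₁ 3) (mul_mem h2 (pow_mem hx₁ 2))) (mul_mem h4 hx₁),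
        rs_add (pow_mem hx₁ 3) (mul_mem h2 (pow_mem hx₁ 2)), rs_pow hx₁, rs_mul h2 (pow_mem hx₁ 2), rs_pow hx₁, rs_mul h4 hx₁]
    rw [l1, l2, ex, ey]
    exact h
  have hid : (y₁ - z) * (y₁ - (-β - z)) = (y₁ ^ 2 + W'.a₁ * x₁ * y₁ + W'.a₃ * y₁) - (x₁ ^ 3 + W'.a₂ * x₁ ^ 2 + W'.a₄ * x₁ + W'.a₆) := by
    rw [hβ, hγ] at hz
    rw [hβ]
    linear_combination -hz
  have hprod : V.valuation (y₁ - z) * V.valuation (y₁ - (-β - z)) < 1 := by
    rw [← map_mul, hid]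
    exact hval
  have hΔ : W'.Δ ≠ 0 := by
    intro h
    have h4 := hG.good.disc
    rw [h, map_zero] at h4
    exact zero_ne_one h4
  have hpt : ∀ y' : Ω, y' ^ 2 + β * y' + γ = 0 → V.valuation (y₁ - y') < 1 →
      ∃ g : Pt (WAB A B) Ω ⧸ Kg, g ≠ 0 ∧ XG V Θ Kg g = x ∧ YG V Θ Kg g = y := by
    intro y' hy' hv'
    have heq : W'.toAffine.Equation x₁ y' := by
      rw [Affine.equation_iff]
      rw [hβ, hγ] at hy'
      linear_combination hy'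
    have hns := (Affine.equation_iff_nonsingular_of_Δ_ne_zero (W := W'.toAffine) hΔ).1 heq
    obtain ⟨P, hPT⟩ := Θ.surjective (.some _ _ hns)
    have hP : P ∉ Kg := by
      intro h5
      have h7 := (hG.kg P).1 h5
      rw [hPT] at h7
      exact absurd ((V.valuation_le_one_iff _).2 hx₁) (not_le.2 h7)
    have hxP : xp Θ P = x₁ := by
      unfold xp
      rw [hPT]
      rfl
    have hyP : yp Θ P = y' := by
      unfold yp
      rw [hPT]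
      rfl
    obtain ⟨e1, e2⟩ := XG_mk hG hP
    obtain ⟨-, -, hyV⟩ := xp_int hG hP
    rw [hyP] at hyV
    refine ⟨(P : Pt (WAB A B) Ω ⧸ Kg), fun h5 => hP ((QuotientAddGroup.eq_zero_iff P).1 h5), ?_, ?_⟩
    · rw [e1, hxP, ex]
    · rw [e2, hyP, ← ey]
      refine (rs_eq hyV hy₁).2 ?_
      rw [Valuation.map_sub_swap]
      exact hv'
  by_cases h8 : V.valuation (y₁ - z) < 1
  · exact hpt z hz h8
  · have h7 : V.valuation (y₁ - (-β - z)) < 1 := by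
      by_contra h9
      push Not at h8 h9
      exact absurd hprod (not_lt.2 (one_le_mul h8 h9))
    exact hpt (-β - z) (by linear_combination hz) h7

omit [NumberField F] [IQ F] in
/-- Chunk C2 (S). The residue field is algebraically closed (rs_algClosed), so there is y with Eqr x y (a monic quadratic polynomial has a root); XG_lift. -/
theorem XG_surj [IsAlgClosed Ω] (hG : GD V W' u r s t Θ Kg) (x : IsLocalRing.ResidueField V) :
    ∃ g : Pt (WAB A B) Ω ⧸ Kg, g ≠ 0 ∧ XG V Θ Kg g = x := by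
  have := rs_algClosed V
  obtain ⟨y, hy⟩ : ∃ y : IsLocalRing.ResidueField V, y ^ 2 + (rs V W'.a₁ * x + rs V W'.a₃) * y +
      -(x ^ 3 + rs V W'.a₂ * x ^ 2 + rs V W'.a₄ * x + rs V W'.a₆) = 0 := by
    generalize rs V W'.a₁ * x + rs V W'.a₃ = β
    generalize -(x ^ 3 + rs V W'.a₂ * x ^ 2 + rs V W'.a₄ * x + rs V W'.a₆) = γ
    have hd : (Polynomial.X ^ 2 + Polynomial.C β * Polynomial.X + Polynomial.C γ : Polynomial (IsLocalRing.ResidueField V)).degree = 2 := by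
      compute_degree!
    obtain ⟨z, hz⟩ := IsAlgClosed.exists_root (Polynomial.X ^ 2 + Polynomial.C β * Polynomial.X +
      Polynomial.C γ : Polynomial (IsLocalRing.ResidueField V)) (by rw [hd]; norm_num)
    refine ⟨z, ?_⟩
    rw [Polynomial.IsRoot.def] at hz
    simpa using hz
  have hE : Eqr V W' x y := by
    unfold Eqr
    linear_combination hy
  obtain ⟨g, hg, h1, -⟩ := XG_lift hG hE
  exact ⟨g, hg, h1⟩

end H55G
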