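import Mathlib
import Pool.Agent.Lib.H55G.B3
import Pool.Agent.Lib.H55G.B4
import Pool.Agent.Lib.H55G.C2

/-! # H55G, part C: the multiplications on the reduced curve are rational functions -/

open NumberField IsDedekindDomain WeierstrassCurve Polynomial

namespace H55G

open H55P (IQ embF eF LF Per IsHecke Pt ac Inert Dec Nm)
open H35P (WAB Ker GoodW IntW)
open H55K (CMA Tor TN ak xc yc cj cj_cj mul_cj Nm_cj Nm_mul Nm_nat)
open H55K.MG (VC Crd)

variable {F : Type} [Field F] [NumberField F] [IQ F] {A B : F} {Om : ℂ} {Ω : Type} [Field Ω] [DecidableEq Ω]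
  [Algebra F Ω] {j : Ω →+* ℂ} {act : 𝓞 F →+* AddMonoid.End (Pt (WAB A B) Ω)} {V : ValuationSubring Ω}
  {W' : WeierstrassCurve Ω} {u r s t : Ω} {Θ : Pt (WAB A B) Ω ≃+ W'.toAffine.Point} {Kg : AddSubgroup (Pt (WAB A B) Ω)}

/-- The x-coordinates of the multiples by a are given by a rational function of degree at most n. -/
def RFn (κ : Type) [Field κ] {G : Type} [AddCommGroup G] (ρ : 𝓞 F →+* AddMonoid.End G) (X : G → κ) (a : 𝓞 F) (n : ℕ) : Prop :=
  ∃ N D : κ[X], (N ≠ 0 ∨ D ≠ 0) ∧ N.natDegree ≤ n ∧ D.natDegree ≤ n ∧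
    ∀ P : G, P ≠ 0 → ρ a P ≠ 0 → D.eval (X P) * X (ρ a P) = N.eval (X P)

/-- The linear factors. -/
theorem c3a_lin {κ : Type} [Field κ] (r : κ) : (C r - X : κ[X]) ≠ 0 ∧ (C r - X : κ[X]).natDegree ≤ 1 := by
  refine ⟨fun h => ?_, ?_⟩
  · have h1 := congrArg Polynomial.natDegree (sub_eq_zero.1 h)
    rw [Polynomial.natDegree_C, Polynomial.natDegree_X] at h1
    exact zero_ne_one h1
  · refine (Polynomial.natDegree_sub_le _ _).trans (max_le ?_ Polynomial.natDegree_X_le)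
    rw [Polynomial.natDegree_C]
    exact Nat.zero_le _

theorem c3a_prod {κ ι : Type} [Field κ] (S : Finset ι) (r : ι → κ) : (∏ R ∈ S, (C (r R) - X : κ[X])) ≠ 0 ∧ (∏ R ∈ S, (C (r R) - X : κ[X])).natDegree ≤ S.card ∧
    ∀ x : κ, (∏ R ∈ S, (C (r R) - X : κ[X])).eval x = ∏ R ∈ S, (r R - x) := by
  refine ⟨Finset.prod_ne_zero_iff.2 fun R _ => (c3a_lin (r R)).1, ?_, fun x => ?_⟩
  · refine (Polynomial.natDegree_prod_le _ _).trans ?_
    calc ∑ R ∈ S, (C (r R) - X : κ[X]).natDegree ≤ ∑ _R ∈ S, 1 := Finset.sum_le_sum fun R _ => (c3a_lin (r R)).2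
      _ = S.card := by rw [Finset.sum_const, smul_eq_mul, mul_one]
  · rw [Polynomial.eval_prod]
    refine Finset.prod_congr rfl fun R _ => ?_
    rw [Polynomial.eval_sub, Polynomial.eval_C, Polynomial.eval_X]

/-- Chunk C3A (M). S = the nonzero elements of the kernel of act c (exists_TN, card S = Nm c - 1), none is in Kg (tor_kg). Fix Y with Y, act c Y, R - Y, R + Y not in Kg for R in S (exists_gen for c, S). Write bars for rs V. e2x for a pair Y', X' with X' = Y and the roles exchanged: e2x h hG hc hS (X := Y) (Y := P) for P not in Kg with act c P not in Kg (so act c P ≠ 0):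
c^2 (xp (cY) - xp (cP)) ∏ (xp R - xp P) = (xp Y - xp P) ∏ (xp (Y + R) - xp P). All terms are in V (Y + R not in Kg: rp). Apply rs: with x = XG P and X(ρ c P) = rs (xp (cP)): c̄^2 (x̄(cY) - X(ρ c P)) ∏ (x̄_R - x) = (x̄_Y - x) ∏ (x̄_{Y+R} - x). So D = c̄^2 ∏ (C x̄_R - T), N = c̄^2 x̄(cY) ∏ (C x̄_R - T) - (C x̄_Y - T) ∏ (C x̄_{Y+R} - T), of degree ≤ card S + 1 = Nm c;
D ≠ 0 since c̄ ≠ 0 (V(c) = 1) and the factors are nonzero polynomials. Points of the quotient: classes of P (QuotientAddGroup.mk surjective), rhoG_mk, XG_mk. -/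
theorem rf_unit (h : CMA F A B Om j act) (hG : GD V W' u r s t Θ Kg) (hst : ∀ a : 𝓞 F, ∀ P ∈ Kg, act a P ∈ Kg)
    {c : 𝓞 F} (hc : V.valuation (ak Ω c) = 1) :
    RFn (IsLocalRing.ResidueField V) (rhoG Kg act hst) (XG V Θ Kg) c (Nm c) := by
  classical
  have hak0 : ak Ω (0 : 𝓞 F) = 0 := by
    unfold ak
    simp
  have hc0 : c ≠ 0 := by
    rintro rfl
    rw [hak0, map_zero] at hc
    exact zero_ne_one hc
  have hcV : ak Ω c ∈ V := (V.valuation_le_one_iff _).1 hc.le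
  obtain ⟨S, hS, hcard⟩ := H55K.exists_TN h hc0
  have hNm : Nm c ≠ 0 := by
    intro h0
    have h1 : Ideal.absNorm (Ideal.span {c} : Ideal (𝓞 F)) = 0 := h0
    rw [Ideal.absNorm_eq_zero_iff, Ideal.span_singleton_eq_bot] at h1
    exact hc0 h1
  have hSK : ∀ R ∈ S, R ∉ Kg := fun R hR hK => ((hS R).1 hR).2 (tor_kg h hG hc ((hS R).1 hR).1 hK)
  obtain ⟨_X0, Y, hgen⟩ := exists_gen h hG hc0 S
  have hYR : ∀ R ∈ S, Y + R ∉ Kg := fun R hR => by
    rw [add_comm]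
    exact hgen.rp R hR
  have h0K : ∀ {P : Pt (WAB A B) Ω}, P ∉ Kg → P ≠ 0 := fun hP h0 => hP (by rw [h0]; exact Kg.zero_mem)
  have hV : ∀ {P : Pt (WAB A B) Ω}, P ∉ Kg → xp Θ P ∈ V := fun hP => (xp_int hG hP).2.1
  obtain ⟨hp1, hp2, hp3⟩ := c3a_prod S fun R => rs V (xp Θ R)
  obtain ⟨-, hq2, hq3⟩ := c3a_prod S fun R => rs V (xp Θ (Y + R))
  have hcb : rs V (ak Ω c) ≠ 0 := by
    rw [Ne, rs_eq_zero hcV, hc]
    exact lt_irrefl _
  refine ⟨C (rs V (ak Ω c) ^ 2 * rs V (xp Θ (act c Y))) * (∏ R ∈ S, (C (rs V (xp Θ R)) - X)) - (C (rs V (xp Θ Y)) - X) * (∏ R ∈ S, (C (rs V (xp Θ (Y + R))) - X)),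
    C (rs V (ak Ω c) ^ 2) * (∏ R ∈ S, (C (rs V (xp Θ R)) - X)), Or.inr ?_, ?_, ?_, ?_⟩
  · exact mul_ne_zero (Polynomial.C_ne_zero.2 (pow_ne_zero 2 hcb)) hp1
  · refine (Polynomial.natDegree_sub_le _ _).trans (max_le ?_ ?_)
    · refine (Polynomial.natDegree_C_mul_le _ _).trans (hp2.trans ?_)
      omega
    · refine Polynomial.natDegree_mul_le.trans ((add_le_add (c3a_lin _).2 hq2).trans ?_)
      omega
  · refine (Polynomial.natDegree_C_mul_le _ _).trans (hp2.trans ?_)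
    omega
  · intro g hg hcg
    obtain ⟨P, rfl⟩ := QuotientAddGroup.mk_surjective g
    have hP : P ∉ Kg := fun hK => hg ((QuotientAddGroup.eq_zero_iff P).2 hK)
    have hrho : rhoG Kg act hst c (QuotientAddGroup.mk P) = QuotientAddGroup.mk (act c P) := rhoG_mk Kg act hst c P
    rw [hrho] at hcg ⊢
    have hcP : act c P ∉ Kg := fun hK => hcg ((QuotientAddGroup.eq_zero_iff (act c P)).2 hK)
    have hX1 := (XG_mk hG hP).1
    have hX2 := (XG_mk hG hcP).1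
    rw [hX1, hX2]
    have he := e2x h hG hc0 hS (X := Y) (Y := P) (h0K hgen.ay) (h0K hcP)
    have hd : ∀ {Q : Pt (WAB A B) Ω}, Q ∉ Kg → xp Θ Q - xp Θ P ∈ V := fun hQ => sub_mem (hV hQ) (hV hP)
    have hpm : ∀ f : Pt (WAB A B) Ω → Pt (WAB A B) Ω, (∀ R ∈ S, f R ∉ Kg) →
        (∏ R ∈ S, (xp Θ (f R) - xp Θ P)) ∈ V ∧ rs V (∏ R ∈ S, (xp Θ (f R) - xp Θ P)) = ∏ R ∈ S, (rs V (xp Θ (f R)) - rs V (xp Θ P)) := by
      intro f hf
      refine ⟨prod_mem fun R hR => hd (hf R hR), ?_⟩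
      rw [rs_prod S _ fun R hR => hd (hf R hR)]
      exact Finset.prod_congr rfl fun R hR => rs_sub (hV (hf R hR)) (hV hP)
    obtain ⟨ha1, ha2⟩ := hpm (fun R => R) hSK
    obtain ⟨hb1, hb2⟩ := hpm (fun R => Y + R) hYR
    have he2 := congrArg (rs V) he
    have hm1 : ak Ω c ^ 2 ∈ V := pow_mem hcV 2
    have hm2 : xp Θ (act c Y) - xp Θ (act c P) ∈ V := sub_mem (hV hgen.ay) (hV hcP)
    rw [rs_mul (V.mul_mem _ _ hm1 hm2) ha1, rs_mul hm1 hm2, rs_pow hcV, rs_sub (hV hgen.ay) (hV hcP), ha2,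
      rs_mul (hd hgen.y) hb1, rs_sub (hV hgen.y) (hV hP), hb2] at he2
    rw [Polynomial.eval_mul, Polynomial.eval_sub, Polynomial.eval_mul, Polynomial.eval_mul, Polynomial.eval_C, Polynomial.eval_C, hp3, hq3,
      Polynomial.eval_sub, Polynomial.eval_C, Polynomial.eval_X, ← he2]
    ring

end H55G
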