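import Mathlib
import Pool.Agent.Lib.H55G.B3
import Pool.Agent.Lib.H55G.B4
import Pool.Agent.Lib.H55G.C2
import Pool.Agent.Lib.H55G.C3a

/-! # H55G, part C: the multiplications on the reduced curve are rational functions -/

open NumberField IsDedekindDomain WeierstrassCurve Polynomial

namespace H55G

open H55P (IQ embF eF LF Per IsHecke Pt ac Inert Dec Nm)
open H35P (WAB Ker GoodW IntW)
open H55K (CMA Tor TN ak xc yc cj cj_cj mul_cj Nm_cj Nm_mul Nm_nat)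
open H55K.MG (VC Crd)

variable {F : Type} [Field F] [NumberField F] [IQ F] {A B : F} {Om : ℂ} {Ω : Type} [Field Ω] [DecidableEq Ω]
  [Algebra F Ω] {j : Ω →+* ℂ} {act : 𝓞 F →+* AddMonoid.End (Pt (WAB A B) Ω)} {V : ValuationSubring Ω}
  {W' : WeierstrassCurve Ω} {u r s t : Ω} {Θ : Pt (WAB A B) Ω ≃+ W'.toAffine.Point} {Kg : AddSubgroup (Pt (WAB A B) Ω)}

/-- Chunk C3A (S/M). S for b, c = b^2 ∏ xp R, V(c) = 1 (cb_one), so c is in V with c̄ = rs V c ≠ 0. Y fixed, not in Kg (exists_gen), so act b Y is not in Kg (b_kg). For P not in Kg: act b P is not in Kg (b_kg; this gives rhoG b P ≠ 0), and cb_cong for X = P, Y: applying rs: c̄ (X(ρ b P) - x̄(bY)) = (X P - x̄_Y)^(Nm b). So e = c̄⁻¹, y = x̄_Y = rs V (xp Y), f = rs V (xp (bY)). -/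
theorem rf_b (h : CMA F A B Om j act) (hG : GD V W' u r s t Θ Kg) (hst : ∀ a : 𝓞 F, ∀ P ∈ Kg, act a P ∈ Kg)
    {b : 𝓞 F} (hb : Prime b) (hV : V.valuation (ak Ω b) < 1) :
    ∃ (e f : IsLocalRing.ResidueField V) (y : IsLocalRing.ResidueField V), e ≠ 0 ∧
      ∀ P : Pt (WAB A B) Ω ⧸ Kg, P ≠ 0 → rhoG Kg act hst b P ≠ 0 ∧
        XG V Θ Kg (rhoG Kg act hst b P) = e * (XG V Θ Kg P - y) ^ Nm b + f := by
  obtain ⟨S, hS, -⟩ := H55K.exists_TN h hb.ne_zero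
  obtain ⟨X₀, Y, hgen⟩ := exists_gen h hG hb.ne_zero S
  have hc1 := cb_one h hG hb hV hS
  set c : Ω := ak Ω b ^ 2 * ∏ R ∈ S, xp Θ R with hcdef
  have hcV : c ∈ V := (V.valuation_le_one_iff c).mp hc1.le
  have hc0 : rs V c ≠ 0 := by
    intro h0
    rw [rs_eq_zero hcV, hc1] at h0
    exact lt_irrefl _ h0
  have hY := xp_int hG hgen.y
  have hbY := xp_int hG hgen.ay
  refine ⟨(rs V c)⁻¹, rs V (xp Θ (act b Y)), rs V (xp Θ Y), inv_ne_zero hc0, ?_⟩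
  intro P
  induction P using QuotientAddGroup.induction_on with
  | H Q =>
    intro hP
    have hQ : Q ∉ Kg := fun hQ => hP ((QuotientAddGroup.eq_zero_iff Q).mpr hQ)
    have hbQ : act b Q ∉ Kg := fun hQ' => hQ (b_kg h hG hb hV hQ')
    rw [rhoG_mk]
    refine ⟨fun h0 => hbQ ((QuotientAddGroup.eq_zero_iff _).mp h0), ?_⟩
    rw [(XG_mk hG hQ).1, (XG_mk hG hbQ).1]
    have hX := xp_int hG hQ
    have hbX := xp_int hG hbQ
    have hcong := cb_cong h hG hb hV hS hQ hgen.y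
    rw [← hcdef] at hcong
    have h1 : xp Θ (act b Q) - xp Θ (act b Y) ∈ V := V.sub_mem hbX.2.1 hbY.2.1
    have h2 : xp Θ Q - xp Θ Y ∈ V := V.sub_mem hX.2.1 hY.2.1
    have h3 := (rs_eq (V.mul_mem _ _ hcV h1) (V.toSubring.pow_mem h2 (Nm b))).mpr hcong
    rw [rs_mul hcV h1, rs_pow h2, rs_sub hbX.2.1 hbY.2.1, rs_sub hX.2.1 hY.2.1] at h3
    rw [← h3, inv_mul_cancel_left₀ hc0]
    ring

end H55G
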