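import Mathlib
import Pool.Agent.Lib.H55G.B3
import Pool.Agent.Lib.H55G.B4
import Pool.Agent.Lib.H55G.C2
import Pool.Agent.Lib.H55G.C3b

/-! # H55G, part C: the multiplications on the reduced curve are rational functions -/

open NumberField IsDedekindDomain WeierstrassCurve Polynomial

namespace H55G

open H55P (IQ embF eF LF Per IsHecke Pt ac Inert Dec Nm)
open H35P (WAB Ker GoodW IntW)
open H55K (CMA Tor TN ak xc yc cj cj_cj mul_cj Nm_cj Nm_mul Nm_nat)
open H55K.MG (VC Crd)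

variable {F : Type} [Field F] [NumberField F] [IQ F] {A B : F} {Om : ℂ} {Ω : Type} [Field Ω] [DecidableEq Ω]
  [Algebra F Ω] {j : Ω →+* ℂ} {act : 𝓞 F →+* AddMonoid.End (Pt (WAB A B) Ω)} {V : ValuationSubring Ω}
  {W' : WeierstrassCurve Ω} {u r s t : Ω} {Θ : Pt (WAB A B) Ω ≃+ W'.toAffine.Point} {Kg : AddSubgroup (Pt (WAB A B) Ω)}

omit [Field F] [NumberField F] [IQ F] in
/-- Chunk C3B (S, PURE). Composition with a polynomial q of degree ≤ m: N(q), D(q) (Polynomial.comp) have degree ≤ n m (natDegree_comp), and they are not both 0: if q is not constant then comp is injective (Polynomial.comp_eq_zero_iff / leading coefficients). -/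
theorem comp_nd {κ : Type} [Field κ] {N D q : κ[X]} (h : N ≠ 0 ∨ D ≠ 0) (hq : 0 < q.natDegree) {n m : ℕ} (h1 : N.natDegree ≤ n)
    (h2 : D.natDegree ≤ n) (h3 : q.natDegree ≤ m) : (N.comp q ≠ 0 ∨ D.comp q ≠ 0) ∧ (N.comp q).natDegree ≤ m * n ∧
      (D.comp q).natDegree ≤ m * n := by
  have hcomp : ∀ N : κ[X], N ≠ 0 → N.comp q ≠ 0 := by
    intro N hN h0
    rcases Polynomial.comp_eq_zero_iff.1 h0 with h1 | ⟨-, h2⟩
    · exact hN h1
    · rw [h2, natDegree_C] at hq
      exact lt_irrefl _ hq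
  have hdeg : ∀ N : κ[X], N.natDegree ≤ n → (N.comp q).natDegree ≤ m * n := by
    intro N hN
    rw [natDegree_comp, mul_comm]
    exact Nat.mul_le_mul h3 hN
  exact ⟨h.imp (hcomp N) (hcomp D), hdeg N h1, hdeg D h2⟩

end H55G
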