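import Mathlib
import Pool.Agent.Lib.H55G.B3
import Pool.Agent.Lib.H55G.B4
import Pool.Agent.Lib.H55G.C2
import Pool.Agent.Lib.H55G.C3c

/-! # H55G, part C: the multiplications on the reduced curve are rational functions -/

open NumberField IsDedekindDomain WeierstrassCurve Polynomial

namespace H55G

open H55P (IQ embF eF LF Per IsHecke Pt ac Inert Dec Nm)
open H35P (WAB Ker GoodW IntW)
open H55K (CMA Tor TN ak xc yc cj cj_cj mul_cj Nm_cj Nm_mul Nm_nat)
open H55K.MG (VC Crd)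

variable {F : Type} [Field F] [NumberField F] [IQ F] {A B : F} {Om : ℂ} {Ω : Type} [Field Ω] [DecidableEq Ω]
  [Algebra F Ω] {j : Ω →+* ℂ} {act : 𝓞 F →+* AddMonoid.End (Pt (WAB A B) Ω)} {V : ValuationSubring Ω}
  {W' : WeierstrassCurve Ω} {u r s t : Ω} {Θ : Pt (WAB A B) Ω ≃+ W'.toAffine.Point} {Kg : AddSubgroup (Pt (WAB A B) Ω)}

/-- Chunk C3B (M). a = b^k c with b not dividing c (as in kk_split, A1.lean; val_nb gives V(c) = 1). Induction on k: k = 0: rf_unit. Step: a = b a' = a' b: for P ≠ 0 with ρ a P ≠ 0: P' = ρ b P ≠ 0 and ρ a P = ρ a' P'; N', D' for a' (degree ≤ Nm a'): D'(X P') X (ρ a' P') = N'(X P'), and X P' = q(X P), q = C e (T - C y)^(Nm b) + C f of degree Nm b > 0 (rf_b; Nm b ≠ 0). comp_nd, Nm_mul. -/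
theorem rf_all (h : CMA F A B Om j act) (hG : GD V W' u r s t Θ Kg) (hst : ∀ a : 𝓞 F, ∀ P ∈ Kg, act a P ∈ Kg)
    {b : 𝓞 F} (hb : Prime b) (hV : V.valuation (ak Ω b) < 1) {a : 𝓞 F} (ha : a ≠ 0) :
    RFn (IsLocalRing.ResidueField V) (rhoG Kg act hst) (XG V Θ Kg) a (Nm a) := by
  obtain ⟨k, c, hbc, rfl⟩ := WfDvdMonoid.max_power_factor ha hb.irreducible
  clear ha
  have hb0 : Nm b ≠ 0 := by
    intro h0
    rw [H55P.Nm_eq_zero] at h0
    exact hb.ne_zero h0
  obtain ⟨e, f, y, he, hef⟩ := rf_b h hG hst hb hV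
  induction k with
  | zero =>
    have hc := ((val_nb (V := V) hb hV) c).1 hbc
    rw [pow_zero, one_mul]
    exact rf_unit h hG hst hc
  | succ k ih =>
    obtain ⟨N, D, h0, hN, hD, h1⟩ := ih
    have hq : ((C e * (X - C y) ^ Nm b + C f : (IsLocalRing.ResidueField V)[X])).natDegree =
        Nm b := by
      rw [natDegree_add_C, natDegree_C_mul he, natDegree_pow, natDegree_X_sub_C, mul_one]
    obtain ⟨h2, h3, h4⟩ := comp_nd (q := C e * (X - C y) ^ Nm b + C f) h0
      (by rw [hq]; exact Nat.pos_of_ne_zero hb0) hN hD hq.le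
    have hm : b ^ (k + 1) * c = b ^ k * c * b := by ring
    refine ⟨N.comp (C e * (X - C y) ^ Nm b + C f), D.comp (C e * (X - C y) ^ Nm b + C f), h2, ?_,
      ?_, ?_⟩
    · rw [hm, Nm_mul, mul_comm (Nm (b ^ k * c))]
      exact h3
    · rw [hm, Nm_mul, mul_comm (Nm (b ^ k * c))]
      exact h4
    · intro P hP hP'
      have h5 : rhoG Kg act hst (b ^ (k + 1) * c) P =
          rhoG Kg act hst (b ^ k * c) (rhoG Kg act hst b P) := by
        rw [hm, map_mul]
        rfl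
      rw [h5] at hP' ⊢
      obtain ⟨h6, h7⟩ := hef P hP
      have h8 := h1 _ h6 hP'
      rw [h7] at h8
      rw [eval_comp, eval_comp]
      simpa using h8

end H55G
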