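import Mathlib
import Pool.Agent.Lib.H55G.B3
import Pool.Agent.Lib.H55G.B4
import Pool.Agent.Lib.H55G.C2
import Pool.Agent.Lib.H55G.C3d

/-! # H55G, part C: the multiplications on the reduced curve are rational functions -/

open NumberField IsDedekindDomain WeierstrassCurve Polynomial

namespace H55G

open H55P (IQ embF eF LF Per IsHecke Pt ac Inert Dec Nm)
open H35P (WAB Ker GoodW IntW)
open H55K (CMA Tor TN ak xc yc cj cj_cj mul_cj Nm_cj Nm_mul Nm_nat)
open H55K.MG (VC Crd)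

variable {F : Type} [Field F] [NumberField F] [IQ F] {A B : F} {Om : ℂ} {Ω : Type} [Field Ω] [DecidableEq Ω]
  [Algebra F Ω] {j : Ω →+* ℂ} {act : 𝓞 F →+* AddMonoid.End (Pt (WAB A B) Ω)} {V : ValuationSubring Ω}
  {W' : WeierstrassCurve Ω} {u r s t : Ω} {Θ : Pt (WAB A B) Ω ≃+ W'.toAffine.Point} {Kg : AddSubgroup (Pt (WAB A B) Ω)}

/-- Chunk C3B (S/M). prime: hb. inj: b_kg. gen: for c with b not dividing c, V(c) = 1 (val_nb); T₀ from h.gen c, T = its class. If ρ c P = 0, P the class of X: act c X in Kg, lift_tor: X - T' in Kg, act c T' = 0, T' = act a T₀. ρ a T = 0 iff act a T₀ in Kg iff act a T₀ = 0 (tor_kg, since act c (act a T₀) = 0) iff c ∣ a. -/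
theorem rb_of (h : CMA F A B Om j act) (hG : GD V W' u r s t Θ Kg) (hst : ∀ a : 𝓞 F, ∀ P ∈ Kg, act a P ∈ Kg)
    {b : 𝓞 F} (hb : Prime b) (hV : V.valuation (ak Ω b) < 1) : RB (rhoG Kg act hst) b := by
  have hq : ∀ X : Pt (WAB A B) Ω, ((X : Pt (WAB A B) Ω ⧸ Kg) = 0) ↔ X ∈ Kg := fun X =>
    QuotientAddGroup.eq_zero_iff X
  refine ⟨hb, ?_, ?_⟩
  · intro P hP
    induction P using QuotientAddGroup.induction_on with
    | H X =>
      rw [rhoG_mk, hq] at hP
      exact (hq X).2 (b_kg h hG hb hV hP)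
  · intro c hc
    have hVc : V.valuation (ak Ω c) = 1 := (val_nb hb hV c).1 hc
    have hc0 : c ≠ 0 := by
      rintro rfl
      exact hc (dvd_zero b)
    obtain ⟨T₀, hT₀, hgen, hann, -⟩ := h.gen c hc0
    have hT0 : act c T₀ = 0 := hT₀
    refine ⟨(T₀ : Pt (WAB A B) Ω ⧸ Kg), ?_, ?_⟩
    · intro P hP
      induction P using QuotientAddGroup.induction_on with
      | H X =>
        rw [rhoG_mk, hq] at hP
        obtain ⟨T, hT, hXT⟩ := lift_tor h hG hVc hP
        obtain ⟨a, ha⟩ := hgen T hT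
        refine ⟨a, ?_⟩
        rw [rhoG_mk, ← ha]
        have h1 : ((X - T : Pt (WAB A B) Ω) : Pt (WAB A B) Ω ⧸ Kg) = 0 := (hq _).2 hXT
        rw [QuotientAddGroup.mk_sub, sub_eq_zero] at h1
        exact h1
    · intro a
      rw [rhoG_mk, hq, ← hann a]
      constructor
      · intro hm
        refine tor_kg h hG hVc ?_ hm
        have e : act c (act a T₀) = act a (act c T₀) := by
          have e1 : act c * act a = act a * act c := by rw [← map_mul, ← map_mul, mul_comm]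
          exact DFunLike.congr_fun e1 T₀
        rw [e, hT0, map_zero]
      · intro h0
        rw [h0]
        exact Kg.zero_mem

/-- Chunk C3B (S). inf: rs_algClosed, IsAlgClosed.instInfinite or IsAlgClosed infinite. xinj: XG_inj. xsurj: XG_surj. surj: h.surj and classes. b: rb_of. rf: rf_all. -/
theorem rg_of [IsAlgClosed Ω] (h : CMA F A B Om j act) (hG : GD V W' u r s t Θ Kg)
    (hst : ∀ a : 𝓞 F, ∀ P ∈ Kg, act a P ∈ Kg) {b : 𝓞 F} (hb : Prime b) (hV : V.valuation (ak Ω b) < 1) :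
    RG (rhoG Kg act hst) (XG V Θ Kg) := by
  have := rs_algClosed V
  refine ⟨IsAlgClosed.instInfinite, fun P Q hP hQ => XG_inj hG hP hQ, fun x => XG_surj hG x, ?_,
    ⟨b, rb_of h hG hst hb hV⟩, fun a ha => rf_all h hG hst hb hV ha⟩
  intro a ha P
  induction P using QuotientAddGroup.induction_on with
  | H X =>
    obtain ⟨Y, hY⟩ := h.surj a ha X
    exact ⟨(Y : Pt (WAB A B) Ω ⧸ Kg), by rw [rhoG_mk, hY]⟩

end H55G
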