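import Mathlib
import Pool.Agent.Lib.H55G.B1
import Pool.Agent.Lib.H55G.C1
import Pool.Agent.Lib.H55G.C2
import Pool.Agent.Lib.H55G.C3
import Pool.Agent.Lib.H55K.CU

/-! # H55G, part D: the Frobenius endomorphism of the reduced curve -/

open NumberField IsDedekindDomain WeierstrassCurve Polynomial

namespace H55G

open H55P (IQ embF eF LF Per IsHecke Pt ac Inert Dec Nm)
open H35P (WAB Ker GoodW IntW)
open H55K (CMA Tor TN ak xc yc cj cj_cj mul_cj Nm_cj Nm_mul Nm_nat acr xc_acr yc_acr acr_zero_iff acr_inj acr_eq_ac acr_trans GoodAt Abw)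
open H55K.MG (VC Crd)

variable {F : Type} [Field F] [NumberField F] [IQ F] {A B : F} {Om : ℂ} {Ω : Type} [Field Ω] [DecidableEq Ω]
  [Algebra F Ω] {j : Ω →+* ℂ} {act : 𝓞 F →+* AddMonoid.End (Pt (WAB A B) Ω)} {V : ValuationSubring Ω}
  {W' : WeierstrassCurve Ω} {u r s t : Ω} {Θ : Pt (WAB A B) Ω ≃+ W'.toAffine.Point} {Kg : AddSubgroup (Pt (WAB A B) Ω)}

/-- g fixes u, r, s, t. -/
def Fx (g : Ω ≃+* Ω) (u r s t : Ω) : Prop := g u = u ∧ g r = r ∧ g s = s ∧ g t = t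

omit [DecidableEq Ω] in
/-- Chunk D1 (S). g x - x^q has value < 1 for x in V. If V(x) ≤ 1: V(g x) = V(x^q + small) ≤ 1, and V(g x) < 1 iff V(x)^q < 1 iff V(x) < 1. If V(x) > 1: 1/x has value < 1, so V(g (1/x)) < 1, V(g x) > 1. Compare H55K.g8c_dec (G8C.lean). -/
theorem fr_mem {g : Ω ≃+* Ω} {q : ℕ} (hq : 0 < q) (hf : ∀ x ∈ V, V.valuation (g x - x ^ q) < 1) (x : Ω) :
    (V.valuation (g x) ≤ 1 ↔ V.valuation x ≤ 1) ∧ (V.valuation (g x) < 1 ↔ V.valuation x < 1) := by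
  have hA : ∀ x, V.valuation x ≤ 1 → V.valuation (g x) ≤ 1 := by
    intro x hx
    have e : g x = (g x - x ^ q) + x ^ q := by ring
    rw [e]
    refine V.valuation.map_add_le (hf x ((V.valuation_le_one_iff _).1 hx)).le ?_
    rw [map_pow]
    exact pow_le_one₀ zero_le hx
  have hB : ∀ x, V.valuation x < 1 → V.valuation (g x) < 1 := by
    intro x hx
    have e : g x = (g x - x ^ q) + x ^ q := by ring
    rw [e]
    refine V.valuation.map_add_lt (hf x ((V.valuation_le_one_iff _).1 hx.le)) ?_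
    rw [map_pow]
    exact pow_lt_one₀ zero_le hx hq.ne'
  have hC : ∀ x, V.valuation x ≤ 1 → V.valuation (g x) < 1 → V.valuation x < 1 := by
    intro x hx hgx
    have e : x ^ q = g x - (g x - x ^ q) := by ring
    have h1 : V.valuation (x ^ q) < 1 := by
      rw [e]
      exact V.valuation.map_sub_lt hgx (hf x ((V.valuation_le_one_iff _).1 hx))
    rw [map_pow] at h1
    by_contra h2
    have h3 : V.valuation x = 1 := le_antisymm hx (not_lt.1 h2)
    rw [h3, one_pow] at h1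
    exact lt_irrefl _ h1
  have hD : ∀ x, 1 < V.valuation x → 1 < V.valuation (g x) := by
    intro x hx
    have hx0 : x ≠ 0 := by
      rintro rfl
      rw [map_zero] at hx
      exact not_lt_zero hx
    have h3 : V.valuation x⁻¹ < 1 := by
      rw [map_inv₀]
      exact inv_lt_one_of_one_lt₀ hx
    have h4 := hB _ h3
    have h7 : V.valuation (g x) * V.valuation (g x⁻¹) = 1 := by
      rw [← map_mul, ← map_mul, mul_inv_cancel₀ hx0, map_one, map_one]
    by_contra h8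
    have h9 : V.valuation (g x) * V.valuation (g x⁻¹) < 1 := by
      rw [mul_comm]
      exact mul_lt_one_of_lt_of_le h4 (not_lt.1 h8)
    exact h9.ne h7
  refine ⟨⟨fun h1 => not_lt.1 fun h2 => absurd (hD x h2) (not_lt.2 h1), hA x⟩, ⟨fun h1 => ?_, hB x⟩⟩
  exact hC x (not_lt.1 fun h2 => absurd (hD x h2) (not_lt.2 h1.le)) h1

omit [NumberField F] [IQ F] in
/-- Chunk D1 (S). xc (acr P) = g (xc P), yc (acr P) = g (yc P) (xc_acr, yc_acr), acr P ≠ 0 (acr_zero_iff); hG.crd for P and acr P: u^2 xp (acr P) + r = g (u^2 xp P + r) = u^2 g (xp P) + r; divide by u^2 (hG.une); the same for y. -/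
theorem xp_acr {g : Ω ≃+* Ω} {hA : g (algebraMap F Ω A) = algebraMap F Ω A} {hB : g (algebraMap F Ω B) = algebraMap F Ω B}
    (hG : GD V W' u r s t Θ Kg) (hg : Fx g u r s t) {P : Pt (WAB A B) Ω} (hP : P ≠ 0) :
    xp Θ (acr g hA hB P) = g (xp Θ P) ∧ yp Θ (acr g hA hB P) = g (yp Θ P) := by
  obtain ⟨hT, hx, hy⟩ := hG.crd P hP
  obtain ⟨hT', hx', hy'⟩ := hG.crd (acr g hA hB P) (fun h => hP ((acr_zero_iff g hA hB P).1 h))
  obtain ⟨g1, g2, g3, g4⟩ := hg
  rw [xc_acr, hx, map_add, map_mul, map_pow, g1, g2] at hx'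
  rw [yc_acr, hy, map_add, map_add, map_mul, map_mul, map_mul, map_pow, map_pow, g1, g3, g4] at hy'
  have e1 : xp Θ (acr g hA hB P) = g (xp Θ P) :=
    (mul_left_cancel₀ (pow_ne_zero 2 hG.une) (add_right_cancel hx')).symm
  refine ⟨e1, ?_⟩
  have e2 : xc (Θ (acr g hA hB P)) = g (xc (Θ P)) := e1
  rw [e2] at hy'
  exact (mul_left_cancel₀ (pow_ne_zero 3 hG.une) (add_right_cancel (add_right_cancel hy'))).symm

omit [NumberField F] [IQ F] in
/-- Chunk D1 (S). P = 0 clear (acr_zero_iff). Otherwise P in Kg iff V(xp P) > 1 (hG.kg, MG.ker_crd in M3A.lean) iff V(g (xp P)) > 1 (fr_mem) iff acr P in Kg (xp_acr). -/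
theorem acr_kg {g : Ω ≃+* Ω} {hA : g (algebraMap F Ω A) = algebraMap F Ω A} {hB : g (algebraMap F Ω B) = algebraMap F Ω B}
    (hG : GD V W' u r s t Θ Kg) (hg : Fx g u r s t) {q : ℕ} (hq : 0 < q) (hf : ∀ x ∈ V, V.valuation (g x - x ^ q) < 1)
    (P : Pt (WAB A B) Ω) : acr g hA hB P ∈ Kg ↔ P ∈ Kg := by
  by_cases hP : P = 0
  · rw [hP, map_zero]
  · have hP' : acr g hA hB P ≠ 0 := fun h => hP ((acr_zero_iff g hA hB P).1 h)
    have h1 : Θ P ≠ 0 := (hG.crd P hP).1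
    have h2 : Θ (acr g hA hB P) ≠ 0 := (hG.crd _ hP').1
    rw [hG.kg, hG.kg, H55K.MG.ker_crd h1, H55K.MG.ker_crd h2]
    have h3 : xc (Θ (acr g hA hB P)) = g (xc (Θ P)) := (xp_acr hG hg hP).1
    rw [h3, ← not_le, ← not_le]
    exact not_congr (fr_mem hq hf _).1

end H55G
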