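import Mathlib
import Pool.Agent.Lib.H55G.B1
import Pool.Agent.Lib.H55G.C1
import Pool.Agent.Lib.H55G.C2
import Pool.Agent.Lib.H55G.C3
import Pool.Agent.Lib.H55K.CU
import Pool.Agent.Lib.H55G.D1a

/-! # H55G, part D: the Frobenius endomorphism of the reduced curve -/

open NumberField IsDedekindDomain WeierstrassCurve Polynomial

namespace H55G

open H55P (IQ embF eF LF Per IsHecke Pt ac Inert Dec Nm)
open H35P (WAB Ker GoodW IntW)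
open H55K (CMA Tor TN ak xc yc cj cj_cj mul_cj Nm_cj Nm_mul Nm_nat acr xc_acr yc_acr acr_zero_iff acr_inj acr_eq_ac acr_trans GoodAt Abw)
open H55K.MG (VC Crd)

variable {F : Type} [Field F] [NumberField F] [IQ F] {A B : F} {Om : ℂ} {Ω : Type} [Field Ω] [DecidableEq Ω]
  [Algebra F Ω] {j : Ω →+* ℂ} {act : 𝓞 F →+* AddMonoid.End (Pt (WAB A B) Ω)} {V : ValuationSubring Ω}
  {W' : WeierstrassCurve Ω} {u r s t : Ω} {Θ : Pt (WAB A B) Ω ≃+ W'.toAffine.Point} {Kg : AddSubgroup (Pt (WAB A B) Ω)}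

omit [NumberField F] [IQ F] in
/-- Chunk D1 (S). c = class of P, P not in Kg, acr P not in Kg (acr_kg). qmap_mk, XG_mk, xp_acr: XG (φ c) = rs (g (xp P)) = rs ((xp P)^q) (rs_eq with hf; g (xp P) in V by fr_mem) = (rs (xp P))^q (rs_pow). -/
theorem phi_xy {g : Ω ≃+* Ω} {hA : g (algebraMap F Ω A) = algebraMap F Ω A} {hB : g (algebraMap F Ω B) = algebraMap F Ω B}
    (hG : GD V W' u r s t Θ Kg) (hg : Fx g u r s t) {q : ℕ} (hq : 0 < q) (hf : ∀ x ∈ V, V.valuation (g x - x ^ q) < 1)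
    (hK : ∀ P ∈ Kg, acr g hA hB P ∈ Kg) {c : Pt (WAB A B) Ω ⧸ Kg} (hc : c ≠ 0) :
    XG V Θ Kg (qmap Kg (acr g hA hB) hK c) = XG V Θ Kg c ^ q ∧ YG V Θ Kg (qmap Kg (acr g hA hB) hK c) = YG V Θ Kg c ^ q := by
  obtain ⟨P, rfl⟩ := QuotientAddGroup.mk_surjective c
  have hP : P ∉ Kg := fun h => hc ((QuotientAddGroup.eq_zero_iff P).2 h)
  have hP' : acr g hA hB P ∉ Kg := fun h => hP ((acr_kg hG hg hq hf P).1 h)
  obtain ⟨hP0, hPx, hPy⟩ := xp_int hG hP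
  obtain ⟨-, hPx', hPy'⟩ := xp_int hG hP'
  obtain ⟨e1, e2⟩ := xp_acr (hA := hA) (hB := hB) hG hg hP0
  change XG V Θ Kg ((acr g hA hB P : Pt (WAB A B) Ω) : Pt (WAB A B) Ω ⧸ Kg) = _ ∧
    YG V Θ Kg ((acr g hA hB P : Pt (WAB A B) Ω) : Pt (WAB A B) Ω ⧸ Kg) = _
  obtain ⟨f1, f2⟩ := XG_mk hG hP
  obtain ⟨f3, f4⟩ := XG_mk hG hP'
  have f1' : XG V Θ Kg ((P : Pt (WAB A B) Ω) : Pt (WAB A B) Ω ⧸ Kg) = rs V (xp Θ P) := f1
  rw [f3, f4, e1, e2]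
  rw [e1] at hPx'
  rw [e2] at hPy'
  constructor
  · rw [(rs_eq hPx' (pow_mem hPx q)).2 (hf _ hPx), rs_pow hPx]
    exact congrArg (fun z => z ^ q) f1.symm
  · rw [(rs_eq hPy' (pow_mem hPy q)).2 (hf _ hPy), rs_pow hPy]
    exact congrArg (fun z => z ^ q) f2.symm

end H55G
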