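import Mathlib
import Pool.Agent.Lib.H55G.B1
import Pool.Agent.Lib.H55G.C1
import Pool.Agent.Lib.H55G.C2
import Pool.Agent.Lib.H55G.C3
import Pool.Agent.Lib.H55K.CU
import Pool.Agent.Lib.H55G.D1b

/-! # H55G, part D: the Frobenius endomorphism of the reduced curve -/

open NumberField IsDedekindDomain WeierstrassCurve Polynomial

namespace H55G

open H55P (IQ embF eF LF Per IsHecke Pt ac Inert Dec Nm)
open H35P (WAB Ker GoodW IntW)
open H55K (CMA Tor TN ak xc yc cj cj_cj mul_cj Nm_cj Nm_mul Nm_nat acr xc_acr yc_acr acr_zero_iff acr_inj acr_eq_ac acr_trans GoodAt Abw)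
open H55K.MG (VC Crd)

variable {F : Type} [Field F] [NumberField F] [IQ F] {A B : F} {Om : ℂ} {Ω : Type} [Field Ω] [DecidableEq Ω]
  [Algebra F Ω] {j : Ω →+* ℂ} {act : 𝓞 F →+* AddMonoid.End (Pt (WAB A B) Ω)} {V : ValuationSubring Ω}
  {W' : WeierstrassCurve Ω} {u r s t : Ω} {Θ : Pt (WAB A B) Ω ≃+ W'.toAffine.Point} {Kg : AddSubgroup (Pt (WAB A B) Ω)}

omit [NumberField F] [IQ F] in
/-- Chunk D1 (M). two: q = l^f ≥ 2. bij: injective: qmap (class P) = 0 iff acr P in Kg iff P in Kg (acr_kg); a homomorphism with trivial kernel. surjective: acr g.symm is an inverse of acr g (acr_trans; g.symm fixes A and B); the class of acr g.symm P is mapped to the class of P. x: phi_xy. card: card_fix with rs_algClosed and (l : residue field) = rs V l = 0 (rs_eq_zero; hl: V(l) < 1; the class of a natural number). -/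
theorem fr_of [IsAlgClosed Ω] {g : Ω ≃+* Ω} {hA : g (algebraMap F Ω A) = algebraMap F Ω A}
    {hB : g (algebraMap F Ω B) = algebraMap F Ω B} (hG : GD V W' u r s t Θ Kg) (hg : Fx g u r s t) {q l f : ℕ}
    (hl : l.Prime) (hlV : V.valuation (l : Ω) < 1) (hf0 : f ≠ 0) (hq : q = l ^ f)
    (hf : ∀ x ∈ V, V.valuation (g x - x ^ q) < 1) (hK : ∀ P ∈ Kg, acr g hA hB P ∈ Kg) :
    Fr (XG V Θ Kg) q (qmap Kg (acr g hA hB) hK) := by
  have hq0 : 0 < q := by
    rw [hq]
    exact pow_pos hl.pos f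
  have hA' : g.symm (algebraMap F Ω A) = algebraMap F Ω A := by
    rw [RingEquiv.symm_apply_eq, hA]
  have hB' : g.symm (algebraMap F Ω B) = algebraMap F Ω B := by
    rw [RingEquiv.symm_apply_eq, hB]
  have hinv : ∀ P : Pt (WAB A B) Ω, acr g hA hB (acr g.symm hA' hB' P) = P := by
    intro P
    by_cases hP : P = 0
    · rw [hP, map_zero, map_zero]
    · refine H55K.CC.c27_ext (fun h => hP ((acr_zero_iff _ hA' hB' P).1 ((acr_zero_iff _ hA hB _).1 h))) hP ?_ ?_
      · rw [xc_acr, xc_acr, RingEquiv.apply_symm_apply]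
      · rw [yc_acr, yc_acr, RingEquiv.apply_symm_apply]
  refine ⟨?_, ⟨?_, ?_⟩, ?_, ?_⟩
  · rw [hq]
    exact hl.two_le.trans (Nat.le_self_pow hf0 l)
  · rw [injective_iff_map_eq_zero]
    intro c hc
    induction c using QuotientAddGroup.induction_on with
    | H P =>
      change ((acr g hA hB P : Pt (WAB A B) Ω) : Pt (WAB A B) Ω ⧸ Kg) = 0 at hc
      rw [QuotientAddGroup.eq_zero_iff, acr_kg hG hg hq0 hf] at hc
      exact (QuotientAddGroup.eq_zero_iff P).2 hc
  · intro c
    induction c using QuotientAddGroup.induction_on with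
    | H P =>
      refine ⟨((acr g.symm hA' hB' P : Pt (WAB A B) Ω) : Pt (WAB A B) Ω ⧸ Kg), ?_⟩
      change ((acr g hA hB (acr g.symm hA' hB' P) : Pt (WAB A B) Ω) : Pt (WAB A B) Ω ⧸ Kg) = _
      rw [hinv]
  · intro c hc
    exact (phi_xy hG hg hq0 hf hK hc).1
  · have hac : IsAlgClosed (IsLocalRing.ResidueField V) := rs_algClosed V
    refine card_fix hl ?_ hf0 hq
    have h1 : (l : Ω) ∈ V := natCast_mem V l
    have h2 : rs V (l : Ω) = 0 := (rs_eq_zero h1).2 hlV
    rw [rs, dif_pos h1] at h2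
    rw [← h2]
    exact (map_natCast (IsLocalRing.residue V) l).symm

end H55G
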