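import Mathlib
import Pool.Agent.Lib.H55G.B1
import Pool.Agent.Lib.H55G.C1
import Pool.Agent.Lib.H55G.C2
import Pool.Agent.Lib.H55G.C3
import Pool.Agent.Lib.H55K.CU
import Pool.Agent.Lib.H55G.D1c
import Pool.Agent.Lib.H55G.A8
import Pool.Agent.Lib.H55K.RF

/-! # H55G, part D: the Frobenius endomorphism of the reduced curve -/

open NumberField IsDedekindDomain WeierstrassCurve Polynomial

namespace H55G

open H55P (IQ embF eF LF Per IsHecke Pt ac Inert Dec Nm)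
open H35P (WAB Ker GoodW IntW)
open H55K (CMA Tor TN ak xc yc cj cj_cj mul_cj Nm_cj Nm_mul Nm_nat acr xc_acr yc_acr acr_zero_iff acr_inj acr_eq_ac acr_trans GoodAt Abw)
open H55K.MG (VC Crd)

variable {F : Type} [Field F] [NumberField F] [IQ F] {A B : F} {Om : ℂ} {Ω : Type} [Field Ω] [DecidableEq Ω]
  [Algebra F Ω] {j : Ω →+* ℂ} {act : 𝓞 F →+* AddMonoid.End (Pt (WAB A B) Ω)} {V : ValuationSubring Ω}
  {W' : WeierstrassCurve Ω} {u r s t : Ω} {Θ : Pt (WAB A B) Ω ≃+ W'.toAffine.Point} {Kg : AddSubgroup (Pt (WAB A B) Ω)}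

omit [DecidableEq Ω] in
/-- Chunk D1 (S). An automorphism of Ω over the rational numbers maps the image of F to itself (F/ℚ is quadratic, so Galois) and induces the identity or the complex conjugation: choose a in 𝓞 F with cj a ≠ a (exists_delta in A8.lean or IQ.im); g (ak a) is a root of the polynomial (T - ak a)(T - ak (cj a)), which has integral coefficients (H55K.TQ.rf_tr in RF.lean, mul_cj), so g (ak a) = ak a or ak (cj a);
every b in F is x + y a with x, y rational (F has degree 2), so g (ak b) = ak b for all b, or g (ak b) = ak (cj b) for all b. -/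
theorem lin_or (g : Ω ≃+* Ω) : (∀ a : 𝓞 F, g (ak Ω a) = ak Ω a) ∨ (∀ a : 𝓞 F, g (ak Ω a) = ak Ω (cj a)) := by
  obtain ⟨δ, hδ, hcδ⟩ := exists_delta F
  have hak : ∀ a : 𝓞 F, ak Ω a = ((algebraMap F Ω).comp (algebraMap (𝓞 F) F)) a := fun _ => rfl
  obtain ⟨κ, hκ⟩ : ∃ κ : 𝓞 F →+* Ω, κ = (algebraMap F Ω).comp (algebraMap (𝓞 F) F) := ⟨_, rfl⟩
  simp only [hak, ← hκ]
  have hinj : Function.Injective κ := by
    rw [hκ]
    exact (algebraMap F Ω).injective.comp (FaithfulSMul.algebraMap_injective (𝓞 F) F)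
  obtain ⟨n, hn⟩ : ∃ n : ℕ, n = Nm δ := ⟨_, rfl⟩
  have hn0 : n ≠ 0 := by
    rw [hn]
    exact fun h => hδ (H55P.Nm_eq_zero.1 h)
  have hδ2 : δ ^ 2 = -(n : 𝓞 F) := by
    have h1 := mul_cj δ
    rw [hcδ, ← hn] at h1
    linear_combination -h1
  have hκn : (-(4 : Ω)) * (n : Ω) ≠ 0 := by
    have h1 : κ (-4 * (n : 𝓞 F)) ≠ κ 0 := by
      refine fun h => ?_
      have h2 := hinj h
      have h3 : (4 * (n : 𝓞 F)) = 0 := by linear_combination -h2
      have h4 : ((4 * n : ℕ) : 𝓞 F) = 0 := by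
        push_cast
        exact h3
      rw [Nat.cast_eq_zero] at h4
      omega
    rw [map_zero, map_mul, map_neg, map_natCast, map_ofNat] at h1
    exact h1
  have hgδ : g (κ δ) = κ δ ∨ g (κ δ) = κ (cj δ) := by
    have h1 : g (κ δ) ^ 2 = κ δ ^ 2 := by
      rw [← map_pow, ← map_pow, hδ2, map_neg, map_natCast, map_neg, map_natCast]
    rcases sq_eq_sq_iff_eq_or_eq_neg.1 h1 with h2 | h2
    · exact Or.inl h2
    · right
      rw [h2, hcδ, map_neg]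
  have hrel : ∀ a : 𝓞 F, ∃ n₁ m : ℤ, -4 * (n : 𝓞 F) * a = -2 * n * n₁ + m * δ := by
    intro a
    obtain ⟨n₁, h1⟩ := H55K.TQ.rf_tr a
    obtain ⟨m, h2⟩ := H55K.TQ.rf_tr ((a - cj a) * δ)
    refine ⟨n₁, m, ?_⟩
    rw [map_mul, map_sub, cj_cj, hcδ] at h2
    linear_combination (-2 * (n : 𝓞 F)) * h1 + δ * h2 - 2 * (a - cj a) * hδ2
  rcases hgδ with h1 | h1
  · left
    intro a
    obtain ⟨n₁, m, h2⟩ := hrel a
    have h3 := congrArg κ h2
    have h4 := congrArg g h3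
    simp only [map_add, map_mul, map_neg, map_natCast, map_intCast, map_ofNat, h1] at h3 h4
    exact mul_left_cancel₀ hκn (by rw [h4, h3])
  · right
    intro a
    obtain ⟨n₁, m, h2⟩ := hrel a
    have h3 := congrArg g (congrArg κ h2)
    have h4 := congrArg κ (congrArg cj h2)
    simp only [map_add, map_mul, map_neg, map_natCast, map_intCast, map_ofNat, h1] at h3 h4
    exact mul_left_cancel₀ hκn (by rw [h4, h3])

/-- Chunk D1 (S). g fixes the image of F (quotients of integers): g is an algebra automorphism s over F; acr_eq_ac, h.gal; rhoG_mk, qmap_mk. -/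
theorem phi_lin (h : CMA F A B Om j act) {g : Ω ≃+* Ω} {hA : g (algebraMap F Ω A) = algebraMap F Ω A}
    {hB : g (algebraMap F Ω B) = algebraMap F Ω B} (hst : ∀ a : 𝓞 F, ∀ P ∈ Kg, act a P ∈ Kg)
    (hK : ∀ P ∈ Kg, acr g hA hB P ∈ Kg) (hl : ∀ a : 𝓞 F, g (ak Ω a) = ak Ω a) (a : 𝓞 F) (c : Pt (WAB A B) Ω ⧸ Kg) :
    qmap Kg (acr g hA hB) hK (rhoG Kg act hst a c) = rhoG Kg act hst a (qmap Kg (acr g hA hB) hK c) := by
  obtain ⟨P, rfl⟩ := QuotientAddGroup.mk_surjective c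
  have hF : ∀ x : F, g (algebraMap F Ω x) = algebraMap F Ω x := by
    intro x
    obtain ⟨a, b, hb, rfl⟩ := IsFractionRing.div_surjective (A := 𝓞 F) x
    rw [map_div₀, map_div₀]
    have h1 := hl a
    have h2 := hl b
    unfold ak at h1 h2
    rw [h1, h2]
  obtain ⟨s', hs'⟩ : ∃ s' : Ω ≃ₐ[F] Ω, (s' : Ω ≃+* Ω) = g := ⟨AlgEquiv.ofRingEquiv (f := g) hF, RingEquiv.ext fun _ => rfl⟩
  subst hs'
  change ((acr (s' : Ω ≃+* Ω) hA hB (act a P) : Pt (WAB A B) Ω) : Pt (WAB A B) Ω ⧸ Kg) =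
    ((act a (acr (s' : Ω ≃+* Ω) hA hB P) : Pt (WAB A B) Ω) : Pt (WAB A B) Ω ⧸ Kg)
  rw [acr_eq_ac, acr_eq_ac, h.gal]

/-- Chunk D1 (S). H55K.cma_galr (CU.lean). -/
theorem phi_anti [IsAlgClosed Ω] [Algebra.IsAlgebraic F Ω] (h : CMA F A B Om j act) {g : Ω ≃+* Ω}
    {hA : g (algebraMap F Ω A) = algebraMap F Ω A}
    {hB : g (algebraMap F Ω B) = algebraMap F Ω B} (hst : ∀ a : 𝓞 F, ∀ P ∈ Kg, act a P ∈ Kg)
    (hK : ∀ P ∈ Kg, acr g hA hB P ∈ Kg) (hl : ∀ a : 𝓞 F, g (ak Ω a) = ak Ω (cj a)) (a : 𝓞 F) (c : Pt (WAB A B) Ω ⧸ Kg) :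
    qmap Kg (acr g hA hB) hK (rhoG Kg act hst a c) = rhoG Kg act hst (cj a) (qmap Kg (acr g hA hB) hK c) := by
  obtain ⟨P, rfl⟩ := QuotientAddGroup.mk_surjective c
  change ((acr g hA hB (act a P) : Pt (WAB A B) Ω) : Pt (WAB A B) Ω ⧸ Kg) =
    ((act (cj a) (acr g hA hB P) : Pt (WAB A B) Ω) : Pt (WAB A B) Ω ⧸ Kg)
  rw [H55K.cma_galr h g hA hB hl]

end H55G
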