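import Mathlib
import Pool.Agent.Lib.H55G.D0
import Pool.Agent.Lib.H55K.K0A
import Pool.Agent.Lib.H55K.M1B
import Pool.Agent.Lib.H55K.M3B
import Pool.Agent.Lib.H55K.QC1A
import Pool.Agent.Lib.H55K.QC1C
import Pool.Agent.Lib.H55K.T9B

/-! # H55G, part D: a good model over a number field -/

open NumberField IsDedekindDomain WeierstrassCurve Polynomial

namespace H55G

open H55P (IQ embF eF LF Per IsHecke Pt ac Inert Dec Nm)
open H35P (WAB Ker GoodW IntW)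
open H55K (GoodAt Abw xc yc)
open H55K.MG (VC Crd)

/-- C is a good change of variables for W at w. -/
def GC {k : Type} [Field k] [NumberField k] (W : WeierstrassCurve k) (w : HeightOneSpectrum (𝓞 k)) (C : VariableChange k) :
    Prop :=
  w.valuation k (C • W).a₁ ≤ 1 ∧ w.valuation k (C • W).a₂ ≤ 1 ∧ w.valuation k (C • W).a₃ ≤ 1 ∧
    w.valuation k (C • W).a₄ ≤ 1 ∧ w.valuation k (C • W).a₆ ≤ 1 ∧ w.valuation k (C • W).Δ = 1

theorem good_iff {k : Type} [Field k] [NumberField k] (W : WeierstrassCurve k) (w : HeightOneSpectrum (𝓞 k)) :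
    GoodAt W w ↔ ∃ C : VariableChange k, GC W w C := Iff.rfl

/-- The curve W₁ over k is obtained from E over Ω by a change of variables with coefficients in k. -/
def VCk {k : Type} [Field k] {Ω : Type} [Field Ω] [Algebra k Ω] (E : WeierstrassCurve Ω) (W₁ : WeierstrassCurve k) : Prop :=
  ∃ u r s t : k, VC E (W₁⁄Ω) (algebraMap k Ω u) (algebraMap k Ω r) (algebraMap k Ω s) (algebraMap k Ω t)

variable {F : Type} [Field F] {A B : F} {Ω : Type} [Field Ω] [DecidableEq Ω] [Algebra F Ω]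
  {V : ValuationSubring Ω} {k : Type} [Field k] [NumberField k] [Algebra k Ω] {w : HeightOneSpectrum (𝓞 k)}

omit [DecidableEq Ω] in
/-- Chunk D2 (S). The coefficients of (C • W₁)⁄Ω are the images of those of C • W₁; Abw.eq_one, hV (K0A.lean); the discriminant: map_Δ. -/
theorem gc_good {W₁ : WeierstrassCurve k} (hV : Abw V w) {C : VariableChange k} (hC : GC W₁ w C) : GoodW ((C • W₁)⁄Ω) V := by
  obtain ⟨h1, h2, h3, h4, h6, hd⟩ := hC
  refine ⟨⟨(hV _).2 h1, (hV _).2 h2, (hV _).2 h3, (hV _).2 h4, (hV _).2 h6⟩, ?_⟩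
  have e : ((C • W₁)⁄Ω).Δ = algebraMap k Ω ((C • W₁).Δ) := WeierstrassCurve.map_Δ _ _
  rw [e]
  exact (hV.eq_one _).2 hd

/-- Chunk D2 (S/M). hVC: VC E (W₁⁄Ω) u₁ ..; H55K.TQ.vc_smul: VC W₁ (C • W₁) C.u C.r C.s C.t over k, mapped to Ω (vc_map, QC1C.lean); composition (vc_comp in QC1A.lean or QC1B.lean): VC E ((C • W₁)⁄Ω) with coefficients in the image of k (products and sums; see gmd_of_good in T9B.lean, where exactly this is done). Discriminants: hd gives (WAB A B).Δ ≠ 0 (as in H13R/C2.lean), the discriminant of (C • W₁)⁄Ω is not 0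
(gc_good). Θ from MG.vc_iso (M1B.lean), Kg from MG.kg_ex (M3B.lean). -/
theorem exists_GD (hd : 4 * A ^ 3 + 27 * B ^ 2 ≠ 0) [CharZero F] {W₁ : WeierstrassCurve k} (hV : Abw V w)
    (hVC : VCk ((WAB A B)⁄Ω) W₁) {C : VariableChange k} (hC : GC W₁ w C) :
    ∃ (u r s t : k) (Θ : Pt (WAB A B) Ω ≃+ ((C • W₁)⁄Ω).toAffine.Point) (Kg : AddSubgroup (Pt (WAB A B) Ω)),
      GD V ((C • W₁)⁄Ω) (algebraMap k Ω u) (algebraMap k Ω r) (algebraMap k Ω s) (algebraMap k Ω t) Θ Kg := by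
  obtain ⟨u₁, r₁, s₁, t₁, hv⟩ := hVC
  have hC' := H55K.TQ.vc_map (algebraMap k Ω) (H55K.TQ.vc_smul W₁ C)
  have hcomp := H55K.TQ.vc_comp hv hC'
  have hgood := gc_good hV hC
  have hΔ2 : ((C • W₁)⁄Ω).Δ ≠ 0 := by
    intro h0
    have h1 := hgood.disc
    rw [h0, map_zero] at h1
    exact zero_ne_one h1
  have hΔ1 : (WAB A B).Δ ≠ 0 := by
    have e : (WAB A B).Δ = -16 * (4 * A ^ 3 + 27 * B ^ 2) := by
      unfold WAB WeierstrassCurve.Δ WeierstrassCurve.b₂ WeierstrassCurve.b₄ WeierstrassCurve.b₆ WeierstrassCurve.b₈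
      ring
    rw [e]
    exact mul_ne_zero (by norm_num) hd
  have hΔ1' : ((WAB A B)⁄Ω).Δ ≠ 0 := by
    have e : ((WAB A B)⁄Ω).Δ = algebraMap F Ω ((WAB A B).Δ) := WeierstrassCurve.map_Δ _ _
    rw [e]
    exact (_root_.map_ne_zero _).2 hΔ1
  have hcomp' : VC ((WAB A B)⁄Ω) ((C • W₁)⁄Ω) (algebraMap k Ω (u₁ * (C.u : k)))
      (algebraMap k Ω (u₁ ^ 2 * C.r + r₁)) (algebraMap k Ω (u₁ * C.s + s₁))
      (algebraMap k Ω (u₁ ^ 3 * C.t + s₁ * u₁ ^ 2 * C.r + t₁)) := by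
    simp only [map_mul, map_add, map_pow]
    exact hcomp
  obtain ⟨Θ, hΘ⟩ := H55K.MG.vc_iso hcomp' hΔ1' hΔ2
  obtain ⟨Kg, hKg⟩ := H55K.MG.kg_ex hgood Θ
  exact ⟨_, _, _, _, Θ, Kg, ⟨hcomp'.une, hgood, hΘ, hKg⟩⟩

end H55G
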