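import Mathlib
import Pool.Agent.Lib.H55K.D2A
import Pool.Agent.Lib.H55K.D2B
import Pool.Agent.Lib.H55K.D4
import Pool.Agent.Lib.H55G.D2

/-! # H55G, part D: the points of the minimal model -/

open NumberField IsDedekindDomain WeierstrassCurve Polynomial

namespace H55G

open H55K (GoodAt Abw)

theorem d3a_good (R : Type) [CommRing R] [IsDomain R] [IsDiscreteValuationRing R] (K : Type)
    [Field K] [Algebra R K] [IsFractionRing R K] (W : WeierstrassCurve R) (hΔ : IsUnit W.Δ) (N : WeierstrassCurve K)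
    [hmin : IsMinimal R N] (C : VariableChange K) (hC : N = C • (W⁄K)) :
    N.HasGoodReduction R := by
  rw [hasGoodReduction_iff]
  refine ⟨hmin, ?_⟩
  have hWint : IsIntegral R (W⁄K) := ⟨⟨W, rfl⟩⟩
  have hback : C⁻¹ • N = (W⁄K) := by rw [hC, inv_smul_smul]
  have hmax := hmin.val_Δ_maximal
  have hj : IsIntegral R (C⁻¹ • N) := by rw [hback]; exact hWint
  have hval : (valuation_Δ_aux R (C⁻¹ • N)).1 = 1 := by
    rw [hback]
    rw [valuation_Δ_aux_eq_of_isIntegral]
    have h1 : (W⁄K).Δ = algebraMap R K W.Δ := map_Δ W (algebraMap R K)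
    rw [h1]
    exact H55B.F1_val_unit R K hΔ
  have hle : valuation_Δ_aux R ((1 : VariableChange K) •
      N) ≤ valuation_Δ_aux R (C⁻¹ • N) := by
    rw [← Subtype.coe_le_coe, hval]
    exact (valuation_Δ_aux R _).2
  have hge := hmax.2 hj hle
  rw [← Subtype.coe_le_coe, hval] at hge
  change 1 ≤ (valuation_Δ_aux R ((1 : VariableChange K) •
      N)).1 at hge
  rw [one_smul, valuation_Δ_aux_eq_of_isIntegral] at hge
  refine le_antisymm ?_ hge
  obtain ⟨r, hr⟩ := Δ_integral_of_isIntegral R (N)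
  rw [← hr]
  exact IsDedekindDomain.HeightOneSpectrum.valuation_le_one _ _

theorem d3a_core (R : Type) [CommRing R] [IsDomain R] [IsDiscreteValuationRing R] (K : Type) [Field K] [Algebra R K]
    [IsFractionRing R K] (W : WeierstrassCurve R) (hΔ : IsUnit W.Δ) (N : WeierstrassCurve K)
    [hmin : IsMinimal R N] (C : VariableChange K) (hC : N = C • (W⁄K)) :
    ∃ C : VariableChange R, integralModel R N = C • W := by
  set I := integralModel R N with hI
  have inj : Function.Injective (algebraMap R K) := IsFractionRing.injective R K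
  -- the discriminant of the integral model is a unit
  have hΔI : IsUnit I.Δ := by
    have hg := (d3a_good R K W hΔ N C hC).goodReduction
    rw [← integralModel_Δ_eq R] at hg
    by_contra h
    have := (IsDedekindDomain.HeightOneSpectrum.valuation_lt_one_iff_mem
      (K := K) (IsDiscreteValuationRing.maximalIdeal R) I.Δ).2
      ((IsLocalRing.mem_maximalIdeal _).2 h)
    exact absurd hg this.ne
  have mΔ : (W⁄K).Δ = algebraMap R K W.Δ := map_Δ W (algebraMap R K)
  have mb₂ : (W⁄K).b₂ = algebraMap R K W.b₂ := map_b₂ W (algebraMap R K)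
  have mb₄ : (W⁄K).b₄ = algebraMap R K W.b₄ := map_b₄ W (algebraMap R K)
  have mb₆ : (W⁄K).b₆ = algebraMap R K W.b₆ := map_b₆ W (algebraMap R K)
  have mb₈ : (W⁄K).b₈ = algebraMap R K W.b₈ := map_b₈ W (algebraMap R K)
  have ma₁ : (W⁄K).a₁ = algebraMap R K W.a₁ := rfl
  have ma₂ : (W⁄K).a₂ = algebraMap R K W.a₂ := rfl
  have ma₃ : (W⁄K).a₃ = algebraMap R K W.a₃ := rfl
  have ma₄ : (W⁄K).a₄ = algebraMap R K W.a₄ := rfl
  have ma₆ : (W⁄K).a₆ = algebraMap R K W.a₆ := rfl
  have eΔ : algebraMap R K I.Δ = ((C.u⁻¹ : Kˣ) : K) ^ 12 * algebraMap R K W.Δ := by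
    rw [hI, integralModel_Δ_eq, hC, variableChange_Δ, mΔ]
  have eb₆ : algebraMap R K I.b₆ = ((C.u⁻¹ : Kˣ) : K) ^ 6 * (algebraMap R K W.b₆ +
      2 * C.r * algebraMap R K W.b₄ + C.r ^ 2 * algebraMap R K W.b₂ + 4 * C.r ^ 3) := by
    rw [hI, integralModel_b₆_eq, hC, variableChange_b₆, mb₆, mb₄, mb₂]
  have eb₈ : algebraMap R K I.b₈ = ((C.u⁻¹ : Kˣ) : K) ^ 8 * (algebraMap R K W.b₈ +
      3 * C.r * algebraMap R K W.b₆ + 3 * C.r ^ 2 * algebraMap R K W.b₄ + C.r ^ 3 * algebraMap R K W.b₂ +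
      3 * C.r ^ 4) := by
    rw [hI, integralModel_b₈_eq, hC, variableChange_b₈, mb₈, mb₆, mb₄, mb₂]
  have ea₂ : algebraMap R K I.a₂ = ((C.u⁻¹ : Kˣ) : K) ^ 2 * (algebraMap R K W.a₂ - C.s * algebraMap R K W.a₁ +
      3 * C.r - C.s ^ 2) := by
    rw [hI, integralModel_a₂_eq, hC, variableChange_a₂, ma₂, ma₁]
  have ea₆ : algebraMap R K I.a₆ = ((C.u⁻¹ : Kˣ) : K) ^ 6 * (algebraMap R K W.a₆ + C.r * algebraMap R K W.a₄ +
      C.r ^ 2 * algebraMap R K W.a₂ + C.r ^ 3 - C.t * algebraMap R K W.a₃ - C.t ^ 2 -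
      C.r * C.t * algebraMap R K W.a₁) := by
    rw [hI, integralModel_a₆_eq, hC, variableChange_a₆, ma₆, ma₄, ma₂, ma₃, ma₁]
  set u : K := (C.u : K) with hu
  have hu0 : u ≠ 0 := C.u.ne_zero
  have huinv : ((C.u⁻¹ : Kˣ) : K) = u⁻¹ := Units.val_inv_eq_inv_val _
  rw [huinv] at eΔ eb₆ eb₈ ea₂ ea₆
  obtain ⟨d, hd⟩ := hΔI
  obtain ⟨m, hm⟩ := hΔ
  -- u is integral
  have hdm : algebraMap R K d = u⁻¹ ^ 12 * algebraMap R K m := by
    rw [hd, eΔ, hm]
  have hu12 : u ^ 12 = algebraMap R K ((m : R) * ((d⁻¹ : Rˣ) : R)) := by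
    rw [map_mul]
    have h1 : algebraMap R K d * algebraMap R K ((d⁻¹ : Rˣ) : R) = 1 := by
      rw [← map_mul, Units.mul_inv, map_one]
    have h2 : u ^ 12 * algebraMap R K d = algebraMap R K m := by
      rw [hdm, inv_pow, mul_inv_cancel_left₀ (pow_ne_zero _ hu0)]
    calc u ^ 12 = u ^ 12 * (algebraMap R K d * algebraMap R K ((d⁻¹ : Rˣ) : R)) := by rw [h1, mul_one]
      _ = (u ^ 12 * algebraMap R K d) * algebraMap R K ((d⁻¹ : Rˣ) : R) := by ring
      _ = _ := by rw [h2]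
  have huinv12 : u⁻¹ ^ 12 = algebraMap R K ((d : R) * ((m⁻¹ : Rˣ) : R)) := by
    rw [map_mul]
    have h1 : algebraMap R K m * algebraMap R K ((m⁻¹ : Rˣ) : R) = 1 := by
      rw [← map_mul, Units.mul_inv, map_one]
    rw [hdm, mul_assoc, h1, mul_one]
  obtain ⟨u₀, hu₀⟩ : ∃ u₀ : R, algebraMap R K u₀ = u := by
    apply IsIntegrallyClosed.exists_algebraMap_eq_of_isIntegral_pow (n := 12) (by norm_num)
    rw [hu12]; exact isIntegral_algebraMap
  obtain ⟨v₀, hv₀⟩ : ∃ v₀ : R, algebraMap R K v₀ = u⁻¹ := by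
    apply IsIntegrallyClosed.exists_algebraMap_eq_of_isIntegral_pow (n := 12) (by norm_num)
    rw [huinv12]; exact isIntegral_algebraMap
  have huv : u₀ * v₀ = 1 := by
    apply inj
    rw [map_mul, hu₀, hv₀, map_one, mul_inv_cancel₀ hu0]
  -- r
  obtain ⟨r₀, hr₀⟩ : ∃ r₀ : R, algebraMap R K r₀ = C.r := by
    rw [← IsIntegrallyClosed.isIntegral_iff]
    refine ⟨Polynomial.X ^ 4 - Polynomial.C W.b₄ * Polynomial.X ^ 2 -
      Polynomial.C (2 * W.b₆ + u₀ ^ 6 * I.b₆) * Polynomial.X + Polynomial.C (u₀ ^ 8 * I.b₈ - W.b₈), ?_, ?_⟩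
    · monicity!
    · simp only [Polynomial.eval₂_sub, Polynomial.eval₂_add, Polynomial.eval₂_pow, Polynomial.eval₂_mul,
        Polynomial.eval₂_X, Polynomial.eval₂_C]
      rw [map_add, map_mul, map_mul, map_sub, map_mul, map_pow, map_pow, hu₀, eb₆, eb₈, map_ofNat]
      have h6 : u ^ 6 * (u⁻¹ ^ 6 * (algebraMap R K W.b₆ +
          2 * C.r * algebraMap R K W.b₄ + C.r ^ 2 * algebraMap R K W.b₂ + 4 * C.r ^ 3)) =
          algebraMap R K W.b₆ + 2 * C.r * algebraMap R K W.b₄ + C.r ^ 2 * algebraMap R K W.b₂ + 4 * C.r ^ 3 := by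
        rw [inv_pow, mul_inv_cancel_left₀ (pow_ne_zero _ hu0)]
      have h8 : u ^ 8 * (u⁻¹ ^ 8 * (algebraMap R K W.b₈ +
          3 * C.r * algebraMap R K W.b₆ + 3 * C.r ^ 2 * algebraMap R K W.b₄ + C.r ^ 3 * algebraMap R K W.b₂ +
          3 * C.r ^ 4)) = algebraMap R K W.b₈ +
          3 * C.r * algebraMap R K W.b₆ + 3 * C.r ^ 2 * algebraMap R K W.b₄ + C.r ^ 3 * algebraMap R K W.b₂ +
          3 * C.r ^ 4 := by
        rw [inv_pow, mul_inv_cancel_left₀ (pow_ne_zero _ hu0)]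
      rw [h6, h8]
      ring
  obtain ⟨s₀, hs₀⟩ : ∃ s₀ : R, algebraMap R K s₀ = C.s := by
    rw [← IsIntegrallyClosed.isIntegral_iff]
    refine ⟨Polynomial.X ^ 2 + Polynomial.C W.a₁ * Polynomial.X -
      Polynomial.C (W.a₂ + 3 * r₀ - u₀ ^ 2 * I.a₂), ?_, ?_⟩
    · monicity!
    · simp only [Polynomial.eval₂_sub, Polynomial.eval₂_add, Polynomial.eval₂_pow, Polynomial.eval₂_mul,
        Polynomial.eval₂_X, Polynomial.eval₂_C]
      rw [map_sub, map_add, map_mul, map_mul, map_pow, hu₀, hr₀, ea₂, map_ofNat]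
      have h2 : u ^ 2 * (u⁻¹ ^ 2 * (algebraMap R K W.a₂ - C.s * algebraMap R K W.a₁ + 3 * C.r - C.s ^ 2)) =
          algebraMap R K W.a₂ - C.s * algebraMap R K W.a₁ + 3 * C.r - C.s ^ 2 := by
        rw [inv_pow, mul_inv_cancel_left₀ (pow_ne_zero _ hu0)]
      rw [h2]
      ring
  obtain ⟨t₀, ht₀⟩ : ∃ t₀ : R, algebraMap R K t₀ = C.t := by
    rw [← IsIntegrallyClosed.isIntegral_iff]
    refine ⟨Polynomial.X ^ 2 + Polynomial.C (W.a₃ + r₀ * W.a₁) * Polynomial.X -
      Polynomial.C (W.a₆ + r₀ * W.a₄ + r₀ ^ 2 * W.a₂ + r₀ ^ 3 - u₀ ^ 6 * I.a₆), ?_, ?_⟩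
    · monicity!
    · simp only [Polynomial.eval₂_sub, Polynomial.eval₂_add, Polynomial.eval₂_pow, Polynomial.eval₂_mul,
        Polynomial.eval₂_X, Polynomial.eval₂_C, map_sub, map_add, map_mul, map_pow, hu₀, hr₀, ea₆]
      have h6 : u ^ 6 * (u⁻¹ ^ 6 * (algebraMap R K W.a₆ + C.r * algebraMap R K W.a₄ +
          C.r ^ 2 * algebraMap R K W.a₂ + C.r ^ 3 - C.t * algebraMap R K W.a₃ - C.t ^ 2 -
          C.r * C.t * algebraMap R K W.a₁)) = algebraMap R K W.a₆ + C.r * algebraMap R K W.a₄ +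
          C.r ^ 2 * algebraMap R K W.a₂ + C.r ^ 3 - C.t * algebraMap R K W.a₃ - C.t ^ 2 -
          C.r * C.t * algebraMap R K W.a₁ := by
        rw [inv_pow, mul_inv_cancel_left₀ (pow_ne_zero _ hu0)]
      rw [h6]
      ring
  refine ⟨⟨⟨u₀, v₀, huv, by rw [mul_comm]; exact huv⟩, r₀, s₀, t₀⟩, ?_⟩
  have hmapinj : Function.Injective
      (fun E : WeierstrassCurve R => E.map (algebraMap R K)) := map_injective inj
  apply hmapinj
  show I.map (algebraMap R K) = (_ : WeierstrassCurve R).map (algebraMap R K)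
  rw [← map_variableChange]
  have e1 : I.map (algebraMap R K) = N := baseChange_integralModel_eq R _
  rw [e1, hC]
  congr 1
  ext
  · show u = algebraMap R K u₀
    rw [hu₀]
  · exact hr₀.symm
  · exact hs₀.symm
  · exact ht₀.symm

/-- Chunk D3A (M), PORT of H55K.DD.d2a_good, core and good_loc (D2A.lean, D2C.lean) to a curve E over K with a good change of variables C: C • E = W⁄K. E.minimal R = D • E for the chosen D, so E.minimal R = (D * C⁻¹) • (W⁄K) (mul_smul, inv_smul_smul): from here on the proofs of d2a_good and core are the same with this change of variables in place of the chosen one (in d2a_good: the inverse change of variables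
applied to E.minimal R is W⁄K, integral with discriminant of valuation 1). So integralModel R (E.minimal R) = C' • W for some C' : VariableChange R, the reduction is C'.map residue • W.map residue, card_vc (D2B.lean). -/
theorem red_card' (R : Type) [CommRing R] [IsDomain R] [IsDiscreteValuationRing R] (K : Type) [Field K] [Algebra R K]
    [IsFractionRing R K] (E : WeierstrassCurve K) (C : VariableChange K) (W : WeierstrassCurve R) (hC : C • E = W⁄K)
    (hΔ : IsUnit W.Δ) : (E.minimal R).HasGoodReduction R ∧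
      Nat.card ((E.minimal R).reduction R).toAffine.Point = Nat.card (W.map (IsLocalRing.residue R)).toAffine.Point := by
  obtain ⟨D, hD⟩ : ∃ D : VariableChange K, E.minimal R = D • E := ⟨_, rfl⟩
  have hmin : IsMinimal R (E.minimal R) := inferInstance
  have hN : E.minimal R = (D * C⁻¹) • (W⁄K) := by
    rw [hD, mul_smul, ← hC, inv_smul_smul]
  have hg := d3a_good R K W hΔ (E.minimal R) (D * C⁻¹) hN
  obtain ⟨D', hD'⟩ := d3a_core R K W hΔ (E.minimal R) (D * C⁻¹) hN
  refine ⟨hg, ?_⟩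
  have hred : (E.minimal R).reduction R = (D'.map (IsLocalRing.residue R)) • (W.map (IsLocalRing.residue R)) := by
    unfold WeierstrassCurve.reduction
    rw [hD', ← WeierstrassCurve.map_variableChange]
  have h0 : (W.map (IsLocalRing.residue R)).Δ ≠ 0 := by
    rw [WeierstrassCurve.map_Δ]
    exact (hΔ.map (IsLocalRing.residue R)).ne_zero
  rw [hred, H55K.DD.card_vc _ _ _ h0]

end H55G
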