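import Mathlib
import Pool.Agent.Lib.H55G.C1
import Pool.Agent.Lib.H55G.D3A
import Pool.Agent.Lib.H55K.K0A
import Pool.Agent.Lib.H55K.DM

/-! # H55G, part D: the points of the minimal model -/

open NumberField IsDedekindDomain WeierstrassCurve Polynomial

namespace H55G

open H55K (GoodAt Abw)

variable {k : Type} [Field k] [NumberField k]

open Classical in
/-- The residue class modulo w of a w-integral element of k (0 for the other elements). -/
noncomputable def rk (w : HeightOneSpectrum (𝓞 k)) (x : k) : IsLocalRing.ResidueField (w.adicCompletionIntegers k) :=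
  if h : (algebraMap k (w.adicCompletion k) x) ∈ w.adicCompletionIntegers k then
    IsLocalRing.residue (w.adicCompletionIntegers k) ⟨algebraMap k (w.adicCompletion k) x, h⟩ else 0

/-- The reduction of a w-integral equation. -/
noncomputable def rkW (w : HeightOneSpectrum (𝓞 k)) (E : WeierstrassCurve k) :
    WeierstrassCurve (IsLocalRing.ResidueField (w.adicCompletionIntegers k)) :=
  ⟨rk w E.a₁, rk w E.a₂, rk w E.a₃, rk w E.a₄, rk w E.a₆⟩

theorem d3ba_val (w : HeightOneSpectrum (𝓞 k)) (x : k) : Valued.v (algebraMap k (w.adicCompletion k) x) = w.valuation k x :=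
  HeightOneSpectrum.valuedAdicCompletion_eq_valuation' w x

theorem d3ba_mem (w : HeightOneSpectrum (𝓞 k)) {x : k} (hx : w.valuation k x ≤ 1) :
    algebraMap k (w.adicCompletion k) x ∈ w.adicCompletionIntegers k := by
  show Valued.v (algebraMap k (w.adicCompletion k) x) ≤ 1
  rw [d3ba_val]
  exact hx

theorem d3ba_rk (w : HeightOneSpectrum (𝓞 k)) {x : k} (hx : w.valuation k x ≤ 1) :
    rk w x = IsLocalRing.residue (w.adicCompletionIntegers k) ⟨algebraMap k (w.adicCompletion k) x, d3ba_mem w hx⟩ :=
  dif_pos (d3ba_mem w hx)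

/-- Chunk D3B (M). R = w.adicCompletionIntegers k, K = w.adicCompletion k. The coefficients of C • W₁ are w-integral: their images in K are in R (Valued.v of the image of x is w.valuation k x: HeightOneSpectrum.valuedAdicCompletion_eq_valuation', see bad_compl in H55K/D4.lean and d6_hom in D6.lean), so (C • W₁)⁄K = W⁄K for a curve W over R, with discriminant a unit (valuation 1: units of R are the elements of valuation 1).
(C • W₁)⁄K = (C mapped to K) • (W₁⁄K) (map_variableChange). red_card': NW W₁ w is the number of points of W.map residue, which is rkW w (C • W₁) (WeierstrassCurve.ext; dif_pos); its discriminant is the residue class of a unit (map_Δ). -/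
theorem NW_eq {W₁ : WeierstrassCurve k} {w : HeightOneSpectrum (𝓞 k)} {C : VariableChange k} (hC : GC W₁ w C) :
    ((W₁⁄(w.adicCompletion k)).minimal (w.adicCompletionIntegers k)).HasGoodReduction (w.adicCompletionIntegers k) ∧
      NW W₁ w = Nat.card (rkW w (C • W₁)).toAffine.Point ∧ (rkW w (C • W₁)).Δ ≠ 0 := by
  obtain ⟨h1, h2, h3, h4, h6, hΔ⟩ := hC
  obtain ⟨W, hW⟩ : ∃ W : WeierstrassCurve (w.adicCompletionIntegers k), W = ⟨⟨_, d3ba_mem w h1⟩, ⟨_, d3ba_mem w h2⟩, ⟨_, d3ba_mem w h3⟩,
    ⟨_, d3ba_mem w h4⟩, ⟨_, d3ba_mem w h6⟩⟩ := ⟨_, rfl⟩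
  have hWK : W⁄(w.adicCompletion k) = (C • W₁).map (algebraMap k (w.adicCompletion k)) := by
    rw [hW]
    rfl
  have hC' : C.map (algebraMap k (w.adicCompletion k)) • (W₁⁄(w.adicCompletion k)) = W⁄(w.adicCompletion k) := by
    rw [hWK]
    exact WeierstrassCurve.map_variableChange _ _ _
  have hΔ1 : algebraMap (w.adicCompletionIntegers k) (w.adicCompletion k) W.Δ = algebraMap k (w.adicCompletion k) (C • W₁).Δ := by
    have e1 : (W⁄(w.adicCompletion k)).Δ = algebraMap (w.adicCompletionIntegers k) (w.adicCompletion k) W.Δ := WeierstrassCurve.map_Δ _ _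
    rw [← e1, hWK]
    exact WeierstrassCurve.map_Δ _ _
  have hu : IsUnit W.Δ := by
    rw [HeightOneSpectrum.adicCompletionIntegers.isUnit_iff_valued_eq_one]
    have e2 : ((W.Δ : w.adicCompletionIntegers k) : w.adicCompletion k) = algebraMap k (w.adicCompletion k) (C • W₁).Δ := hΔ1
    rw [e2, d3ba_val, hΔ]
  have hr : rkW w (C • W₁) = W.map (IsLocalRing.residue (w.adicCompletionIntegers k)) := by
    unfold rkW
    rw [d3ba_rk w h1, d3ba_rk w h2, d3ba_rk w h3, d3ba_rk w h4, d3ba_rk w h6, hW]
    rfl
  obtain ⟨g1, g2⟩ := red_card' (w.adicCompletionIntegers k) (w.adicCompletion k) (W₁⁄(w.adicCompletion k)) _ W hC' hu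
  refine ⟨g1, ?_, ?_⟩
  · rw [hr]
    exact g2
  · rw [hr, WeierstrassCurve.map_Δ]
    exact (hu.map (IsLocalRing.residue (w.adicCompletionIntegers k))).ne_zero

/-- Chunk D3B (S). Point = zero or some x y h; with Δ ≠ 0 nonsingular = equation (Affine.equation_iff_nonsingular_of_Δ_ne_zero or IsElliptic): an equivalence with Option of the subtype; Nat.card of Option (Finite): Finite.card_option. -/
theorem card_pairs {κ : Type} [Field κ] [Finite κ] (E : WeierstrassCurve κ) (hΔ : E.Δ ≠ 0) :
    Nat.card E.toAffine.Point = Nat.card {z : κ × κ // E.toAffine.Equation z.1 z.2} + 1 := by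
  have h : ∀ x y : κ, E.toAffine.Equation x y → E.toAffine.Nonsingular x y := fun x y hxy =>
    (Affine.equation_iff_nonsingular_of_Δ_ne_zero hΔ).1 hxy
  rw [← Finite.card_option]
  refine Nat.card_congr
    { toFun := fun P => match P with
        | .zero => none
        | .some x y hxy => some ⟨(x, y), hxy.1⟩
      invFun := fun z => match z with
        | none => .zero
        | some z => .some z.1.1 z.1.2 (h _ _ z.2)
      left_inv := fun P => by
        cases P <;> rfl
      right_inv := fun z => by
        cases z <;> rfl }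

end H55G
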