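import Mathlib
import Pool.Agent.Lib.H55G.C1
import Pool.Agent.Lib.H55G.D3A
import Pool.Agent.Lib.H55K.K0A
import Pool.Agent.Lib.H55K.DM
import Pool.Agent.Lib.H55G.D3Ba

/-! # H55G, part D: the points of the minimal model -/

open NumberField IsDedekindDomain WeierstrassCurve Polynomial

namespace H55G

open H55K (GoodAt Abw)

variable {Ω : Type} [Field Ω] {V : ValuationSubring Ω} {k : Type} [Field k] [NumberField k] [Algebra k Ω]
  {w : HeightOneSpectrum (𝓞 k)}

open Classical in
/-- The map of the integers of k to the residue field of V. -/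
noncomputable def d3bb_psi (V : ValuationSubring Ω) (k : Type) [Field k] [NumberField k] [Algebra k Ω] :
    𝓞 k →+* IsLocalRing.ResidueField V :=
  (IsLocalRing.residue V).comp
    (((algebraMap k Ω).comp (algebraMap (𝓞 k) k)).codRestrict V.toSubring fun x =>
      (V.valuation_le_one_iff _).1 (H55K.k0_int V x))

theorem d3bb_psi_apply (V : ValuationSubring Ω) (a : 𝓞 k) (h : algebraMap k Ω (a : k) ∈ V) :
    d3bb_psi V k a = IsLocalRing.residue V ⟨algebraMap k Ω (a : k), h⟩ := rfl

theorem d3bb_zero (V : ValuationSubring Ω) (x : Ω) (h : x ∈ V) :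
    IsLocalRing.residue V ⟨x, h⟩ = 0 ↔ V.valuation x < 1 := by
  rw [IsLocalRing.residue_eq_zero_iff]
  exact V.valuation_lt_one_iff ⟨x, h⟩

theorem d3bb_ker (hV : Abw V w) (a : 𝓞 k) : d3bb_psi V k a = 0 ↔ a ∈ w.asIdeal := by
  have h : algebraMap k Ω (a : k) ∈ V := (V.valuation_le_one_iff _).1 (H55K.k0_int V a)
  rw [d3bb_psi_apply V a h, d3bb_zero V _ h, hV.lt]
  exact w.valuation_lt_one_iff_mem a

/-- The residue class of a w-integral element is the residue class of an algebraic integer. -/
theorem d3bb_cls (hV : Abw V w) {x : k} (hx : w.valuation k x ≤ 1) : ∃ a : 𝓞 k,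
    rk w x = ((IsLocalRing.residue (w.adicCompletionIntegers k)).comp
      (algebraMap (𝓞 k) (w.adicCompletionIntegers k))) a ∧ rs V (algebraMap k Ω x) = d3bb_psi V k a := by
  obtain ⟨a, ha⟩ := HeightOneSpectrum.exists_valuation_sub_lt_of_integer w hx 1
  have ha' : w.valuation k ((a : k) - x) < 1 := by simpa using ha
  refine ⟨a, ?_, ?_⟩
  · have hm : (algebraMap k (w.adicCompletion k) x) ∈ w.adicCompletionIntegers k := by
      show Valued.v ((x : k) : w.adicCompletion k) ≤ 1
      rw [HeightOneSpectrum.valuedAdicCompletion_eq_valuation' w x]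
      exact hx
    unfold rk
    rw [dif_pos hm, RingHom.comp_apply, eq_comm, ← sub_eq_zero, ← map_sub, IsLocalRing.residue_eq_zero_iff,
      H55B.F3_mem_maximalIdeal]
    have h3 : ((algebraMap (𝓞 k) (w.adicCompletionIntegers k) a - ⟨algebraMap k (w.adicCompletion k) x, hm⟩ :
        w.adicCompletionIntegers k) : w.adicCompletion k) =
        (((a : k) - x : k) : w.adicCompletion k) := by
      have h4 : (((a : k) - x : k) : w.adicCompletion k) = ((a : k) : w.adicCompletion k) - (x : w.adicCompletion k) :=
        map_sub (algebraMap k (w.adicCompletion k)) (a : k) x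
      rw [h4]
      rfl
    rw [h3, HeightOneSpectrum.valuedAdicCompletion_eq_valuation' w]
    exact ha'
  · have hm : algebraMap k Ω x ∈ V := (hV x).2 hx
    have hm' : algebraMap k Ω (a : k) ∈ V := (V.valuation_le_one_iff _).1 (H55K.k0_int V a)
    unfold rs
    rw [dif_pos hm, d3bb_psi_apply V a hm', eq_comm, ← sub_eq_zero, ← map_sub]
    have h5 : (⟨algebraMap k Ω (a : k), hm'⟩ - ⟨algebraMap k Ω x, hm⟩ : V) =
        ⟨algebraMap k Ω ((a : k) - x), by rw [map_sub]; exact V.sub_mem hm' hm⟩ :=
      Subtype.ext (map_sub _ _ _).symm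
    rw [h5, d3bb_zero, hV.lt]
    exact ha'

/-- Chunk D3C (M). Let O = (w.valuation k).valuationSubring, the ring of the w-integral elements. The map O → V → κ = ResidueField V, x ↦ class of algebraMap k Ω x, and the map O → R = w.adicCompletionIntegers k → 𝔽 = ResidueField R, x ↦ rk w x, are ring homomorphisms (hV: w-integral elements go to V) with the same kernel {x : w.valuation k x < 1} (hV.lt in K0A.lean; the maximal ideal of R: Valued.v < 1), and the second is
surjective (already on 𝓞 k: H55B.residue_surj, see D6.lean of H55K). So there is e : 𝔽 → κ with e (rk w x) = rs V x (RingHom.liftOfSurjective / Ideal.Quotient.lift). 𝔽 has q = absNorm w elements (H55B.residue_card, see D6.lean), so z^q = z for z in 𝔽 and for z in the range of e; T^q - T has at most q roots in κ and e is injective, so the range is exactly the set of roots. -/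
theorem exists_emb (hV : Abw V w) : ∃ e : IsLocalRing.ResidueField (w.adicCompletionIntegers k) →+* IsLocalRing.ResidueField V,
    (∀ x : k, w.valuation k x ≤ 1 → e (rk w x) = rs V (algebraMap k Ω x)) ∧
      ∀ z : IsLocalRing.ResidueField V, z ^ Ideal.absNorm w.asIdeal = z ↔ ∃ y, e y = z := by
  classical
  obtain ⟨hfin, hcard⟩ := H55B.residue_card k w
  let ψ : 𝓞 k →+* IsLocalRing.ResidueField (w.adicCompletionIntegers k) :=
    (IsLocalRing.residue (w.adicCompletionIntegers k)).comp (algebraMap (𝓞 k) (w.adicCompletionIntegers k))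
  have hs : Function.Surjective ψ := H55B.residue_surj k w
  have hk : RingHom.ker ψ ≤ RingHom.ker (d3bb_psi V k) := by
    intro a ha
    rw [H55B.residue_ker k w] at ha
    exact (d3bb_ker hV a).2 ha
  let e : IsLocalRing.ResidueField (w.adicCompletionIntegers k) →+* IsLocalRing.ResidueField V :=
    RingHom.liftOfSurjective ψ hs ⟨d3bb_psi V k, hk⟩
  have he : ∀ a : 𝓞 k, e (ψ a) = d3bb_psi V k a := fun a =>
    RingHom.liftOfRightInverse_comp_apply ψ _ _ ⟨d3bb_psi V k, hk⟩ a
  refine ⟨e, fun x hx => ?_, fun z => ?_⟩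
  · obtain ⟨a, h1, h2⟩ := d3bb_cls hV hx
    rw [h1, h2]
    exact he a
  · have hft := Fintype.ofFinite (IsLocalRing.ResidueField (w.adicCompletionIntegers k))
    have hc : Fintype.card (IsLocalRing.ResidueField (w.adicCompletionIntegers k)) = Ideal.absNorm w.asIdeal := by
      rw [← hcard, Nat.card_eq_fintype_card]
    have hq : 1 < Ideal.absNorm w.asIdeal := by
      rw [← hc]
      exact Fintype.one_lt_card
    have hr : ∀ y, (e y) ^ Ideal.absNorm w.asIdeal = e y := fun y => by
      rw [← map_pow, ← hc, FiniteField.pow_card]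
    constructor
    · intro hz
      have hP0 : (X ^ Ideal.absNorm w.asIdeal - X : (IsLocalRing.ResidueField V)[X]) ≠ 0 :=
        FiniteField.X_pow_card_sub_X_ne_zero _ hq
      have hmem : ∀ t : IsLocalRing.ResidueField V, t ^ Ideal.absNorm w.asIdeal = t →
          t ∈ (X ^ Ideal.absNorm w.asIdeal - X : (IsLocalRing.ResidueField V)[X]).roots.toFinset := by
        intro t ht
        rw [Multiset.mem_toFinset, Polynomial.mem_roots hP0, Polynomial.IsRoot.def, Polynomial.eval_sub,
          Polynomial.eval_pow, Polynomial.eval_X, ht, sub_self]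
      have hsub : Finset.univ.image e ⊆
          (X ^ Ideal.absNorm w.asIdeal - X : (IsLocalRing.ResidueField V)[X]).roots.toFinset := by
        intro t ht
        obtain ⟨y, _, rfl⟩ := Finset.mem_image.1 ht
        exact hmem _ (hr y)
      have hcd : (X ^ Ideal.absNorm w.asIdeal - X : (IsLocalRing.ResidueField V)[X]).roots.toFinset.card ≤
          (Finset.univ.image e).card := by
        rw [Finset.card_image_of_injective _ e.injective, Finset.card_univ, hc]
        refine (Multiset.toFinset_card_le _).trans ((Polynomial.card_roots' _).trans ?_)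
        rw [FiniteField.X_pow_card_sub_X_natDegree_eq _ hq]
      have heq := Finset.eq_of_subset_of_card_le hsub hcd
      have hz' := hmem z hz
      rw [← heq] at hz'
      obtain ⟨y, _, hy⟩ := Finset.mem_image.1 hz'
      exact ⟨y, hy⟩
    · rintro ⟨y, rfl⟩
      exact hr y

end H55G
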