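import Mathlib
import Pool.Agent.Lib.H55G.C2
import Pool.Agent.Lib.H55G.D1
import Pool.Agent.Lib.H55G.D2
import Pool.Agent.Lib.H55G.D3B

/-! # H55G, part D: the points of the minimal model and the fixed points of the Frobenius endomorphism -/

open NumberField IsDedekindDomain WeierstrassCurve Polynomial

namespace H55G

open H55P (IQ embF eF LF Per IsHecke Pt ac Inert Dec Nm)
open H35P (WAB Ker GoodW IntW)
open H55K (CMA Tor TN ak xc yc cj cj_cj mul_cj Nm_cj Nm_mul Nm_nat acr xc_acr yc_acr acr_zero_iff acr_inj acr_eq_ac acr_trans GoodAt Abw)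
open H55K.MG (VC Crd)

variable {Ω : Type} [Field Ω] {V : ValuationSubring Ω} {k : Type} [Field k] [NumberField k] [Algebra k Ω]
  {w : HeightOneSpectrum (𝓞 k)}

theorem d4a_eqr {W₁ : WeierstrassCurve k} {C : VariableChange k}
    {e : IsLocalRing.ResidueField (w.adicCompletionIntegers k) →+* IsLocalRing.ResidueField V}
    (he : ∀ x : k, w.valuation k x ≤ 1 → e (rk w x) = rs V (algebraMap k Ω x)) (hC : GC W₁ w C)
    (x y : IsLocalRing.ResidueField (w.adicCompletionIntegers k)) :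
    (rkW w (C • W₁)).toAffine.Equation x y ↔ Eqr V ((C • W₁)⁄Ω) (e x) (e y) := by
  obtain ⟨h1, h2, h3, h4, h6, -⟩ := hC
  have e1 : rs V ((C • W₁)⁄Ω).a₁ = e (rk w (C • W₁).a₁) := (he _ h1).symm
  have e2 : rs V ((C • W₁)⁄Ω).a₂ = e (rk w (C • W₁).a₂) := (he _ h2).symm
  have e3 : rs V ((C • W₁)⁄Ω).a₃ = e (rk w (C • W₁).a₃) := (he _ h3).symm
  have e4 : rs V ((C • W₁)⁄Ω).a₄ = e (rk w (C • W₁).a₄) := (he _ h4).symm
  have e6 : rs V ((C • W₁)⁄Ω).a₆ = e (rk w (C • W₁).a₆) := (he _ h6).symm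
  rw [WeierstrassCurve.Affine.equation_iff, Eqr, e1, e2, e3, e4, e6]
  constructor
  · intro h
    have h7 := congrArg e h
    simp only [map_add, map_mul, map_pow] at h7
    exact h7
  · intro h
    apply e.injective
    simp only [map_add, map_mul, map_pow]
    exact h

/-- Chunk D4 (M). NW_eq, card_pairs for rkW w (C • W₁) (the residue field is finite: H55B.residue_card or Nat.card ≠ 0), e from exists_emb (hV). The map (x, y) ↦ (e x, e y) is a bijection from the pairs over 𝔽 satisfying the equation to the pairs (z₁, z₂) over the residue field of V with z₁^q = z₁, z₂^q = z₂ and Eqr: e is an injective ring homomorphism and maps the coefficients rk w a_i to rs V (algebraMap k Ω a_i) (hC: the coefficients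
are w-integral), which are the coefficients in Eqr for (C • W₁)⁄Ω ((C • W₁)⁄Ω).a₁ = algebraMap k Ω (C • W₁).a₁: rfl). Affine.equation_iff. -/
theorem NW_pairs (hV : Abw V w) {W₁ : WeierstrassCurve k} {C : VariableChange k} (hC : GC W₁ w C) :
    NW W₁ w = Nat.card {z : IsLocalRing.ResidueField V × IsLocalRing.ResidueField V //
      z.1 ^ Ideal.absNorm w.asIdeal = z.1 ∧ z.2 ^ Ideal.absNorm w.asIdeal = z.2 ∧ Eqr V ((C • W₁)⁄Ω) z.1 z.2} + 1 := by
  have hfin := (H55B.residue_card k w).1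
  obtain ⟨e, he, hroot⟩ := exists_emb hV
  rw [(NW_eq hC).2.1, card_pairs _ (NW_eq hC).2.2]
  congr 1
  refine Nat.card_congr (Equiv.ofBijective
    (fun z => ⟨(e z.1.1, e z.1.2), (hroot _).2 ⟨_, rfl⟩, (hroot _).2 ⟨_, rfl⟩, (d4a_eqr he hC _ _).1 z.2⟩) ⟨?_, ?_⟩)
  · rintro ⟨⟨x, y⟩, h⟩ ⟨⟨x', y'⟩, h'⟩ h1
    have h2 := congrArg Subtype.val h1
    have h3 := congrArg Prod.fst h2
    have h4 := congrArg Prod.snd h2
    have h5 : x = x' := e.injective h3
    have h6 : y = y' := e.injective h4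
    subst h5 h6
    rfl
  · rintro ⟨⟨x, y⟩, h1, h2, h3⟩
    obtain ⟨x', rfl⟩ := (hroot _).1 h1
    obtain ⟨y', rfl⟩ := (hroot _).1 h2
    exact ⟨⟨(x', y'), (d4a_eqr he hC _ _).2 h3⟩, rfl⟩

end H55G
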