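import Mathlib
import Pool.Agent.Lib.H55G.C2
import Pool.Agent.Lib.H55G.D1
import Pool.Agent.Lib.H55G.D2
import Pool.Agent.Lib.H55G.D3B
import Pool.Agent.Lib.H55G.D4a

/-! # H55G, part D: the points of the minimal model and the fixed points of the Frobenius endomorphism -/

open NumberField IsDedekindDomain WeierstrassCurve Polynomial

namespace H55G

open H55P (IQ embF eF LF Per IsHecke Pt ac Inert Dec Nm)
open H35P (WAB Ker GoodW IntW)
open H55K (CMA Tor TN ak xc yc cj cj_cj mul_cj Nm_cj Nm_mul Nm_nat acr xc_acr yc_acr acr_zero_iff acr_inj acr_eq_ac acr_trans GoodAt Abw)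
open H55K.MG (VC Crd)

variable {F : Type} [Field F] {A B : F} {Ω : Type} [Field Ω] [DecidableEq Ω] [Algebra F Ω]
  {V : ValuationSubring Ω} {k : Type} [Field k] [NumberField k] [Algebra k Ω] {w : HeightOneSpectrum (𝓞 k)}
  {W₁ : WeierstrassCurve k} {C : VariableChange k} {W' : WeierstrassCurve Ω} {u r s t : Ω}
  {Θ : Pt (WAB A B) Ω ≃+ W'.toAffine.Point} {Kg : AddSubgroup (Pt (WAB A B) Ω)}

/-- Chunk D4 (S/M). q = absNorm w > 0. For c ≠ 0: φ c ≠ 0 (φ c = 0 means acr P in Kg, P in Kg: acr_kg with hfr.frob), and φ c = c iff XG (φ c) = XG c and YG (φ c) = YG c (XG_ext) iff XG c^q = XG c and YG c^q = YG c (phi_xy). So c ↦ (XG c, YG c) is a bijection from the nonzero fixed points to the pairs of NW_pairs (subst hW'; XG_eqr; injective: XG_ext;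
surjective: XG_lift). With c = 0: + 1 (the set of the pairs is finite: there are finitely many z with z^q = z; Nat.card of a type with an extra point: Finite.card_option). -/
theorem NW_fr [IsAlgClosed Ω] {g : Ω ≃+* Ω} (hfr : FrD k V w g) {hA : g (algebraMap F Ω A) = algebraMap F Ω A}
    {hB : g (algebraMap F Ω B) = algebraMap F Ω B} (hC : GC W₁ w C) (hW' : W' = (C • W₁)⁄Ω)
    (hG : GD V W' u r s t Θ Kg) (hg : Fx g u r s t) (hK : ∀ P ∈ Kg, acr g hA hB P ∈ Kg) :
    NW W₁ w = Nat.card {c : Pt (WAB A B) Ω ⧸ Kg // qmap Kg (acr g hA hB) hK c = c} := by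
  subst hW'
  have hq : 0 < Ideal.absNorm w.asIdeal :=
    Nat.pos_of_ne_zero (mt Ideal.absNorm_eq_zero_iff.1 w.ne_bot)
  rw [NW_pairs hfr.abw hC]
  have hfin0 : Finite {z : IsLocalRing.ResidueField V // z ^ Ideal.absNorm w.asIdeal = z} := by
    have hfin := (H55B.residue_card k w).1
    obtain ⟨e, -, hroot⟩ := exists_emb hfr.abw
    refine Finite.of_surjective (α := IsLocalRing.ResidueField (w.adicCompletionIntegers k))
      (fun y => ⟨e y, (hroot _).2 ⟨y, rfl⟩⟩) ?_
    rintro ⟨z, hz⟩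
    obtain ⟨y, rfl⟩ := (hroot _).1 hz
    exact ⟨y, rfl⟩
  have hfin : Finite {z : IsLocalRing.ResidueField V × IsLocalRing.ResidueField V //
      z.1 ^ Ideal.absNorm w.asIdeal = z.1 ∧ z.2 ^ Ideal.absNorm w.asIdeal = z.2 ∧ Eqr V ((C • W₁)⁄Ω) z.1 z.2} := by
    refine Finite.of_injective (β := {z : IsLocalRing.ResidueField V // z ^ Ideal.absNorm w.asIdeal = z} ×
      {z : IsLocalRing.ResidueField V // z ^ Ideal.absNorm w.asIdeal = z})
      (fun z => (⟨z.1.1, z.2.1⟩, ⟨z.1.2, z.2.2.1⟩)) ?_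
    rintro ⟨⟨x, y⟩, h⟩ ⟨⟨x', y'⟩, h'⟩ h1
    have h2 := congrArg (fun t => (t.1 : IsLocalRing.ResidueField V)) h1
    have h3 := congrArg (fun t => (t.2 : IsLocalRing.ResidueField V)) h1
    have h4 : x = x' := h2
    have h5 : y = y' := h3
    subst h4 h5
    rfl
  rw [← Finite.card_option]
  have hne : ∀ c : Pt (WAB A B) Ω ⧸ Kg, c ≠ 0 → qmap Kg (acr g hA hB) hK c ≠ 0 := by
    intro c hc h0
    induction c using QuotientAddGroup.induction_on with
    | H P =>
      rw [qmap_mk] at h0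
      have h1 : acr g hA hB P ∈ Kg := (QuotientAddGroup.eq_zero_iff _).1 h0
      exact hc ((QuotientAddGroup.eq_zero_iff _).2 ((acr_kg hG hg hq hfr.frob P).1 h1))
  have hlift : ∀ z : {z : IsLocalRing.ResidueField V × IsLocalRing.ResidueField V //
      z.1 ^ Ideal.absNorm w.asIdeal = z.1 ∧ z.2 ^ Ideal.absNorm w.asIdeal = z.2 ∧ Eqr V ((C • W₁)⁄Ω) z.1 z.2},
      ∃ c : Pt (WAB A B) Ω ⧸ Kg, c ≠ 0 ∧ XG V Θ Kg c = z.1.1 ∧ YG V Θ Kg c = z.1.2 ∧ qmap Kg (acr g hA hB) hK c = c := by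
    rintro ⟨⟨x, y⟩, h1, h2, h3⟩
    obtain ⟨c, hc, hx, hy⟩ := XG_lift hG h3
    refine ⟨c, hc, hx, hy, XG_ext hG (hne c hc) hc ?_ ?_⟩
    · rw [(phi_xy hG hg hq hfr.frob hK hc).1, hx]
      exact h1
    · rw [(phi_xy hG hg hq hfr.frob hK hc).2, hy]
      exact h2
  choose lift l1 l2 l3 l4 using hlift
  refine Nat.card_congr (Equiv.ofBijective (fun o => match o with
    | none => ⟨0, map_zero _⟩
    | some z => ⟨lift z, l4 z⟩) ⟨?_, ?_⟩)
  · intro o o' h
    cases o with
    | none =>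
      cases o' with
      | none => rfl
      | some z' => exact absurd (congrArg Subtype.val h).symm (l1 z')
    | some z =>
      cases o' with
      | none => exact absurd (congrArg Subtype.val h) (l1 z)
      | some z' =>
        have h1 : lift z = lift z' := congrArg Subtype.val h
        have h2 : z.1.1 = z'.1.1 := by rw [← l2 z, ← l2 z', h1]
        have h3 : z.1.2 = z'.1.2 := by rw [← l3 z, ← l3 z', h1]
        exact congrArg some (Subtype.ext (Prod.ext h2 h3))
  · rintro ⟨c, hc⟩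
    by_cases h0 : c = 0
    · subst h0
      exact ⟨none, rfl⟩
    · have hp := phi_xy hG hg hq hfr.frob hK h0
      rw [hc] at hp
      let z : {z : IsLocalRing.ResidueField V × IsLocalRing.ResidueField V //
          z.1 ^ Ideal.absNorm w.asIdeal = z.1 ∧ z.2 ^ Ideal.absNorm w.asIdeal = z.2 ∧ Eqr V ((C • W₁)⁄Ω) z.1 z.2} :=
        ⟨(XG V Θ Kg c, YG V Θ Kg c), hp.1.symm, hp.2.symm, XG_eqr hG h0⟩
      refine ⟨some z, Subtype.ext ?_⟩
      exact XG_ext hG (l1 z) h0 (l2 z) (l3 z)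

end H55G
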