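import Mathlib
import Pool.Agent.Lib.H55G.A8
import Pool.Agent.Lib.H55G.C3
import Pool.Agent.Lib.H55G.D4

/-! # H55G, part E: the number of points at a prime of good reduction -/

open NumberField IsDedekindDomain WeierstrassCurve Polynomial

namespace H55G

open H55P (IQ embF eF LF Per IsHecke Pt ac Inert Dec Nm)
open H35P (WAB Ker GoodW IntW)
open H55K (CMA Tor TN ak xc yc cj cj_cj mul_cj Nm_cj Nm_mul Nm_nat acr xc_acr yc_acr acr_zero_iff acr_inj acr_eq_ac acr_trans GoodAt Abw)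
open H55K.MG (VC Crd)

variable {F : Type} [Field F] [NumberField F] [IQ F] {A B : F} {Om : ℂ} {Ω : Type} [Field Ω] [DecidableEq Ω]
  [Algebra F Ω] {j : Ω →+* ℂ} {act : 𝓞 F →+* AddMonoid.End (Pt (WAB A B) Ω)} {V : ValuationSubring Ω}
  {k : Type} [Field k] [NumberField k] [Algebra k Ω] {w : HeightOneSpectrum (𝓞 k)}
  {W₁ : WeierstrassCurve k} {C : VariableChange k} {W' : WeierstrassCurve Ω} {u r s t : Ω}
  {Θ : Pt (WAB A B) Ω ≃+ W'.toAffine.Point} {Kg : AddSubgroup (Pt (WAB A B) Ω)}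

omit [NumberField F] [IQ F] [DecidableEq Ω] in
/-- Integers of F have valuation at most one. -/
theorem e1a_ak_le (V : ValuationSubring Ω) (a : 𝓞 F) : V.valuation (ak Ω a) ≤ 1 := by
  rw [V.valuation_le_one_iff]
  have h1 : IsIntegral ℤ (ak Ω a) := by
    have h2 : IsIntegral ℤ (a : F) := RingOfIntegers.isIntegral_coe a
    exact h2.map ((algebraMap F Ω).toIntAlgHom)
  have h3 : IsIntegral V (ak Ω a) := h1.tower_top
  obtain ⟨y, hy⟩ := IsIntegrallyClosed.isIntegral_iff.1 h3
  rw [← hy]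
  exact y.2

omit [NumberField F] [IQ F] [DecidableEq Ω] [Field F] [Algebra F Ω] in
/-- Chunk E1 (S). absNorm w = l^f with l a prime number, f ≠ 0, l in w (the residue field is a finite field: see fb/re_inertia or Ideal.absNorm_mem, exists_frob in H13S/FR.lean); V(l) < 1: hV.lt (K0A.lean). -/
theorem exists_l (hV : Abw V w) : ∃ l f : ℕ, l.Prime ∧ f ≠ 0 ∧ Ideal.absNorm w.asIdeal = l ^ f ∧ V.valuation (l : Ω) < 1 := by
  have hvm := w.isMaximal
  let _ : Field (𝓞 k ⧸ w.asIdeal) := Ideal.Quotient.field w.asIdeal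
  have hfin : Finite (𝓞 k ⧸ w.asIdeal) := Ideal.finiteQuotientOfFreeOfNeBot _ w.ne_bot
  let _ : Fintype (𝓞 k ⧸ w.asIdeal) := Fintype.ofFinite _
  obtain ⟨l, hlc⟩ := CharP.exists (𝓞 k ⧸ w.asIdeal)
  obtain ⟨n, hl, hn⟩ := FiniteField.card (𝓞 k ⧸ w.asIdeal) l
  refine ⟨l, n, hl, n.ne_zero, ?_, ?_⟩
  · have h3 : Ideal.absNorm w.asIdeal = Nat.card (𝓞 k ⧸ w.asIdeal) := rfl
    rw [h3, Nat.card_eq_fintype_card, hn]
  · have hqv : (l : 𝓞 k) ∈ w.asIdeal := by
      rw [← Ideal.Quotient.eq_zero_iff_mem, map_natCast]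
      exact CharP.cast_eq_zero _ l
    have h1 := (hV.lt (l : k)).2 (by
      have h2 := (w.valuation_lt_one_iff_mem (K := k) (l : 𝓞 k)).2 hqv
      have h3 : (((l : 𝓞 k)) : k) = (l : k) := map_natCast (algebraMap (𝓞 k) k) l
      rw [← h3]
      exact h2)
    rwa [map_natCast] at h1

omit [DecidableEq Ω] in
/-- Chunk E1 (S). The ideal of the a in 𝓞 F with V(ak a) < 1 is prime, and it contains the prime number l of exists_l, l ≠ 0; it is principal (IQ F: class number one), generated by a prime element b. -/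
theorem exists_b (hV : Abw V w) : ∃ b : 𝓞 F, Prime b ∧ V.valuation (ak Ω b) < 1 := by
  obtain ⟨l, f, hl, hf, hq, hlV⟩ := exists_l hV
  let I : Ideal (𝓞 F) :=
    { carrier := {a | V.valuation (ak Ω a) < 1}
      add_mem' := by
        intro a b ha hb
        have h1 : ak Ω (a + b) = ak Ω a + ak Ω b := by simp only [ak, map_add]
        show V.valuation (ak Ω (a + b)) < 1
        rw [h1]
        exact lt_of_le_of_lt (V.valuation.map_add _ _) (max_lt ha hb)
      zero_mem' := by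
        have h1 : ak Ω (0 : 𝓞 F) = 0 := by simp only [ak, map_zero]
        show V.valuation (ak Ω (0 : 𝓞 F)) < 1
        rw [h1, map_zero]
        exact zero_lt_one
      smul_mem' := by
        intro c a ha
        have h1 : ak Ω (c * a) = ak Ω c * ak Ω a := by simp only [ak, map_mul]
        show V.valuation (ak Ω (c * a)) < 1
        rw [h1, map_mul]
        exact lt_of_le_of_lt (mul_le_of_le_one_left' (e1a_ak_le V c)) ha }
  have hmem : ∀ a : 𝓞 F, a ∈ I ↔ V.valuation (ak Ω a) < 1 := fun _ => Iff.rfl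
  have hI : I.IsPrime := by
    refine Ideal.isPrime_iff.2 ⟨?_, ?_⟩
    · rw [Ideal.ne_top_iff_one, hmem]
      have h1 : ak Ω (1 : 𝓞 F) = 1 := by simp only [ak, map_one]
      rw [h1, map_one]
      exact lt_irrefl _
    · intro a b hab
      rw [hmem] at hab ⊢
      rw [hmem]
      by_contra hc
      push Not at hc
      have h1 : ak Ω (a * b) = ak Ω a * ak Ω b := by simp only [ak, map_mul]
      rw [h1, map_mul] at hab
      have h2 : V.valuation (ak Ω a) = 1 := le_antisymm (e1a_ak_le V a) hc.1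
      have h3 : V.valuation (ak Ω b) = 1 := le_antisymm (e1a_ak_le V b) hc.2
      rw [h2, h3, one_mul] at hab
      exact lt_irrefl _ hab
  have hI0 : I ≠ ⊥ := by
    intro h0
    have h1 : ((l : ℕ) : 𝓞 F) ∈ I := by
      rw [hmem]
      have h2 : ak Ω ((l : ℕ) : 𝓞 F) = (l : Ω) := by simp only [ak, map_natCast]
      rw [h2]
      exact hlV
    rw [h0, Ideal.mem_bot] at h1
    exact hl.ne_zero (by exact_mod_cast h1)
  have hpid : IsPrincipalIdealRing (𝓞 F) := IQ.pid
  obtain ⟨b, hb⟩ := (IsPrincipalIdealRing.principal I).principal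
  have hb' : I = Ideal.span {b} := hb
  have hb0 : b ≠ 0 := by
    intro h0
    rw [h0, Ideal.span_singleton_eq_bot.2 rfl] at hb'
    exact hI0 hb'
  refine ⟨b, ?_, ?_⟩
  · rw [← Ideal.span_singleton_prime hb0, ← hb']
    exact hI
  · rw [← hmem, hb']
    exact Ideal.mem_span_singleton_self b

omit [NumberField F] [IQ F] in
/-- Chunk E1 (S). From fr_of (D1.lean) for g: two, bij, x for φ * φ follow (q^2 ≥ 2, composition, X(φφP) = X(φP)^q = X(P)^(q^2)); card: card_fix for q^2 = l^(2f) as in fr_of. -/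
theorem fr_sq [IsAlgClosed Ω] {g : Ω ≃+* Ω} {hA : g (algebraMap F Ω A) = algebraMap F Ω A}
    {hB : g (algebraMap F Ω B) = algebraMap F Ω B} (hG : GD V W' u r s t Θ Kg) (hg : Fx g u r s t) {q l f : ℕ}
    (hl : l.Prime) (hlV : V.valuation (l : Ω) < 1) (hf0 : f ≠ 0) (hq : q = l ^ f)
    (hf : ∀ x ∈ V, V.valuation (g x - x ^ q) < 1) (hK : ∀ P ∈ Kg, acr g hA hB P ∈ Kg) :
    Fr (XG V Θ Kg) (q ^ 2) ((qmap Kg (acr g hA hB) hK) * (qmap Kg (acr g hA hB) hK)) := by
  have h1 := fr_of hG hg hl hlV hf0 hq hf hK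
  refine ⟨?_, ?_, ?_, ?_⟩
  · have h2 := h1.two
    nlinarith
  · exact h1.bij.comp h1.bij
  · intro P hP
    have hP' : qmap Kg (acr g hA hB) hK P ≠ 0 := by
      intro h0
      exact hP (h1.bij.1 (by rw [h0, map_zero]))
    show XG V Θ Kg (qmap Kg (acr g hA hB) hK (qmap Kg (acr g hA hB) hK P)) = _
    rw [h1.x _ hP', h1.x _ hP, ← pow_mul, sq]
  · have hac := rs_algClosed V
    have hc : ((l : ℕ) : IsLocalRing.ResidueField V) = 0 := by
      rw [← map_natCast (IsLocalRing.residue V) l, IsLocalRing.residue_eq_zero_iff,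
        ValuationSubring.valuation_lt_one_iff]
      have h3 : (((l : ℕ) : V) : Ω) = (l : Ω) := by norm_cast
      rw [h3]
      exact hlV
    exact card_fix hl hc (f := 2 * f) (by omega) (by rw [hq, ← pow_mul, mul_comm])

end H55G
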