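import Mathlib
import Pool.Agent.Lib.H55G.A8
import Pool.Agent.Lib.H55G.C3
import Pool.Agent.Lib.H55G.D4
import Pool.Agent.Lib.H55G.E1a

/-! # H55G, part E: the number of points at a prime of good reduction -/

open NumberField IsDedekindDomain WeierstrassCurve Polynomial

namespace H55G

open H55P (IQ embF eF LF Per IsHecke Pt ac Inert Dec Nm)
open H35P (WAB Ker GoodW IntW)
open H55K (CMA Tor TN ak xc yc cj cj_cj mul_cj Nm_cj Nm_mul Nm_nat acr xc_acr yc_acr acr_zero_iff acr_inj acr_eq_ac acr_trans GoodAt Abw)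
open H55K.MG (VC Crd)

variable {F : Type} [Field F] [NumberField F] [IQ F] {A B : F} {Om : ℂ} {Ω : Type} [Field Ω] [DecidableEq Ω]
  [Algebra F Ω] {j : Ω →+* ℂ} {act : 𝓞 F →+* AddMonoid.End (Pt (WAB A B) Ω)} {V : ValuationSubring Ω}
  {k : Type} [Field k] [NumberField k] [Algebra k Ω] {w : HeightOneSpectrum (𝓞 k)}
  {W₁ : WeierstrassCurve k} {C : VariableChange k} {W' : WeierstrassCurve Ω} {u r s t : Ω}
  {Θ : Pt (WAB A B) Ω ≃+ W'.toAffine.Point} {Kg : AddSubgroup (Pt (WAB A B) Ω)}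

/-- Chunk E1 (M). b from exists_b, l, f from exists_l. RG from rg_of (C3C.lean) with hst from kg_stable (B3.lean), Fr from fr_of, fr_sq with hfr.frob. lin_or (D1.lean): linear case: phi_lin, hasse and fr_surj (A7.lean); antilinear case: phi_anti, anti (A8.lean): then q + 1 - NW = 0. NW_fr. In the second claim: anti. -/
theorem e_all [IsAlgClosed Ω] [Algebra.IsAlgebraic F Ω] (h : CMA F A B Om j act) {g : Ω ≃+* Ω} (hfr : FrD k V w g)
    {hA : g (algebraMap F Ω A) = algebraMap F Ω A}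
    {hB : g (algebraMap F Ω B) = algebraMap F Ω B} (hC : GC W₁ w C) (hW' : W' = (C • W₁)⁄Ω)
    (hG : GD V W' u r s t Θ Kg) (hg : Fx g u r s t) (hK : ∀ P ∈ Kg, acr g hA hB P ∈ Kg) :
    ((Ideal.absNorm w.asIdeal : ℤ) + 1 - (NW W₁ w : ℤ)) ^ 2 ≤ 4 * Ideal.absNorm w.asIdeal ∧
    ((∀ a : 𝓞 F, g (ak Ω a) = ak Ω (cj a)) → NW W₁ w = Ideal.absNorm w.asIdeal + 1 ∧
      Nat.card {c : Pt (WAB A B) Ω ⧸ Kg // qmap Kg (acr g hA hB) hK (qmap Kg (acr g hA hB) hK c) = c} =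
        (Ideal.absNorm w.asIdeal + 1) ^ 2) ∧
    ∀ P : Pt (WAB A B) Ω ⧸ Kg, ∃ Q, qmap Kg (acr g hA hB) hK Q - Q = P := by
  obtain ⟨b, hb, hbV⟩ := exists_b (F := F) hfr.abw
  obtain ⟨l, f, hl, hf0, hq, hlV⟩ := exists_l hfr.abw
  have hst : ∀ a : 𝓞 F, ∀ P ∈ Kg, act a P ∈ Kg := fun a P hP => kg_stable h hG a hP
  have hRG := rg_of h hG hst hb hbV
  have hFr := fr_of hG hg hl hlV hf0 hq hfr.frob hK
  have hFr2 := fr_sq hG hg hl hlV hf0 hq hfr.frob hK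
  have hNW := NW_fr hfr hC hW' hG hg hK
  have hanti : (∀ a : 𝓞 F, g (ak Ω a) = ak Ω (cj a)) →
      NW W₁ w = Ideal.absNorm w.asIdeal + 1 ∧
      Nat.card {c : Pt (WAB A B) Ω ⧸ Kg // qmap Kg (acr g hA hB) hK (qmap Kg (acr g hA hB) hK c) = c} =
        (Ideal.absNorm w.asIdeal + 1) ^ 2 ∧
      ∀ P : Pt (WAB A B) Ω ⧸ Kg, ∃ Q, qmap Kg (acr g hA hB) hK Q - Q = P := by
    intro h1
    have h2 := anti hRG hFr hFr2 (fun a P => phi_anti h hst hK h1 a P)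
    exact ⟨hNW.trans h2.1, h2.2.1, h2.2.2⟩
  rcases lin_or (F := F) g with h1 | h1
  · have hlin : ∀ (a : 𝓞 F) (P : Pt (WAB A B) Ω ⧸ Kg), qmap Kg (acr g hA hB) hK (rhoG Kg act hst a P) =
        rhoG Kg act hst a (qmap Kg (acr g hA hB) hK P) := fun a P => phi_lin h hst hK h1 a P
    refine ⟨?_, fun h2 => ⟨(hanti h2).1, (hanti h2).2.1⟩, (fr_surj hRG hFr hlin).1⟩
    rw [hNW]
    exact hasse hRG hFr hlin
  · have h2 := hanti h1
    refine ⟨?_, fun _ => ⟨h2.1, h2.2.1⟩, h2.2.2⟩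
    rw [h2.1]
    push_cast
    rw [sub_self]
    positivity

end H55G
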