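import Mathlib
import Pool.Agent.Lib.H55G.E1
import Pool.Agent.Lib.H13S.FR
import Pool.Agent.Lib.H55K.BH1
import Pool.Agent.Lib.H55K.CM
import Pool.Agent.Lib.H55K.T9A
import Pool.Agent.Lib.H55K.Y1
import Pool.Agent.Lib.H55K.Y3

/-! # H55G, part E: the setting -/

open NumberField IsDedekindDomain WeierstrassCurve Polynomial

namespace H55G

open H55P (IQ embF eF LF Per IsHecke Pt ac Inert Dec Nm)
open H35P (WAB Ker GoodW IntW)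
open H55K (CMA Tor TN ak xc yc cj cj_cj mul_cj Nm_cj Nm_mul Nm_nat acr xc_acr yc_acr acr_zero_iff acr_inj acr_eq_ac acr_trans GoodAt Abw)
open H55K.MG (VC Crd)
open H55K.TQ

/-- The short equation of W₀ over F. -/
structure Sh {F : Type} [Field F] [NumberField F] (W₀ : WeierstrassCurve (𝓞 F)) (A B : F) : Prop where
  hA : A = -(algebraMap (𝓞 F) F W₀.c₄) / 48
  hB : B = -(algebraMap (𝓞 F) F W₀.c₆) / 864

variable {F : Type} [Field F] [NumberField F] [IQ F] {W₀ : WeierstrassCurve (𝓞 F)} {Om : ℂ}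
    {m : Ideal (𝓞 F)} {ψ : Ideal (𝓞 F) →*₀ 𝓞 F} {A B : F}

omit [IQ F] in
/-- A and B are images of rational numbers. -/
theorem e2a_rat {W : WeierstrassCurve ℤ} (hS : Sh (W⁄(𝓞 F)) A B) :
    A = algebraMap ℚ F (-(W⁄ℚ).c₄ / 48) ∧ B = algebraMap ℚ F (-(W⁄ℚ).c₆ / 864) := by
  have hc4 : algebraMap (𝓞 F) F (W⁄(𝓞 F)).c₄ = algebraMap ℚ F (W⁄ℚ).c₄ := by
    have e1 : (W⁄(𝓞 F)).c₄ = algebraMap ℤ (𝓞 F) W.c₄ := W.map_c₄ _
    have e2 : (W⁄ℚ).c₄ = algebraMap ℤ ℚ W.c₄ := W.map_c₄ _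
    rw [e1, e2]
    simp
  have hc6 : algebraMap (𝓞 F) F (W⁄(𝓞 F)).c₆ = algebraMap ℚ F (W⁄ℚ).c₆ := by
    have e1 : (W⁄(𝓞 F)).c₆ = algebraMap ℤ (𝓞 F) W.c₆ := W.map_c₆ _
    have e2 : (W⁄ℚ).c₆ = algebraMap ℤ ℚ W.c₆ := W.map_c₆ _
    rw [e1, e2]
    simp
  constructor
  · rw [hS.hA, hc4, map_div₀, map_neg, map_ofNat]
  · rw [hS.hB, hc6, map_div₀, map_neg, map_ofNat]

/-- The change of variables over the rational numbers. -/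
theorem e2a_vc (W : WeierstrassCurve ℚ) {A₀ B₀ : ℚ} (hA : A₀ = -W.c₄ / 48) (hB : B₀ = -W.c₆ / 864) :
    VC (WAB A₀ B₀) W 1 (W.b₂ / 12) (W.a₁ / 2) (W.a₃ / 2) := by
  have k1 : (1 : ℚ) * W.a₁ = (WAB A₀ B₀).a₁ + 2 * (W.a₁ / 2) := by
    simp only [WAB]
    ring
  have k2 : (1 : ℚ) ^ 2 * W.a₂ = (WAB A₀ B₀).a₂ - (W.a₁ / 2) * (WAB A₀ B₀).a₁ + 3 * (W.b₂ / 12) - (W.a₁ / 2) ^ 2 := by
    simp only [WAB, WeierstrassCurve.b₂]
    ring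
  have k3 : (1 : ℚ) ^ 3 * W.a₃ = (WAB A₀ B₀).a₃ + (W.b₂ / 12) * (WAB A₀ B₀).a₁ + 2 * (W.a₃ / 2) := by
    simp only [WAB]
    ring
  have k4 : (1 : ℚ) ^ 4 * W.a₄ = (WAB A₀ B₀).a₄ - (W.a₁ / 2) * (WAB A₀ B₀).a₃ + 2 * (W.b₂ / 12) * (WAB A₀ B₀).a₂ -
      (W.a₃ / 2 + (W.b₂ / 12) * (W.a₁ / 2)) * (WAB A₀ B₀).a₁ + 3 * (W.b₂ / 12) ^ 2 - 2 * (W.a₁ / 2) * (W.a₃ / 2) := by
    simp only [WAB, WeierstrassCurve.b₂, hA, WeierstrassCurve.c₄, WeierstrassCurve.b₄]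
    ring
  have k6 : (1 : ℚ) ^ 6 * W.a₆ = (WAB A₀ B₀).a₆ + (W.b₂ / 12) * (WAB A₀ B₀).a₄ + (W.b₂ / 12) ^ 2 * (WAB A₀ B₀).a₂ + (W.b₂ / 12) ^ 3 -
      (W.a₃ / 2) * (WAB A₀ B₀).a₃ - (W.a₃ / 2) ^ 2 - (W.b₂ / 12) * (W.a₃ / 2) * (WAB A₀ B₀).a₁ := by
    simp only [WAB, WeierstrassCurve.b₂, hA, hB, WeierstrassCurve.c₄, WeierstrassCurve.b₄, WeierstrassCurve.c₆, WeierstrassCurve.b₆]
    ring
  exact ⟨one_ne_zero, k1, k2, k3, k4, k6⟩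

/-- Chunk E2A (S). y3_ne, exists_j, hper and exists_CMA exactly as at the beginning of the proof of H13R.bad_KR (Lib/H13R/C3.lean). -/
theorem setup (hH : BaseH F W₀ Om m ψ) (Ω : Type) [Field Ω] [DecidableEq Ω] [Algebra F Ω] [IsAlgClosed Ω]
    [Algebra.IsAlgebraic F Ω] : ∃ (A B : F) (j : Ω →+* ℂ) (act : 𝓞 F →+* AddMonoid.End (Pt (WAB A B) Ω)),
      Sh W₀ A B ∧ 4 * A ^ 3 + 27 * B ^ 2 ≠ 0 ∧ CMA F A B Om j act := by
  obtain ⟨j, hj⟩ := H55K.exists_j F Ω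
  obtain ⟨A, hA⟩ : ∃ A : F, A = -(algebraMap (𝓞 F) F W₀.c₄) / 48 := ⟨_, rfl⟩
  obtain ⟨B, hB'⟩ : ∃ B : F, B = -(algebraMap (𝓞 F) F W₀.c₆) / 864 := ⟨_, rfl⟩
  have hd := H55K.y3_ne W₀ hA hB' hH.data.ell
  have hper : Per F (embF F A) (embF F B) Om := by
    have e1 : embF F A = -(eF F W₀.c₄) / 48 := by
      rw [hA, map_div₀, map_neg, map_ofNat]
      rfl
    have e2 : embF F B = -(eF F W₀.c₆) / 864 := by
      rw [hB', map_div₀, map_neg, map_ofNat]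
      rfl
    rw [e1, e2]
    exact hH.data.per
  obtain ⟨act, hact⟩ := H55K.exists_CMA F A B Om j hd hper hj
  exact ⟨A, B, j, act, ⟨hA, hB'⟩, hd, hact⟩

omit [IQ F] in
/-- Chunk E2A (S). H55K.TQ.vc_short (T9A.lean): VC (WAB A B) (W₀⁄F) 1 r s t over F; vc_map for F → Ω; ((W₀⁄F)⁄K)⁄Ω = (W₀⁄F)⁄Ω (map_map, IsScalarTower.algebraMap_eq); the numbers are images of algebraMap F K r .. . -/
theorem vck_F (hS : Sh W₀ A B) {Ω : Type} [Field Ω] [Algebra F Ω] {K : Type} [Field K] [Algebra F K]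
    [Algebra K Ω] [IsScalarTower F K Ω] : VCk (k := K) ((WAB A B)⁄Ω) ((W₀⁄F)⁄K) := by
  obtain ⟨r, s, t, h⟩ := vc_short W₀ hS.hA hS.hB
  have h1 := vc_map (algebraMap F Ω) h
  refine ⟨algebraMap F K 1, algebraMap F K r, algebraMap F K s, algebraMap F K t, ?_⟩
  have e : ∀ x : F, algebraMap K Ω (algebraMap F K x) = algebraMap F Ω x :=
    fun x => (IsScalarTower.algebraMap_apply F K Ω x).symm
  have e2 : ((W₀⁄F)⁄K)⁄Ω = (W₀⁄F)⁄Ω := by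
    show ((W₀⁄F).map (algebraMap F K)).map (algebraMap K Ω) = (W₀⁄F).map (algebraMap F Ω)
    rw [WeierstrassCurve.map_map, ← IsScalarTower.algebraMap_eq]
  rw [e2, e, e, e, e]
  exact h1

omit [IQ F] in
/-- Chunk E2A (S/M). A = -c₄/48, B = -c₆/864 with the integers c₄, c₆ of W (map_c₄, map_c₆). VC ((WAB A B)⁄Ω) (W⁄k ⁄Ω) 1 (b₂/12) (a₁/2) (a₃/2) over Ω (see rf_fix in H55K/RF.lean, k1 .. k6; all coefficients are images of integers or rational numbers, so both sides are images of an identity over ℚ), and 1, b₂/12, a₁/2, a₃/2 are in k. -/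
theorem vck_Z {W : WeierstrassCurve ℤ} (hS : Sh (W⁄(𝓞 F)) A B) {Ω : Type} [Field Ω] [Algebra F Ω] {k : Type} [Field k]
    [NumberField k] [Algebra k Ω] : VCk (k := k) ((WAB A B)⁄Ω) (W⁄k) := by
  obtain ⟨eA, eB⟩ := e2a_rat hS
  set A₀ : ℚ := -(W⁄ℚ).c₄ / 48 with hA₀
  set B₀ : ℚ := -(W⁄ℚ).c₆ / 864 with hB₀
  have h0 := e2a_vc (W⁄ℚ) hA₀ hB₀
  set ρ : ℚ →+* Ω := (algebraMap k Ω).comp (algebraMap ℚ k) with hρ
  have hρ' : ρ = (algebraMap F Ω).comp (algebraMap ℚ F) := Subsingleton.elim _ _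
  have h1 := vc_map ρ h0
  refine ⟨algebraMap ℚ k 1, algebraMap ℚ k ((W⁄ℚ).b₂ / 12), algebraMap ℚ k ((W⁄ℚ).a₁ / 2),
    algebraMap ℚ k ((W⁄ℚ).a₃ / 2), ?_⟩
  have e1 : (WAB A B)⁄Ω = (WAB A₀ B₀).map ρ := by
    have f1 : algebraMap F Ω A = ρ A₀ := by
      rw [eA, hρ']
      rfl
    have f2 : algebraMap F Ω B = ρ B₀ := by
      rw [eB, hρ']
      rfl
    ext
    · show algebraMap F Ω 0 = ρ 0
      rw [map_zero, map_zero]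
    · show algebraMap F Ω 0 = ρ 0
      rw [map_zero, map_zero]
    · show algebraMap F Ω 0 = ρ 0
      rw [map_zero, map_zero]
    · exact f1
    · exact f2
  have e2 : (W⁄k)⁄Ω = (W⁄ℚ).map ρ := by
    show (W.map (algebraMap ℤ k)).map (algebraMap k Ω) = (W.map (algebraMap ℤ ℚ)).map ρ
    rw [WeierstrassCurve.map_map, WeierstrassCurve.map_map]
    exact congrArg (fun f : ℤ →+* Ω => W.map f) (Subsingleton.elim _ _)
  rw [e1, e2]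
  exact h1

end H55G
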