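import Mathlib
import Pool.Agent.Lib.H55G.E1
import Pool.Agent.Lib.H13S.FR
import Pool.Agent.Lib.H55K.BH1
import Pool.Agent.Lib.H55K.CM
import Pool.Agent.Lib.H55K.T9A
import Pool.Agent.Lib.H55K.Y1
import Pool.Agent.Lib.H55K.Y3
import Pool.Agent.Lib.H55G.E2a

/-! # H55G, part E: the setting -/

open NumberField IsDedekindDomain WeierstrassCurve Polynomial

namespace H55G

open H55P (IQ embF eF LF Per IsHecke Pt ac Inert Dec Nm)
open H35P (WAB Ker GoodW IntW)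
open H55K (CMA Tor TN ak xc yc cj cj_cj mul_cj Nm_cj Nm_mul Nm_nat acr xc_acr yc_acr acr_zero_iff acr_inj acr_eq_ac acr_trans GoodAt Abw)
open H55K.MG (VC Crd)
open H55K.TQ

variable {F : Type} [Field F] [NumberField F] [IQ F] {W₀ : WeierstrassCurve (𝓞 F)} {Om : ℂ}
    {m : Ideal (𝓞 F)} {ψ : Ideal (𝓞 F) →*₀ 𝓞 F} {A B : F}

omit [IQ F] in
/-- Chunk E2A (S). A and B are images of rational numbers (map_c₄, map_c₆; map_ratCast, map_intCast). -/
theorem fix_AB {W : WeierstrassCurve ℤ} (hS : Sh (W⁄(𝓞 F)) A B) {Ω : Type} [Field Ω] [Algebra F Ω] (g : Ω ≃+* Ω) :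
    g (algebraMap F Ω A) = algebraMap F Ω A ∧ g (algebraMap F Ω B) = algebraMap F Ω B := by
  obtain ⟨eA, eB⟩ := e2a_rat hS
  have h1 : ∀ q : ℚ, g (algebraMap F Ω (algebraMap ℚ F q)) = algebraMap F Ω (algebraMap ℚ F q) := by
    intro q
    have h2 : ((g : Ω →+* Ω).comp ((algebraMap F Ω).comp (algebraMap ℚ F))) = (algebraMap F Ω).comp (algebraMap ℚ F) :=
      Subsingleton.elim _ _
    exact congrArg (fun f : ℚ →+* Ω => f q) h2
  rw [eA, eB]
  exact ⟨h1 _, h1 _⟩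

/-- Chunk E2A (S). H13S.exists_frob (Lib/H13S/FR.lean) for F₀ = k and v = w (hv from hV.lt); the ring automorphism underlying s. -/
theorem exists_g {k : Type} [Field k] [NumberField k] {Ω : Type} [Field Ω] [Algebra k Ω] [IsAlgClosure k Ω] {V : ValuationSubring Ω}
    {w : HeightOneSpectrum (𝓞 k)} (hV : Abw V w) : ∃ g : Ω ≃+* Ω, FrD k V w g := by
  obtain ⟨s, -, hs⟩ := H13S.exists_frob (F₀ := k) w V (fun a ha =>
    (hV.lt (a : k)).2 ((w.valuation_lt_one_iff_mem (K := k) a).2 ha))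
  exact ⟨(s : Ω ≃+* Ω), ⟨hV, fun x => s.commutes x, hs⟩⟩

end H55G
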