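import Mathlib
import Pool.Agent.Lib.H55G.E1
import Pool.Agent.Lib.H13S.FR
import Pool.Agent.Lib.H55K.BH1
import Pool.Agent.Lib.H55K.CM
import Pool.Agent.Lib.H55K.T9A
import Pool.Agent.Lib.H55K.Y1
import Pool.Agent.Lib.H55K.Y3
import Pool.Agent.Lib.H55G.E2b

/-! # H55G, part E: the setting -/

open NumberField IsDedekindDomain WeierstrassCurve Polynomial

namespace H55G

open H55P (IQ embF eF LF Per IsHecke Pt ac Inert Dec Nm)
open H35P (WAB Ker GoodW IntW)
open H55K (CMA Tor TN ak xc yc cj cj_cj mul_cj Nm_cj Nm_mul Nm_nat acr xc_acr yc_acr acr_zero_iff acr_inj acr_eq_ac acr_trans GoodAt Abw)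
open H55K.MG (VC Crd)
open H55K.TQ

variable {F : Type} [Field F] [NumberField F] [IQ F] {W₀ : WeierstrassCurve (𝓞 F)} {Om : ℂ}
    {m : Ideal (𝓞 F)} {ψ : Ideal (𝓞 F) →*₀ 𝓞 F} {A B : F}

/-- Chunk E2B (M). Ω = AlgebraicClosure K with its F-algebra structure (IsScalarTower F K Ω; algebraic over F: K/F is finite, Algebra.IsAlgebraic.trans), DecidableEq classical. A, B, j, act from setup; V above w from exists_abw (K0A.lean); C with GC ((W₀⁄F)⁄K) w C (hg); exists_GD with vck_F: GD for W' = (C • ((W₀⁄F)⁄K))⁄Ω; g from exists_g; g fixes the image of K, so of F, and so algebraMap F Ω A, B and the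
images of u, r, s, t (Fx). hK from acr_kg. e_all, first claim. -/
theorem hasse_F (hH : BaseH F W₀ Om m ψ) (K : Type) [Field K] [NumberField K] [Algebra F K] (w : HeightOneSpectrum (𝓞 K))
    (hg : GoodAt ((W₀⁄F)⁄K) w) :
    ((Ideal.absNorm w.asIdeal : ℤ) + 1 - (NW ((W₀⁄F)⁄K) w : ℤ)) ^ 2 ≤ 4 * Ideal.absNorm w.asIdeal := by
  classical
  have halg : Algebra.IsAlgebraic F (AlgebraicClosure K) := Algebra.IsAlgebraic.trans F K (AlgebraicClosure K)
  obtain ⟨A, B, j, act, hS, hd, hC⟩ := setup hH (AlgebraicClosure K)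
  obtain ⟨V, hV⟩ := H55K.exists_abw (AlgebraicClosure K) w
  obtain ⟨C, hCg⟩ := (good_iff _ w).1 hg
  obtain ⟨u, r, s, t, Θ, Kg, hG⟩ := exists_GD hd hV (vck_F hS) hCg
  obtain ⟨g, hfr⟩ := exists_g hV
  have hgF : ∀ x : F, g (algebraMap F (AlgebraicClosure K) x) = algebraMap F (AlgebraicClosure K) x := by
    intro x
    rw [IsScalarTower.algebraMap_apply F K (AlgebraicClosure K)]
    exact hfr.fix _
  have hgx : Fx g (algebraMap K (AlgebraicClosure K) u) (algebraMap K (AlgebraicClosure K) r)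
      (algebraMap K (AlgebraicClosure K) s) (algebraMap K (AlgebraicClosure K) t) :=
    ⟨hfr.fix _, hfr.fix _, hfr.fix _, hfr.fix _⟩
  have hq : 0 < Ideal.absNorm w.asIdeal := Nat.pos_of_ne_zero fun h => w.ne_bot (Ideal.absNorm_eq_zero_iff.1 h)
  have hK : ∀ P ∈ Kg, acr g (hgF A) (hgF B) P ∈ Kg := fun P hP => (acr_kg hG hgx hq hfr.frob P).2 hP
  exact (e_all hC hfr hCg rfl hG hgx hK).1

end H55G
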