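import Mathlib
import Pool.Agent.Lib.H55G.E2
import Pool.Agent.Lib.H13R.C3

/-! # H55G, part I: the short equation and the Galois action -/

open NumberField IsDedekindDomain WeierstrassCurve

namespace H55G

open H55P (IQ embF eF LF Per IsHecke Pt ac Inert Dec Nm UnitP PExt)
open H35P (WAB Ker tt GoodW IntW)
open H55K.MG (VC Crd)
open H55K H55K.TQ

variable {F : Type} [Field F] [NumberField F] {W₀ : WeierstrassCurve (𝓞 F)} {A B : F}

/-- Chunk I3a (S). This is part of the proof of H13R.bad_torsR (Lib/H13R/C3.lean): vc_short, vc_map, MG.vc_iso and hcom. -/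
theorem short_ac (hS : Sh W₀ A B) (hell : W₀.Δ ≠ 0) {Ω : Type} [Field Ω] [DecidableEq Ω] [Algebra F Ω] :
    ∃ Θ : Pt (WAB A B) Ω ≃+ Pt (W₀⁄F) Ω, ∀ (g : Ω ≃ₐ[F] Ω) (P : Pt (WAB A B) Ω), ac (W₀⁄F) g (Θ P) = Θ (ac (WAB A B) g P) := by
  have hd := y3_ne W₀ hS.hA hS.hB hell
  have hΔA : (WAB A B).Δ ≠ 0 := by
    have e : (WAB A B).Δ = -16 * (4 * A ^ 3 + 27 * B ^ 2) := by
      unfold WAB WeierstrassCurve.Δ WeierstrassCurve.b₂ WeierstrassCurve.b₄ WeierstrassCurve.b₆ WeierstrassCurve.b₈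
      ring
    rw [e]
    exact mul_ne_zero (by norm_num) hd
  obtain ⟨r, s, t, hVC⟩ := vc_short W₀ hS.hA hS.hB
  have hVC' := vc_map (algebraMap F Ω) hVC
  have hΔ1 : ((WAB A B).map (algebraMap F Ω)).Δ ≠ 0 := by
    rw [WeierstrassCurve.map_Δ]
    exact (map_ne_zero _).2 hΔA
  have hΔ2 : ((W₀⁄F).map (algebraMap F Ω)).Δ ≠ 0 := by
    have e : (W₀⁄F).Δ = algebraMap (𝓞 F) F W₀.Δ := WeierstrassCurve.map_Δ _ _
    rw [WeierstrassCurve.map_Δ, e]
    refine (map_ne_zero _).2 fun h1 => hell ?_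
    exact (map_eq_zero_iff _ (FaithfulSMul.algebraMap_injective (𝓞 F) F)).1 h1
  obtain ⟨Θ, hΘ⟩ : ∃ Θ : Pt (WAB A B) Ω ≃+ Pt (W₀⁄F) Ω,
      Crd (algebraMap F Ω 1) (algebraMap F Ω r)
        (algebraMap F Ω s) (algebraMap F Ω t) Θ := MG.vc_iso hVC' hΔ1 hΔ2
  refine ⟨Θ, ?_⟩
  intro g P
  by_cases hP : P = 0
  · subst hP
    rw [map_zero, map_zero, map_zero, map_zero]
  · obtain ⟨a1, a2, a3⟩ := hΘ P hP
    obtain ⟨b1, b2, b3⟩ := MG.ac_crd (W := WAB A B) g P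
    have hP' : ac (WAB A B) g P ≠ 0 := fun h => hP (b3.1 h)
    obtain ⟨c1, c2, c3⟩ := hΘ _ hP'
    obtain ⟨d1, d2, d3⟩ := MG.ac_crd (W := W₀⁄F) g (Θ P)
    have e2 := congrArg g a2
    have e3 := congrArg g a3
    simp only [map_add, map_mul, map_pow, map_one, AlgEquiv.commutes, one_pow, one_mul, mul_one] at e2 e3 c2 c3
    have f2 : xc (ac (W₀⁄F) g (Θ P)) = xc (Θ (ac (WAB A B) g P)) := by
      rw [d1]
      linear_combination c2 - e2 - b1
    refine pt_ext (fun h => a1 (d3.1 h)) c1 f2 ?_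
    rw [d2]
    rw [d1] at f2
    linear_combination c3 - e3 - b2 - (algebraMap F Ω s) * f2

end H55G
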