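import Mathlib
import Pool.Agent.Lib.H55G.D4

/-! # H55G, part I: p divides the number of points iff there is a fixed class of order p -/

open NumberField IsDedekindDomain WeierstrassCurve Polynomial

namespace H55G

open H55P (IQ embF eF LF Per IsHecke Pt ac Inert Dec Nm)
open H35P (WAB Ker GoodW IntW)
open H55K (CMA Tor TN ak xc yc cj acr xc_acr yc_acr acr_zero_iff acr_inj acr_eq_ac acr_trans GoodAt Abw)
open H55K.MG (VC Crd)

variable {F : Type} [Field F] {A B : F} {Ω : Type} [Field Ω] [DecidableEq Ω] [Algebra F Ω]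
  {V : ValuationSubring Ω} {k : Type} [Field k] [NumberField k] [Algebra k Ω] {w : HeightOneSpectrum (𝓞 k)}
  {W₁ : WeierstrassCurve k} {C : VariableChange k} {W' : WeierstrassCurve Ω} {u r s t : Ω}
  {Θ : Pt (WAB A B) Ω ≃+ W'.toAffine.Point} {Kg : AddSubgroup (Pt (WAB A B) Ω)}

/-- Chunk I1a (S). NW_fr (D4.lean): NW is the number of the fixed points of φ = qmap (acr g), which are the elements of the subgroup ker (φ - 1). It is not 0 (NW_pairs in D4.lean: NW = .. + 1), so the subgroup is finite (Nat.finite_of_card_ne_zero). Cauchy: exists_prime_addOrderOf_dvd_card (with Nat.card_eq_fintype_card): an element of order p, so c ≠ 0 and p • c = 0. Conversely: c ≠ 0, p • c = 0 gives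
addOrderOf c = p (addOrderOf_eq_prime), and it divides the order of the subgroup (addOrderOf_dvd_natCard). -/
theorem nw_dvd [IsAlgClosed Ω] {g : Ω ≃+* Ω} (hV : Abw V w) (hfr : FrD k V w g) {hA : g (algebraMap F Ω A) = algebraMap F Ω A}
    {hB : g (algebraMap F Ω B) = algebraMap F Ω B} (hC : GC W₁ w C) (hW' : W' = (C • W₁)⁄Ω)
    (hG : GD V W' u r s t Θ Kg) (hg : Fx g u r s t) (hK : ∀ P ∈ Kg, acr g hA hB P ∈ Kg) {p : ℕ} (hp : p.Prime) :
    p ∣ NW W₁ w ↔ ∃ c : Pt (WAB A B) Ω ⧸ Kg, c ≠ 0 ∧ p • c = 0 ∧ qmap Kg (acr g hA hB) hK c = c := by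
  have hNW := NW_fr hfr hC hW' hG hg hK
  have hpos : NW W₁ w ≠ 0 := by
    rw [NW_pairs hV hC]
    exact Nat.succ_ne_zero _
  obtain ⟨S, hS⟩ : ∃ S : AddSubgroup (Pt (WAB A B) Ω ⧸ Kg), ∀ c, c ∈ S ↔ qmap Kg (acr g hA hB) hK c = c :=
    ⟨{ carrier := {c | qmap Kg (acr g hA hB) hK c = c}
       zero_mem' := map_zero _
       add_mem' := by
        intro a b ha hb
        change qmap Kg (acr g hA hB) hK (a + b) = a + b
        rw [map_add, ha, hb]
       neg_mem' := by
        intro a ha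
        change qmap Kg (acr g hA hB) hK (-a) = -a
        rw [map_neg, ha] }, fun _ => Iff.rfl⟩
  have hcard : Nat.card S = NW W₁ w := by
    rw [hNW]
    exact Nat.card_congr (Equiv.subtypeEquivRight hS)
  have hfin : Finite S := Nat.finite_of_card_ne_zero (by rw [hcard]; exact hpos)
  have := Fact.mk hp
  rw [← hcard]
  constructor
  · intro h
    obtain ⟨c, hc⟩ := exists_prime_addOrderOf_dvd_card' p h
    refine ⟨c, ?_, ?_, (hS _).1 c.2⟩
    · intro h0
      have h1 : c = 0 := Subtype.ext h0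
      rw [h1, addOrderOf_zero] at hc
      exact hp.one_lt.ne hc
    · have h2 := addOrderOf_nsmul_eq_zero c
      rw [hc] at h2
      have h3 := congrArg (fun x : S => (x : Pt (WAB A B) Ω ⧸ Kg)) h2
      exact h3
  · rintro ⟨c, hc0, hpc, hfix⟩
    have h1 : addOrderOf (⟨c, (hS c).2 hfix⟩ : S) = p := by
      refine addOrderOf_eq_prime (Subtype.ext hpc) ?_
      intro h0
      exact hc0 (congrArg (fun x : S => (x : Pt (WAB A B) Ω ⧸ Kg)) h0)
    have h2 := addOrderOf_dvd_natCard (⟨c, (hS c).2 hfix⟩ : S)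
    rwa [h1] at h2

end H55G
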