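import Mathlib
import Pool.Agent.Lib.H19B.ST3

/-! # H55G, part I: the local alternative at a prime of good reduction -/

open NumberField IsDedekindDomain WeierstrassCurve

namespace H55G

open H55P

variable {F : Type} [Field F] [NumberField F] {Ω : Type} [Field Ω] [DecidableEq Ω] [Algebra F Ω]

/-- At V over M: the inertia group acts on the points as for good reduction (a point P with p (s P - P) = 0 is fixed), and the decomposition group has no fixed
point of order p. -/
structure LocOk (W : WeierstrassCurve F) (p : ℕ) (M : IntermediateField F Ω) (V : ValuationSubring Ω) : Prop where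
  inert : ∀ s ∈ M.fixingSubgroup, Inert V s → ∀ P : Pt W Ω, p • (ac W s P - P) = 0 → ac W s P = P
  dec : ∀ T : Pt W Ω, p • T = 0 → (∀ s ∈ M.fixingSubgroup, Dec V s → ac W s T = T) → T = 0

theorem locOk_tr {W₁ W₂ : WeierstrassCurve F} (Θ : Pt W₁ Ω ≃+ Pt W₂ Ω)
    (hΘ : ∀ (g : Ω ≃ₐ[F] Ω) (P : Pt W₁ Ω), ac W₂ g (Θ P) = Θ (ac W₁ g P)) {p : ℕ} {M : IntermediateField F Ω}
    {V : ValuationSubring Ω} (h : LocOk W₁ p M V) : LocOk W₂ p M V := by
  refine ⟨fun s hs hI P hP => ?_, fun T hT hf => ?_⟩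
  · obtain ⟨Q, rfl⟩ := Θ.surjective P
    rw [hΘ] at hP ⊢
    rw [← map_sub, ← map_nsmul, map_eq_zero_iff Θ Θ.injective] at hP
    rw [h.inert s hs hI Q hP]
  · obtain ⟨Q, rfl⟩ := Θ.surjective T
    rw [← map_nsmul, map_eq_zero_iff Θ Θ.injective] at hT
    have h1 : Q = 0 := h.dec Q hT fun s hs hD => by
      have h2 := hf s hs hD
      rw [hΘ] at h2
      exact Θ.injective h2
    rw [h1, map_zero]

/-- Chunk I2 (M). Unfold Alt. hcom: commutators of N.fixingSubgroup are in K.fixingSubgroup; c a cocycle over N with p • c s = 0, and P₀ with c s = s P₀ - P₀ for s in K.fixingSubgroup with Inert V s. (N.fixingSubgroup ≤ M.fixingSubgroup: IntermediateField.fixingSubgroup_antitone or fixing_anti as in ST3.lean.)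
(1) For s in K.fixingSubgroup, Inert V s: p • (s P₀ - P₀) = p • c s = 0, so s P₀ = P₀ (h.inert), c s = 0.
(2) For d in N.fixingSubgroup with Dec V d and s in N.fixingSubgroup with Inert V s: d s d⁻¹ is in N.fixingSubgroup and Inert V (d s d⁻¹) (for x in V: d⁻¹ x in V, s d⁻¹ x - d⁻¹ x has value < 1, and d preserves V and so the elements of value < 1; see H55P.S12 or SD for the conjugation lemma of inertia). c (d s d⁻¹) = d (c s): coc.mul: c (d s d⁻¹) = c d + d (c s) + d s (c d⁻¹), and 0 = c (d d⁻¹) = c d + d (c d⁻¹), so d s c(d⁻¹) =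
(d s d⁻¹) (d (c d⁻¹)) = -(d s d⁻¹) (c d) = - c d because p • c d = 0 and inertia elements of N.fixingSubgroup fix points killed by p (h.inert: p • (s T - T) = 0).
(3) d s d⁻¹ s⁻¹ is in K.fixingSubgroup (hcom) and in the inertia group, so c (d s d⁻¹ s⁻¹) = 0 by (1) and c (d s d⁻¹) = c ((d s d⁻¹ s⁻¹) s) = 0 + (inertia) c s = c s (h.inert, p • c s = 0). So d (c s) = c s for all d in N.fixingSubgroup with Dec V d.
(4) A point T with p • T = 0 fixed by all d in N.fixingSubgroup with Dec V d is 0: fix_up (SA1.lean) for the action acR W, the subgroups L.fixingSubgroup ⊓ D ≤ M.fixingSubgroup ⊓ D, D = the subgroup of the s with Dec V s (V.decompositionSubgroup or the Subgroup built by hand), conjugation: PExt.conj, powers: PExt.pow (S12.lean); h0 = h.dec; T is fixed by L.fixingSubgroup ⊓ D ≤ N.fixingSubgroup ⊓ D (N ≤ L).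
So c s = 0 for all s in N.fixingSubgroup with Inert V s: P = 0. (hfin: tors_fin for an elliptic W, here as hypothesis.) -/
theorem alt_ok [IsAlgClosed Ω] [Algebra.IsAlgebraic F Ω] {W : WeierstrassCurve F} {p : ℕ} (hp : p.Prime)
    (hfin : {T : Pt W Ω | p • T = 0}.Finite) {M L : IntermediateField F Ω} (hL : PExt p M L) {V : ValuationSubring Ω}
    (h : LocOk W p M V) {N K : IntermediateField F Ω} (hMN : M ≤ N) (hNK : N ≤ K) (hKL : K ≤ L) : H19B.Alt W p N K V := by
  intro hcom c hc hpc hloc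
  obtain ⟨P₀, hP₀⟩ := hloc
  have hcz : CharZero Ω := charZero_of_injective_algebraMap (algebraMap F Ω).injective
  obtain ⟨k, hk⟩ := hL.pow p hp M L
  have hconj : ∀ s ∈ M.fixingSubgroup, ∀ t ∈ L.fixingSubgroup, s * t * s⁻¹ ∈ L.fixingSubgroup :=
    fun s hs t ht => hL.conj p M L s hs t ht
  have hKN : ∀ s ∈ K.fixingSubgroup, s ∈ N.fixingSubgroup := fun s hs => fixing_anti hNK hs
  have hNM : ∀ s ∈ N.fixingSubgroup, s ∈ M.fixingSubgroup := fun s hs => fixing_anti hMN hs
  have hmul : ∀ (s t : Ω ≃ₐ[F] Ω) (P : Pt W Ω), ac W (s * t) P = ac W s (ac W t P) := by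
    intro s t P
    rw [← acR_apply, ← acR_apply, ← acR_apply, map_mul]
    rfl
  have hone : ∀ P : Pt W Ω, ac W (1 : Ω ≃ₐ[F] Ω) P = P := by
    intro P
    rw [← acR_apply, map_one]
    rfl
  have hc1 : c 1 = 0 := by
    have h1 := hc.mul 1 (one_mem _) 1 (one_mem _)
    rw [mul_one, hone] at h1
    exact left_eq_add.1 h1
  -- inertia elements fix the points of order p
  have hfix : ∀ s ∈ N.fixingSubgroup, Inert V s → ∀ T : Pt W Ω, p • T = 0 → ac W s T = T := by
    intro s hs hI T hT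
    refine h.inert s (hNM s hs) hI T ?_
    rw [smul_sub, ← map_nsmul, hT, map_zero, sub_zero]
  -- (1)
  have hK : ∀ s ∈ K.fixingSubgroup, Inert V s → c s = 0 := by
    intro s hs hI
    have h1 := hP₀ s hs hI
    have h2 : ac W s P₀ = P₀ := by
      refine h.inert s (hNM s (hKN s hs)) hI P₀ ?_
      rw [← h1]
      exact hpc s (hKN s hs)
    rw [h1, h2, sub_self]
  -- (2)
  have hd : ∀ d ∈ N.fixingSubgroup, Dec V d → ∀ s ∈ N.fixingSubgroup, Inert V s → ac W d (c s) = c s := by
    intro d hd hD s hs hI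
    have hN1 : d * s * d⁻¹ ∈ N.fixingSubgroup := mul_mem (mul_mem hd hs) (inv_mem hd)
    have hI1 : Inert V (d * s * d⁻¹) := inS_dec V d hD s hI
    have h1 : c (d * s * d⁻¹) = c d + ac W d (c s) + ac W (d * s) (c d⁻¹) := by
      rw [hc.mul _ (mul_mem hd hs) _ (inv_mem hd), hc.mul _ hd _ hs]
    have h2 : ac W d (c d⁻¹) = - c d := by
      have h3 := hc.mul d hd d⁻¹ (inv_mem hd)
      rw [mul_inv_cancel, hc1] at h3
      exact (neg_eq_of_add_eq_zero_right h3.symm).symm
    have h3 : ac W (d * s) (c d⁻¹) = - c d := by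
      have h4 : d * s = (d * s * d⁻¹) * d := by group
      rw [h4, hmul, h2, map_neg, hfix _ hN1 hI1 _ (hpc d hd)]
    have h5 : c (d * s * d⁻¹) = ac W d (c s) := by
      rw [h1, h3]
      abel
    have h6 : c (d * s * d⁻¹) = c s := by
      have h7 : d * s * d⁻¹ = (d * s * d⁻¹ * s⁻¹) * s := by group
      have h8 : d * s * d⁻¹ * s⁻¹ ∈ K.fixingSubgroup := hcom d hd s hs
      have h9 : Inert V (d * s * d⁻¹ * s⁻¹) :=
        (inS F V).mul_mem (show d * s * d⁻¹ ∈ inS F V from hI1) ((inS F V).inv_mem (show s ∈ inS F V from hI))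
      rw [h7, hc.mul _ (hKN _ h8) _ hs, hK _ h8 h9, zero_add, hfix _ (hKN _ h8) h9 _ (hpc s hs)]
    rw [← h5, h6]
  refine ⟨0, fun s hs hI => ?_⟩
  rw [map_zero, sub_zero]
  refine fix_up (acR W) p hp hfin (L.fixingSubgroup ⊓ decS F V)
    (M.fixingSubgroup ⊓ decS F V) ?_ ?_ k ?_ ?_ (c s) (hpc s hs) ?_
  · exact inf_le_inf_right _ fun s hs => fixing_anti hL.le hs
  · intro s hs t ht
    exact ⟨hconj s hs.1 t ht.1,
      (decS F V).mul_mem ((decS F V).mul_mem hs.2 ht.2) ((decS F V).inv_mem hs.2)⟩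
  · intro s hs
    exact ⟨hk s hs.1, (decS F V).pow_mem hs.2 _⟩
  · intro T' hT' hf'
    exact h.dec T' hT' fun s hs hd => hf' s ⟨hs, hd⟩
  · intro d hd'
    exact hd d (fixing_anti (hNK.trans hKL) hd'.1) hd'.2 s hs hI

end H55G
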