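import Mathlib
import Pool.Agent.Lib.H55G.I1a
import Pool.Agent.Lib.H55G.I2
import Pool.Agent.Lib.H55G.I3a
import Pool.Agent.Lib.H55K.M4C
import Pool.Agent.Lib.H13R.D

/-! # H55G, part I: the local conditions at a good prime which divides the discriminant -/

open NumberField IsDedekindDomain WeierstrassCurve

namespace H55G

open H55P (IQ embF eF LF Per IsHecke Pt ac Inert Dec Nm UnitP PExt Below)
open H35P (WAB Ker tt GoodW IntW)
open H55K.MG (VC Crd)
open H55K H55K.TQ

variable {F : Type} [Field F] [NumberField F] [IQ F] {W₀ : WeierstrassCurve (𝓞 F)} {Om : ℂ}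
    {m : Ideal (𝓞 F)} {ψ : Ideal (𝓞 F) →*₀ 𝓞 F} {p : ℕ}

omit [NumberField F] [IQ F] in
/-- Chunk I3b (S). For a in 𝓞 M: a in v iff V(a) < 1 (Below). x in M with v(x) ≤ 1: x = a/b with a, b integers, b not in v (IsDedekindDomain: exists such a fraction for elements of the localization: see HeightOneSpectrum.valuation_le_one_iff.. or the proof of H55K.t8_val / exists_abw); V(b) = 1 (V(b) ≤ 1 and not < 1), V(a) ≤ 1. If v(x) > 1 then v(1/x) < 1, 1/x = a/b with a in v, b not in v: V(1/x) < 1. See also
H55K.TQ.re_below or the conversions of Below and Abw in Lib/H19B, Lib/H55Z (search for Abw, Below). -/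
theorem abw_of_below {Ω : Type} [Field Ω] [Algebra F Ω] {M : IntermediateField F Ω} [NumberField M] {v : HeightOneSpectrum (𝓞 M)}
    {V : ValuationSubring Ω} (hV : Below V M v.asIdeal) : Abw (N := M) V v := by
  have hle : ∀ a : 𝓞 M, V.valuation (algebraMap M Ω (a : M)) ≤ 1 := fun a =>
    (V.valuation_le_one_iff _).2 (t8_le V a)
  have h1 : ∀ a : 𝓞 M, a ∉ v.asIdeal → V.valuation (algebraMap M Ω (a : M)) = 1 := fun a ha =>
    le_antisymm (hle a) (not_lt.1 fun h => ha ((hV a).2 h))
  have g1 : ∀ a : 𝓞 M, a ∉ v.asIdeal → v.valuation M (a : M) = 1 := fun a ha =>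
    le_antisymm (v.valuation_le_one a) (not_lt.1 fun h => ha ((v.valuation_lt_one_iff_mem a).1 h))
  intro x
  rw [← V.valuation_le_one_iff]
  obtain ⟨n, d, h | h⟩ := v.exists_primeCompl_mul_eq_or_mul_eq (K := M) x
  · have e1 := congrArg (fun z => V.valuation (algebraMap M Ω z)) h
    have e2 := congrArg (fun z => v.valuation M z) h
    simp only [map_mul] at e1 e2
    have e3 : V.valuation (algebraMap M Ω ((d : 𝓞 M) : M)) = 1 := h1 d d.2
    have e4 : v.valuation M ((d : 𝓞 M) : M) = 1 := g1 d d.2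
    have e5 : V.valuation (algebraMap M Ω x) = V.valuation (algebraMap M Ω (n : M)) := by
      have := e1
      rw [e3, mul_one] at this
      exact this
    have e6 : v.valuation M x = v.valuation M (n : M) := by
      have := e2
      rw [e4, mul_one] at this
      exact this
    rw [e5, e6]
    exact ⟨fun _ => v.valuation_le_one n, fun _ => hle n⟩
  · have e1 := congrArg (fun z => V.valuation (algebraMap M Ω z)) h
    have e2 := congrArg (fun z => v.valuation M z) h
    simp only [map_mul] at e1 e2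
    have e3 : V.valuation (algebraMap M Ω ((d : 𝓞 M) : M)) = 1 := h1 d d.2
    have e4 : v.valuation M ((d : 𝓞 M) : M) = 1 := g1 d d.2
    have f1 : V.valuation (algebraMap M Ω x) * V.valuation (algebraMap M Ω (n : M)) = 1 := e1.trans e3
    have f2 : v.valuation M x * v.valuation M (n : M) = 1 := e2.trans e4
    by_cases hn : n ∈ v.asIdeal
    · have a1 : V.valuation (algebraMap M Ω (n : M)) < 1 := (hV n).1 hn
      have a2 : v.valuation M (n : M) < 1 := (v.valuation_lt_one_iff_mem n).2 hn
      constructor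
      · intro hx
        exfalso
        have := lt_of_le_of_lt (mul_le_of_le_one_left' (a := V.valuation (algebraMap M Ω (n : M))) hx) a1
        rw [f1] at this
        exact lt_irrefl _ this
      · intro hx
        exfalso
        have := lt_of_le_of_lt (mul_le_of_le_one_left' (a := v.valuation M (n : M)) hx) a2
        rw [f2] at this
        exact lt_irrefl _ this
    · rw [h1 n hn, mul_one] at f1
      rw [g1 n hn, mul_one] at f2
      rw [f1, f2]
      exact ⟨fun _ => le_refl _, fun _ => le_refl _⟩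

/-- Chunk I3b (M). A, B, j, act from setup (E2.lean). By locOk_tr and short_ac it suffices to prove LocOk (WAB A B) p M V. Abw V v: abw_of_below. C with GC ((W₀⁄F)⁄M) v C from hg; exists_GD (D2.lean) with vck_F (E2.lean): GD for W' = (C • ((W₀⁄F)⁄M))⁄Ω, with u, r, s, t images of elements of M, fixed by M.fixingSubgroup. V(p) = 1: H13R.c3_vp with hΔ (Below gives hv).
inert: s in M.fixingSubgroup, Inert V s: MG.inert_ker (M4C.lean; s u = u, s r = r, .. so the conditions hs are V(0) < 1) gives Ker V (Θ (ac s P - P)); MG.kg_tors (M3B.lean) with n = p: ac s P - P = 0.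
dec: g from exists_g (E2.lean) for k = M: FrD M V v g. g fixes the image of M, so of F: it gives an element s of Ω ≃ₐ[F] Ω (AlgEquiv.ofRingEquiv) in M.fixingSubgroup, with Dec V s (fr_mem, D1.lean; q = absNorm v > 0). So ac s T = T for the T in question, acr g T = T (acr_eq_ac). If T ≠ 0: T is not in Kg (MG.kg_tors, hG.kg), the class c of T is not 0, p • c = 0, and it is fixed by qmap (acr g) (qmap_mk):
nw_dvd (I1a.lean) gives p ∣ NW: contradiction to hN. (hK: acr_kg in D1.lean.) -/
theorem locOk_of (hH : BaseH F W₀ Om m ψ) (hp : PrimeH F W₀ p) {M : IntermediateField F (AlgebraicClosure F)} [NumberField M]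
    [DecidableEq (AlgebraicClosure F)] {v : HeightOneSpectrum (𝓞 M)} {V : ValuationSubring (AlgebraicClosure F)}
    (hV : Below V M v.asIdeal) (hΔ : algebraMap (𝓞 F) (𝓞 M) W₀.Δ ∈ v.asIdeal) (hg : GoodAt ((W₀⁄F)⁄M) v)
    (hN : ¬ p ∣ NW ((W₀⁄F)⁄M) v) : LocOk (W₀⁄F) p M V := by
  obtain ⟨A, B, j, act, hS, hd, -⟩ := setup hH (AlgebraicClosure F)
  obtain ⟨Θ₀, hΘ₀⟩ := short_ac hS hH.data.ell (Ω := AlgebraicClosure F)
  refine locOk_tr Θ₀ hΘ₀ ?_
  have hVA : Abw (N := M) V v := abw_of_below hV
  obtain ⟨C, hC⟩ := (good_iff _ _).1 hg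
  obtain ⟨u, r, s, t, Θ, Kg, hG⟩ := exists_GD hd hVA (vck_F hS) hC
  have hVp : V.valuation (p : AlgebraicClosure F) = 1 := H13R.c3_vp hp (fun a ha => (hV a).1 ha) hΔ
  have hkg : ∀ T : Pt (WAB A B) (AlgebraicClosure F), T ∈ Kg → p • T = 0 → T = 0 := fun T hT h0 =>
    MG.kg_tors hG.good hVp ((hG.kg T).1 hT) h0
  refine ⟨fun g hgM hI P hP => ?_, fun T hT hf => ?_⟩
  · have hfix : ∀ x : M, g (algebraMap M (AlgebraicClosure F) x) = algebraMap M (AlgebraicClosure F) x :=
      fun x => (IntermediateField.mem_fixingSubgroup_iff M g).1 hgM _ x.2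
    have hk : Ker V (Θ (ac (WAB A B) g P - P)) := by
      refine MG.inert_ker hG.une hG.good hG.crd g hI ?_ P
      rw [hfix, hfix, hfix, hfix, div_self hG.une, sub_self, sub_self, sub_self, sub_self]
      simp
    exact sub_eq_zero.1 (hkg _ ((hG.kg _).2 hk) hP)
  · by_contra hT0
    haveI : IsAlgClosure M (AlgebraicClosure F) :=
      ⟨inferInstance, Algebra.IsAlgebraic.tower_top (K := F) M⟩
    obtain ⟨g, hfr⟩ := exists_g (k := M) (Ω := AlgebraicClosure F) hVA
    have hgF : ∀ x : F, g (algebraMap F (AlgebraicClosure F) x) = algebraMap F (AlgebraicClosure F) x := by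
      intro x
      rw [IsScalarTower.algebraMap_apply F M (AlgebraicClosure F)]
      exact hfr.fix _
    have hq : 0 < Ideal.absNorm v.asIdeal :=
      Nat.pos_of_ne_zero fun h => v.ne_bot (Ideal.absNorm_eq_zero_iff.1 h)
    obtain ⟨gF, hgF'⟩ : ∃ gF : AlgebraicClosure F ≃ₐ[F] AlgebraicClosure F, (gF : AlgebraicClosure F ≃+* AlgebraicClosure F) = g :=
      ⟨AlgEquiv.ofRingEquiv (f := g) hgF, RingEquiv.ext fun x => rfl⟩
    have hgx : ∀ x, gF x = g x := fun x => by
      rw [← hgF']
      rfl
    have hmem : gF ∈ M.fixingSubgroup := by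
      rw [IntermediateField.mem_fixingSubgroup_iff]
      intro x hx
      rw [hgx]
      exact hfr.fix ⟨x, hx⟩
    have hDec : Dec V gF := by
      intro x
      rw [hgx, ← V.valuation_le_one_iff, ← V.valuation_le_one_iff]
      exact (fr_mem hq hfr.frob x).1
    have hgT : ac (WAB A B) gF T = T := hf gF hmem hDec
    have hFx : Fx g (algebraMap M (AlgebraicClosure F) u) (algebraMap M (AlgebraicClosure F) r)
        (algebraMap M (AlgebraicClosure F) s) (algebraMap M (AlgebraicClosure F) t) :=
      ⟨hfr.fix u, hfr.fix r, hfr.fix s, hfr.fix t⟩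
    have hacr : acr g (hgF A) (hgF B) T = T := by
      have h1 : ∀ (f : AlgebraicClosure F ≃+* AlgebraicClosure F) (hf : (gF : AlgebraicClosure F ≃+* AlgebraicClosure F) = f)
          (hA : f (algebraMap F (AlgebraicClosure F) A) = algebraMap F (AlgebraicClosure F) A)
          (hB : f (algebraMap F (AlgebraicClosure F) B) = algebraMap F (AlgebraicClosure F) B),
          acr f hA hB T = T := by
        intro f hf hA hB
        subst hf
        rw [acr_eq_ac]
        exact hgT
      exact h1 g hgF' _ _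
    have hK : ∀ P ∈ Kg, acr g (hgF A) (hgF B) P ∈ Kg := fun P hP => (acr_kg hG hFx hq hfr.frob P).2 hP
    refine hN ((nw_dvd hVA hfr hC rfl hG hFx hK hp.prime).2
      ⟨(T : Pt (WAB A B) (AlgebraicClosure F) ⧸ Kg), ?_, ?_, ?_⟩)
    · intro h0
      exact hT0 (hkg T ((QuotientAddGroup.eq_zero_iff T).1 h0) hT)
    · rw [← QuotientAddGroup.mk_nsmul, hT, QuotientAddGroup.mk_zero]
    · rw [qmap_mk]
      exact congrArg (QuotientAddGroup.mk (s := Kg)) hacr

end H55G
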