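import Mathlib
import Pool.Agent.Lib.H55G.I1a

/-! # H55G, part I: the Frobenius elements in a tower of fields -/

open NumberField IsDedekindDomain WeierstrassCurve Polynomial

namespace H55G

open H55P (IQ embF eF LF Per IsHecke Pt ac Inert Dec Nm)
open H35P (WAB Ker GoodW IntW)
open H55K (CMA Tor TN ak xc yc cj acr xc_acr yc_acr acr_zero_iff acr_inj acr_eq_ac acr_trans GoodAt Abw)
open H55K.MG (VC Crd)

variable {F : Type} [Field F] {A B : F} {Ω : Type} [Field Ω] [DecidableEq Ω] [Algebra F Ω]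
  {V : ValuationSubring Ω} {k₀ : Type} [Field k₀] [NumberField k₀] [Algebra k₀ Ω] {v : HeightOneSpectrum (𝓞 k₀)}
  {k : Type} [Field k] [NumberField k] [Algebra k Ω] {w : HeightOneSpectrum (𝓞 k)}
  {W' : WeierstrassCurve Ω} {u r s t : Ω}
  {Θ : Pt (WAB A B) Ω ≃+ W'.toAffine.Point} {Kg : AddSubgroup (Pt (WAB A B) Ω)}

omit [DecidableEq Ω] in
theorem i4a_pow {g : Ω ≃+* Ω} {q : ℕ} (hq : 0 < q) (hf : ∀ x ∈ V, V.valuation (g x - x ^ q) < 1) {b : Ω} (hb : b ∈ V) (n : ℕ) :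
    (g ^ n) b ∈ V ∧ rs V ((g ^ n) b) = rs V b ^ q ^ n := by
  induction n with
  | zero =>
    have h1 : (g ^ 0) b = b := rfl
    rw [h1, pow_zero, pow_one]
    exact ⟨hb, rfl⟩
  | succ n ih =>
    obtain ⟨h1, h2⟩ := ih
    have h3 : (g ^ (n + 1)) b = g ((g ^ n) b) := by
      rw [pow_succ']
      rfl
    have h4 : g ((g ^ n) b) ∈ V := by
      rw [← V.valuation_le_one_iff]
      exact (fr_mem hq hf _).1.2 ((V.valuation_le_one_iff _).2 h1)
    rw [h3]
    refine ⟨h4, ?_⟩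
    rw [(rs_eq h4 (pow_mem h1 q)).2 (hf _ h1), rs_pow h1, h2, ← pow_mul, pow_succ]

omit [DecidableEq Ω] in
theorem i4a_fix {g g' : Ω ≃+* Ω} (hfr : FrD k₀ V v g) (hfr' : FrD k V w g') (n : ℕ)
    (hn : ∀ x : k, (g ^ n) (algebraMap k Ω x) = algebraMap k Ω x) {z : IsLocalRing.ResidueField V}
    (hz : z ^ Ideal.absNorm w.asIdeal = z) : z ^ Ideal.absNorm v.asIdeal ^ n = z := by
  have hq : 0 < Ideal.absNorm v.asIdeal := Nat.pos_of_ne_zero (by
    rw [Ne, Ideal.absNorm_eq_zero_iff]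
    exact v.ne_bot)
  obtain ⟨e, he1, he2⟩ := exists_emb hfr'.abw
  obtain ⟨y, hy⟩ := (he2 z).1 hz
  obtain ⟨a, ha⟩ := H55B.residue_surj k w y
  have hm : algebraMap k (w.adicCompletion k) (a : k) ∈ w.adicCompletionIntegers k :=
    (algebraMap (𝓞 k) (w.adicCompletionIntegers k) a).2
  have hrk : rk w (a : k) = y := by
    rw [← ha]
    exact dif_pos hm
  have hz' : z = rs V (algebraMap k Ω (a : k)) := by
    rw [← hy, ← hrk]
    exact he1 _ (w.valuation_le_one a)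
  have hb : algebraMap k Ω (a : k) ∈ V := (V.valuation_le_one_iff _).1 (H55K.k0_int V a)
  have h1 := (i4a_pow hq hfr.frob hb n).2
  rw [hn, ← hz'] at h1
  exact h1.symm

theorem i4a_iter {g : Ω ≃+* Ω} {q : ℕ} {hA : g (algebraMap F Ω A) = algebraMap F Ω A}
    {hB : g (algebraMap F Ω B) = algebraMap F Ω B} (hG : GD V W' u r s t Θ Kg) (hg : Fx g u r s t) (hq : 0 < q)
    (hf : ∀ x ∈ V, V.valuation (g x - x ^ q) < 1) (hK : ∀ P ∈ Kg, acr g hA hB P ∈ Kg) {c : Pt (WAB A B) Ω ⧸ Kg} (hc : c ≠ 0) (n : ℕ) :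
    ((qmap Kg (acr g hA hB) hK) ^ n) c ≠ 0 ∧ XG V Θ Kg (((qmap Kg (acr g hA hB) hK) ^ n) c) = XG V Θ Kg c ^ q ^ n ∧
      YG V Θ Kg (((qmap Kg (acr g hA hB) hK) ^ n) c) = YG V Θ Kg c ^ q ^ n := by
  induction n with
  | zero =>
    have h1 : ((qmap Kg (acr g hA hB) hK) ^ 0) c = c := rfl
    rw [h1, pow_zero, pow_one, pow_one]
    exact ⟨hc, rfl, rfl⟩
  | succ n ih =>
    obtain ⟨h1, h2, h3⟩ := ih
    have h4 : ((qmap Kg (acr g hA hB) hK) ^ (n + 1)) c =
        qmap Kg (acr g hA hB) hK (((qmap Kg (acr g hA hB) hK) ^ n) c) := by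
      rw [pow_succ']
      rfl
    rw [h4]
    refine ⟨?_, ?_, ?_⟩
    · generalize ((qmap Kg (acr g hA hB) hK) ^ n) c = d at h1
      induction d using QuotientAddGroup.induction_on with
      | H P =>
        intro h5
        apply h1
        change ((acr g hA hB P : Pt (WAB A B) Ω) : Pt (WAB A B) Ω ⧸ Kg) = 0 at h5
        rw [QuotientAddGroup.eq_zero_iff, acr_kg hG hg hq hf] at h5
        exact (QuotientAddGroup.eq_zero_iff P).2 h5
    · rw [(phi_xy hG hg hq hf hK h1).1, h2, ← pow_mul, pow_succ]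
    · rw [(phi_xy hG hg hq hf hK h1).2, h3, ← pow_mul, pow_succ]

/-- Chunk I4a (M). g is a Frobenius element over k₀ (q = absNorm v), g' over the larger field k (q' = absNorm w), and g^n fixes k. φ, φ' the maps on the quotient. If φ' c = c then φ^n c = c.
c = 0: clear. c ≠ 0: x = XG c, y = YG c satisfy x^q' = x, y^q' = y (phi_xy, D1.lean, for g'). exists_emb (D3B.lean) for k, w: x = e z, z in the residue field of the completion, and every such z is rk w a for some a in 𝓞 k (H55B.residue_surj; rk in D3B.lean), so x = rs V (algebraMap k Ω a) with w.valuation k a ≤ 1 (a an integer). Claim: V(g^n b - b^(q^n)) < 1 for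
b in V, by induction on n (g (b') with b' = g^n b in V (fr_mem): V(g b' - b'^q) < 1 and V(b'^q - (b^(q^n))^q) < 1 since b' - b^(q^n) has value < 1). So V(a - a^(q^n)) < 1 (hn), x^(q^n) = x (rs_eq, rs_pow); the same for y. φ^n c ≠ 0 (φ injective: acr_kg as in NW_fr) and XG (φ^n c) = x^(q^n) = x, YG (φ^n c) = y (phi_xy, induction on n: for all m, φ^m c ≠ 0,
XG (φ^m c) = x^(q^m)). XG_ext (C2.lean). -/
theorem frob_pow [IsAlgClosed Ω] {g g' : Ω ≃+* Ω} (hfr : FrD k₀ V v g) (hfr' : FrD k V w g') (n : ℕ)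
    (hn : ∀ x : k, (g ^ n) (algebraMap k Ω x) = algebraMap k Ω x) {hA : g (algebraMap F Ω A) = algebraMap F Ω A}
    {hB : g (algebraMap F Ω B) = algebraMap F Ω B} {hA' : g' (algebraMap F Ω A) = algebraMap F Ω A}
    {hB' : g' (algebraMap F Ω B) = algebraMap F Ω B} (hG : GD V W' u r s t Θ Kg) (hg : Fx g u r s t) (hg' : Fx g' u r s t)
    (hK : ∀ P ∈ Kg, acr g hA hB P ∈ Kg) (hK' : ∀ P ∈ Kg, acr g' hA' hB' P ∈ Kg) {c : Pt (WAB A B) Ω ⧸ Kg}
    (hc : qmap Kg (acr g' hA' hB') hK' c = c) : ((qmap Kg (acr g hA hB) hK) ^ n) c = c := by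
  have hq : 0 < Ideal.absNorm v.asIdeal := Nat.pos_of_ne_zero (by
    rw [Ne, Ideal.absNorm_eq_zero_iff]
    exact v.ne_bot)
  have hq' : 0 < Ideal.absNorm w.asIdeal := Nat.pos_of_ne_zero (by
    rw [Ne, Ideal.absNorm_eq_zero_iff]
    exact w.ne_bot)
  by_cases hc0 : c = 0
  · rw [hc0, map_zero]
  have hxy := phi_xy hG hg' hq' hfr'.frob hK' hc0
  rw [hc] at hxy
  have hx := i4a_fix hfr hfr' n hn hxy.1.symm
  have hy := i4a_fix hfr hfr' n hn hxy.2.symm
  obtain ⟨h1, h2, h3⟩ := i4a_iter hG hg hq hfr.frob hK hc0 n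
  exact XG_ext hG h1 hc0 (h2.trans hx) (h3.trans hy)

end H55G
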