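import Mathlib
import Pool.Agent.Lib.H13R.C2
import Pool.Agent.Lib.H13R.C3
import Pool.Agent.Lib.H55G.E2

/-! # H55G, part E: a point of order p fixed by inertia gives good reduction -/

open NumberField IsDedekindDomain WeierstrassCurve

namespace H55G

open H55P (IQ embF eF LF Per IsHecke Pt ac Inert Dec Nm)
open H35P (WAB Ker GoodW IntW)
open H55K (CMA ak xc yc cj cj_cj GoodAt Abw)
open H55K.TQ

/-- Chunk E4 (S/M). This is the middle part of the proof of H13R.core_bad (Lib/H13R/C2.lean), for k, W₁, A, B in place of M, W₁, A', B': hd, hΔA, y3_j, hc4', hjj, nos_up (T5.lean; V contains the integers: t8_le), descent (T7B.lean), good_of_V (T9C.lean). -/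
theorem good_nos {k : Type} [Field k] [NumberField k] {Ω : Type} [Field Ω] [DecidableEq Ω] [Algebra k Ω] [IsAlgClosure k Ω]
    (W₁ : WeierstrassCurve (𝓞 k)) (hΔ : W₁.Δ ≠ 0) (hj : ∃ j₀ : 𝓞 k, W₁.c₄ ^ 3 = j₀ * W₁.Δ) {A B : k}
    (hA : A = -(algebraMap (𝓞 k) k W₁.c₄) / 48) (hB : B = -(algebraMap (𝓞 k) k W₁.c₆) / 864) {v : HeightOneSpectrum (𝓞 k)}
    {V : ValuationSubring Ω} (hv : ∀ a : 𝓞 k, a ∈ v.asIdeal → V.valuation (ak Ω a) < 1) {p : ℕ} (hp : p.Prime) (h5 : 5 ≤ p)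
    (hV : V.valuation (p : Ω) = 1) {T : Pt (WAB A B) Ω} (hT : p • T = 0) (h0 : T ≠ 0)
    (hfix : ∀ g : Ω ≃ₐ[k] Ω, Inert V g → ac (WAB A B) g T = T) : GoodAt (W₁⁄k) v := by
  have hd := H55K.y3_ne W₁ hA hB hΔ
  have hΔA : (WAB A B).Δ ≠ 0 := by
    have e : (WAB A B).Δ = -16 * (4 * A ^ 3 + 27 * B ^ 2) := by
      unfold WAB WeierstrassCurve.Δ WeierstrassCurve.b₂ WeierstrassCurve.b₄ WeierstrassCurve.b₆ WeierstrassCurve.b₈
      ring
    rw [e]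
    exact mul_ne_zero (by norm_num) hd
  obtain ⟨j₁, hj₁⟩ := H55K.y3_j W₁ hA hB hj
  have hc4' : (WAB A B).c₄ ^ 3 = (j₁ : k) * (WAB A B).Δ := by
    have e1 : (WAB A B).Δ = -16 * (4 * A ^ 3 + 27 * B ^ 2) := by
      unfold WAB WeierstrassCurve.Δ WeierstrassCurve.b₂ WeierstrassCurve.b₄ WeierstrassCurve.b₆ WeierstrassCurve.b₈
      ring
    have e2 : (WAB A B).c₄ = -48 * A := by
      unfold WAB WeierstrassCurve.c₄ WeierstrassCurve.b₂ WeierstrassCurve.b₄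
      ring
    rw [e1, e2]
    linear_combination (16 : k) * hj₁
  have hjj : ((WAB A B)⁄Ω).c₄ ^ 3 = ak Ω j₁ * ((WAB A B)⁄Ω).Δ := by
    have e1 : ((WAB A B)⁄Ω).c₄ = algebraMap k Ω (WAB A B).c₄ := WeierstrassCurve.map_c₄ _ _
    have e2 : ((WAB A B)⁄Ω).Δ = algebraMap k Ω (WAB A B).Δ := WeierstrassCurve.map_Δ _ _
    rw [e1, e2, ← map_pow, hc4', map_mul]
  have : IsAlgClosed Ω := IsAlgClosure.isAlgClosed k
  have hdes := H55K.TQ.descent hv
    (H55K.TQ.nos_up hΔA (H55K.TQ.t8_le V j₁) hjj hp h5 hV hT h0 hfix)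
  exact H55K.TQ.good_of_V W₁ hA hB v hv hdes

end H55G
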