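import Mathlib
import Pool.Agent.Lib.H13R.C2
import Pool.Agent.Lib.H13R.C3
import Pool.Agent.Lib.H55G.E2
import Pool.Agent.Lib.H55G.E4a

/-! # H55G, part E: a point of order p fixed by inertia gives good reduction -/

open NumberField IsDedekindDomain WeierstrassCurve

namespace H55G

open H55P (IQ embF eF LF Per IsHecke Pt ac Inert Dec Nm)
open H35P (WAB Ker GoodW IntW)
open H55K (CMA ak xc yc cj cj_cj GoodAt Abw)
open H55K.TQ

theorem e4b_c {F : Type} [Field F] (n : ℤ) {Ω : Type} [Field Ω] [Algebra F Ω] (m : ℤ) [NumberField F]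
    (c : 𝓞 F) (hc : c = algebraMap ℤ (𝓞 F) n) :
    algebraMap F Ω (-(algebraMap (𝓞 F) F c) / (m : F)) = -(n : Ω) / (m : Ω) := by
  have h1 : algebraMap (𝓞 F) F c = (n : F) := by
    rw [hc, eq_intCast, map_intCast]
  rw [h1, map_div₀, map_neg, map_intCast, map_intCast]

/-- Chunk E4 (S/M). good_nos for W₁ = W⁄(𝓞 k), A' = -c₄/48, B' = -c₆/864 in k: (WAB A' B')⁄Ω = (WAB A B)⁄Ω (both have the coefficients -c₄/48, -c₆/864, images of rational numbers), H13R.c2_tr transports T; the hypothesis on coordinates gives ac g T' = T' (MG.ac_crd, pt_ext as in core_bad). ((W⁄(𝓞 k))⁄k = W⁄k: map_map.) j: H55K.TQ.jint_Z or hj mapped to 𝓞 k. -/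
theorem good_nosZ {F : Type} [Field F] [NumberField F] {W : WeierstrassCurve ℤ} (hΔ : W.Δ ≠ 0)
    (hj : ∃ j₀ : ℤ, W.c₄ ^ 3 = j₀ * W.Δ) {A B : F} (hS : Sh (W⁄(𝓞 F)) A B) {k : Type} [Field k] [NumberField k]
    {Ω : Type} [Field Ω] [DecidableEq Ω] [Algebra F Ω] [Algebra k Ω] [IsAlgClosure k Ω] {v : HeightOneSpectrum (𝓞 k)}
    {V : ValuationSubring Ω} (hv : ∀ a : 𝓞 k, a ∈ v.asIdeal → V.valuation (ak Ω a) < 1) {p : ℕ} (hp : p.Prime) (h5 : 5 ≤ p)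
    (hV : V.valuation (p : Ω) = 1) {T : Pt (WAB A B) Ω} (hT : p • T = 0) (h0 : T ≠ 0)
    (hfix : ∀ g : Ω ≃ₐ[k] Ω, Inert V g → g (xc T) = xc T ∧ g (yc T) = yc T) : GoodAt (W⁄k) v := by
  obtain ⟨W₁, hW₁⟩ : ∃ W₁ : WeierstrassCurve (𝓞 k), W₁ = W.map (algebraMap ℤ (𝓞 k)) := ⟨_, rfl⟩
  obtain ⟨A', hA1⟩ : ∃ A' : k, A' = -(algebraMap (𝓞 k) k W₁.c₄) / 48 := ⟨_, rfl⟩
  obtain ⟨B', hB1⟩ : ∃ B' : k, B' = -(algebraMap (𝓞 k) k W₁.c₆) / 864 := ⟨_, rfl⟩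
  have hW1Δ : W₁.Δ = algebraMap ℤ (𝓞 k) W.Δ := by
    rw [hW₁, WeierstrassCurve.map_Δ]
  have hW1c : W₁.c₄ = algebraMap ℤ (𝓞 k) W.c₄ := by
    rw [hW₁, WeierstrassCurve.map_c₄]
  have hW1c6 : W₁.c₆ = algebraMap ℤ (𝓞 k) W.c₆ := by
    rw [hW₁, WeierstrassCurve.map_c₆]
  have hΔ1 : W₁.Δ ≠ 0 := by
    rw [hW1Δ, eq_intCast]
    exact_mod_cast hΔ
  have f4 : (W⁄(𝓞 F)).c₄ = algebraMap ℤ (𝓞 F) W.c₄ := WeierstrassCurve.map_c₄ _ _
  have f6 : (W⁄(𝓞 F)).c₆ = algebraMap ℤ (𝓞 F) W.c₆ := WeierstrassCurve.map_c₆ _ _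
  have hcur : (WAB A B)⁄Ω = (WAB A' B')⁄Ω := by
    have e1 : algebraMap k Ω A' = algebraMap F Ω A := by
      have a1 := e4b_c (Ω := Ω) W.c₄ 48 _ f4
      have a2 := e4b_c (Ω := Ω) W.c₄ 48 _ hW1c
      rw [Int.cast_ofNat, Int.cast_ofNat] at a1 a2
      rw [hS.hA, hA1, a1, a2]
    have e2 : algebraMap k Ω B' = algebraMap F Ω B := by
      have a1 := e4b_c (Ω := Ω) W.c₆ 864 _ f6
      have a2 := e4b_c (Ω := Ω) W.c₆ 864 _ hW1c6
      rw [Int.cast_ofNat, Int.cast_ofNat] at a1 a2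
      rw [hS.hB, hB1, a1, a2]
    apply WeierstrassCurve.ext
    · change algebraMap F Ω 0 = algebraMap k Ω 0
      rw [map_zero, map_zero]
    · change algebraMap F Ω 0 = algebraMap k Ω 0
      rw [map_zero, map_zero]
    · change algebraMap F Ω 0 = algebraMap k Ω 0
      rw [map_zero, map_zero]
    · exact e1.symm
    · exact e2.symm
  obtain ⟨T', hT', h0', hx', hy'⟩ := H13R.c2_tr hcur hT h0
  have hfix' : ∀ g : Ω ≃ₐ[k] Ω, Inert V g → ac (WAB A' B') g T' = T' := by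
    intro g hg
    obtain ⟨b1, b2, b3⟩ := H55K.MG.ac_crd (W := WAB A' B') g T'
    obtain ⟨a1, a2⟩ := hfix g hg
    refine H55K.pt_ext (fun h => h0' (b3.1 h)) h0' ?_ ?_
    · rw [b1, hx']
      exact a1
    · rw [b2, hy']
      exact a2
  have hj' : ∃ j₀ : 𝓞 k, W₁.c₄ ^ 3 = j₀ * W₁.Δ := by
    obtain ⟨j₀, hj₀⟩ := hj
    refine ⟨algebraMap ℤ (𝓞 k) j₀, ?_⟩
    rw [hW1c, hW1Δ, ← map_pow, hj₀, map_mul]
  have hgood := good_nos W₁ hΔ1 hj' hA1 hB1 hv hp h5 hV hT' h0' hfix'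
  have hcur2 : W₁⁄k = W⁄k := by
    rw [hW₁]
    change (W.map (algebraMap ℤ (𝓞 k))).map (algebraMap (𝓞 k) k) = W.map (algebraMap ℤ k)
    rw [WeierstrassCurve.map_map]
    congr 1
  rwa [hcur2] at hgood

/-- Chunk E4 (S). Local form of H13R.core_bad: the proof of core_bad, ending with hgood. -/
theorem core_good {F : Type} [Field F] [NumberField F] {W₀ : WeierstrassCurve (𝓞 F)} {p : ℕ} (hΔ0 : W₀.Δ ≠ 0)
    (hj : ∃ j₀ : 𝓞 F, W₀.c₄ ^ 3 = j₀ * W₀.Δ) (hp : p.Prime) (h5 : 5 ≤ p) {A B : F} (hS : Sh W₀ A B)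
    (M : IntermediateField F (AlgebraicClosure F)) [NumberField M] [DecidableEq (AlgebraicClosure F)]
    {v : HeightOneSpectrum (𝓞 M)} {V : ValuationSubring (AlgebraicClosure F)}
    (hv : ∀ a : 𝓞 M, a ∈ v.asIdeal → V.valuation ((a : M) : AlgebraicClosure F) < 1)
    (hV : V.valuation (p : AlgebraicClosure F) = 1) {T : Pt (WAB A B) (AlgebraicClosure F)} (hT : p • T = 0) (h0 : T ≠ 0)
    (hfix : ∀ g ∈ M.fixingSubgroup, Inert V g → ac (WAB A B) g T = T) : GoodAt ((W₀⁄F)⁄M) v := by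
  have hA := hS.hA
  have hB' := hS.hB
  have halg : Algebra.IsAlgebraic M (AlgebraicClosure F) := Algebra.IsAlgebraic.tower_top (K := F) M
  have hcl : IsAlgClosure M (AlgebraicClosure F) := ⟨inferInstance, halg⟩
  obtain ⟨W₁, hW₁⟩ : ∃ W₁ : WeierstrassCurve (𝓞 M), W₁ = W₀.map (algebraMap (𝓞 F) (𝓞 M)) := ⟨_, rfl⟩
  obtain ⟨A', hA'⟩ : ∃ A' : M, A' = algebraMap F M A := ⟨_, rfl⟩
  obtain ⟨B', hB''⟩ : ∃ B' : M, B' = algebraMap F M B := ⟨_, rfl⟩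
  have hc4 : algebraMap (𝓞 M) M W₁.c₄ = algebraMap F M (algebraMap (𝓞 F) F W₀.c₄) := by
    rw [hW₁, WeierstrassCurve.map_c₄, ← IsScalarTower.algebraMap_apply, ← IsScalarTower.algebraMap_apply]
  have hc6 : algebraMap (𝓞 M) M W₁.c₆ = algebraMap F M (algebraMap (𝓞 F) F W₀.c₆) := by
    rw [hW₁, WeierstrassCurve.map_c₆, ← IsScalarTower.algebraMap_apply, ← IsScalarTower.algebraMap_apply]
  have hA1 : A' = -(algebraMap (𝓞 M) M W₁.c₄) / 48 := by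
    rw [hc4, hA', hA, map_div₀, map_neg, map_ofNat]
  have hB1 : B' = -(algebraMap (𝓞 M) M W₁.c₆) / 864 := by
    rw [hc6, hB'', hB', map_div₀, map_neg, map_ofNat]
  have hW1Δ : W₁.Δ = algebraMap (𝓞 F) (𝓞 M) W₀.Δ := by
    rw [hW₁, WeierstrassCurve.map_Δ]
  have hW1c : W₁.c₄ = algebraMap (𝓞 F) (𝓞 M) W₀.c₄ := by
    rw [hW₁, WeierstrassCurve.map_c₄]
  have hΔ1 : W₁.Δ ≠ 0 := by
    rw [hW1Δ]
    exact (map_ne_zero_iff _ (FaithfulSMul.algebraMap_injective (𝓞 F) (𝓞 M))).2 hΔ0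
  have hcur : (WAB A B)⁄(AlgebraicClosure F) = (WAB A' B')⁄(AlgebraicClosure F) := by
    have e1 : algebraMap M (AlgebraicClosure F) A' = algebraMap F (AlgebraicClosure F) A := by
      rw [hA', ← IsScalarTower.algebraMap_apply]
    have e2 : algebraMap M (AlgebraicClosure F) B' = algebraMap F (AlgebraicClosure F) B := by
      rw [hB'', ← IsScalarTower.algebraMap_apply]
    apply WeierstrassCurve.ext
    · change algebraMap F (AlgebraicClosure F) 0 = algebraMap M (AlgebraicClosure F) 0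
      rw [map_zero, map_zero]
    · change algebraMap F (AlgebraicClosure F) 0 = algebraMap M (AlgebraicClosure F) 0
      rw [map_zero, map_zero]
    · change algebraMap F (AlgebraicClosure F) 0 = algebraMap M (AlgebraicClosure F) 0
      rw [map_zero, map_zero]
    · exact e1.symm
    · exact e2.symm
  obtain ⟨T', hT', h0', hx', hy'⟩ := H13R.c2_tr hcur hT h0
  have hfix' : ∀ g : AlgebraicClosure F ≃ₐ[M] AlgebraicClosure F, Inert V g → ac (WAB A' B') g T' = T' := by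
    intro g hg
    have h1 : g.restrictScalars F ∈ M.fixingSubgroup := by
      rw [IntermediateField.mem_fixingSubgroup_iff]
      intro x hx
      exact g.commutes ⟨x, hx⟩
    have h2 : Inert V (g.restrictScalars F) := fun x hx => hg x hx
    have h3 := hfix _ h1 h2
    obtain ⟨a1, a2, -⟩ := H55K.MG.ac_crd (W := WAB A B) (g.restrictScalars F) T
    obtain ⟨b1, b2, b3⟩ := H55K.MG.ac_crd (W := WAB A' B') g T'
    rw [h3] at a1 a2
    refine H55K.pt_ext (fun h => h0' (b3.1 h)) h0' ?_ ?_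
    · rw [b1, hx']
      exact a1.symm
    · rw [b2, hy']
      exact a2.symm
  have hj' : ∃ j₀ : 𝓞 M, W₁.c₄ ^ 3 = j₀ * W₁.Δ := by
    obtain ⟨j₀, hj₀⟩ := hj
    refine ⟨algebraMap (𝓞 F) (𝓞 M) j₀, ?_⟩
    rw [hW1c, hW1Δ, ← map_pow, hj₀, map_mul]
  have hv' : ∀ a : 𝓞 M, a ∈ v.asIdeal → V.valuation (ak (AlgebraicClosure F) a) < 1 := hv
  have hgood := good_nos W₁ hΔ1 hj' hA1 hB1 hv' hp h5 hV hT' h0' hfix'
  have hcur2 : W₁⁄M = (W₀⁄F)⁄M := by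
    rw [hW₁]
    change (W₀.map (algebraMap (𝓞 F) (𝓞 M))).map (algebraMap (𝓞 M) M) = (W₀.map (algebraMap (𝓞 F) F)).map (algebraMap F M)
    rw [WeierstrassCurve.map_map, WeierstrassCurve.map_map, ← IsScalarTower.algebraMap_eq, ← IsScalarTower.algebraMap_eq]
  rwa [hcur2] at hgood

end H55G
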