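import Mathlib

/-! # H55G, part I: unipotent operators -/

namespace H55G

/-- Chunk I1b (S/M, PURE). In (ZMod p)[X]: (X - 1)^(p^k) = X^(p^k) - 1 (sub_pow_char_pow), so in ℤ[X] (X - 1)^(p^k) = X^(p^k) - 1 + C p * R for some polynomial R (the difference is mapped to 0 in (ZMod p)[X], so all its coefficients are divisible by p: Polynomial.C_dvd_iff_dvd_coeff; ZMod.intCast_zmod_eq_zero_iff_dvd). Evaluate at φ
(Polynomial.aeval φ in the ring AddMonoid.End G) and apply to c: (φ - 1)^(p^k) c = φ^(p^k) c - c + p • (R(φ) c) = 0, since R(φ) commutes with multiplication by p and p • c = 0. Let n be the least number with (φ - 1)^n c = 0 (Nat.find; n ≠ 0 since c ≠ 0): c' = (φ - 1)^(n - 1) c. -/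
theorem unip_fix {G : Type} [AddCommGroup G] (φ : AddMonoid.End G) {p : ℕ} (hp : p.Prime) (k : ℕ) {c : G} (hc : c ≠ 0)
    (hpc : p • c = 0) (hf : (φ ^ p ^ k) c = c) : ∃ c' : G, c' ≠ 0 ∧ p • c' = 0 ∧ φ c' = c' := by
  have : Fact p.Prime := ⟨hp⟩
  obtain ⟨R, hR⟩ : ∃ R : Polynomial ℤ, (Polynomial.X - 1) ^ p ^ k =
      Polynomial.X ^ p ^ k - 1 + Polynomial.C (p : ℤ) * R := by
    have h1 : Polynomial.C (p : ℤ) ∣ (Polynomial.X - 1) ^ p ^ k - (Polynomial.X ^ p ^ k - 1 : Polynomial ℤ) := by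
      rw [Polynomial.C_dvd_iff_dvd_coeff]
      intro i
      rw [← ZMod.intCast_zmod_eq_zero_iff_dvd]
      have h2 : ((Polynomial.X - 1) ^ p ^ k - (Polynomial.X ^ p ^ k - 1 : Polynomial ℤ)).map
          (Int.castRingHom (ZMod p)) = 0 := by
        rw [Polynomial.map_sub, Polynomial.map_pow, Polynomial.map_sub, Polynomial.map_sub,
          Polynomial.map_pow, Polynomial.map_X, Polynomial.map_one, sub_pow_char_pow, one_pow, sub_self]
      have h3 := congrArg (fun q => Polynomial.coeff q i) h2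
      simp only [Polynomial.coeff_map, Polynomial.coeff_zero] at h3
      exact h3
    obtain ⟨R, hR⟩ := h1
    exact ⟨R, by rw [← hR]; ring⟩
  have hz : ((φ - 1) ^ p ^ k) c = 0 := by
    have h1 := congrArg (Polynomial.aeval φ) hR
    rw [map_pow, map_sub, Polynomial.aeval_X, map_one, map_add, map_sub, map_pow, Polynomial.aeval_X,
      map_one, map_mul, Polynomial.aeval_C] at h1
    rw [h1]
    have h2 : ((algebraMap ℤ (AddMonoid.End G)) (p : ℤ) * Polynomial.aeval φ R) c = 0 := by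
      show (algebraMap ℤ (AddMonoid.End G)) (p : ℤ) ((Polynomial.aeval φ R) c) = 0
      rw [map_natCast, AddMonoid.End.natCast_apply, ← map_nsmul, hpc, map_zero]
    show (φ ^ p ^ k) c - c + ((algebraMap ℤ (AddMonoid.End G)) (p : ℤ) * Polynomial.aeval φ R) c = 0
    rw [h2, hf, sub_self, add_zero]
  classical
  have hex : ∃ n : ℕ, ((φ - 1) ^ n : AddMonoid.End G) c = 0 := ⟨_, hz⟩
  have hn := Nat.find_spec hex
  have hn0 : Nat.find hex ≠ 0 := by
    intro h
    rw [h, pow_zero] at hn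
    exact hc hn
  obtain ⟨m, hm⟩ := Nat.exists_eq_succ_of_ne_zero hn0
  have hm' : ((φ - 1) ^ m) c ≠ 0 := Nat.find_min hex (by omega)
  refine ⟨((φ - 1) ^ m) c, hm', ?_, ?_⟩
  · rw [← map_nsmul, hpc, map_zero]
  · rw [hm, Nat.succ_eq_add_one, pow_succ'] at hn
    have h3 : φ (((φ - 1) ^ m) c) - ((φ - 1) ^ m) c = 0 := hn
    exact sub_eq_zero.1 h3

end H55G
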