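import Mathlib
import Pool.Agent.Lib.H55G.I1b
import Pool.Agent.Lib.H55G.I3b
import Pool.Agent.Lib.H55G.I4a
import Pool.Agent.Lib.H55G.E4

/-! # H55G, part I: good reduction descends, and OkM persists, in p-extensions -/

open NumberField IsDedekindDomain WeierstrassCurve

namespace H55G

open H55P (IQ embF eF LF Per IsHecke Pt ac Inert Dec Nm UnitP PExt Below)
open H35P (WAB Ker tt GoodW IntW)
open H55K.MG (VC Crd)
open H55K H55K.TQ

variable {F : Type} [Field F] [NumberField F] [IQ F] {W₀ : WeierstrassCurve (𝓞 F)} {Om : ℂ}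
    {m : Ideal (𝓞 F)} {ψ : Ideal (𝓞 F) →*₀ 𝓞 F} {p : ℕ}

/-- Chunk I4b (S). Local form of H13R.bad_KR: copy its proof (Lib/H13R/C3.lean) with core_good (E4.lean) in place of core_bad; v is given (hvw instead of c3_below). -/
theorem good_dn (hH : BaseH F W₀ Om m ψ) (hp : PrimeH F W₀ p) {M L K : IntermediateField F (AlgebraicClosure F)}
    [NumberField M] [NumberField K] (hL : PExt p M L) (hMK : M ≤ K) (hKL : K ≤ L) {w : HeightOneSpectrum (𝓞 K)}
    {v : HeightOneSpectrum (𝓞 M)}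
    (hvw : ∀ (a : 𝓞 M) (b : 𝓞 K), ((a : M) : AlgebraicClosure F) = ((b : K) : AlgebraicClosure F) → (a ∈ v.asIdeal ↔ b ∈ w.asIdeal))
    (hΔ : algebraMap (𝓞 F) (𝓞 K) W₀.Δ ∈ w.asIdeal) (hg : GoodAt ((W₀⁄F)⁄K) w) : GoodAt ((W₀⁄F)⁄M) v := by
  classical
  obtain ⟨V, hV⟩ := exists_V K w
  obtain ⟨j, hj⟩ := exists_j F (AlgebraicClosure F)
  obtain ⟨A, hA⟩ : ∃ A : F, A = -(algebraMap (𝓞 F) F W₀.c₄) / 48 := ⟨_, rfl⟩
  obtain ⟨B, hB'⟩ : ∃ B : F, B = -(algebraMap (𝓞 F) F W₀.c₆) / 864 := ⟨_, rfl⟩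
  have hd := y3_ne W₀ hA hB' hH.data.ell
  have hper : Per F (embF F A) (embF F B) Om := by
    have e1 : embF F A = -(eF F W₀.c₄) / 48 := by
      rw [hA, map_div₀, map_neg, map_ofNat]
      rfl
    have e2 : embF F B = -(eF F W₀.c₆) / 864 := by
      rw [hB', map_div₀, map_neg, map_ofNat]
      rfl
    rw [e1, e2]
    exact hH.data.per
  obtain ⟨act, hact⟩ := exists_CMA F A B Om j hd hper hj
  have hv : ∀ a : 𝓞 M, a ∈ v.asIdeal → V.valuation ((a : M) : AlgebraicClosure F) < 1 := by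
    intro a ha
    have h1 : ∃ b : 𝓞 K, ((a : M) : AlgebraicClosure F) = ((b : K) : AlgebraicClosure F) := by
      refine ⟨⟨⟨((a : M) : AlgebraicClosure F), hMK (a : M).2⟩, ?_⟩, rfl⟩
      have h2 : IsIntegral ℤ (a : M) := a.isIntegral_coe
      have h3 : IsIntegral ℤ ((IntermediateField.inclusion hMK) (a : M)) :=
        h2.map ((IntermediateField.inclusion hMK).toRingHom.toIntAlgHom)
      exact h3
    obtain ⟨b, hb⟩ := h1
    rw [hb]
    exact hV b ((hvw a b hb).1 ha)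
  have hΔv : algebraMap (𝓞 F) (𝓞 M) W₀.Δ ∈ v.asIdeal := (hvw _ (algebraMap (𝓞 F) (𝓞 K) W₀.Δ) rfl).2 hΔ
  have hVp : V.valuation (p : AlgebraicClosure F) = 1 := H13R.c3_vp hp hv hΔv
  have hGM := gmd_of_good W₀ hA hB' w hV hg
  have hΔA : (WAB A B).Δ ≠ 0 := by
    have e : (WAB A B).Δ = -16 * (4 * A ^ 3 + 27 * B ^ 2) := by
      unfold WAB WeierstrassCurve.Δ WeierstrassCurve.b₂ WeierstrassCurve.b₄ WeierstrassCurve.b₆ WeierstrassCurve.b₈
      ring
    rw [e]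
    exact mul_ne_zero (by norm_num) hd
  obtain ⟨k, hk⟩ := H55P.PExt.pow p hp.prime M L hL
  obtain ⟨T, hT, hT0⟩ := H13R.c3_point hact hp.prime
  refine core_good hH.data.ell (jint_of hH.data.per hH.data.ell) hp.prime hp.five ⟨hA, hB'⟩ M hv hVp hT hT0 ?_
  intro g hgM hgI
  refine fix_all hact hp.prime ((unr_iff hp.prime).1 hp.unr) g (k := k) ?_ T hT
  intro P hP
  refine inert_triv hΔA hGM (g ^ (p ^ k)) ?_ ?_ p hVp P hP
  · intro x hx
    exact (IntermediateField.mem_fixingSubgroup_iff L _).1 (hk g hgM) x (hKL hx)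
  · have h1 : g ∈ H55P.inS F V := hgI
    exact pow_mem h1 (p ^ k)

open Classical in
/-- Chunk I4b (S). Local form of H13R.bad_torsR: copy its proof with core_good in place of core_bad. -/
theorem bad_tors1 (hH : BaseH F W₀ Om m ψ) (hp : PrimeH F W₀ p) {M L K : IntermediateField F (AlgebraicClosure F)}
    [NumberField M] (hL : PExt p M L) (hKL : K ≤ L) {V : ValuationSubring (AlgebraicClosure F)}
    {v : HeightOneSpectrum (𝓞 M)} (hb : ¬ GoodAt ((W₀⁄F)⁄M) v)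
    (hv : ∀ a : 𝓞 M, a ∈ v.asIdeal → V.valuation ((a : M) : AlgebraicClosure F) < 1)
    (hΔ : algebraMap (𝓞 F) (𝓞 M) W₀.Δ ∈ v.asIdeal) (T : Pt (W₀⁄F) (AlgebraicClosure F)) (hT : p • T = 0)
    (hf : ∀ s ∈ K.fixingSubgroup, Inert V s → ac (W₀⁄F) s T = T) : T = 0 := by
  obtain ⟨A, hA⟩ : ∃ A : F, A = -(algebraMap (𝓞 F) F W₀.c₄) / 48 := ⟨_, rfl⟩
  obtain ⟨B, hB'⟩ : ∃ B : F, B = -(algebraMap (𝓞 F) F W₀.c₆) / 864 := ⟨_, rfl⟩
  have hell := hH.data.ell
  have hd := y3_ne W₀ hA hB' hell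
  obtain ⟨j, hj⟩ := exists_j F (AlgebraicClosure F)
  have hper : Per F (embF F A) (embF F B) Om := by
    have e1 : embF F A = -(eF F W₀.c₄) / 48 := by
      rw [hA, map_div₀, map_neg, map_ofNat]
      rfl
    have e2 : embF F B = -(eF F W₀.c₆) / 864 := by
      rw [hB', map_div₀, map_neg, map_ofNat]
      rfl
    rw [e1, e2]
    exact hH.data.per
  obtain ⟨act, hC⟩ := exists_CMA F A B Om j hd hper hj
  have hjint := jint_of hH.data.per hell
  obtain ⟨Kg, u, hG⟩ := exists_gmod (Ω := AlgebraicClosure F) hd (y3_j W₀ hA hB' hjint) V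
  have hunr := (unr_iff hp.prime).1 hp.unr
  have hVp : V.valuation (p : AlgebraicClosure F) = 1 := H13R.c3_vp hp hv hΔ
  have hΔA : (WAB A B).Δ ≠ 0 := by
    have e : (WAB A B).Δ = -16 * (4 * A ^ 3 + 27 * B ^ 2) := by
      unfold WAB WeierstrassCurve.Δ WeierstrassCurve.b₂ WeierstrassCurve.b₄ WeierstrassCurve.b₆ WeierstrassCurve.b₈
      ring
    rw [e]
    exact mul_ne_zero (by norm_num) hd
  obtain ⟨r, s, t, hVC⟩ := vc_short W₀ hA hB'
  have hVC' := vc_map (algebraMap F (AlgebraicClosure F)) hVC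
  have hΔ1 : ((WAB A B).map (algebraMap F (AlgebraicClosure F))).Δ ≠ 0 := by
    rw [WeierstrassCurve.map_Δ]
    exact (map_ne_zero _).2 hΔA
  have hΔ2 : ((W₀⁄F).map (algebraMap F (AlgebraicClosure F))).Δ ≠ 0 := by
    have e : (W₀⁄F).Δ = algebraMap (𝓞 F) F W₀.Δ := WeierstrassCurve.map_Δ _ _
    rw [WeierstrassCurve.map_Δ, e]
    refine (map_ne_zero _).2 fun h1 => hell ?_
    exact (map_eq_zero_iff _ (FaithfulSMul.algebraMap_injective (𝓞 F) F)).1 h1
  obtain ⟨Θ, hΘ⟩ : ∃ Θ : Pt (WAB A B) (AlgebraicClosure F) ≃+ Pt (W₀⁄F) (AlgebraicClosure F),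
      Crd (algebraMap F (AlgebraicClosure F) 1) (algebraMap F (AlgebraicClosure F) r)
        (algebraMap F (AlgebraicClosure F) s) (algebraMap F (AlgebraicClosure F) t) Θ := MG.vc_iso hVC' hΔ1 hΔ2
  have hcom : ∀ (g : AlgebraicClosure F ≃ₐ[F] AlgebraicClosure F) (P : Pt (WAB A B) (AlgebraicClosure F)),
      ac (W₀⁄F) g (Θ P) = Θ (ac (WAB A B) g P) := by
    intro g P
    by_cases hP : P = 0
    · subst hP
      rw [map_zero, map_zero, map_zero, map_zero]
    · obtain ⟨a1, a2, a3⟩ := hΘ P hP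
      obtain ⟨b1, b2, b3⟩ := MG.ac_crd (W := WAB A B) g P
      have hP' : ac (WAB A B) g P ≠ 0 := fun h => hP (b3.1 h)
      obtain ⟨c1, c2, c3⟩ := hΘ _ hP'
      obtain ⟨d1, d2, d3⟩ := MG.ac_crd (W := W₀⁄F) g (Θ P)
      have e2 := congrArg g a2
      have e3 := congrArg g a3
      simp only [map_add, map_mul, map_pow, map_one, AlgEquiv.commutes, one_pow, one_mul, mul_one] at e2 e3 c2 c3
      have f2 : xc (ac (W₀⁄F) g (Θ P)) = xc (Θ (ac (WAB A B) g P)) := by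
        rw [d1]
        linear_combination c2 - e2 - b1
      refine pt_ext (fun h => a1 (d3.1 h)) c1 f2 ?_
      rw [d2]
      rw [d1] at f2
      linear_combination c3 - e3 - b2 - (algebraMap F (AlgebraicClosure F) s) * f2
  by_contra h0
  obtain ⟨T', hT'⟩ := Θ.surjective T
  have hT0 : T' ≠ 0 := by
    rintro rfl
    exact h0 (by rw [← hT', map_zero])
  have hTp : p • T' = 0 := by
    apply Θ.injective
    rw [map_nsmul, hT', hT, map_zero]
  obtain ⟨k, hk⟩ := H55P.PExt.pow p hp.prime M L hL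
  refine hb (core_good hell hjint hp.prime hp.five ⟨hA, hB'⟩ M hv hVp hTp hT0 ?_)
  intro g hgM hg
  refine fix_all hC hp.prime hunr g (k := k) ?_ T' hTp
  intro P hP
  have hI : Inert V (g ^ (p ^ k)) := by
    have h1 : g ∈ H55P.inS F V := hg
    exact pow_mem h1 (p ^ k)
  refine fix_from_one hC hG hp.prime hp.five hVp (g ^ (p ^ k)) hI hTp hT0 ?_ P hP
  apply Θ.injective
  rw [← hcom, hT']
  refine hf _ ?_ hI
  exact (IntermediateField.mem_fixingSubgroup_iff K _).2 fun x hx =>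
    (IntermediateField.mem_fixingSubgroup_iff L _).1 (hk g hgM) x (hKL hx)

end H55G
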