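import Mathlib
import Pool.Agent.Lib.H55G.I4b

/-! # H55G, part I: OkM persists in p-extensions -/

open NumberField IsDedekindDomain WeierstrassCurve

namespace H55G

open H55P (IQ embF eF LF Per IsHecke Pt ac Inert Dec Nm UnitP PExt Below)
open H35P (WAB Ker tt GoodW IntW)
open H55K.MG (VC Crd)
open H55K H55K.TQ

variable {F : Type} [Field F] [NumberField F] [IQ F] {W₀ : WeierstrassCurve (𝓞 F)} {Om : ℂ}
    {m : Ideal (𝓞 F)} {ψ : Ideal (𝓞 F) →*₀ 𝓞 F} {p : ℕ}

/-- Chunk I4c (M). w a prime of K with Δ in w and W₀ good at w; v the prime of M below w (H13R.c3_below hMK w); Δ in v; W₀ is good over M at v (good_dn), so p does not divide NW v (hOk). Suppose p ∣ NW w. Ω = AlgebraicClosure F, classical DecidableEq. A, B, j, act from setup; V above w: exists_abw for K (K0A.lean): Abw V w; then also Abw V v (Abw.below with Algebra M K from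
inclusion, or abw_of_below with Below V M v). C with GC ((W₀⁄F)⁄M) v C; exists_GD with vck_F for k = M: GD for W' = (C • ((W₀⁄F)⁄M))⁄Ω, u, r, s, t images of elements of M. g from exists_g for k = M, g' from exists_g for k = K; both fix M (K contains M; the image of x in M under M → K → Ω is its image), so they fix F, A, B and u, r, s, t. hK, hK' from acr_kg.
C' = C mapped to K (as in gc_up, E7.lean: C.map (algebraMap M K) with the algebra M → K by inclusion): GC ((W₀⁄F)⁄K) w C' and (C' • ((W₀⁄F)⁄K))⁄Ω = (C • ((W₀⁄F)⁄M))⁄Ω (map_variableChange, map_map). nw_dvd (I1a.lean) for K, w, g', C': a class c ≠ 0 with p • c = 0 and φ' c = c. g as an element of Ω ≃ₐ[F] Ω is in M.fixingSubgroup, so g^(p^k) is in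
L.fixingSubgroup (PExt.pow, S12.lean) and fixes K ≤ L: frob_pow (I4a.lean) with n = p^k: φ^(p^k) c = c. unip_fix (I1b.lean): c' ≠ 0, p • c' = 0, φ c' = c'. nw_dvd for M, v, g, C: p ∣ NW v, contradiction. -/
theorem ok_up (hH : BaseH F W₀ Om m ψ) (hp : PrimeH F W₀ p) {M L K : IntermediateField F (AlgebraicClosure F)}
    [NumberField M] [NumberField K] (hL : PExt p M L) (hMK : M ≤ K) (hKL : K ≤ L) (hOk : OkM p W₀ M) : OkM p W₀ K := by
  classical
  intro w hΔ hg hdvd
  obtain ⟨v, hvw⟩ := H13R.c3_below hMK w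
  have hΔv : algebraMap (𝓞 F) (𝓞 M) W₀.Δ ∈ v.asIdeal := (hvw _ (algebraMap (𝓞 F) (𝓞 K) W₀.Δ) rfl).2 hΔ
  have hgv := good_dn hH hp hL hMK hKL hvw hΔ hg
  refine hOk v hΔv hgv ?_
  obtain ⟨A, B, j, act, hS, hd, hC⟩ := setup hH (AlgebraicClosure F)
  obtain ⟨V, hV⟩ := exists_abw (AlgebraicClosure F) w
  have hVv : Abw (N := M) V v := by
    refine abw_of_below fun x => ?_
    have h1 : ∃ b : 𝓞 K, ((x : M) : AlgebraicClosure F) = ((b : K) : AlgebraicClosure F) := by
      refine ⟨⟨⟨((x : M) : AlgebraicClosure F), hMK (x : M).2⟩, ?_⟩, rfl⟩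
      have h2 : IsIntegral ℤ (x : M) := x.isIntegral_coe
      have h3 : IsIntegral ℤ ((IntermediateField.inclusion hMK) (x : M)) :=
        h2.map ((IntermediateField.inclusion hMK).toRingHom.toIntAlgHom)
      exact h3
    obtain ⟨b, hb⟩ := h1
    rw [hvw x b hb, hb, ← w.valuation_lt_one_iff_mem (K := K), ← hV.lt]
    rfl
  obtain ⟨C, hCv⟩ := (good_iff _ v).1 hgv
  obtain ⟨u, r, s, t, Θ, Kg, hG⟩ := exists_GD (k := M) hd hVv (vck_F hS) hCv
  have halgM : Algebra.IsAlgebraic M (AlgebraicClosure F) := Algebra.IsAlgebraic.tower_top (K := F) M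
  have halgK : Algebra.IsAlgebraic K (AlgebraicClosure F) := Algebra.IsAlgebraic.tower_top (K := F) K
  have hclM : IsAlgClosure M (AlgebraicClosure F) := ⟨inferInstance, inferInstance⟩
  have hclK : IsAlgClosure K (AlgebraicClosure F) := ⟨inferInstance, inferInstance⟩
  obtain ⟨g, hfr⟩ := exists_g (k := M) hVv
  obtain ⟨g', hfr'⟩ := exists_g (k := K) hV
  have hgF : ∀ x : F, g (algebraMap F (AlgebraicClosure F) x) = algebraMap F (AlgebraicClosure F) x := by
    intro x
    rw [IsScalarTower.algebraMap_apply F M (AlgebraicClosure F)]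
    exact hfr.fix _
  have hgF' : ∀ x : F, g' (algebraMap F (AlgebraicClosure F) x) = algebraMap F (AlgebraicClosure F) x := by
    intro x
    rw [IsScalarTower.algebraMap_apply F K (AlgebraicClosure F)]
    exact hfr'.fix _
  have hgM' : ∀ x : M, g' (algebraMap M (AlgebraicClosure F) x) = algebraMap M (AlgebraicClosure F) x := by
    intro x
    exact hfr'.fix (IntermediateField.inclusion hMK x)
  have hgx : Fx g (algebraMap M (AlgebraicClosure F) u) (algebraMap M (AlgebraicClosure F) r)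
      (algebraMap M (AlgebraicClosure F) s) (algebraMap M (AlgebraicClosure F) t) :=
    ⟨hfr.fix _, hfr.fix _, hfr.fix _, hfr.fix _⟩
  have hgx' : Fx g' (algebraMap M (AlgebraicClosure F) u) (algebraMap M (AlgebraicClosure F) r)
      (algebraMap M (AlgebraicClosure F) s) (algebraMap M (AlgebraicClosure F) t) :=
    ⟨hgM' _, hgM' _, hgM' _, hgM' _⟩
  have hq : 0 < Ideal.absNorm v.asIdeal := Nat.pos_of_ne_zero fun h => v.ne_bot (Ideal.absNorm_eq_zero_iff.1 h)
  have hq' : 0 < Ideal.absNorm w.asIdeal := Nat.pos_of_ne_zero fun h => w.ne_bot (Ideal.absNorm_eq_zero_iff.1 h)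
  have hK : ∀ P ∈ Kg, acr g (hgF A) (hgF B) P ∈ Kg := fun P hP => (acr_kg hG hgx hq hfr.frob P).2 hP
  have hK' : ∀ P ∈ Kg, acr g' (hgF' A) (hgF' B) P ∈ Kg := fun P hP => (acr_kg hG hgx' hq' hfr'.frob P).2 hP
  -- the change of variables over K
  have hE : (C.map ((IntermediateField.inclusion hMK : M →ₐ[F] K) : M →+* K)) • ((W₀⁄F)⁄K) =
      (C • ((W₀⁄F)⁄M)).map ((IntermediateField.inclusion hMK : M →ₐ[F] K) : M →+* K) := by
    have hX : ((W₀⁄F)⁄K) = ((W₀⁄F)⁄M).map ((IntermediateField.inclusion hMK : M →ₐ[F] K) : M →+* K) := by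
      show ((W₀⁄F).map (algebraMap F K)) = ((W₀⁄F).map (algebraMap F M)).map _
      rw [WeierstrassCurve.map_map]
      rfl
    rw [hX, WeierstrassCurve.map_variableChange]
  have hle : ∀ a : M, v.valuation M a ≤ 1 → w.valuation K (IntermediateField.inclusion hMK a) ≤ 1 :=
    fun a ha => (hV (IntermediateField.inclusion hMK a)).1 ((hVv a).2 ha)
  have hC' : GC ((W₀⁄F)⁄K) w (C.map ((IntermediateField.inclusion hMK : M →ₐ[F] K) : M →+* K)) := by
    obtain ⟨h1, h2, h3, h4, h5, h6⟩ := hCv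
    unfold GC
    rw [hE]
    refine ⟨hle _ h1, hle _ h2, hle _ h3, hle _ h4, hle _ h5, ?_⟩
    rw [WeierstrassCurve.map_Δ]
    exact (hV.eq_one (IntermediateField.inclusion hMK _)).1 ((hVv.eq_one _).2 h6)
  have hW' : (C • ((W₀⁄F)⁄M))⁄(AlgebraicClosure F) =
      ((C.map ((IntermediateField.inclusion hMK : M →ₐ[F] K) : M →+* K)) • ((W₀⁄F)⁄K))⁄(AlgebraicClosure F) := by
    rw [hE]
    show (C • ((W₀⁄F)⁄M)).map (algebraMap M (AlgebraicClosure F)) =
      ((C • ((W₀⁄F)⁄M)).map _).map (algebraMap K (AlgebraicClosure F))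
    rw [WeierstrassCurve.map_map]
    rfl
  obtain ⟨c, hc0, hpc, hcf⟩ := (nw_dvd hV hfr' hC' hW' hG hgx' hK' hp.prime).1 hdvd
  obtain ⟨k, hk⟩ := H55P.PExt.pow p hp.prime M L hL
  have hn : ∀ x : K, (g ^ (p ^ k)) (algebraMap K (AlgebraicClosure F) x) = algebraMap K (AlgebraicClosure F) x := by
    intro x
    have hs : AlgEquiv.ofRingEquiv (f := g) hgF ∈ M.fixingSubgroup := by
      rw [IntermediateField.mem_fixingSubgroup_iff]
      intro y hy
      exact hfr.fix ⟨y, hy⟩
    have h1 := (IntermediateField.mem_fixingSubgroup_iff L _).1 (hk _ hs) (algebraMap K (AlgebraicClosure F) x) (hKL x.2)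
    have h2 : ∀ (n : ℕ) (y : AlgebraicClosure F), (g ^ n) y = ((AlgEquiv.ofRingEquiv (f := g) hgF) ^ n) y := by
      intro n
      induction n with
      | zero => exact fun y => rfl
      | succ n ih =>
        intro y
        rw [pow_succ, pow_succ]
        exact ih (g y)
    rw [h2]
    exact h1
  have hcp := frob_pow hfr hfr' (p ^ k) hn hG hgx hgx' hK hK' hcf
  obtain ⟨c', hc1, hc2, hc3⟩ := unip_fix _ hp.prime k hc0 hpc hcp
  exact (nw_dvd hVv hfr hCv rfl hG hgx hK hp.prime).2 ⟨c', hc1, hc2, hc3⟩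

end H55G
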