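import Mathlib
import Pool.Agent.Lib.H55K.RB1
import Pool.Agent.Lib.H55K.BH
import Pool.Agent.Lib.H55G.D0

/-! # H55G, part E: the primes of a quadratic extension -/

open NumberField IsDedekindDomain WeierstrassCurve

namespace H55G

open H55P (IQ embF eF LF Per IsHecke Pt ac Inert Dec Nm)
open H35P (WAB Ker GoodW IntW)
open H55K (CMA ak xc yc cj cj_cj GoodAt Abw)
open H55K.TQ

variable {F K₀ K : Type} [Field F] [NumberField F] [IQ F] [Field K₀] [NumberField K₀] [Field K] [NumberField K]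
  [Algebra F K] [Algebra K₀ K]

/-- τ is an automorphism of the quadratic extension K of K₀ which is the complex conjugation on F. -/
structure QT (F K₀ K : Type) [Field F] [NumberField F] [IQ F] [Field K₀] [NumberField K₀] [Field K] [NumberField K]
    [Algebra F K] [Algebra K₀ K] (τ : K ≃ₐ[K₀] K) : Prop where
  rank : Module.finrank K₀ K = 2
  tau : ∀ x : 𝓞 F, τ (algebraMap F K (x : F)) = algebraMap F K ((cj x : 𝓞 F) : F)

theorem e3a_cj (F : Type) [Field F] [NumberField F] [IQ F] : ∃ a : 𝓞 F, cj a ≠ a := by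
  by_contra hcon
  push Not at hcon
  obtain ⟨x, hx⟩ := IQ.im (F := F)
  apply hx
  rw [← Complex.conj_eq_iff_im]
  obtain ⟨a, b, hb, rfl⟩ := IsFractionRing.div_surjective (𝓞 F) x
  have h : ∀ c : 𝓞 F, (starRingEnd ℂ) ((IQ.emb : F →+* ℂ) (algebraMap (𝓞 F) F c)) = (IQ.emb : F →+* ℂ) (algebraMap (𝓞 F) F c) := by
    intro c
    have h1 := H55K.e_cj c
    rw [hcon c] at h1
    exact h1.symm
  rw [map_div₀, map_div₀, h, h]

theorem e3a_ne {τ : K ≃ₐ[K₀] K} (hτ : QT F K₀ K τ) : τ ≠ 1 := by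
  rintro rfl
  obtain ⟨a, ha⟩ := e3a_cj F
  apply ha
  have h1 := hτ.tau a
  have h2 : algebraMap F K (a : F) = algebraMap F K ((cj a : 𝓞 F) : F) := h1
  exact (RingOfIntegers.ext ((algebraMap F K).injective h2)).symm

theorem e3a_card {τ : K ≃ₐ[K₀] K} (hτ : QT F K₀ K τ) : Nat.card Gal(K/K₀) = 2 := by
  have : Algebra.IsQuadraticExtension K₀ K := ⟨hτ.rank⟩
  have hgal : IsGalois K₀ K := inferInstance
  rw [IsGalois.card_aut_eq_finrank, hτ.rank]

theorem e3a_gal {τ : K ≃ₐ[K₀] K} (hτ : QT F K₀ K τ) (g : Gal(K/K₀)) : g = 1 ∨ g = τ := by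
  obtain ⟨y, -, hy⟩ := (Nat.card_eq_two_iff' (1 : Gal(K/K₀))).1 (e3a_card hτ)
  by_cases hg : g = 1
  · exact Or.inl hg
  · exact Or.inr ((hy g hg).trans (hy τ (e3a_ne hτ)).symm)

open scoped Pointwise in
/-- A prime over v different from w: w is not stable under τ. -/
theorem e3a_move {τ : K ≃ₐ[K₀] K} (hτ : QT F K₀ K τ) {v : HeightOneSpectrum (𝓞 K₀)} {w w' : HeightOneSpectrum (𝓞 K)}
    (hw : v.asIdeal = w.asIdeal.under (𝓞 K₀)) (hw' : v.asIdeal = w'.asIdeal.under (𝓞 K₀)) (hne : w ≠ w') :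
    ∃ x : 𝓞 K, x ∈ w.asIdeal ∧ τ • x ∉ w.asIdeal := by
  have : Algebra.IsQuadraticExtension K₀ K := ⟨hτ.rank⟩
  have hgal : IsGalois K₀ K := inferInstance
  by_contra hcon
  push Not at hcon
  have hp : w.asIdeal.IsPrime := w.isPrime
  have hp' : w'.asIdeal.IsPrime := w'.isPrime
  obtain ⟨g, hg⟩ := Algebra.IsInvariant.exists_smul_of_under_eq (𝓞 K₀) (𝓞 K) Gal(K/K₀) w.asIdeal w'.asIdeal (hw.symm.trans hw')
  rcases e3a_gal hτ g with h1 | h1
  · rw [h1, one_smul] at hg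
    exact hne (HeightOneSpectrum.ext hg.symm)
  · rw [h1] at hg
    have hle : w'.asIdeal ≤ w.asIdeal := by
      intro x hx
      rw [hg, Ideal.mem_pointwise_smul_iff_inv_smul_mem] at hx
      have h2 := hcon _ hx
      rwa [smul_inv_smul] at h2
    exact hne (HeightOneSpectrum.ext (w'.isMaximal.eq_of_le w.isPrime.ne_top hle).symm)

/-- Chunk E3 (M). Port of H55K.TQ.quad_primes (RB1.lean; copy its proof: hQ.rank and τ from hQ). Additional claims. First case (two primes): if τ x were in w₁ for all x in w₁ then τ w₁ = w₁ (as ideals: w₁ ≤ τ⁻¹ w₁, maximal), so the group {1, τ} (2 elements, τ ≠ 1 because it is not the identity on F) fixes w₁, but it acts transitively on the primes above v (Ideal.exists_smul_eq_of_isGaloisGroup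
or Algebra.IsInvariant.exists_smul_of_under_eq): contradiction to w₁ ≠ w₂; the same for w₂. Second case: the inertia group of w₁ has ramificationIdx = 1 elements (H55P.cl_card; e f = 2 with f = 2), so τ is not in it. Third case: the inertia group has 2 elements, it is everything: hin in the proof of quad_primes. -/
theorem quad_primes' {τ : K ≃ₐ[K₀] K} (hτ : QT F K₀ K τ) (v : HeightOneSpectrum (𝓞 K₀)) :
    (∃ w₁ w₂ : HeightOneSpectrum (𝓞 K), w₁ ≠ w₂ ∧ Ideal.absNorm w₁.asIdeal = Ideal.absNorm v.asIdeal ∧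
      Ideal.absNorm w₂.asIdeal = Ideal.absNorm v.asIdeal ∧ (∃ x : 𝓞 K, x ∈ w₁.asIdeal ∧ τ • x ∉ w₁.asIdeal) ∧
      (∃ x : 𝓞 K, x ∈ w₂.asIdeal ∧ τ • x ∉ w₂.asIdeal) ∧
      ∀ w : HeightOneSpectrum (𝓞 K), v.asIdeal = w.asIdeal.under (𝓞 K₀) ↔ w = w₁ ∨ w = w₂) ∨
    (∃ w₁ : HeightOneSpectrum (𝓞 K), Ideal.absNorm w₁.asIdeal = Ideal.absNorm v.asIdeal ^ 2 ∧
      (∃ x : 𝓞 K, τ • x - x ∉ w₁.asIdeal) ∧
      ∀ w : HeightOneSpectrum (𝓞 K), v.asIdeal = w.asIdeal.under (𝓞 K₀) ↔ w = w₁) ∨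
    (∃ w₁ : HeightOneSpectrum (𝓞 K), (∀ x : 𝓞 K, τ • x - x ∈ w₁.asIdeal) ∧
      ∀ w : HeightOneSpectrum (𝓞 K), v.asIdeal = w.asIdeal.under (𝓞 K₀) ↔ w = w₁) := by
  have : Algebra.IsQuadraticExtension K₀ K := ⟨hτ.rank⟩
  have hgal : IsGalois K₀ K := inferInstance
  have hcardG : Nat.card Gal(K/K₀) = 2 := e3a_card hτ
  have hmax : v.asIdeal.IsMaximal := v.isMaximal
  have hid := Ideal.ncard_primesOver_mul_ramificationIdxIn_mul_inertiaDegIn v.asIdeal (𝓞 K) Gal(K/K₀)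
  rw [hcardG] at hid
  -- every prime above
  have hprime : ∀ P ∈ Ideal.primesOver v.asIdeal (𝓞 K), ∃ w : HeightOneSpectrum (𝓞 K), w.asIdeal = P := by
    rintro P ⟨hP1, hP2⟩
    refine ⟨⟨P, hP1, ?_⟩, rfl⟩
    exact Ideal.ne_bot_of_liesOver_of_ne_bot v.ne_bot P
  have hmem : ∀ w : HeightOneSpectrum (𝓞 K), v.asIdeal = w.asIdeal.under (𝓞 K₀) ↔
      w.asIdeal ∈ Ideal.primesOver v.asIdeal (𝓞 K) := by
    intro w
    constructor
    · intro h
      exact ⟨w.isPrime, ⟨h⟩⟩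
    · intro h
      exact h.2.over
  have hnorm : ∀ w : HeightOneSpectrum (𝓞 K), w.asIdeal ∈ Ideal.primesOver v.asIdeal (𝓞 K) →
      Ideal.absNorm w.asIdeal = Ideal.absNorm v.asIdeal ^ (Ideal.inertiaDegIn v.asIdeal (𝓞 K)) := by
    intro w hw
    have hlies : w.asIdeal.LiesOver v.asIdeal := hw.2
    have h3 := Ideal.absNorm_eq_pow_inertiaDeg'_of_liesOver w.asIdeal v.asIdeal v.isPrime v.ne_bot
    rw [Ideal.inertiaDeg'_algebraMap] at h3
    rw [h3, Ideal.inertiaDegIn_eq_inertiaDeg v.asIdeal w.asIdeal Gal(K/K₀),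
      Ideal.inertiaDeg_eq_of_isMaximal v.asIdeal w.asIdeal]
  have hcases : ((Ideal.primesOver v.asIdeal (𝓞 K)).ncard = 2 ∧ Ideal.inertiaDegIn v.asIdeal (𝓞 K) = 1) ∨
      ((Ideal.primesOver v.asIdeal (𝓞 K)).ncard = 1 ∧ Ideal.ramificationIdxIn v.asIdeal (𝓞 K) = 1 ∧
        Ideal.inertiaDegIn v.asIdeal (𝓞 K) = 2) ∨
      ((Ideal.primesOver v.asIdeal (𝓞 K)).ncard = 1 ∧ Ideal.ramificationIdxIn v.asIdeal (𝓞 K) = 2) := by
    generalize (Ideal.primesOver v.asIdeal (𝓞 K)).ncard = g at hid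
    generalize Ideal.ramificationIdxIn v.asIdeal (𝓞 K) = e at hid
    generalize Ideal.inertiaDegIn v.asIdeal (𝓞 K) = f at hid
    have h1 : g ∣ 2 := ⟨_, hid.symm⟩
    rcases (Nat.dvd_prime Nat.prime_two).1 h1 with h2 | h2
    · rw [h2, one_mul] at hid
      have h3 : e ∣ 2 := ⟨_, hid.symm⟩
      rcases (Nat.dvd_prime Nat.prime_two).1 h3 with h4 | h4
      · rw [h4, one_mul] at hid
        exact Or.inr (Or.inl ⟨h2, h4, hid⟩)
      · exact Or.inr (Or.inr ⟨h2, h4⟩)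
    · rw [h2] at hid
      have h3 : e * f = 1 := by omega
      exact Or.inl ⟨h2, Nat.eq_one_of_mul_eq_one_left h3⟩
  rcases hcases with ⟨hg, hf⟩ | ⟨hg, he, hf⟩ | ⟨hg, he⟩
  · left
    rw [Set.ncard_eq_two] at hg
    obtain ⟨P₁, P₂, hne, hP⟩ := hg
    obtain ⟨w₁, hw₁⟩ := hprime P₁ (by rw [hP]; exact Or.inl rfl)
    obtain ⟨w₂, hw₂⟩ := hprime P₂ (by rw [hP]; exact Or.inr rfl)
    have hne12 : w₁ ≠ w₂ := by
      rintro rfl
      exact hne (hw₁.symm.trans hw₂)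
    have hm1 : v.asIdeal = w₁.asIdeal.under (𝓞 K₀) := (hmem w₁).2 (by rw [hw₁, hP]; exact Or.inl rfl)
    have hm2 : v.asIdeal = w₂.asIdeal.under (𝓞 K₀) := (hmem w₂).2 (by rw [hw₂, hP]; exact Or.inr rfl)
    refine ⟨w₁, w₂, hne12, ?_, ?_, e3a_move hτ hm1 hm2 hne12, e3a_move hτ hm2 hm1 hne12.symm, ?_⟩
    · rw [hnorm w₁ (by rw [hw₁, hP]; exact Or.inl rfl), hf, pow_one]
    · rw [hnorm w₂ (by rw [hw₂, hP]; exact Or.inr rfl), hf, pow_one]
    · intro w
      rw [hmem, hP]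
      constructor
      · rintro (h | h)
        · exact Or.inl (HeightOneSpectrum.ext (h.trans hw₁.symm))
        · exact Or.inr (HeightOneSpectrum.ext (h.trans hw₂.symm))
      · rintro (h | h)
        · left; rw [h, hw₁]
        · right; rw [h, hw₂]; exact Set.mem_singleton _
  · right; left
    rw [Set.ncard_eq_one] at hg
    obtain ⟨P₁, hP⟩ := hg
    obtain ⟨w₁, hw₁⟩ := hprime P₁ (by rw [hP]; exact Set.mem_singleton _)
    refine ⟨w₁, ?_, ?_, ?_⟩
    · rw [hnorm w₁ (by rw [hw₁, hP]; exact Set.mem_singleton _), hf]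
    · by_contra hcon
      push Not at hcon
      have hw1mem : w₁.asIdeal ∈ Ideal.primesOver v.asIdeal (𝓞 K) := by
        rw [hw₁, hP]; exact Set.mem_singleton _
      have hlies : w₁.asIdeal.LiesOver v.asIdeal := hw1mem.2
      have hcard := H55P.cl_card (M := K₀) w₁.asIdeal w₁.ne_bot
      rw [← Ideal.ramificationIdxIn_eq_ramificationIdx v.asIdeal w₁.asIdeal Gal(K/K₀), he] at hcard
      have hbot := Subgroup.eq_bot_of_card_eq _ hcard
      have hin : τ ∈ w₁.asIdeal.inertia Gal(K/K₀) := hcon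
      rw [hbot, Subgroup.mem_bot] at hin
      exact e3a_ne hτ hin
    · intro w
      rw [hmem, hP, Set.mem_singleton_iff]
      constructor
      · intro h
        exact HeightOneSpectrum.ext (h.trans hw₁.symm)
      · intro h
        rw [h, hw₁]
  · right; right
    rw [Set.ncard_eq_one] at hg
    obtain ⟨P₁, hP⟩ := hg
    obtain ⟨w₁, hw₁⟩ := hprime P₁ (by rw [hP]; exact Set.mem_singleton _)
    refine ⟨w₁, ?_, ?_⟩
    · have hw1mem : w₁.asIdeal ∈ Ideal.primesOver v.asIdeal (𝓞 K) := by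
        rw [hw₁, hP]; exact Set.mem_singleton _
      have hlies : w₁.asIdeal.LiesOver v.asIdeal := hw1mem.2
      have hne0 : w₁.asIdeal ≠ ⊥ := w₁.ne_bot
      have hcard := H55P.cl_card (M := K₀) w₁.asIdeal w₁.ne_bot
      rw [← Ideal.ramificationIdxIn_eq_ramificationIdx v.asIdeal w₁.asIdeal Gal(K/K₀), he] at hcard
      have htop : w₁.asIdeal.inertia Gal(K/K₀) = ⊤ := by
        apply Subgroup.eq_top_of_card_eq
        rw [hcard, hcardG]
      intro x
      have hin : τ ∈ w₁.asIdeal.inertia Gal(K/K₀) := by rw [htop]; exact Subgroup.mem_top _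
      exact hin x
    · intro w
      rw [hmem, hP, Set.mem_singleton_iff]
      constructor
      · intro h
        exact HeightOneSpectrum.ext (h.trans hw₁.symm)
      · intro h
        rw [h, hw₁]

end H55G
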