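import Mathlib
import Pool.Agent.Lib.H55K.RB1
import Pool.Agent.Lib.H55K.BH
import Pool.Agent.Lib.H55G.D0
import Pool.Agent.Lib.H55G.E3a

/-! # H55G, part E: the primes of a quadratic extension -/

open NumberField IsDedekindDomain WeierstrassCurve

namespace H55G

open H55P (IQ embF eF LF Per IsHecke Pt ac Inert Dec Nm)
open H35P (WAB Ker GoodW IntW)
open H55K (CMA ak xc yc cj cj_cj GoodAt Abw)
open H55K.TQ

variable {F K₀ K : Type} [Field F] [NumberField F] [IQ F] [Field K₀] [NumberField K₀] [Field K] [NumberField K]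
  [Algebra F K] [Algebra K₀ K]

/-- Chunk E3 (S). g fixes K₀ and K is normal of degree 2 over K₀: g maps the image of K in Ω to itself (choose x in K not in K₀; x is a root of (T - x)(T - τ x), with coefficients in K₀, so g x = x or g x = τ x in Ω; K = K₀ + K₀ x). -/
theorem g_cases {τ : K ≃ₐ[K₀] K} (hτ : QT F K₀ K τ) {Ω : Type} [Field Ω] [Algebra K Ω] [Algebra K₀ Ω] [IsScalarTower K₀ K Ω]
    (g : Ω ≃+* Ω) (hg : ∀ x : K₀, g (algebraMap K₀ Ω x) = algebraMap K₀ Ω x) :
    (∀ x : K, g (algebraMap K Ω x) = algebraMap K Ω x) ∨ ∀ x : K, g (algebraMap K Ω x) = algebraMap K Ω (τ x) := by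
  have : Algebra.IsQuadraticExtension K₀ K := ⟨hτ.rank⟩
  have hgal : IsGalois K₀ K := inferInstance
  obtain ⟨a, ha⟩ := e3a_cj F
  have hn := H55K.mul_cj a
  set y : K := algebraMap F K (a : F) with hy
  set y' : K := algebraMap F K ((cj a : 𝓞 F) : F) with hy'
  have hty : τ y = y' := hτ.tau a
  have hty' : τ y' = y := by
    have h1 := hτ.tau (cj a)
    rw [H55K.cj_cj] at h1
    exact h1
  have hne : y - y' ≠ 0 := by
    intro h0
    apply ha
    have h2 : algebraMap F K (a : F) = algebraMap F K ((cj a : 𝓞 F) : F) := sub_eq_zero.1 h0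
    exact (RingOfIntegers.ext ((algebraMap F K).injective h2)).symm
  have hfix : ∀ z : K, τ z = z → ∃ α : K₀, algebraMap K₀ K α = z := by
    intro z hz
    have h1 : z ∈ (⊥ : IntermediateField K₀ K) := by
      rw [IsGalois.mem_bot_iff_fixed]
      intro f
      rcases e3a_gal hτ f with h2 | h2
      · rw [h2]; rfl
      · rw [h2]; exact hz
    exact IntermediateField.mem_bot.1 h1
  have hdec : ∀ z : K, ∃ α β : K₀, z = algebraMap K₀ K α + algebraMap K₀ K β * y := by
    intro z
    obtain ⟨β, hβ⟩ := hfix ((z - τ z) / (y - y')) (by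
      have h1 : τ (τ z) = z := by
        rcases e3a_gal hτ (τ * τ) with h2 | h2
        · exact congrArg (fun f : Gal(K/K₀) => f z) h2
        · exact absurd (mul_eq_left.1 h2) (e3a_ne hτ)
      rw [map_div₀, map_sub, map_sub, hty, hty', h1, ← neg_sub z, ← neg_sub y, neg_div_neg_eq])
    obtain ⟨α, hα⟩ := hfix (z - algebraMap K₀ K β * y) (by
      rw [map_sub, map_mul, hty, AlgEquiv.commutes, hβ]
      field_simp
      ring)
    exact ⟨α, β, by rw [hα, sub_add_cancel]⟩
  obtain ⟨α₀, hα₀⟩ := hfix (y + y') (by rw [map_add, hty, hty', add_comm])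
  obtain ⟨β₀, hβ₀⟩ := hfix (y * y') (by rw [map_mul, hty, hty', mul_comm])
  have hmap : ∀ α : K₀, algebraMap K Ω (algebraMap K₀ K α) = algebraMap K₀ Ω α := fun α =>
    (IsScalarTower.algebraMap_apply K₀ K Ω α).symm
  have hroot : (g (algebraMap K Ω y) - algebraMap K Ω y) * (g (algebraMap K Ω y) - algebraMap K Ω y') = 0 := by
    have h1 : y * y - (y + y') * y + y * y' = 0 := by ring
    rw [← hα₀, ← hβ₀] at h1
    have h2 := congrArg (fun z => g (algebraMap K Ω z)) h1
    simp only [map_add, map_sub, map_mul, hmap, hg, map_zero] at h2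
    have h3 : algebraMap K₀ Ω α₀ = algebraMap K Ω y + algebraMap K Ω y' := by
      rw [← hmap, hα₀, map_add]
    have h4 : algebraMap K₀ Ω β₀ = algebraMap K Ω y * algebraMap K Ω y' := by
      rw [← hmap, hβ₀, map_mul]
    rw [h3, h4] at h2
    linear_combination h2
  rcases mul_eq_zero.1 hroot with h1 | h1
  · left
    intro z
    obtain ⟨α, β, rfl⟩ := hdec z
    rw [map_add, map_mul, hmap, hmap, map_add, map_mul, hg, hg, sub_eq_zero.1 h1]
  · right
    intro z
    obtain ⟨α, β, rfl⟩ := hdec z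
    rw [map_add, map_mul, hmap, hmap, map_add, map_mul, hg, hg, sub_eq_zero.1 h1, map_add τ, map_mul τ, AlgEquiv.commutes,
      AlgEquiv.commutes, hty, map_add, map_mul, hmap, hmap]

end H55G
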