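import Mathlib
import Pool.Agent.Lib.H55G.E3
import Pool.Agent.Lib.H55G.E2
import Pool.Agent.Lib.H55K.RG

/-! # H55G, part E: the numbers of points in the quadratic extension -/

open NumberField IsDedekindDomain WeierstrassCurve

namespace H55G

open H55P (IQ embF eF LF Per IsHecke Pt ac Inert Dec Nm)
open H35P (WAB Ker GoodW IntW)
open H55K (CMA Tor TN ak xc yc cj cj_cj mul_cj Nm_cj Nm_mul Nm_nat acr xc_acr yc_acr acr_zero_iff acr_inj acr_eq_ac acr_trans GoodAt Abw)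
open H55K.MG (VC Crd)
open H55K.TQ

variable {F K₀ K : Type} [Field F] [NumberField F] [IQ F] [Field K₀] [NumberField K₀] [Field K] [NumberField K]
  [Algebra F K] [Algebra K₀ K] {τ : K ≃ₐ[K₀] K} {W : WeierstrassCurve ℤ} {Om : ℂ} {m : Ideal (𝓞 F)}
  {ψ : Ideal (𝓞 F) →*₀ 𝓞 F} {w : HeightOneSpectrum (𝓞 K)} {v : HeightOneSpectrum (𝓞 K₀)}

/-- Chunk E7 (S/M). A change of variables C which is good for W⁄K₀ at v is, mapped to K, good for W⁄K at w (as in good_up, RG.lean), and the two curves over Ω are equal ((C.map • (W⁄K))⁄Ω = (C • (W⁄K₀))⁄Ω: map_variableChange, map_map, scalar tower). -/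
theorem gc_up (hv : v.asIdeal = w.asIdeal.under (𝓞 K₀)) {C : VariableChange K₀} (hC : GC (W⁄K₀) v C) {Ω : Type} [Field Ω]
    [Algebra K₀ Ω] [Algebra K Ω] [IsScalarTower K₀ K Ω] : ∃ C' : VariableChange K, GC (W⁄K) w C' ∧ (C' • (W⁄K))⁄Ω = (C • (W⁄K₀))⁄Ω := by
  have ecur : W⁄K = (W⁄K₀).map (algebraMap K₀ K) := by
    show W.map (algebraMap ℤ K) = (W.map (algebraMap ℤ K₀)).map (algebraMap K₀ K)
    rw [WeierstrassCurve.map_map]
    congr 1
    exact Subsingleton.elim _ _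
  obtain ⟨h1, h2, h3, h4, h6, hD⟩ := hC
  obtain ⟨v', e, hv', he, hval⟩ := H55C.A4_glob (K := K₀) (N := K) w
  have hvv : v' = v := HeightOneSpectrum.ext (hv'.trans hv.symm)
  subst hvv
  have hle : ∀ z : K₀, v'.valuation K₀ z ≤ 1 → w.valuation K (algebraMap K₀ K z) ≤ 1 := by
    intro z hz
    rw [hval]
    exact pow_le_one' hz e
  have hC' : (C.map (algebraMap K₀ K)) • (W⁄K) = (C • (W⁄K₀)).map (algebraMap K₀ K) := by
    rw [ecur]
    exact WeierstrassCurve.map_variableChange _ _ _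
  refine ⟨C.map (algebraMap K₀ K), ?_, ?_⟩
  · unfold GC
    rw [hC']
    refine ⟨hle _ h1, hle _ h2, hle _ h3, hle _ h4, hle _ h6, ?_⟩
    rw [WeierstrassCurve.map_Δ, hval, hD, one_pow]
  · rw [hC']
    show ((C • (W⁄K₀)).map (algebraMap K₀ K)).map (algebraMap K Ω) = (C • (W⁄K₀)).map (algebraMap K₀ Ω)
    rw [WeierstrassCurve.map_map, ← IsScalarTower.algebraMap_eq]

/-- Chunk E7A (M). Ω = AlgebraicClosure K, setting as in good_desc (E6.lean): A, B, j, act from setup, V above w and above v, C good for W⁄K₀ at v, GD for W' = (C • (W⁄K₀))⁄Ω (exists_GD with vck_Z for k = K₀), g a Frobenius element over K₀ at V (exists_g: FrD K₀ V v g; IsAlgClosure K₀ Ω). g_cases: if g = τ on K then x in w implies V(x) < 1, V(g x) < 1 (fr_mem), τ • x in w: against hs. So g fixes K and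
FrD K V w g (absNorm w = absNorm v). hA, hB: fix_AB. Fx: u, r, s, t are images of elements of K₀. hK: acr_kg. NW_fr for k = K₀ (C, rfl) and for k = K (C' of gc_up) with the same GD and g: both numbers are the number of fixed points. -/
theorem nw_split (hH : BaseH F (W⁄(𝓞 F)) Om m ψ) (hτ : QT F K₀ K τ) (hv : v.asIdeal = w.asIdeal.under (𝓞 K₀))
    (hN : Ideal.absNorm w.asIdeal = Ideal.absNorm v.asIdeal) (hs : ∃ x : 𝓞 K, x ∈ w.asIdeal ∧ τ • x ∉ w.asIdeal)
    (hg : GoodAt (W⁄K₀) v) : NW (W⁄K) w = NW (W⁄K₀) v := by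
  classical
  have hfd : FiniteDimensional F K := Module.Finite.of_restrictScalars_finite ℚ F K
  have hfd' : FiniteDimensional K₀ K := Module.Finite.of_restrictScalars_finite ℚ K₀ K
  have hal : Algebra.IsAlgebraic F (AlgebraicClosure K) := Algebra.IsAlgebraic.trans F K (AlgebraicClosure K)
  have hal' : Algebra.IsAlgebraic K₀ (AlgebraicClosure K) := Algebra.IsAlgebraic.trans K₀ K (AlgebraicClosure K)
  have hcl : IsAlgClosure K₀ (AlgebraicClosure K) := ⟨inferInstance, hal'⟩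
  obtain ⟨V, hV⟩ := H55K.exists_abw (AlgebraicClosure K) w
  have hVv : Abw V v := hV.below (K := K₀) (HeightOneSpectrum.ext hv.symm)
  obtain ⟨A, B, j, act, hS, hd, hc⟩ := setup hH (AlgebraicClosure K)
  obtain ⟨C, hC⟩ := (good_iff _ _).1 hg
  obtain ⟨u, r, s, t, Θ, Kg, hGD⟩ := exists_GD hd hVv (vck_Z hS) hC
  obtain ⟨g, hfr⟩ := exists_g hVv
  have hq : 0 < Ideal.absNorm v.asIdeal := lt_trans one_pos (H55K.DD.d6_one_lt v)
  have hgfix : ∀ x : K, g (algebraMap K (AlgebraicClosure K) x) = algebraMap K (AlgebraicClosure K) x := by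
    rcases g_cases hτ g hfr.fix with h | h
    · exact h
    · exfalso
      obtain ⟨x, hx, hx'⟩ := hs
      have h1 : V.valuation (algebraMap K (AlgebraicClosure K) (x : K)) < 1 :=
        (hV.lt _).2 ((w.valuation_lt_one_iff_mem x).2 hx)
      have h2 := ((fr_mem hq hfr.frob _).2).2 h1
      rw [h] at h2
      exact hx' ((w.valuation_lt_one_iff_mem (τ • x)).1 ((hV.lt _).1 h2))
  obtain ⟨hA, hB⟩ := fix_AB hS g
  have hFx : Fx g (algebraMap K₀ (AlgebraicClosure K) u) (algebraMap K₀ (AlgebraicClosure K) r)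
      (algebraMap K₀ (AlgebraicClosure K) s) (algebraMap K₀ (AlgebraicClosure K) t) :=
    ⟨hfr.fix u, hfr.fix r, hfr.fix s, hfr.fix t⟩
  have hK : ∀ P ∈ Kg, acr g hA hB P ∈ Kg := fun P hP => (acr_kg hGD hFx hq hfr.frob P).2 hP
  have e1 := NW_fr hfr (hA := hA) (hB := hB) hC rfl hGD hFx hK
  obtain ⟨C', hC', hCe⟩ := gc_up (Ω := AlgebraicClosure K) hv hC
  have hfr' : FrD K V w g := ⟨hV, hgfix, by rw [hN]; exact hfr.frob⟩
  have e2 := NW_fr hfr' (hA := hA) (hB := hB) hC' hCe.symm hGD hFx hK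
  rw [e1, e2]

end H55G
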