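import Mathlib
import Pool.Agent.Lib.H55G.E3
import Pool.Agent.Lib.H55G.E2
import Pool.Agent.Lib.H55K.RG
import Pool.Agent.Lib.H55G.E7a

/-! # H55G, part E: the numbers of points in the quadratic extension -/

open NumberField IsDedekindDomain WeierstrassCurve

namespace H55G

open H55P (IQ embF eF LF Per IsHecke Pt ac Inert Dec Nm)
open H35P (WAB Ker GoodW IntW)
open H55K (CMA Tor TN ak xc yc cj cj_cj mul_cj Nm_cj Nm_mul Nm_nat acr xc_acr yc_acr acr_zero_iff acr_inj acr_eq_ac acr_trans GoodAt Abw)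
open H55K.MG (VC Crd)
open H55K.TQ

variable {F K₀ K : Type} [Field F] [NumberField F] [IQ F] [Field K₀] [NumberField K₀] [Field K] [NumberField K]
  [Algebra F K] [Algebra K₀ K] {τ : K ≃ₐ[K₀] K} {W : WeierstrassCurve ℤ} {Om : ℂ} {m : Ideal (𝓞 F)}
  {ψ : Ideal (𝓞 F) →*₀ 𝓞 F} {w : HeightOneSpectrum (𝓞 K)} {v : HeightOneSpectrum (𝓞 K₀)}

omit [NumberField K₀] in
theorem e7b_count {q : ℕ} (hq : 1 < q) (hN : Ideal.absNorm w.asIdeal = q ^ 2) (h : ∀ x : 𝓞 K, x ^ q - x ∈ w.asIdeal) : False := by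
  classical
  have hmax : w.asIdeal.IsMaximal := w.isMaximal
  let _ := Ideal.Quotient.field w.asIdeal
  have hcard : Nat.card (𝓞 K ⧸ w.asIdeal) = q ^ 2 := hN
  have hpos : 0 < Nat.card (𝓞 K ⧸ w.asIdeal) := by rw [hcard]; positivity
  have hfin : Finite (𝓞 K ⧸ w.asIdeal) := (Nat.card_pos_iff.1 hpos).2
  have hft : Fintype (𝓞 K ⧸ w.asIdeal) := Fintype.ofFinite _
  have hne : (Polynomial.X ^ q - Polynomial.X : Polynomial (𝓞 K ⧸ w.asIdeal)) ≠ 0 :=
    FiniteField.X_pow_card_sub_X_ne_zero _ hq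
  have hdeg : (Polynomial.X ^ q - Polynomial.X : Polynomial (𝓞 K ⧸ w.asIdeal)).natDegree = q :=
    FiniteField.X_pow_card_sub_X_natDegree_eq _ hq
  have hsub : (Finset.univ : Finset (𝓞 K ⧸ w.asIdeal)).val ⊆
      (Polynomial.X ^ q - Polynomial.X : Polynomial (𝓞 K ⧸ w.asIdeal)).roots := by
    intro y _
    rw [Polynomial.mem_roots hne, Polynomial.IsRoot.def, Polynomial.eval_sub, Polynomial.eval_pow, Polynomial.eval_X]
    obtain ⟨x, rfl⟩ := Ideal.Quotient.mk_surjective y
    rw [← map_pow, ← map_sub]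
    exact Ideal.Quotient.eq_zero_iff_mem.2 (h x)
  have h1 := Polynomial.card_le_degree_of_subset_roots hsub
  rw [hdeg, Finset.card_univ, ← Nat.card_eq_fintype_card, hcard] at h1
  nlinarith

/-- Chunk E7B (M). The same setting. q = absNorm v. g is not the identity on K: otherwise for all x in 𝓞 K: V(x^q - x) < 1 (hfr.frob, x in V), x^q - x in w; the residue field of w would have at most q elements (roots of T^q - T), but it has q^2 > q. So g = τ on K (g_cases) and g (ak a) = ak (cj a) (hτ.tau; ak a is the image of an element of K). e_all (E1.lean), second claim, for k = K₀: NW (W⁄K₀) v = q + 1 and the number of the c with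
φ (φ c) = c is (q + 1)^2. g₂ = g.trans g satisfies FrD K V w g₂: it fixes K (τ (τ x) = x), and V(g (g x) - x^(q^2)) < 1 for x in V: g (g x) - (g x)^q and (g x)^q - (x^q)^q have value < 1 (fr_mem: g x in V; a^q - b^q is divisible by a - b). NW_fr for k = K, C' of gc_up, g₂: NW (W⁄K) w is the number of fixed points of qmap (acr g₂), and qmap (acr g₂) c = φ (φ c) (acr_trans; classes of points). -/
theorem nw_inert (hH : BaseH F (W⁄(𝓞 F)) Om m ψ) (hτ : QT F K₀ K τ) (hv : v.asIdeal = w.asIdeal.under (𝓞 K₀))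
    (hN : Ideal.absNorm w.asIdeal = Ideal.absNorm v.asIdeal ^ 2) (hg : GoodAt (W⁄K₀) v) :
    NW (W⁄K₀) v = Ideal.absNorm v.asIdeal + 1 ∧ NW (W⁄K) w = (Ideal.absNorm v.asIdeal + 1) ^ 2 := by
  classical
  have hfd : FiniteDimensional F K := Module.Finite.of_restrictScalars_finite ℚ F K
  have hfd' : FiniteDimensional K₀ K := Module.Finite.of_restrictScalars_finite ℚ K₀ K
  have hal : Algebra.IsAlgebraic F (AlgebraicClosure K) := Algebra.IsAlgebraic.trans F K (AlgebraicClosure K)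
  have hal' : Algebra.IsAlgebraic K₀ (AlgebraicClosure K) := Algebra.IsAlgebraic.trans K₀ K (AlgebraicClosure K)
  have hcl : IsAlgClosure K₀ (AlgebraicClosure K) := ⟨inferInstance, hal'⟩
  obtain ⟨V, hV⟩ := H55K.exists_abw (AlgebraicClosure K) w
  have hVv : Abw V v := hV.below (K := K₀) (HeightOneSpectrum.ext hv.symm)
  obtain ⟨A, B, j, act, hS, hd, hc⟩ := setup hH (AlgebraicClosure K)
  obtain ⟨C, hC⟩ := (good_iff _ _).1 hg
  obtain ⟨u, r, s, t, Θ, Kg, hGD⟩ := exists_GD hd hVv (vck_Z hS) hC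
  obtain ⟨g, hfr⟩ := exists_g hVv
  have hq1 : 1 < Ideal.absNorm v.asIdeal := H55K.DD.d6_one_lt v
  have hq : 0 < Ideal.absNorm v.asIdeal := lt_trans one_pos hq1
  have hnt : ¬ ∀ x : K, g (algebraMap K (AlgebraicClosure K) x) = algebraMap K (AlgebraicClosure K) x := by
    intro h
    refine e7b_count hq1 hN fun x => ?_
    have hxV : algebraMap K (AlgebraicClosure K) (x : K) ∈ V :=
      (hV _).2 (w.valuation_le_one x)
    have h2 := hfr.frob _ hxV
    rw [h, ← map_pow, ← map_sub] at h2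
    have h3 := (hV.lt _).1 h2
    have h4 : x - x ^ Ideal.absNorm v.asIdeal ∈ w.asIdeal := by
      refine (w.valuation_lt_one_iff_mem (K := K) (x - x ^ Ideal.absNorm v.asIdeal)).1 ?_
      exact h3
    have h5 := w.asIdeal.neg_mem h4
    rwa [neg_sub] at h5
  have hτg : ∀ x : K, g (algebraMap K (AlgebraicClosure K) x) = algebraMap K (AlgebraicClosure K) (τ x) := by
    rcases g_cases hτ g hfr.fix with h | h
    · exact absurd h hnt
    · exact h
  obtain ⟨hA, hB⟩ := fix_AB hS g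
  have hFx : Fx g (algebraMap K₀ (AlgebraicClosure K) u) (algebraMap K₀ (AlgebraicClosure K) r)
      (algebraMap K₀ (AlgebraicClosure K) s) (algebraMap K₀ (AlgebraicClosure K) t) :=
    ⟨hfr.fix u, hfr.fix r, hfr.fix s, hfr.fix t⟩
  have hK : ∀ P ∈ Kg, acr g hA hB P ∈ Kg := fun P hP => (acr_kg hGD hFx hq hfr.frob P).2 hP
  have hanti : ∀ a : 𝓞 F, g (ak (AlgebraicClosure K) a) = ak (AlgebraicClosure K) (cj a) := by
    intro a
    have h1 : ∀ b : 𝓞 F, ak (AlgebraicClosure K) b = algebraMap K (AlgebraicClosure K) (algebraMap F K (b : F)) := by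
      intro b
      exact IsScalarTower.algebraMap_apply F K (AlgebraicClosure K) (b : F)
    rw [h1, h1, hτg, hτ.tau]
  obtain ⟨e1, e2⟩ := (e_all hc hfr (hA := hA) (hB := hB) hC rfl hGD hFx hK).2.1 hanti
  refine ⟨e1, ?_⟩
  -- the square of g
  have hττ : ∀ x : K, τ (τ x) = x := by
    intro x
    rcases e3a_gal hτ (τ * τ) with h2 | h2
    · exact congrArg (fun f : Gal(K/K₀) => f x) h2
    · exact absurd (mul_eq_left.1 h2) (e3a_ne hτ)
  have hfr2 : FrD K V w (g.trans g) := by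
    refine ⟨hV, fun x => ?_, fun x hx => ?_⟩
    · show g (g (algebraMap K (AlgebraicClosure K) x)) = _
      rw [hτg, hτg, hττ]
    · show V.valuation (g (g x) - x ^ Ideal.absNorm w.asIdeal) < 1
      rw [hN]
      have hxle : V.valuation x ≤ 1 := (V.valuation_le_one_iff _).2 hx
      have hgle : V.valuation (g x) ≤ 1 := ((fr_mem hq hfr.frob x).1).2 hxle
      have hgV : g x ∈ V := (V.valuation_le_one_iff _).1 hgle
      have h1 := hfr.frob _ hgV
      have h2 : V.valuation (g x ^ Ideal.absNorm v.asIdeal - (x ^ Ideal.absNorm v.asIdeal) ^ Ideal.absNorm v.asIdeal) < 1 := by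
        obtain ⟨c, hc'⟩ := sub_dvd_pow_sub_pow (⟨g x, hgV⟩ : V) ⟨x ^ Ideal.absNorm v.asIdeal, V.pow_mem hx _⟩
          (Ideal.absNorm v.asIdeal)
        have h3 := congrArg (fun z : V => (z : AlgebraicClosure K)) hc'
        have h4 : g x ^ Ideal.absNorm v.asIdeal - (x ^ Ideal.absNorm v.asIdeal) ^ Ideal.absNorm v.asIdeal =
            (g x - x ^ Ideal.absNorm v.asIdeal) * (c : AlgebraicClosure K) := h3
        rw [h4, map_mul]
        exact mul_lt_one_of_lt_of_le (hfr.frob x hx) ((V.valuation_le_one_iff _).2 c.2)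
      have h5 : g (g x) - x ^ Ideal.absNorm v.asIdeal ^ 2 = (g (g x) - g x ^ Ideal.absNorm v.asIdeal) +
          (g x ^ Ideal.absNorm v.asIdeal - (x ^ Ideal.absNorm v.asIdeal) ^ Ideal.absNorm v.asIdeal) := by
        rw [← pow_mul, sq]
        ring
      rw [h5]
      exact lt_of_le_of_lt (V.valuation.map_add _ _) (max_lt h1 h2)
  obtain ⟨hA2, hB2⟩ := fix_AB hS (g.trans g)
  obtain ⟨C', hC', hCe⟩ := gc_up (Ω := AlgebraicClosure K) hv hC
  have hFx2 : Fx (g.trans g) (algebraMap K₀ (AlgebraicClosure K) u) (algebraMap K₀ (AlgebraicClosure K) r)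
      (algebraMap K₀ (AlgebraicClosure K) s) (algebraMap K₀ (AlgebraicClosure K) t) := by
    have h : ∀ z : K₀, (g.trans g) (algebraMap K₀ (AlgebraicClosure K) z) = algebraMap K₀ (AlgebraicClosure K) z := by
      intro z
      show g (g (algebraMap K₀ (AlgebraicClosure K) z)) = _
      rw [hfr.fix, hfr.fix]
    exact ⟨h u, h r, h s, h t⟩
  have htr : ∀ P, acr g hA hB (acr g hA hB P) = acr (g.trans g) hA2 hB2 P :=
    fun P => acr_trans g g hA hB hA hB hA2 hB2 P
  have hK2 : ∀ P ∈ Kg, acr (g.trans g) hA2 hB2 P ∈ Kg := by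
    intro P hP
    rw [← htr]
    exact hK _ (hK P hP)
  have e3 := NW_fr hfr2 (hA := hA2) (hB := hB2) hC' hCe.symm hGD hFx2 hK2
  rw [e3, ← e2]
  refine Nat.card_congr (Equiv.subtypeEquivRight fun c => ?_)
  have h6 : qmap Kg (acr (g.trans g) hA2 hB2) hK2 c = qmap Kg (acr g hA hB) hK (qmap Kg (acr g hA hB) hK c) := by
    induction c using QuotientAddGroup.induction_on with
    | H P =>
      exact congrArg (fun z : Pt (WAB A B) (AlgebraicClosure K) => (z : Pt (WAB A B) (AlgebraicClosure K) ⧸ Kg)) (htr P).symm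
  rw [h6]


end H55G
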