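import Mathlib
import Pool.Agent.Lib.H55G.E2
import Pool.Agent.Lib.H55G.E7

/-! # H55G, part E: the Hasse bound over all number fields -/

open NumberField IsDedekindDomain WeierstrassCurve

namespace H55G

open H55P (IQ embF eF LF Per IsHecke Pt ac Inert Dec Nm PsiP mK UnitP UnrP)
open H35P (WAB Ker GoodW IntW)
open H55K (CMA Tor TN ak xc yc cj cj_cj mul_cj Nm_cj Nm_mul Nm_nat GoodAt Abw)
open H55K.DD (LF' ef)
open H55K.MG (VC Crd)
open H55K.TQ

variable {F : Type} [Field F] [NumberField F] [IQ F] {W : WeierstrassCurve ℤ} {Om : ℂ} {m : Ideal (𝓞 F)}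
  {ψ : Ideal (𝓞 F) →*₀ 𝓞 F}

/-- Chunk E2C (M). As hasse_F (E2.lean), for any number field k: Ω = AlgebraicClosure k, an embedding of F in Ω (Ω is algebraically closed of characteristic 0 and F is algebraic over ℚ: IsAlgClosed.lift over ℚ) gives Algebra F Ω; Ω is algebraic over ℚ, so over F. setup, exists_abw, exists_GD with vck_Z, exists_g (IsAlgClosure k Ω), fix_AB, Fx, acr_kg, e_all (first claim). -/
theorem hasse_Z (hH : BaseH F (W⁄(𝓞 F)) Om m ψ) (k : Type) [Field k] [NumberField k] (w : HeightOneSpectrum (𝓞 k))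
    (hg : GoodAt (W⁄k) w) : ((Ideal.absNorm w.asIdeal : ℤ) + 1 - (NW (W⁄k) w : ℤ)) ^ 2 ≤ 4 * Ideal.absNorm w.asIdeal := by
  classical
  let _ : Algebra F (AlgebraicClosure k) := (IsAlgClosed.lift : F →ₐ[ℚ] AlgebraicClosure k).toRingHom.toAlgebra
  have hal0 : Algebra.IsAlgebraic ℚ (AlgebraicClosure k) := Algebra.IsAlgebraic.trans ℚ k _
  have hal : Algebra.IsAlgebraic F (AlgebraicClosure k) := Algebra.IsAlgebraic.tower_top (K := ℚ) F
  obtain ⟨A, B, j, act, hS, hd, h⟩ := setup hH (AlgebraicClosure k)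
  obtain ⟨V, hV⟩ := H55K.exists_abw (AlgebraicClosure k) w
  obtain ⟨C, hC⟩ := (good_iff _ _).1 hg
  obtain ⟨u, r, s, t, Θ, Kg, hG⟩ := exists_GD hd hV (vck_Z hS) hC
  obtain ⟨g, hfr⟩ := exists_g hV
  obtain ⟨hA, hB⟩ := fix_AB hS g
  have hFx : Fx g (algebraMap k _ u) (algebraMap k _ r) (algebraMap k _ s) (algebraMap k _ t) :=
    ⟨hfr.fix u, hfr.fix r, hfr.fix s, hfr.fix t⟩
  obtain ⟨l, f, hl, hf, hq, -⟩ := exists_l hV
  have hq0 : 0 < Ideal.absNorm w.asIdeal := by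
    rw [hq]
    exact pow_pos hl.pos _
  have hK : ∀ P ∈ Kg, H55K.acr g hA hB P ∈ Kg := fun P hP => (acr_kg hG hFx hq0 hfr.frob P).2 hP
  exact (e_all h hfr hC rfl hG hFx hK).1

end H55G
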