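import Mathlib
import Pool.Agent.Lib.H55G.E2
import Pool.Agent.Lib.H55G.E7
import Pool.Agent.Lib.H55G.E2Ca

/-! # H55G, part E: the Hasse bound over all number fields -/

open NumberField IsDedekindDomain WeierstrassCurve

namespace H55G

open H55P (IQ embF eF LF Per IsHecke Pt ac Inert Dec Nm PsiP mK UnitP UnrP)
open H35P (WAB Ker GoodW IntW)
open H55K (CMA Tor TN ak xc yc cj cj_cj mul_cj Nm_cj Nm_mul Nm_nat GoodAt Abw)
open H55K.DD (LF' ef)
open H55K.MG (VC Crd)
open H55K.TQ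

variable {F : Type} [Field F] [NumberField F] [IQ F] {W : WeierstrassCurve ℤ} {Om : ℂ} {m : Ideal (𝓞 F)}
  {ψ : Ideal (𝓞 F) →*₀ 𝓞 F}

theorem e2cb_norm {k K : Type} [Field k] [NumberField k] [Field K] [NumberField K] [Algebra k K]
    (hs : Function.Surjective (algebraMap k K)) {v : HeightOneSpectrum (𝓞 k)} {w : HeightOneSpectrum (𝓞 K)}
    (hv : v.asIdeal = w.asIdeal.under (𝓞 k)) : Ideal.absNorm w.asIdeal = Ideal.absNorm v.asIdeal := by
  have h1 : Function.Surjective (algebraMap (𝓞 k) (𝓞 K)) := by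
    intro y
    obtain ⟨x, hx⟩ := hs (y : K)
    have h2 : IsIntegral ℤ x := by
      have h3 : IsIntegral ℤ (algebraMap k K x) := by
        rw [hx]
        exact RingOfIntegers.isIntegral_coe y
      exact (isIntegral_algebraMap_iff (algebraMap k K).injective).1 h3
    exact ⟨⟨x, h2⟩, RingOfIntegers.ext hx⟩
  have h2 : Function.Injective (algebraMap (𝓞 k) (𝓞 K)) := RingOfIntegers.algebraMap.injective k K
  have h3 : w.asIdeal = v.asIdeal.map (RingEquiv.ofBijective (algebraMap (𝓞 k) (𝓞 K)) ⟨h2, h1⟩ : 𝓞 k →+* 𝓞 K) := by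
    rw [hv]
    exact (Ideal.map_comap_of_surjective _ h1 w.asIdeal).symm
  have e := Ideal.quotientEquiv v.asIdeal w.asIdeal (RingEquiv.ofBijective (algebraMap (𝓞 k) (𝓞 K)) ⟨h2, h1⟩) h3
  rw [Ideal.absNorm_apply, Ideal.absNorm_apply, Submodule.cardQuot_apply, Submodule.cardQuot_apply]
  exact Nat.card_congr e.toEquiv.symm

/-- Chunk E2C (S/M). k → K an isomorphism, w the prime of K above v: absNorm w = absNorm v, and everything is transported. Proof by the Frobenius element: Ω = AlgebraicClosure K (Algebra k Ω by composition, tower), F embedded in Ω as in hasse_Z; V above w, so above v; g Frobenius over k at V (exists_g), it fixes K (hs), so FrD K V w g (absNorm w = absNorm v: 𝓞 k → 𝓞 K is an isomorphism; e.g. H55K.TQ.re_absNorm or inertia degree 1); C good for W⁄k at v; gc_up (E7.lean); NW_fr twice, as in nw_split (E7.lean).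
(Only Sh (W⁄(𝓞 F)) A B and 4 A^3 + 27 B^2 ≠ 0 from setup are used.) -/
theorem nw_iso (hH : BaseH F (W⁄(𝓞 F)) Om m ψ) {k K : Type} [Field k] [NumberField k] [Field K] [NumberField K] [Algebra k K]
    (hs : Function.Surjective (algebraMap k K)) {v : HeightOneSpectrum (𝓞 k)} {w : HeightOneSpectrum (𝓞 K)}
    (hv : v.asIdeal = w.asIdeal.under (𝓞 k)) (hg : GoodAt (W⁄k) v) : NW (W⁄K) w = NW (W⁄k) v := by
  classical
  let e : F →ₐ[ℚ] AlgebraicClosure K := IsAlgClosed.lift
  let _ : Algebra F (AlgebraicClosure K) := e.toRingHom.toAlgebra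
  have htw : IsScalarTower ℚ F (AlgebraicClosure K) := IsScalarTower.of_algebraMap_eq fun x => (e.commutes x).symm
  have halgQ : Algebra.IsAlgebraic ℚ (AlgebraicClosure K) := Algebra.IsAlgebraic.trans ℚ K (AlgebraicClosure K)
  have halg : Algebra.IsAlgebraic F (AlgebraicClosure K) := Algebra.IsAlgebraic.tower_top (K := ℚ) F
  have halgk : Algebra.IsAlgebraic k (AlgebraicClosure K) := Algebra.IsAlgebraic.tower_top (K := ℚ) k
  have hcl : IsAlgClosure k (AlgebraicClosure K) := ⟨inferInstance, inferInstance⟩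
  obtain ⟨A, B, j, act, hS, hd, hC⟩ := setup hH (AlgebraicClosure K)
  obtain ⟨V, hV⟩ := H55K.exists_abw (AlgebraicClosure K) w
  have hwv : w.under (𝓞 k) = v := HeightOneSpectrum.ext hv.symm
  have hVv : Abw V v := hV.below hwv
  obtain ⟨C, hCg⟩ := (good_iff _ v).1 hg
  obtain ⟨u, r, s, t, Θ, Kg, hG⟩ := exists_GD hd hVv (vck_Z hS) hCg
  obtain ⟨g, hfr⟩ := exists_g hVv
  obtain ⟨hA, hB⟩ := fix_AB hS g
  have hgx : Fx g (algebraMap k (AlgebraicClosure K) u) (algebraMap k (AlgebraicClosure K) r)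
      (algebraMap k (AlgebraicClosure K) s) (algebraMap k (AlgebraicClosure K) t) :=
    ⟨hfr.fix _, hfr.fix _, hfr.fix _, hfr.fix _⟩
  have hq : 0 < Ideal.absNorm v.asIdeal := Nat.pos_of_ne_zero fun h => v.ne_bot (Ideal.absNorm_eq_zero_iff.1 h)
  have hfrw : FrD K V w g := by
    refine ⟨hV, fun x => ?_, ?_⟩
    · obtain ⟨y, rfl⟩ := hs x
      rw [← IsScalarTower.algebraMap_apply k K (AlgebraicClosure K)]
      exact hfr.fix y
    · rw [e2cb_norm hs hv]
      exact hfr.frob
  obtain ⟨C', hC', hCC⟩ := gc_up (K₀ := k) (K := K) hv hCg (Ω := AlgebraicClosure K)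
  have hK : ∀ P ∈ Kg, H55K.acr g hA hB P ∈ Kg := fun P hP => (acr_kg hG hgx hq hfr.frob P).2 hP
  rw [NW_fr hfrw hC' hCC.symm hG hgx hK, NW_fr hfr hCg rfl hG hgx hK]

end H55G
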