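import Mathlib
import Pool.Agent.Lib.H55G.E2
import Pool.Agent.Lib.H55K.RF
import Pool.Agent.Lib.H55K.T1

/-! # H55G, part E: inertia acts trivially at primes of good reduction -/

open NumberField IsDedekindDomain WeierstrassCurve

namespace H55G

open H55P (IQ embF eF LF Per IsHecke Pt ac Inert Dec Nm)
open H35P (WAB Ker GoodW IntW)
open H55K (CMA Tor TN ak xc yc cj cj_cj mul_cj Nm_cj Nm_mul Nm_nat acr xc_acr yc_acr acr_zero_iff acr_inj acr_eq_ac acr_trans GoodAt Abw)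
open H55K.MG (VC Crd)
open H55K.TQ

/-- Helper: the statement for a curve over k. -/
theorem e5_fix {k : Type} [Field k] [NumberField k] {Ω : Type} [Field Ω] [DecidableEq Ω] [Algebra k Ω] {A₀ B₀ : k}
    (hΔ : (WAB A₀ B₀).Δ ≠ 0) {V : ValuationSubring Ω} (E : WeierstrassCurve Ω) (hE : E = (WAB A₀ B₀)⁄Ω)
    (hG : GMd E V (Set.range (algebraMap k Ω))) (g : Ω ≃ₐ[k] Ω) (hg : ∀ x ∈ V, V.valuation (g x - x) < 1) {n : ℕ}
    (hn : V.valuation (n : Ω) = 1) (T : E.toAffine.Point) (hT : n • T = 0) : g (xc T) = xc T ∧ g (yc T) = yc T := by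
  subst hE
  have h0 : ac (WAB A₀ B₀) g T = T := inert_triv hΔ hG g (by
    rintro _ ⟨x, rfl⟩
    exact g.commutes x) hg n hn T hT
  have h1 := H55K.MG.ac_crd g T
  rw [h0] at h1
  exact ⟨h1.1.symm, h1.2.1.symm⟩

/-- Chunk E5 (M). Let A₀, B₀ be the rational numbers -c₄/48, -c₆/864: (WAB A₀ B₀)⁄Ω = (WAB A B)⁄Ω (cf. rf_fix, hram_of in H55K/RF.lean). Ω is a ℚ-algebra and s is ℚ-linear. GMd ((WAB A₀ B₀)⁄Ω) V (range of algebraMap k Ω): vck_Z composed with C, gc_good, as in exists_GD (D2.lean; exists_GD gives u, r, s, t in k, but only the statement on the points;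
repeat its first part: VC ((WAB A B)⁄Ω) ((C • (W⁄k))⁄Ω) with coefficients in the image of k). H55K.TQ.inert_triv (T1.lean) for F = ℚ, W = WAB A₀ B₀, the set M = range (algebraMap k Ω), fixed by s, and the point T transported to Pt (WAB A₀ B₀) Ω (equal curves: generalize the curve and subst, as rf_fix does with E, hE); coordinates: MG.ac_crd. -/
theorem inert_trivZ {F : Type} [Field F] [NumberField F] [IQ F] {W : WeierstrassCurve ℤ} (hΔ : W.Δ ≠ 0) {A B : F} (hS : Sh (W⁄(𝓞 F)) A B)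
    {k : Type} [Field k] [NumberField k] {Ω : Type} [Field Ω] [DecidableEq Ω] [Algebra F Ω] [Algebra k Ω]
    {w : HeightOneSpectrum (𝓞 k)} (hg : GoodAt (W⁄k) w) {V : ValuationSubring Ω} (hV : Abw V w) (s : Ω ≃+* Ω)
    (hs : ∀ x : k, s (algebraMap k Ω x) = algebraMap k Ω x) (hI : ∀ x ∈ V, V.valuation (s x - x) < 1) {n : ℕ}
    (hn : V.valuation (n : Ω) = 1) {T : Pt (WAB A B) Ω} (hT : n • T = 0) : s (xc T) = xc T ∧ s (yc T) = yc T := by
  have hc4 : (W⁄k).c₄ = (W.c₄ : k) := W.map_c₄ _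
  have hc6 : (W⁄k).c₆ = (W.c₆ : k) := W.map_c₆ _
  have hc4F : algebraMap (𝓞 F) F (W⁄(𝓞 F)).c₄ = (W.c₄ : F) := by
    have e1 : (W⁄(𝓞 F)).c₄ = algebraMap ℤ (𝓞 F) W.c₄ := W.map_c₄ _
    rw [e1]
    simp
  have hc6F : algebraMap (𝓞 F) F (W⁄(𝓞 F)).c₆ = (W.c₆ : F) := by
    have e1 : (W⁄(𝓞 F)).c₆ = algebraMap ℤ (𝓞 F) W.c₆ := W.map_c₆ _
    rw [e1]
    simp
  obtain ⟨A₀, hA₀⟩ : ∃ A₀ : k, A₀ = -(W⁄k).c₄ / 48 := ⟨_, rfl⟩
  obtain ⟨B₀, hB₀⟩ : ∃ B₀ : k, B₀ = -(W⁄k).c₆ / 864 := ⟨_, rfl⟩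
  have eA : algebraMap F Ω A = algebraMap k Ω A₀ := by
    rw [hS.hA, hA₀, hc4, hc4F, map_div₀, map_div₀, map_neg, map_neg, map_intCast, map_intCast, map_ofNat, map_ofNat]
  have eB : algebraMap F Ω B = algebraMap k Ω B₀ := by
    rw [hS.hB, hB₀, hc6, hc6F, map_div₀, map_div₀, map_neg, map_neg, map_intCast, map_intCast, map_ofNat, map_ofNat]
  have hE : (WAB A B)⁄Ω = (WAB A₀ B₀)⁄Ω := by
    ext <;> simp [WAB, WeierstrassCurve.map, WeierstrassCurve.baseChange, eA, eB]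
  have hΔ₀ : (WAB A₀ B₀).Δ ≠ 0 := by
    have h1 := (W⁄k).c_relation
    have h2 : (WAB A₀ B₀).Δ = -16 * (4 * A₀ ^ 3 + 27 * B₀ ^ 2) := by
      simp only [WAB, WeierstrassCurve.Δ, WeierstrassCurve.b₂, WeierstrassCurve.b₄, WeierstrassCurve.b₆, WeierstrassCurve.b₈]
      ring
    have h3 : (WAB A₀ B₀).Δ = (W⁄k).Δ := by
      rw [h2, hA₀, hB₀]
      linear_combination (-1 / 1728 : k) * h1
    have h4 : (W⁄k).Δ = (W.Δ : k) := W.map_Δ _
    rw [h3, h4]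
    exact_mod_cast hΔ
  obtain ⟨C, hC⟩ := (good_iff (W⁄k) w).1 hg
  obtain ⟨u₁, r₁, s₁, t₁, hvc⟩ := vck_Z (k := k) (Ω := Ω) hS
  have hG : GMd ((WAB A B)⁄Ω) V (Set.range (algebraMap k Ω)) := by
    have hcomp := vc_comp hvc (vc_map (algebraMap k Ω) (vc_smul (W⁄k) C))
    have hm : ∀ x : k, algebraMap k Ω x ∈ (algebraMap k Ω).fieldRange := fun x => ⟨x, rfl⟩
    refine ⟨_, _, _, _, _, ?_, ?_, ?_, ?_, hcomp, gc_good hV hC⟩
    · exact mul_mem (hm _) (hm _)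
    · exact add_mem (mul_mem (pow_mem (hm _) 2) (hm _)) (hm _)
    · exact add_mem (mul_mem (hm _) (hm _)) (hm _)
    · exact add_mem (add_mem (mul_mem (pow_mem (hm _) 3) (hm _))
        (mul_mem (mul_mem (hm _) (pow_mem (hm _) 2)) (hm _))) (hm _)
  exact e5_fix hΔ₀ ((WAB A B)⁄Ω) hE hG (AlgEquiv.ofRingEquiv (f := s) hs) hI hn T hT

end H55G
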