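import Mathlib
import Pool.Agent.Lib.H55G.E3
import Pool.Agent.Lib.H55G.E4
import Pool.Agent.Lib.H55G.E5
import Pool.Agent.Lib.H13S.IN1
import Pool.Agent.Lib.H13S.IN4
import Pool.Agent.Lib.H13R.C3
import Pool.Agent.Lib.H55K.FB3C
import Pool.Agent.Lib.H55K.RG

/-! # H55G, part E: good reduction in the quadratic extension -/

open NumberField IsDedekindDomain WeierstrassCurve

namespace H55G

open H55P (IQ embF eF LF Per IsHecke Pt ac Inert Dec Nm)
open H35P (WAB Ker GoodW IntW)
open H55K (CMA Tor TN ak xc yc cj cj_cj mul_cj Nm_cj Nm_mul Nm_nat acr xc_acr yc_acr acr_zero_iff acr_inj acr_eq_ac acr_trans GoodAt Abw)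
open H55K.MG (VC Crd)
open H55K.TQ

variable {F K₀ K : Type} [Field F] [NumberField F] [IQ F] [Field K₀] [NumberField K₀] [Field K] [NumberField K]
  [Algebra F K] [Algebra K₀ K] {τ : K ≃ₐ[K₀] K} {W : WeierstrassCurve ℤ} {Om : ℂ} {m : Ideal (𝓞 F)}
  {ψ : Ideal (𝓞 F) →*₀ 𝓞 F} {w : HeightOneSpectrum (𝓞 K)} {v : HeightOneSpectrum (𝓞 K₀)}

/-- Chunk E6A (M). Ω = AlgebraicClosure K (algebras over F, K₀, K; scalar towers; algebraic over each of them, so IsAlgClosure K₀ Ω), classical decidability; A, B, j, act from setup; V above w (exists_abw), so above v (Abw.below, K0A.lean). p in {5, 7} with V(p) = 1 (V(5) < 1 and V(7) < 1 would give V(1) = V(3 · 5 - 2 · 7) < 1). T ≠ 0 with p • T = 0 (H13R.c3_point). good_nosZ for k = K₀: let s : Ω ≃ₐ[K₀] Ω with Inert V s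
(for x in V: V(s x - x) < 1). g_cases (E3.lean): s is the identity or τ on K; in the second case τ • x - x is in w for all x in 𝓞 K (x in V; hV.lt; RingOfIntegers coe), against hnr. So s fixes K, and inert_trivZ for k = K, w (hg), n = p. jint: H55K.TQ.jint_Z (FB3C.lean). W.Δ ≠ 0: hH.data.ell. -/
theorem good_desc (hH : BaseH F (W⁄(𝓞 F)) Om m ψ) (hτ : QT F K₀ K τ) (hv : v.asIdeal = w.asIdeal.under (𝓞 K₀))
    (hnr : ∃ x : 𝓞 K, τ • x - x ∉ w.asIdeal) (hg : GoodAt (W⁄K) w) : GoodAt (W⁄K₀) v := by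
  classical
  have hFK : Module.Finite F K := Module.Finite.of_restrictScalars_finite ℚ F K
  have hKK : Module.Finite K₀ K := Module.Finite.of_restrictScalars_finite ℚ K₀ K
  have hFa : Algebra.IsAlgebraic F (AlgebraicClosure K) := Algebra.IsAlgebraic.trans F K (AlgebraicClosure K)
  have hKa : Algebra.IsAlgebraic K₀ (AlgebraicClosure K) := Algebra.IsAlgebraic.trans K₀ K (AlgebraicClosure K)
  have hcl : IsAlgClosure K₀ (AlgebraicClosure K) := ⟨inferInstance, hKa⟩
  obtain ⟨A, B, j, act, hS, -, hact⟩ := setup hH (AlgebraicClosure K)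
  obtain ⟨V, hV⟩ := H55K.exists_abw (AlgebraicClosure K) w
  have hVv : Abw V v := hV.below (v := v) (HeightOneSpectrum.ext hv.symm)
  have hn : ∀ n : ℕ, V.valuation ((n : ℕ) : AlgebraicClosure K) ≤ 1 := fun n =>
    (V.valuation_le_one_iff _).2 (natCast_mem V n)
  obtain ⟨p, hp, h5, hVp⟩ : ∃ p : ℕ, p.Prime ∧ 5 ≤ p ∧ V.valuation ((p : ℕ) : AlgebraicClosure K) = 1 := by
    by_cases h : V.valuation ((5 : ℕ) : AlgebraicClosure K) = 1
    · exact ⟨5, by norm_num, le_rfl, h⟩
    · refine ⟨7, by norm_num, by norm_num, ?_⟩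
      by_contra h7
      have h5' := lt_of_le_of_ne (hn 5) h
      have h7' := lt_of_le_of_ne (hn 7) h7
      have e : (1 : AlgebraicClosure K) = ((3 : ℕ) : AlgebraicClosure K) * ((5 : ℕ) : AlgebraicClosure K) -
          ((2 : ℕ) : AlgebraicClosure K) * ((7 : ℕ) : AlgebraicClosure K) := by
        push_cast
        norm_num
      have h1 : V.valuation (1 : AlgebraicClosure K) < 1 := by
        rw [e]
        refine lt_of_le_of_lt (V.valuation.map_sub _ _) (max_lt ?_ ?_)
        · rw [map_mul]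
          exact lt_of_le_of_lt (mul_le_of_le_one_left' (hn 3)) h5'
        · rw [map_mul]
          exact lt_of_le_of_lt (mul_le_of_le_one_left' (hn 2)) h7'
      rw [map_one] at h1
      exact lt_irrefl _ h1
  obtain ⟨T, hT, hT0⟩ := H13R.c3_point hact hp
  have hΔ : W.Δ ≠ 0 := by
    intro h0
    apply hH.data.ell
    show (W.map (algebraMap ℤ (𝓞 F))).Δ = 0
    rw [WeierstrassCurve.map_Δ, h0, map_zero]
  refine good_nosZ hΔ (jint_Z hH) hS (k := K₀) (v := v) (V := V) (fun a ha => ?_) hp h5 hVp hT hT0 ?_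
  · exact (hVv.lt (a : K₀)).2 ((v.valuation_lt_one_iff_mem a).2 ha)
  · intro s hs
    rcases g_cases hτ (s : AlgebraicClosure K ≃+* AlgebraicClosure K) (fun x => s.commutes x) with h1 | h1
    · exact inert_trivZ hΔ hS hg hV (s : AlgebraicClosure K ≃+* AlgebraicClosure K) h1 hs hVp hT
    · exfalso
      obtain ⟨x, hx⟩ := hnr
      apply hx
      have hxV : algebraMap K (AlgebraicClosure K) (x : K) ∈ V := (V.valuation_le_one_iff _).1 (H55K.k0_int V x)
      have h2 := hs _ hxV
      have h3 : s (algebraMap K (AlgebraicClosure K) (x : K)) = algebraMap K (AlgebraicClosure K) (τ (x : K)) := h1 (x : K)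
      rw [h3, ← map_sub, hV.lt] at h2
      have h4 : τ (x : K) - (x : K) = ((τ • x - x : 𝓞 K) : K) := rfl
      rw [h4] at h2
      exact (w.valuation_lt_one_iff_mem _).1 h2

end H55G
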