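import Mathlib
import Pool.Agent.Lib.H55G.E3
import Pool.Agent.Lib.H55G.E4
import Pool.Agent.Lib.H55G.E5
import Pool.Agent.Lib.H13S.IN1
import Pool.Agent.Lib.H13S.IN4
import Pool.Agent.Lib.H13R.C3
import Pool.Agent.Lib.H55K.FB3C
import Pool.Agent.Lib.H55K.RG
import Pool.Agent.Lib.H55G.E6a

/-! # H55G, part E: good reduction in the quadratic extension -/

open NumberField IsDedekindDomain WeierstrassCurve

namespace H55G

open H55P (IQ embF eF LF Per IsHecke Pt ac Inert Dec Nm)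
open H35P (WAB Ker GoodW IntW)
open H55K (CMA Tor TN ak xc yc cj cj_cj mul_cj Nm_cj Nm_mul Nm_nat acr xc_acr yc_acr acr_zero_iff acr_inj acr_eq_ac acr_trans GoodAt Abw)
open H55K.MG (VC Crd)
open H55K.TQ

variable {F K₀ K : Type} [Field F] [NumberField F] [IQ F] [Field K₀] [NumberField K₀] [Field K] [NumberField K]
  [Algebra F K] [Algebra K₀ K] {τ : K ≃ₐ[K₀] K} {W : WeierstrassCurve ℤ} {Om : ℂ} {m : Ideal (𝓞 F)}
  {ψ : Ideal (𝓞 F) →*₀ 𝓞 F} {w : HeightOneSpectrum (𝓞 K)} {v : HeightOneSpectrum (𝓞 K₀)}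

theorem e6b_tau (hτ : QT F K₀ K τ) (x : K) : τ (τ x) = x := by
  have hfd : FiniteDimensional K₀ K := Module.finite_of_finrank_pos (by rw [hτ.rank]; norm_num)
  have hcard : Fintype.card (K ≃ₐ[K₀] K) ≤ 2 := by
    rw [← hτ.rank]
    exact AlgEquiv.card_le
  have hpos : 0 < Fintype.card (K ≃ₐ[K₀] K) := Fintype.card_pos
  have h1 : τ ^ Fintype.card (K ≃ₐ[K₀] K) = 1 := pow_card_eq_one
  have h2 : τ ^ 2 = 1 := by
    rcases (show Fintype.card (K ≃ₐ[K₀] K) = 1 ∨ Fintype.card (K ≃ₐ[K₀] K) = 2 by omega) with h | h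
    · rw [h, pow_one] at h1
      rw [h1, one_pow]
    · rwa [h] at h1
  have h3 := congrArg (fun f : K ≃ₐ[K₀] K => f x) h2
  rw [sq] at h3
  exact h3

/-- the composition of inertial maps. -/
theorem e6b_comp {Ω : Type} [Field Ω] {V : ValuationSubring Ω} {s t : Ω ≃+* Ω}
    (hs : ∀ x ∈ V, V.valuation (s x - x) < 1) (ht : ∀ x ∈ V, V.valuation (t x - x) < 1) :
    ∀ x ∈ V, V.valuation ((s.trans t) x - x) < 1 := by
  intro x hx
  have h1 := hs x hx
  have h2 : s x ∈ V := by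
    have h3 : s x - x ∈ V := (V.valuation_le_one_iff _).1 h1.le
    have h4 := V.add_mem _ _ h3 hx
    rwa [sub_add_cancel] at h4
  have h5 := ht (s x) h2
  have h6 : (s.trans t) x - x = (t (s x) - s x) + (s x - x) := by
    rw [RingEquiv.trans_apply]
    ring
  rw [h6]
  exact lt_of_le_of_lt (V.valuation.map_add _ _) (max_lt h5 h1)

/-- a prime number p in {5, 7} which is a unit. -/
theorem e6b_prime {Ω : Type} [Field Ω] (V : ValuationSubring Ω) :
    ∃ p : ℕ, p.Prime ∧ 5 ≤ p ∧ V.valuation (p : Ω) = 1 := by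
  have hle : ∀ n : ℕ, V.valuation (n : Ω) ≤ 1 := fun n => (V.valuation_le_one_iff _).2 (natCast_mem V n)
  by_cases h5 : V.valuation ((5 : ℕ) : Ω) = 1
  · exact ⟨5, by norm_num, le_rfl, h5⟩
  · refine ⟨7, by norm_num, by norm_num, ?_⟩
    by_contra h7
    have g5 := lt_of_le_of_ne (hle 5) h5
    have g7 := lt_of_le_of_ne (hle 7) h7
    have h3 : V.valuation ((3 : ℕ) * ((5 : ℕ) : Ω) - (2 : ℕ) * ((7 : ℕ) : Ω)) < 1 := by
      refine lt_of_le_of_lt (V.valuation.map_sub _ _) (max_lt ?_ ?_)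
      · rw [map_mul]
        exact lt_of_le_of_lt (mul_le_of_le_one_left' (hle 3)) g5
      · rw [map_mul]
        exact lt_of_le_of_lt (mul_le_of_le_one_left' (hle 2)) g7
    have h4 : ((3 : ℕ) * ((5 : ℕ) : Ω) - (2 : ℕ) * ((7 : ℕ) : Ω)) = 1 := by
      push_cast
      norm_num
    rw [h4, map_one] at h3
    exact lt_irrefl _ h3

/-- the automorphism of the algebraic closure. -/
theorem e6b_aut (hτ : QT F K₀ K τ) {Ω : Type} [Field Ω] [Algebra K Ω] [Algebra K₀ Ω] [IsScalarTower K₀ K Ω]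
    [IsAlgClosure K₀ Ω] {V : ValuationSubring Ω} (hV : Abw V w) (hr : ∀ x : 𝓞 K, τ • x - x ∈ w.asIdeal) :
    ∃ s : Ω ≃ₐ[K₀] Ω, Inert V s ∧ ∀ x : K, s (algebraMap K Ω x) = algebraMap K Ω (τ x) := by
  have hfd : FiniteDimensional K₀ K := Module.finite_of_finrank_pos (by rw [hτ.rank]; norm_num)
  have hn : Normal K₀ Ω := IsAlgClosure.normal K₀ Ω
  obtain ⟨s0, hs0⟩ : ∃ s0 : Ω ≃ₐ[K₀] Ω, s0 = AlgEquiv.liftNormal τ Ω := ⟨_, rfl⟩
  have hs0' : ∀ x : K, s0 (algebraMap K Ω x) = algebraMap K Ω (τ x) := by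
    intro x
    rw [hs0]
    exact AlgEquiv.liftNormal_commutes _ _ _
  obtain ⟨N', hN'⟩ : ∃ N' : IntermediateField K₀ Ω, N' = (IsScalarTower.toAlgHom K₀ K Ω).fieldRange := ⟨_, rfl⟩
  have hfin : FiniteDimensional K₀ N' := by
    rw [hN']
    exact (AlgEquiv.ofInjectiveField (IsScalarTower.toAlgHom K₀ K Ω)).toLinearEquiv.finiteDimensional
  have hmem : ∀ x : Ω, x ∈ N' → ∃ y : K, algebraMap K Ω y = x := by
    intro x hx
    rw [hN'] at hx
    obtain ⟨y, hy⟩ := hx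
    exact ⟨y, hy⟩
  have hmem' : ∀ y : K, algebraMap K Ω y ∈ N' := by
    intro y
    rw [hN']
    exact ⟨y, rfl⟩
  obtain ⟨s, hsI, hs1⟩ := H13S.inertia_lift N' V s0 (by
      intro x hx
      obtain ⟨y, rfl⟩ := hmem x hx
      rw [hs0']
      exact hmem' _) (by
      intro x hx hxV
      obtain ⟨y, rfl⟩ := hmem x hx
      rw [hs0', ← map_sub, hV.lt]
      exact H13S.in4_val w τ hr y ((hV y).1 hxV))
  exact ⟨s, hsI, fun x => by rw [hs1 _ (hmem' x), hs0']⟩

/-- Chunk E6B (M/L). GoodAt (W⁄K₀) v implies GoodAt (W⁄K) w (good_up, RG.lean; (W⁄K₀)⁄K = W⁄K), so suppose w is good. Setting as in good_desc. s₀ : Ω ≃ₐ[K₀] Ω with Inert V s₀ and s₀ = τ on K: H13S.inertia_lift (IN1.lean) for F₀ = K₀, N = the image of K in Ω (IntermediateField K₀ Ω: the range of the K₀-algebra map K → Ω), a lift of τ (AlgEquiv.liftNormal), hI from H13S.in4_val (IN4.lean) and hr: see the proof of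
hram_of in H55K/RF.lean, where the same is done for ℚ and F. (1) For t : Ω ≃ₐ[K₀] Ω with Inert V t which fixes K: inert_trivZ for K, w: t fixes the coordinates of the T with p • T = 0. (2) σ = acr s₀ (fix_AB) satisfies σ (act a P) = act (cj a) (σ P) (H55K.cma_galr, CU.lean; s₀ (ak a) = ak (cj a) since s₀ = τ on the image of F in K). σ (σ X) = X for p • X = 0: s₀^2 = s₀.trans s₀ is inert and fixes K (τ τ = 1: τ has order 2, or cj cj = 1 and K is generated..: τ^2 is the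
identity on K because Gal(K/K₀) has 2 elements), acr_trans, (1), c27_ext (coordinates). (3) There is X with p • X = 0 and T = X + σ X ≠ 0: otherwise σ X = -X for all X with p • X = 0; then -act a X = σ (act a X) = act (cj a) (σ X) = -act (cj a) X, act (a - cj a) X = 0 for the generator X = T₀ of the kernel of p (h.gen): p ∣ a - cj a for all a: rf_card (p ≠ 2). (4) T is fixed by σ; let t be inert
over K₀: if t fixes K: (1). If t = τ on K: t' = s₀.symm.trans t (first s₀⁻¹, then t) fixes K and is inert, t = t' ∘ s₀ on coordinates: t (xc T) = t' (s₀ (xc T)) = t' (xc T) = xc T (xc (σ T) = s₀ (xc T) = xc T). So good_nosZ: v is good. (5) Then inert_trivZ for K₀, v and s₀: s₀ fixes the coordinates of all T with p • T = 0: σ T = T, so act a T = act (cj a) T, p ∣ a - cj a for all a: rf_card again. -/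
theorem bad_ram (hH : BaseH F (W⁄(𝓞 F)) Om m ψ) (hτ : QT F K₀ K τ) (hv : v.asIdeal = w.asIdeal.under (𝓞 K₀))
    (hr : ∀ x : 𝓞 K, τ • x - x ∈ w.asIdeal) : ¬ GoodAt (W⁄K) w ∧ ¬ GoodAt (W⁄K₀) v := by
  classical
  have hcur : (W⁄K₀)⁄K = W⁄K := by
    change (W.map (algebraMap ℤ K₀)).map (algebraMap K₀ K) = W.map (algebraMap ℤ K)
    rw [WeierstrassCurve.map_map]
    congr 1
    exact Subsingleton.elim _ _
  suffices hmain : ¬ GoodAt (W⁄K) w by
    refine ⟨hmain, fun h => hmain ?_⟩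
    have h1 := good_up hv h
    rwa [hcur] at h1
  intro hg
  -- the setting
  have hΔ : W.Δ ≠ 0 := by
    intro h0
    apply hH.data.ell
    have e : (W⁄(𝓞 F)).Δ = algebraMap ℤ (𝓞 F) W.Δ := W.map_Δ _
    rw [e, h0, map_zero]
  have hfd : FiniteDimensional K₀ K := Module.finite_of_finrank_pos (by rw [hτ.rank]; norm_num)
  obtain ⟨Ω, iΩ, iK, iC⟩ : ∃ (Ω : Type) (_ : Field Ω) (_ : Algebra K Ω), IsAlgClosure K Ω :=
    ⟨AlgebraicClosure K, inferInstance, inferInstance, inferInstance⟩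
  let iF : Algebra F Ω := ((algebraMap K Ω).comp (algebraMap F K)).toAlgebra
  let i0 : Algebra K₀ Ω := ((algebraMap K Ω).comp (algebraMap K₀ K)).toAlgebra
  have tF : IsScalarTower F K Ω := IsScalarTower.of_algebraMap_eq fun _ => rfl
  have t0 : IsScalarTower K₀ K Ω := IsScalarTower.of_algebraMap_eq fun _ => rfl
  have hclosed : IsAlgClosed Ω := IsAlgClosure.isAlgClosed K
  have hKal : Algebra.IsAlgebraic K Ω := IsAlgClosure.isAlgebraic
  have hFK : Algebra.IsAlgebraic F K := by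
    have h1 : Algebra.IsAlgebraic ℚ K := inferInstance
    have h2 : IsScalarTower ℚ F K := inferInstance
    exact Algebra.IsAlgebraic.tower_top (K := ℚ) F
  have hFal : Algebra.IsAlgebraic F Ω := Algebra.IsAlgebraic.trans F K Ω
  have h0al : Algebra.IsAlgebraic K₀ Ω := Algebra.IsAlgebraic.trans K₀ K Ω
  have hcl0 : IsAlgClosure K₀ Ω := ⟨hclosed, h0al⟩
  obtain ⟨A, B, j, act, hS, hd, h⟩ := setup hH Ω
  obtain ⟨V, hV⟩ := H55K.exists_abw Ω w
  have hunder : w.under (𝓞 K₀) = v := HeightOneSpectrum.ext hv.symm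
  have hV0 : Abw V v := hV.below hunder
  obtain ⟨p, hp, h5, hVp⟩ := e6b_prime V
  obtain ⟨s, hsI, hs⟩ := e6b_aut hτ hV hr
  obtain ⟨s', hs'⟩ : ∃ s' : Ω ≃+* Ω, s' = (s : Ω ≃+* Ω) := ⟨_, rfl⟩
  have hs'x : ∀ x, s' x = s x := fun x => by rw [hs']; rfl
  have hs'I : ∀ x ∈ V, V.valuation (s' x - x) < 1 := fun x hx => by
    rw [hs'x]
    exact hsI x hx
  have hs'K : ∀ x : K, s' (algebraMap K Ω x) = algebraMap K Ω (τ x) := fun x => by rw [hs'x, hs]
  obtain ⟨hsA, hsB⟩ := fix_AB hS s'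
  have hsc : ∀ a : 𝓞 F, s' (ak Ω a) = ak Ω (cj a) := by
    intro a
    have e1 : ak Ω a = algebraMap K Ω (algebraMap F K (a : F)) := rfl
    have e2 : ak Ω (cj a) = algebraMap K Ω (algebraMap F K ((cj a : 𝓞 F) : F)) := rfl
    rw [e1, hs'K, hτ.tau, e2]
  have hsl := H55K.cma_galr h s' hsA hsB hsc
  -- (1)
  have triv : ∀ t : Ω ≃+* Ω, (∀ x : K, t (algebraMap K Ω x) = algebraMap K Ω x) →
      (∀ x ∈ V, V.valuation (t x - x) < 1) → ∀ T : Pt (WAB A B) Ω, p • T = 0 →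
      t (xc T) = xc T ∧ t (yc T) = yc T := fun t h1 h2 T hT =>
    inert_trivZ hΔ hS hg hV t h1 h2 hVp hT
  -- (2)
  have hss : ∀ X : Pt (WAB A B) Ω, p • X = 0 → acr s' hsA hsB (acr s' hsA hsB X) = X := by
    intro X hX
    by_cases hX0 : X = 0
    · rw [hX0, map_zero, map_zero]
    · obtain ⟨hA2, hB2⟩ := fix_AB hS (s'.trans s')
      rw [acr_trans s' s' hsA hsB hsA hsB hA2 hB2]
      obtain ⟨e1, e2⟩ := triv (s'.trans s') (by
        intro x
        rw [RingEquiv.trans_apply, hs'K, hs'K, e6b_tau hτ]) (e6b_comp hs'I hs'I) X hX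
      refine H55K.CC.c27_ext (fun h0 => hX0 ((acr_zero_iff _ hA2 hB2 X).1 h0)) hX0 ?_ ?_
      · rw [xc_acr]
        exact e1
      · rw [yc_acr]
        exact e2
  -- the generator
  have hpne : (p : 𝓞 F) ≠ 0 := by exact_mod_cast hp.ne_zero
  obtain ⟨T₀, hT₀, g1, g2, -⟩ := h.gen (p : 𝓞 F) hpne
  have hT₀' : p • T₀ = 0 := by
    rw [← H55K.cu_nat act]
    exact hT₀
  have hpact : ∀ a : 𝓞 F, p • act a T₀ = 0 := by
    intro a
    rw [← map_nsmul, hT₀', map_zero]
  have hp2 : p ≠ 2 := by omega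
  -- (3)
  obtain ⟨X, hX, hXn⟩ : ∃ X : Pt (WAB A B) Ω, p • X = 0 ∧ X + acr s' hsA hsB X ≠ 0 := by
    by_contra hcon
    push Not at hcon
    refine rf_card (F := F) hp hp2 (fun a => ?_)
    have e1 := hsl a T₀
    have e2 : acr s' hsA hsB T₀ = - T₀ := eq_neg_of_add_eq_zero_right (hcon T₀ hT₀')
    have e3 : acr s' hsA hsB (act a T₀) = - act a T₀ := eq_neg_of_add_eq_zero_right (hcon _ (hpact a))
    rw [e2, e3, map_neg, neg_inj] at e1
    rw [← g2 (a - cj a), map_sub]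
    change act a T₀ - act (cj a) T₀ = 0
    rw [e1, sub_self]
  -- (4)
  obtain ⟨T, hTd⟩ : ∃ T, T = X + acr s' hsA hsB X := ⟨_, rfl⟩
  rw [← hTd] at hXn
  have hT : p • T = 0 := by
    rw [hTd, smul_add, hX, ← map_nsmul, hX, map_zero, add_zero]
  have hσT : acr s' hsA hsB T = T := by
    rw [hTd, map_add, hss X hX, add_comm]
  have hxT : s' (xc T) = xc T := by
    rw [← xc_acr s' hsA hsB, hσT]
  have hyT : s' (yc T) = yc T := by
    rw [← yc_acr s' hsA hsB, hσT]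
  have hj := jint_Z hH
  have hgood : GoodAt (W⁄K₀) v := by
    refine good_nosZ hΔ hj hS (Ω := Ω) (V := V) ?_ hp h5 hVp hT hXn ?_
    · intro a ha
      have h1 : v.valuation K₀ (algebraMap (𝓞 K₀) K₀ a) < 1 := (v.valuation_lt_one_iff_mem a).2 ha
      exact (hV0.lt _).2 h1
    · intro g hgI
      obtain ⟨g', hg'⟩ : ∃ g' : Ω ≃+* Ω, g' = (g : Ω ≃+* Ω) := ⟨_, rfl⟩
      have hg'x : ∀ x, g' x = g x := fun x => by rw [hg']; rfl
      have hg'I : ∀ x ∈ V, V.valuation (g' x - x) < 1 := fun x hx => by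
        rw [hg'x]
        exact hgI x hx
      rw [← hg'x, ← hg'x]
      rcases g_cases hτ g' (fun x => by rw [hg'x]; exact g.commutes x) with hc | hc
      · exact triv g' hc hg'I T hT
      · obtain ⟨e1, e2⟩ := triv (g'.trans s') (by
          intro x
          rw [RingEquiv.trans_apply, hc, hs'K, e6b_tau hτ]) (e6b_comp hg'I hs'I) T hT
        rw [RingEquiv.trans_apply] at e1 e2
        constructor
        · exact s'.injective (e1.trans hxT.symm)
        · exact s'.injective (e2.trans hyT.symm)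
  -- (5)
  have hfix : ∀ Y : Pt (WAB A B) Ω, p • Y = 0 → acr s' hsA hsB Y = Y := by
    intro Y hY
    by_cases hY0 : Y = 0
    · rw [hY0, map_zero]
    · obtain ⟨e1, e2⟩ := inert_trivZ hΔ hS hgood hV0 s' (fun x => by
        rw [hs'x]
        exact s.commutes x) hs'I hVp hY
      refine H55K.CC.c27_ext (fun h0 => hY0 ((acr_zero_iff _ hsA hsB Y).1 h0)) hY0 ?_ ?_
      · rw [xc_acr]
        exact e1
      · rw [yc_acr]
        exact e2
  refine rf_card (F := F) hp hp2 (fun a => ?_)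
  have e1 := hsl a T₀
  rw [hfix T₀ hT₀', hfix _ (hpact a)] at e1
  rw [← g2 (a - cj a), map_sub]
  change act a T₀ - act (cj a) T₀ = 0
  rw [← e1, sub_self]

end H55G
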