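import Mathlib
import Pool.Agent.Lib.H55B.I2
import Pool.Agent.Lib.H55K.D6
import Pool.Agent.Lib.H55K.RA1
import Pool.Agent.Lib.H55K.RA2
import Pool.Agent.Lib.H55G.D3B

/-! # H55G, part E: the Euler factors at primes of good reduction -/

open NumberField IsDedekindDomain WeierstrassCurve

namespace H55G

open H55P (IQ embF eF LF Per IsHecke Pt ac Inert Dec Nm PsiP mK UnitP UnrP)
open H35P (WAB Ker GoodW IntW)
open H55K (CMA Tor TN ak xc yc cj cj_cj mul_cj Nm_cj Nm_mul Nm_nat GoodAt Abw)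
open H55K.DD (LF' ef)
open H55K.MG (VC Crd)
open H55K.TQ

/-- Chunk E8 (S/M). C from hg (good_iff), NW_eq (D3B.lean): the minimal model has good reduction, so the local polynomial is 1 - a T + q T^2 with q = card of the residue field = absNorm w (H55B.residue_card) and a = q + 1 - NW W w (definition of localPolynomial, if_pos; NW is the number in the definition). With complex coefficients it is (1 - α T)(1 - β T). Then as in the proof of lf_good (H55K/D6.lean):
H55B.loc_good, I2_local_good. -/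
theorem lf_ef {k : Type} [Field k] [NumberField k] (W : WeierstrassCurve k) (w : HeightOneSpectrum (𝓞 k)) (hg : GoodAt W w) {α β : ℂ}
    (h1 : α + β = (Ideal.absNorm w.asIdeal : ℂ) + 1 - (NW W w : ℂ)) (h2 : α * β = (Ideal.absNorm w.asIdeal : ℂ)) :
    LF' W w = ef (Ideal.absNorm w.asIdeal) α * ef (Ideal.absNorm w.asIdeal) β := by
  obtain ⟨C, hC⟩ := (good_iff W w).1 hg
  obtain ⟨hgr, -, -⟩ := NW_eq hC
  have hq := H55K.DD.d6_one_lt w
  obtain ⟨hfin, hcard⟩ := H55B.residue_card k w
  have hP0' : (W⁄(w.adicCompletion k)).localPolynomial (w.adicCompletionIntegers k) =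
      1 - Polynomial.C ((Ideal.absNorm w.asIdeal : ℤ) + 1 - (NW W w : ℤ)) * Polynomial.X +
        Polynomial.C (Ideal.absNorm w.asIdeal : ℤ) * Polynomial.X ^ 2 := by
    unfold WeierstrassCurve.localPolynomial
    rw [if_pos hgr, hcard]
    rfl
  have hP : ((W⁄(w.adicCompletion k)).localPolynomial (w.adicCompletionIntegers k)).map (Int.castRingHom ℂ) =
      (1 - Polynomial.C α * Polynomial.X) * (1 - Polynomial.C β * Polynomial.X) := by
    rw [hP0']
    simp only [Polynomial.map_add, Polynomial.map_sub, Polynomial.map_one, Polynomial.map_mul,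
      Polynomial.map_X, Polynomial.map_pow, Polynomial.map_C]
    have e1 : (Int.castRingHom ℂ) ((Ideal.absNorm w.asIdeal : ℤ) + 1 - (NW W w : ℤ)) = α + β := by
      simp only [eq_intCast, Int.cast_sub, Int.cast_add, Int.cast_natCast, Int.cast_one]
      rw [h1]
    have e2 : (Int.castRingHom ℂ) (Ideal.absNorm w.asIdeal : ℤ) = α * β := by
      rw [eq_intCast, Int.cast_natCast, h2]
    rw [e1, e2, map_add, map_mul]
    ring
  have hP0 : ((W⁄(w.adicCompletion k)).localPolynomial (w.adicCompletionIntegers k)).coeff 0 = 1 := by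
    have := congrArg (fun P : Polynomial ℂ => P.coeff 0) hP
    simp only [Polynomial.coeff_map, Polynomial.mul_coeff_zero] at this
    simpa using this
  unfold LF' ef
  rw [WeierstrassCurve.localEulerFactor, hcard, H55B.I2_cast_ofPS hq,
    WeierstrassCurve.localPowerSeries, H55B.I2_map_invOfUnit _ hP0, hP, ← map_mul,
    mul_comm ((1 - PowerSeries.C α * PowerSeries.X)⁻¹ : PowerSeries ℂ),
    ← PowerSeries.mul_inv_rev]
  congr 2
  simp

/-- Chunk E8 (S). lf_ef with roots α, β of T^2 - (q + 1 - N) T + q (rh_roots in H55K/RH.lean): the same for both. -/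
theorem lf_same {k k' : Type} [Field k] [NumberField k] [Field k'] [NumberField k'] {W : WeierstrassCurve k}
    {W' : WeierstrassCurve k'} {w : HeightOneSpectrum (𝓞 k)} {w' : HeightOneSpectrum (𝓞 k')} (hg : GoodAt W w)
    (hg' : GoodAt W' w') (hq : Ideal.absNorm w.asIdeal = Ideal.absNorm w'.asIdeal) (hN : NW W w = NW W' w') :
    LF' W w = LF' W' w' := by
  obtain ⟨α, β, h1, h2⟩ : ∃ α β : ℂ, α + β = (Ideal.absNorm w.asIdeal : ℂ) + 1 - (NW W w : ℂ) ∧
      α * β = (Ideal.absNorm w.asIdeal : ℂ) := by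
    obtain ⟨t, ht⟩ : ∃ t : ℂ, t = (Ideal.absNorm w.asIdeal : ℂ) + 1 - (NW W w : ℂ) := ⟨_, rfl⟩
    obtain ⟨l, hl⟩ : ∃ l : ℂ, l = (Ideal.absNorm w.asIdeal : ℂ) := ⟨_, rfl⟩
    rw [← ht, ← hl]
    obtain ⟨s, hs⟩ := IsAlgClosed.exists_pow_nat_eq (t ^ 2 - 4 * l) (n := 2) (by norm_num)
    refine ⟨(t + s) / 2, (t - s) / 2, by ring, ?_⟩
    linear_combination (-1 / 4) * hs
  rw [lf_ef W w hg h1 h2, lf_ef W' w' hg' (by rw [← hq, ← hN]; exact h1) (by rw [← hq]; exact h2), hq]

end H55G
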