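import Mathlib
import Pool.Agent.Lib.H55G.E3
import Pool.Agent.Lib.H55G.E6
import Pool.Agent.Lib.H55G.E7
import Pool.Agent.Lib.H55G.E8

/-! # H55G, part E: the square relation of the Euler factors -/

open NumberField IsDedekindDomain WeierstrassCurve

namespace H55G

open H55P (IQ embF eF LF Per IsHecke Pt ac Inert Dec Nm PsiP mK UnitP UnrP)
open H35P (WAB Ker GoodW IntW)
open H55K (CMA Tor TN ak xc yc cj cj_cj mul_cj Nm_cj Nm_mul Nm_nat GoodAt Abw)
open H55K.DD (LF' ef)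
open H55K.MG (VC Crd)
open H55K.TQ

variable {F K₀ K : Type} [Field F] [NumberField F] [IQ F] [Field K₀] [NumberField K₀] [Field K] [NumberField K]
  [Algebra F K] [Algebra K₀ K] {τ : K ≃ₐ[K₀] K} {W : WeierstrassCurve ℤ} {Om : ℂ} {m : Ideal (𝓞 F)}
  {ψ : Ideal (𝓞 F) →*₀ 𝓞 F}

/-- Chunk E9 (M). For w above v: w is good iff v is good (good_up in RG.lean with (W⁄K₀)⁄K = W⁄K; conversely good_desc, E6.lean). quad_primes' (E3.lean). jint_Z for lf_W_bad (RA2.lean). Ramified case: bad_ram: all factors are 1. Two primes w₁, w₂ (T = {w₁, w₂}; τ • x - x is not in w for the x in w with τ • x not in w): bad: all factors are 1; good: nw_split and lf_same: all three factors are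
equal. One prime w₁ with absNorm w₁ = q^2, q = absNorm v: bad: all 1; good: nw_inert: NW over K₀ is q + 1, over K it is (q + 1)^2. α with α^2 = -q: lf_ef over K₀ with α, -α (sum 0, product q): ef q α * ef q (-α) = ef (q^2) (-q) (ef_sq, RA1.lean; q > 1: d6_one_lt); over K: lf_ef with -q, -q: sum -2q = q^2 + 1 - (q + 1)^2, product q^2: ef (q^2) (-q) ^ 2. -/
theorem lf_sq' (hH : BaseH F (W⁄(𝓞 F)) Om m ψ) (hτ : QT F K₀ K τ) (v : HeightOneSpectrum (𝓞 K₀))
    (T : Finset (HeightOneSpectrum (𝓞 K))) (hT : ∀ w, w ∈ T ↔ v.asIdeal = w.asIdeal.under (𝓞 K₀)) :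
    ∏ w ∈ T, LF' (W⁄K) w = LF' (W⁄K₀) v * LF' (W⁄K₀) v := by
  classical
  obtain ⟨j₀, hj⟩ := jint_Z hH
  have ecur : ((W⁄K₀)⁄K) = W⁄K := by
    show (W.map (algebraMap ℤ K₀)).map (algebraMap K₀ K) = W.map (algebraMap ℤ K)
    rw [WeierstrassCurve.map_map]
    congr 1
    exact Subsingleton.elim _ _
  have hup : ∀ w : HeightOneSpectrum (𝓞 K), v.asIdeal = w.asIdeal.under (𝓞 K₀) → GoodAt (W⁄K₀) v →
      GoodAt (W⁄K) w := by
    intro w hw hg
    have h2 := good_up hw hg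
    rwa [ecur] at h2
  rcases quad_primes' hτ v with ⟨w₁, w₂, hne, hN1, hN2, ⟨x1, hx1, hx1'⟩, ⟨x2, hx2, hx2'⟩, h⟩ |
    ⟨w₁, hN1, hnr, h⟩ | ⟨w₁, hr, h⟩
  · have hTe : T = {w₁, w₂} := by
      ext w
      rw [hT, h, Finset.mem_insert, Finset.mem_singleton]
    have hw1 := (h w₁).2 (Or.inl rfl)
    have hw2 := (h w₂).2 (Or.inr rfl)
    by_cases hg : GoodAt (W⁄K₀) v
    · have n1 := nw_split hH hτ hw1 hN1 ⟨x1, hx1, hx1'⟩ hg
      have n2 := nw_split hH hτ hw2 hN2 ⟨x2, hx2, hx2'⟩ hg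
      have e1 := lf_same (hup w₁ hw1 hg) hg hN1 n1
      have e2 := lf_same (hup w₂ hw2 hg) hg hN2 n2
      rw [hTe, Finset.prod_pair hne, e1, e2]
    · have b1 : ¬ GoodAt (W⁄K) w₁ := fun h1 => hg (good_desc hH hτ hw1 ⟨x1, fun h2 => hx1' (by
        have h3 := w₁.asIdeal.add_mem h2 hx1
        rwa [sub_add_cancel] at h3)⟩ h1)
      have b2 : ¬ GoodAt (W⁄K) w₂ := fun h1 => hg (good_desc hH hτ hw2 ⟨x2, fun h2 => hx2' (by
        have h3 := w₂.asIdeal.add_mem h2 hx2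
        rwa [sub_add_cancel] at h3)⟩ h1)
      rw [hTe, Finset.prod_pair hne, lf_W_bad W w₁ hj b1, lf_W_bad W w₂ hj b2, lf_W_bad W v hj hg]
  · have hTe : T = {w₁} := by
      ext w
      rw [hT, h, Finset.mem_singleton]
    have hw1 := (h w₁).2 rfl
    by_cases hg : GoodAt (W⁄K₀) v
    · obtain ⟨n1, n2⟩ := nw_inert hH hτ hw1 hN1 hg
      obtain ⟨α, hα⟩ := IsAlgClosed.exists_pow_nat_eq (-(Ideal.absNorm v.asIdeal : ℂ)) (n := 2) (by norm_num)
      have e1 := lf_ef (W⁄K₀) v hg (α := α) (β := -α) (by rw [n1]; push_cast; ring)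
        (by linear_combination -hα)
      have e2 := lf_ef (W⁄K) w₁ (hup w₁ hw1 hg) (α := -(Ideal.absNorm v.asIdeal : ℂ))
        (β := -(Ideal.absNorm v.asIdeal : ℂ)) (by rw [n2, hN1]; push_cast; ring)
        (by rw [hN1]; push_cast; ring)
      rw [hTe, Finset.prod_singleton, e2, e1, ef_sq (H55K.DD.d6_one_lt v) α, hN1, hα]
    · have b1 : ¬ GoodAt (W⁄K) w₁ := fun h1 => hg (good_desc hH hτ hw1 hnr h1)
      rw [hTe, Finset.prod_singleton, lf_W_bad W w₁ hj b1, lf_W_bad W v hj hg, mul_one]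
  · have hTe : T = {w₁} := by
      ext w
      rw [hT, h, Finset.mem_singleton]
    have hw1 := (h w₁).2 rfl
    obtain ⟨b1, b2⟩ := bad_ram hH hτ hw1 hr
    rw [hTe, Finset.prod_singleton, lf_W_bad W w₁ hj b1, lf_W_bad W v hj b2, mul_one]

end H55G
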