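import Mathlib
import Pool.Agent.Lib.H55G.E9
import Pool.Agent.Lib.H55K.D7
import Pool.Agent.Lib.H55K.DM
import Pool.Agent.Lib.H55K.RI2

/-! # H55G, part F: the L-function -/

open NumberField IsDedekindDomain WeierstrassCurve

namespace H55G

open H55P (IQ embF eF LF Per IsHecke Pt ac Inert Dec Nm PsiP mK UnitP UnrP)
open H35P (WAB Ker GoodW IntW)
open H55K (CMA Tor TN ak xc yc cj cj_cj mul_cj Nm_cj Nm_mul Nm_nat GoodAt Abw)
open H55K.DD (LF' ef)
open H55K.MG (VC Crd)
open H55K.TQ

/-- Chunk F1 (S/M). Port of H55K.DD.lfun (D7.lean): in it, replace hL, hA by a finite set T' which contains T and for which all three eventual statements hold (Filter.eventually_ge_atTop T); LF' W w = ef .. * ef .. * g w for all w, with g w = LF' W w if w ∈ T and 1 otherwise (for w ∈ T: h w = 0 and ef q 0 = 1, see lfun_K in DM.lean); the product over T' of the g w is the product over T. -/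
theorem lfunD {K : Type} [Field K] [NumberField K] (W : WeierstrassCurve K) (h : Ideal (𝓞 K) →*₀ ℂ)
    (T : Finset (HeightOneSpectrum (𝓞 K))) (h0 : ∀ w ∈ T, h w.asIdeal = 0)
    (hloc : ∀ w : HeightOneSpectrum (𝓞 K), w ∉ T → LF' W w = ef (Ideal.absNorm w.asIdeal) (h w.asIdeal) *
      ef (Ideal.absNorm w.asIdeal) ((starRingEnd ℂ) (h w.asIdeal))) (n : ℕ) :
    ((W.LFunction n : ℤ) : ℂ) = (H55N.AI h * H55N.AI (fun a => (starRingEnd ℂ) (h a)) * ∏ w ∈ T, LF' W w) n := by
  classical
  set L : HeightOneSpectrum (𝓞 K) → ArithmeticFunction ℤ := fun w =>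
    (W.baseChange (w.adicCompletion K)).localEulerFactor
      (w.adicCompletionIntegers K) with hLdef
  have hL : ∀ᶠ T in Filter.atTop, (∏ w ∈ T, L w) n = W.LFunction n := by
    have hN : Northcott (fun w : HeightOneSpectrum (𝓞 K) =>
        Nat.card (IsLocalRing.ResidueField (w.adicCompletionIntegers K))) := by
      have h1 : (fun w : HeightOneSpectrum (𝓞 K) =>
        Nat.card (IsLocalRing.ResidueField (w.adicCompletionIntegers K))) =
          fun w => Ideal.absNorm w.asIdeal := funext fun w => (H55B.residue_card K w).2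
      rw [h1]
      infer_instance
    exact ArithmeticFunction.tendsTo_eulerProduct_ofPowerSeries
      (fun w : HeightOneSpectrum (𝓞 K) =>
        Nat.card (IsLocalRing.ResidueField (w.adicCompletionIntegers K)))
      (fun w => (W.baseChange (w.adicCompletion K)).localPowerSeries
        (w.adicCompletionIntegers K))
      (fun w => by simp [WeierstrassCurve.localPowerSeries]) n
  have hA : ∀ᶠ T : Finset (HeightOneSpectrum (𝓞 K)) in Filter.atTop,
      ∀ m ∈ Finset.range (n + 1),
      (∏ w ∈ T, ef (Ideal.absNorm w.asIdeal) (h w.asIdeal)) m = H55N.AI h m ∧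
      (∏ w ∈ T, ef (Ideal.absNorm w.asIdeal) ((starRingEnd ℂ) (h w.asIdeal))) m =
          H55N.AI (fun a => (starRingEnd ℂ) (h a)) m := by
    rw [Filter.eventually_all_finset]
    intro m _
    exact (H55N.AI_euler h m).and
      (H55N.AI_euler ((starRingEnd ℂ).toMonoidWithZeroHom.comp h) m)
  obtain ⟨T', ⟨hT1, hT2⟩, hT3⟩ := ((hL.and hA).and (Filter.eventually_ge_atTop T)).exists
  have hT4 : T ⊆ T' := hT3
  rw [← hT1, ← ArithmeticFunction.intCoe_apply, H55B.I2_cast_prod]
  have he : ∀ q : ℕ, ef q 0 = 1 := by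
    intro q
    unfold ef
    rw [H55N.H7_ps, map_one]
  have h1 : ∀ w ∈ T', ((L w : ArithmeticFunction ℤ) : ArithmeticFunction ℂ) =
      ef (Ideal.absNorm w.asIdeal) (h w.asIdeal) *
      ef (Ideal.absNorm w.asIdeal) ((starRingEnd ℂ) (h w.asIdeal)) * (if w ∈ T then LF' W w else 1) := by
    intro w _
    by_cases hw : w ∈ T
    · rw [if_pos hw, h0 w hw, map_zero, he, one_mul, one_mul]
      rfl
    · rw [if_neg hw, mul_one]
      exact hloc w hw
  rw [Finset.prod_congr rfl h1, Finset.prod_mul_distrib, Finset.prod_mul_distrib, Finset.prod_ite_mem,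
    Finset.inter_eq_right.2 hT4]
  refine H55B.I2_mul_congr (H55B.I2_mul_congr ?_ ?_) (fun _ _ => rfl) n le_rfl
  · intro m hm
    exact (hT2 m (Finset.mem_range.2 (by omega))).1
  · intro m hm
    exact (hT2 m (Finset.mem_range.2 (by omega))).2

/-- The primes of K which divide the discriminant of W and at which W has good reduction. -/
def TE (W : WeierstrassCurve ℤ) (K : Type) [Field K] [NumberField K] : Set (HeightOneSpectrum (𝓞 K)) :=
  {w | ((W.Δ : ℤ) : 𝓞 K) ∈ w.asIdeal ∧ GoodAt (W⁄K) w}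

/-- Chunk F1 (S). Finitely many primes contain the nonzero element W.Δ of 𝓞 K (Ideal.finite_factors / HeightOneSpectrum finite support; see H13E.q6_fin or prime_almost). -/
theorem te_fin (W : WeierstrassCurve ℤ) (hΔ : W.Δ ≠ 0) (K : Type) [Field K] [NumberField K] : (TE W K).Finite := by
  have h1 : ((W.Δ : ℤ) : 𝓞 K) ≠ 0 := Int.cast_ne_zero.2 hΔ
  have h2 : (Ideal.span {((W.Δ : ℤ) : 𝓞 K)} : Ideal (𝓞 K)) ≠ 0 := by
    rw [Ideal.zero_eq_bot, Ne, Ideal.span_singleton_eq_bot]
    exact h1
  refine (Ideal.finite_factors h2).subset ?_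
  intro w hw
  exact Ideal.dvd_span_singleton.2 hw.1

end H55G
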