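import Mathlib
import Pool.Agent.Lib.H55G.E9
import Pool.Agent.Lib.H55K.D7
import Pool.Agent.Lib.H55K.DM
import Pool.Agent.Lib.H55K.RI2
import Pool.Agent.Lib.H55G.F1a

/-! # H55G, part F: the L-function -/

open NumberField IsDedekindDomain WeierstrassCurve

namespace H55G

open H55P (IQ embF eF LF Per IsHecke Pt ac Inert Dec Nm PsiP mK UnitP UnrP)
open H35P (WAB Ker GoodW IntW)
open H55K (CMA Tor TN ak xc yc cj cj_cj mul_cj Nm_cj Nm_mul Nm_nat GoodAt Abw)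
open H55K.DD (LF' ef)
open H55K.MG (VC Crd)
open H55K.TQ

variable {F : Type} [Field F] [NumberField F] [IQ F] {W : WeierstrassCurve ℤ} {Om : ℂ} {m : Ideal (𝓞 F)}
  {ψ : Ideal (𝓞 F) →*₀ 𝓞 F}

/-- Chunk F2 (M). lfunD for h = PsiP K ψ, T the finite set TE W K (te_fin; hΔ from hH.data.ell). As in the proof of lfun_K (DM.lean): for w with mK K m ≤ w (iff Δ in w: hH.supp and below; H13R.h1_pos): psi_bad: PsiP K ψ w = 0, so h0; and if w is not in T then w is bad and LF' = 1 (lf_bad with jint_of), ef q 0 = 1. For the other w: lf_good as there. (((W⁄(𝓞 F))⁄F)⁄K = W⁄K: cur_eq.) -/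
theorem lfun_KD (hH : BaseH F (W⁄(𝓞 F)) Om m ψ) {K : Type} [Field K] [NumberField K] [Algebra F K]
    (T : Finset (HeightOneSpectrum (𝓞 K))) (hT : ∀ w, w ∈ T ↔ w ∈ TE W K) (n : ℕ) :
    (((W⁄K).LFunction n : ℤ) : ℂ) =
      (H55N.AI (PsiP K ψ) * H55N.AI (fun a => (starRingEnd ℂ) (PsiP K ψ a)) * ∏ w ∈ T, LF' (W⁄K) w) n := by
  have hK : (((W⁄(𝓞 F))⁄F)⁄K) = W⁄K := H55K.TQ.cur_eq K
  have hψ := hH.data.hecke
  have hΔF : (W⁄(𝓞 F)).Δ = ((W.Δ : ℤ) : 𝓞 F) := by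
    show (W.map (algebraMap ℤ (𝓞 F))).Δ = _
    rw [WeierstrassCurve.map_Δ]
    rfl
  have hpos : ∀ w : HeightOneSpectrum (𝓞 K), ((W.Δ : ℤ) : 𝓞 K) ∈ w.asIdeal ↔ mK K m ≤ w.asIdeal := by
    intro w
    have h1 : algebraMap (𝓞 F) (𝓞 K) (W⁄(𝓞 F)).Δ ∈ w.asIdeal ↔ H55P.mK K m ≤ w.asIdeal := by
      obtain ⟨v, hv, -, -, hmv⟩ := H55K.DD.below (m := m) w
      rw [hmv, ← hH.supp v, hv]
      rfl
    rw [hΔF, map_intCast] at h1
    exact h1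
  obtain ⟨j₀, hj₀⟩ := H55K.jint_of hH.data.per hH.data.ell
  refine lfunD (W⁄K) (PsiP K ψ) T (fun w hw => ?_) (fun w hw => ?_) n
  · exact H55K.DD.psi_bad hψ w ((hpos w).1 ((hT w).1 hw).1)
  · obtain ⟨v, hv, hN, hf, hmv⟩ := H55K.DD.below (m := m) w
    by_cases hm : mK K m ≤ w.asIdeal
    · have h0 := H55K.DD.psi_bad hψ w hm
      have hb : ¬ GoodAt (((W⁄(𝓞 F))⁄F)⁄K) w := by
        rw [hK]
        exact fun hg => hw ((hT w).2 ⟨(hpos w).2 hm, hg⟩)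
      rw [← hK, H55K.DD.lf_bad (W⁄(𝓞 F)) w j₀ hj₀ hb, h0, map_zero]
      have h1 : ef (Ideal.absNorm w.asIdeal) 0 = 1 := by
        unfold ef
        rw [H55N.H7_ps, map_one]
      rw [h1, mul_one]
    · have hm' : ¬ m ≤ v.asIdeal := fun h => hm (hmv.2 h)
      have hΔ' : (W⁄(𝓞 F)).Δ ∉ v.asIdeal := fun h => hm' ((hH.supp v).1 h)
      obtain ⟨t1, t2⟩ := H55K.DD.trc hψ hm'
      rw [← hH.deu v hΔ'] at t2
      rw [← hK, H55K.DD.lf_good (W⁄(𝓞 F)) w v hv hΔ' _ _ t2 t1, H55P.PsiP_apply, hN, map_pow, map_pow, map_pow, map_pow,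
        Complex.conj_conj, mul_comm]

end H55G
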