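import Mathlib
import Pool.Agent.Lib.H55G.E9
import Pool.Agent.Lib.H55K.D7
import Pool.Agent.Lib.H55K.DM
import Pool.Agent.Lib.H55K.RI2
import Pool.Agent.Lib.H55G.F1b

/-! # H55G, part F: the L-function -/

open NumberField IsDedekindDomain WeierstrassCurve

namespace H55G

open H55P (IQ embF eF LF Per IsHecke Pt ac Inert Dec Nm PsiP mK UnitP UnrP)
open H35P (WAB Ker GoodW IntW)
open H55K (CMA Tor TN ak xc yc cj cj_cj mul_cj Nm_cj Nm_mul Nm_nat GoodAt Abw)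
open H55K.DD (LF' ef)
open H55K.MG (VC Crd)
open H55K.TQ

variable {F : Type} [Field F] [NumberField F] [IQ F] {W : WeierstrassCurve ℤ} {Om : ℂ} {m : Ideal (𝓞 F)}
  {ψ : Ideal (𝓞 F) →*₀ 𝓞 F}

variable {K₀ K : Type} [Field K₀] [NumberField K₀] [Field K] [NumberField K] [Algebra F K] [Algebra K₀ K] {τ : K ≃ₐ[K₀] K}

/-- Chunk F3 (M). Port of lfun_quad (H55K/RI2.lean). (1) lfun_sq (RI1.lean) with lf_sq' (E9.lean): the L-function over K is the square of the one over K₀. (2) lfun_KD with the finite set T of K; ai_real (RE.lean) with psi_cj (RC2.lean; hram_of): AI (conj PsiP) = AI (PsiP). (3) ∏ over T of LF' (W⁄K) w = (∏ over T₀ of LF' (W⁄K₀) v)^2: T is the disjoint union over v in T₀ of the primes above v: for w above v: w in TE W K iff v in TE W K₀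
(the integer Δ; good_up, good_desc, bad_ram), lf_sq' for v. (4) So the square of the L-function over K₀ is (AI PsiP * ∏ over T₀)^2; H13E.sqrt_unique; both have value 1 at 1 (ri2_one, ri2_AI_one, lf_one). -/
theorem lfun_quadD (hH : BaseH F (W⁄(𝓞 F)) Om m ψ) (hτ : QT F K₀ K τ) (T : Finset (HeightOneSpectrum (𝓞 K₀)))
    (hT : ∀ v, v ∈ T ↔ v ∈ TE W K₀) (n : ℕ) :
    (((W⁄K₀).LFunction n : ℤ) : ℂ) = (H55N.AI (fun a => PsiP K ψ a) * ∏ v ∈ T, LF' (W⁄K₀) v) n := by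
  classical
  have hQ : H55K.TQ.QuadG F K₀ K := ⟨hτ.rank, τ, hτ.tau⟩
  have hψ := hH.data.hecke
  have ecur : ((W⁄K₀)⁄K) = W⁄K := by
    show (W.map (algebraMap ℤ K₀)).map (algebraMap K₀ K) = W.map (algebraMap ℤ K)
    rw [WeierstrassCurve.map_map]
    congr 1
    exact Subsingleton.elim _ _
  obtain ⟨ov, hmo⟩ : ∃ ov : HeightOneSpectrum (𝓞 K₀) → Finset (HeightOneSpectrum (𝓞 K)),
      ∀ v w, w ∈ ov v ↔ v.asIdeal = w.asIdeal.under (𝓞 K₀) :=
    ⟨fun v => (H13E.q6_fin K v).toFinset, fun v w => by simp⟩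
  have hTK : ∀ w : HeightOneSpectrum (𝓞 K), w ∈ T.biUnion ov ↔ w ∈ TE W K := by
    intro w
    obtain ⟨v, hv⟩ : ∃ v : HeightOneSpectrum (𝓞 K₀), v.asIdeal = w.asIdeal.under (𝓞 K₀) :=
      ⟨H13E.q6_under K₀ w, rfl⟩
    have h1 : w ∈ T.biUnion ov ↔ v ∈ T := by
      rw [Finset.mem_biUnion]
      constructor
      · rintro ⟨v', hv', hw⟩
        rw [hmo, ← hv] at hw
        rwa [← HeightOneSpectrum.ext hw]
      · intro h
        exact ⟨v, h, (hmo v w).2 hv⟩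
    have h2 : ((W.Δ : ℤ) : 𝓞 K₀) ∈ v.asIdeal ↔ ((W.Δ : ℤ) : 𝓞 K) ∈ w.asIdeal := by
      rw [hv, Ideal.under_def, Ideal.mem_comap, map_intCast]
    rw [h1, hT]
    constructor
    · rintro ⟨h3, h4⟩
      refine ⟨h2.1 h3, ?_⟩
      have h5 := good_up hv h4
      rwa [ecur] at h5
    · rintro ⟨h3, h4⟩
      refine ⟨h2.2 h3, good_desc hH hτ hv ?_ h4⟩
      by_contra hcon
      push Not at hcon
      exact (bad_ram hH hτ hv hcon).1 h4
  obtain ⟨P, hP⟩ : ∃ P : ArithmeticFunction ℂ, P = ∏ v ∈ T, LF' (W⁄K₀) v := ⟨_, rfl⟩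
  obtain ⟨A, hA⟩ : ∃ A : ArithmeticFunction ℂ, A = H55N.AI (fun a : Ideal (𝓞 K) => PsiP K ψ a) := ⟨_, rfl⟩
  have hprod : ∏ w ∈ T.biUnion ov, LF' (W⁄K) w = P * P := by
    rw [Finset.prod_biUnion]
    · rw [Finset.prod_congr rfl fun v _ => lf_sq' hH hτ v (ov v) (hmo v), Finset.prod_mul_distrib, hP]
    · intro v _ v' _ hne
      rw [Function.onFun, Finset.disjoint_left]
      intro w hw hw'
      rw [hmo] at hw hw'
      apply hne
      apply HeightOneSpectrum.ext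
      rw [hw, hw']
  have hcj : H55N.AI (fun a : Ideal (𝓞 K) => (starRingEnd ℂ) (PsiP K ψ a)) = A := by
    rw [hA]
    exact ai_real hQ (psi_cj hψ (fun v h1 _ => hH.deu v h1) hH.supp (fun v hv => hram_of hH v hv))
  have hf1 : (((W⁄K₀).LFunction : ArithmeticFunction ℤ) : ArithmeticFunction ℂ) 1 = 1 := by
    rw [ArithmeticFunction.intCoe_apply]
    exact ri2_one (W⁄K₀)
  have hg1 : (A * P) 1 = 1 := by
    have hP1 : P 1 = 1 := by
      rw [hP]
      exact H55D.DQA_prod_one T _ fun w _ => lf_one (W⁄K₀) w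
    have hA1 : A 1 = 1 := by
      rw [hA]
      exact ri2_AI_one ψ
    rw [ArithmeticFunction.mul_apply_one, hA1, hP1, one_mul]
  have hsq : ∀ k, ((((W⁄K₀).LFunction : ArithmeticFunction ℤ) : ArithmeticFunction ℂ) *
      (((W⁄K₀).LFunction : ArithmeticFunction ℤ) : ArithmeticFunction ℂ)) k = ((A * P) * (A * P)) k := by
    intro k
    rw [← lfun_sq (fun v T hT => lf_sq' hH hτ v T hT) k, lfun_KD hH (T.biUnion ov) hTK k, hprod, hcj]
    have e : (H55N.AI (PsiP K ψ) : ArithmeticFunction ℂ) = A := hA.symm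
    rw [e]
    congr 1
    ring
  have hfg := H13E.sqrt_unique hf1 hg1 hsq
  rw [← hA, ← hP, ← hfg, ArithmeticFunction.intCoe_apply]

end H55G
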