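import Mathlib
import Pool.Agent.Lib.H55G.D0
import Pool.Agent.Lib.H55G.F1

/-! # H55G, part F: the Euler factors as Dirichlet series -/

open NumberField IsDedekindDomain WeierstrassCurve

namespace H55G

open H55P (IQ embF eF LF Per IsHecke Pt ac Inert Dec Nm PsiP mK UnitP UnrP)
open H55K (CMA Tor TN ak xc yc cj GoodAt Abw)
open H55K.DD (LF' ef)
open H55K.TQ

/-- The Euler factor (denominator) with N points over the field with q elements. -/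
noncomputable def Ew (q N : ℕ) (s : ℂ) : ℂ := 1 - ((q : ℂ) + 1 - N) * (q : ℂ) ^ (-s) + (q : ℂ) ^ (1 - 2 * s)

/-- Chunk F4A (S). cpow of a positive number is entire (q > 0). -/
theorem ew_an {q : ℕ} (hq : 1 < q) (N : ℕ) : Differentiable ℂ (Ew q N) := by
  have hq0 : (q : ℂ) ≠ 0 := by
    have h : q ≠ 0 := by omega
    exact_mod_cast h
  have h1 : Differentiable ℂ (fun s : ℂ => (q : ℂ) ^ (-s)) := differentiable_id.neg.const_cpow (Or.inl hq0)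
  have h2 : Differentiable ℂ (fun s : ℂ => (q : ℂ) ^ (1 - 2 * s)) :=
    ((differentiable_const _).sub (differentiable_id.const_mul 2)).const_cpow (Or.inl hq0)
  exact ((differentiable_const _).sub (h1.const_mul _)).add h2

/-- Chunk F4A (S). q^(-1) = 1/q, q^(1-2) = 1/q: 1 - (q + 1 - N)/q + 1/q = N/q. -/
theorem ew_one {q : ℕ} (hq : 1 < q) (N : ℕ) : Ew q N 1 = (N : ℂ) / q := by
  have hq0 : (q : ℂ) ≠ 0 := by
    have h : q ≠ 0 := by omega
    exact_mod_cast h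
  unfold Ew
  have h1 : (1 : ℂ) - 2 * 1 = -1 := by ring
  rw [h1, Complex.cpow_neg_one]
  field_simp
  ring

/-- Chunk F4A (S). Complex.cpow_conj (q positive real, arg 0): conj (q^(conj z)) = q^z. -/
theorem ew_conj {q : ℕ} (hq : 1 < q) (N : ℕ) (s : ℂ) : (starRingEnd ℂ) (Ew q N ((starRingEnd ℂ) s)) = Ew q N s := by
  have harg : ((q : ℕ) : ℂ).arg ≠ Real.pi := by
    rw [Complex.natCast_arg]
    exact Real.pi_pos.ne
  have hc : ∀ z : ℂ, (starRingEnd ℂ) ((q : ℂ) ^ z) = (q : ℂ) ^ ((starRingEnd ℂ) z) := by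
    intro z
    rw [Complex.cpow_conj _ _ harg, Complex.conj_natCast]
  unfold Ew
  simp only [map_add, map_sub, map_mul, hc, map_neg, Complex.conj_conj, map_one, map_ofNat, map_natCast]

/-- Chunk F4A (S/M). a = q + 1 - N, a^2 ≤ 4 q: the roots α, β of T^2 - a T + q are complex conjugates (or equal reals): α = (a + i sqrt(4 q - a^2))/2, β = conj α, |α|^2 = α β = q. -/
theorem roots_of_hasse {q N : ℕ} (h : ((q : ℤ) + 1 - (N : ℤ)) ^ 2 ≤ 4 * q) : ∃ α β : ℂ, α + β = (q : ℂ) + 1 - N ∧ α * β = q ∧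
    ‖α‖ ^ 2 = q ∧ ‖β‖ ^ 2 = q := by
  let a : ℝ := (q : ℝ) + 1 - N
  have ha : a ^ 2 ≤ 4 * q := by
    have h0 : (((((q : ℤ) + 1 - (N : ℤ)) ^ 2 : ℤ)) : ℝ) ≤ ((4 * (q : ℤ) : ℤ) : ℝ) := Int.cast_le.2 h
    push_cast at h0
    exact h0
  have hr : 0 ≤ 4 * (q : ℝ) - a ^ 2 := by linarith
  have hr2 : Real.sqrt (4 * (q : ℝ) - a ^ 2) ^ 2 = 4 * (q : ℝ) - a ^ 2 := Real.sq_sqrt hr
  generalize Real.sqrt (4 * (q : ℝ) - a ^ 2) = r at hr2
  have haC : (q : ℂ) + 1 - N = ((a : ℝ) : ℂ) := by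
    change (q : ℂ) + 1 - N = (((q : ℝ) + 1 - N : ℝ) : ℂ)
    push_cast
    ring
  refine ⟨⟨a / 2, r / 2⟩, ⟨a / 2, -(r / 2)⟩, ?_, ?_, ?_, ?_⟩
  · rw [haC]
    refine Complex.ext ?_ ?_
    · rw [Complex.add_re, Complex.ofReal_re]
      ring
    · rw [Complex.add_im, Complex.ofReal_im]
      ring
  · refine Complex.ext ?_ ?_
    · rw [Complex.mul_re, Complex.natCast_re]
      nlinarith [hr2]
    · rw [Complex.mul_im, Complex.natCast_im]
      ring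
  · rw [Complex.sq_norm, Complex.normSq_apply]
    nlinarith [hr2]
  · rw [Complex.sq_norm, Complex.normSq_apply]
    nlinarith [hr2]

/-- Chunk F4A (S/M). Ew q N s = (1 - α q^(-s)) (1 - β q^(-s)) (q^(1-2s) = q q^(-s) q^(-s), α β = q), |α q^(-s)| = q^(1/2 - Re s) < 1. -/
theorem ew_ne {q N : ℕ} (hq : 1 < q) (h : ((q : ℤ) + 1 - (N : ℤ)) ^ 2 ≤ 4 * q) {s : ℂ} (hs : 1 / 2 < s.re) : Ew q N s ≠ 0 := by
  obtain ⟨α, β, h1, h2, h3, h4⟩ := roots_of_hasse h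
  have hq0 : (q : ℂ) ≠ 0 := by
    have h : q ≠ 0 := by omega
    exact_mod_cast h
  have hq1 : (1 : ℝ) < q := by exact_mod_cast hq
  have hqp : (0 : ℝ) < q := by linarith
  have e1 : (q : ℂ) ^ (1 - 2 * s) = q * (q : ℂ) ^ (-s) * (q : ℂ) ^ (-s) := by
    have h5 : (1 : ℂ) - 2 * s = 1 + -s + -s := by ring
    rw [h5, Complex.cpow_add _ _ hq0, Complex.cpow_add _ _ hq0, Complex.cpow_one]
  have e2 : Ew q N s = (1 - α * (q : ℂ) ^ (-s)) * (1 - β * (q : ℂ) ^ (-s)) := by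
    unfold Ew
    rw [e1, ← h1, ← h2]
    ring
  have hn : ∀ γ : ℂ, ‖γ‖ ^ 2 = q → 1 - γ * (q : ℂ) ^ (-s) ≠ 0 := by
    intro γ hγ h5
    have h6 : γ * (q : ℂ) ^ (-s) = 1 := (sub_eq_zero.1 h5).symm
    have h7 : ‖γ * (q : ℂ) ^ (-s)‖ ^ 2 = 1 := by rw [h6, norm_one, one_pow]
    rw [norm_mul, mul_pow, hγ, Complex.norm_natCast_cpow_of_pos (by omega), Complex.neg_re] at h7
    have h8 : ((q : ℝ) ^ (-s.re)) ^ 2 = (q : ℝ) ^ (-s.re * 2) := by
      rw [← Real.rpow_natCast ((q : ℝ) ^ (-s.re)) 2, ← Real.rpow_mul hqp.le]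
      norm_num
    rw [h8] at h7
    have h9 : (q : ℝ) * (q : ℝ) ^ (-s.re * 2) = (q : ℝ) ^ (1 + -s.re * 2) := by
      rw [Real.rpow_add hqp, Real.rpow_one]
    rw [h9] at h7
    have h10 : (q : ℝ) ^ (1 + -s.re * 2) < 1 := Real.rpow_lt_one_of_one_lt_of_neg hq1 (by linarith)
    linarith
  rw [e2]
  exact mul_ne_zero (hn α h3) (hn β h4)

end H55G
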