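import Mathlib
import Pool.Agent.Lib.H55G.D0
import Pool.Agent.Lib.H55G.F1
import Pool.Agent.Lib.H55G.F4a

/-! # H55G, part F: the Euler factors as Dirichlet series -/

open NumberField IsDedekindDomain WeierstrassCurve

namespace H55G

open H55P (IQ embF eF LF Per IsHecke Pt ac Inert Dec Nm PsiP mK UnitP UnrP)
open H55K (CMA Tor TN ak xc yc cj GoodAt Abw)
open H55K.DD (LF' ef)
open H55K.TQ

theorem f4b_coeff (a : ℂ) (k : ℕ) :
    PowerSeries.coeff k ((1 - PowerSeries.C a * PowerSeries.X)⁻¹ : PowerSeries ℂ) = a ^ k := by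
  have h : (PowerSeries.mk fun n => a ^ n) = ((1 - PowerSeries.C a * PowerSeries.X)⁻¹ : PowerSeries ℂ) := by
    rw [PowerSeries.eq_inv_iff_mul_eq_one (by simp)]
    ext n
    rw [mul_sub, mul_one, map_sub, PowerSeries.coeff_mk, mul_comm (PowerSeries.C a), ← mul_assoc]
    cases n with
    | zero => simp
    | succ n =>
      rw [PowerSeries.coeff_mul_C, PowerSeries.coeff_succ_mul_X, PowerSeries.coeff_mk, PowerSeries.coeff_one,
        if_neg (Nat.succ_ne_zero n), pow_succ, sub_self]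
  rw [← h, PowerSeries.coeff_mk]

theorem f4b_pow (q k : ℕ) (s : ℂ) : ((q ^ k : ℕ) : ℂ) ^ s = ((q : ℂ) ^ s) ^ k := by
  induction k with
  | zero => simp
  | succ k ih => rw [pow_succ, Nat.cast_mul, Complex.natCast_mul_natCast_cpow, ih, pow_succ]

theorem f4b_lt {q : ℕ} (hq : 1 < q) {α : ℂ} (hα : ‖α‖ ^ 2 = q) {s : ℂ} (hs : 1 / 2 < s.re) :
    ‖α * (q : ℂ) ^ (-s)‖ < 1 := by
  have hq1 : (1 : ℝ) < q := by exact_mod_cast hq
  have hq0 : (0 : ℝ) < q := by linarith
  rw [← sq_lt_one_iff₀ (norm_nonneg _), norm_mul, mul_pow, hα, Complex.norm_natCast_cpow_of_pos (by omega),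
    ← Real.rpow_natCast, ← Real.rpow_mul hq0.le]
  nth_rw 1 [← Real.rpow_one (q : ℝ)]
  rw [← Real.rpow_add hq0]
  apply Real.rpow_lt_one_of_one_lt_of_neg hq1
  rw [Complex.neg_re]
  push_cast
  linarith

/-- Chunk F4B (M). The Dirichlet series of ef q α: ef q α = ofPowerSeries q (geometric series), (ef q α) (q^k) = α^k and 0 at the other numbers (H55N.H7_ps, ArithmeticFunction.ofPowerSeries_apply..; the series (1 - C α X)⁻¹ has coefficients α^k). Its Dirichlet series is the sum of α^k (q^k)^(-s) = (α q^(-s))^k (sum over the powers of q: HasSum on the range of the injective map k ↦ q^k,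
Function.Injective.hasSum_iff), = 1/(1 - α q^(-s)), |α q^(-s)| < 1. -/
theorem ef_ser {q : ℕ} (hq : 1 < q) {α : ℂ} (hα : ‖α‖ ^ 2 = q) {s : ℂ} (hs : 1 / 2 < s.re) :
    LSeriesHasSum (fun n => ef q α n) s (1 - α * (q : ℂ) ^ (-s))⁻¹ := by
  unfold LSeriesHasSum
  have hinj : Function.Injective (fun k : ℕ => q ^ k) := Nat.pow_right_injective hq
  rw [← hinj.hasSum_iff]
  · have h1 := hasSum_geometric_of_norm_lt_one (f4b_lt hq hα hs)
    have e : (LSeries.term (fun n => ef q α n) s ∘ fun k : ℕ => q ^ k) = fun k => (α * (q : ℂ) ^ (-s)) ^ k := by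
      funext k
      have hk : q ^ k ≠ 0 := pow_ne_zero k (by omega)
      rw [Function.comp_apply, LSeries.term_of_ne_zero hk, ef, ArithmeticFunction.ofPowerSeries_apply_pow hq,
        f4b_coeff, f4b_pow, mul_pow, Complex.cpow_neg, inv_pow, div_eq_mul_inv]
    rw [e]
    exact h1
  · intro n hn
    rcases eq_or_ne n 0 with h0 | h0
    · rw [h0, LSeries.term_zero]
    · rw [LSeries.term_of_ne_zero h0, ef, ArithmeticFunction.ofPowerSeries_apply hq,
        Function.extend_apply' _ _ _ (fun ⟨k, hk⟩ => hn ⟨k, hk⟩), Pi.zero_apply, zero_div]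

end H55G
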