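import Mathlib
import Pool.Agent.Lib.H55G.D0
import Pool.Agent.Lib.H55G.F1
import Pool.Agent.Lib.H55G.F4b

/-! # H55G, part F: the Euler factors as Dirichlet series -/

open NumberField IsDedekindDomain WeierstrassCurve

namespace H55G

open H55P (IQ embF eF LF Per IsHecke Pt ac Inert Dec Nm PsiP mK UnitP UnrP)
open H55K (CMA Tor TN ak xc yc cj GoodAt Abw)
open H55K.DD (LF' ef)
open H55K.TQ

/-- Chunk F4B (S). lf_ef (E8.lean), roots_of_hasse, ef_ser twice, ArithmeticFunction.LSeriesHasSum_mul; Ew = product (see ew_ne). 1 < q: H55K.DD.d6_one_lt. -/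
theorem lf_ser {k : Type} [Field k] [NumberField k] (W : WeierstrassCurve k) (w : HeightOneSpectrum (𝓞 k)) (hg : GoodAt W w)
    (h : ((Ideal.absNorm w.asIdeal : ℤ) + 1 - (NW W w : ℤ)) ^ 2 ≤ 4 * Ideal.absNorm w.asIdeal) {s : ℂ} (hs : 1 / 2 < s.re) :
    LSeriesHasSum (fun n => LF' W w n) s (Ew (Ideal.absNorm w.asIdeal) (NW W w) s)⁻¹ := by
  obtain ⟨q, hqd⟩ : ∃ q : ℕ, q = Ideal.absNorm w.asIdeal := ⟨_, rfl⟩
  obtain ⟨N, hNd⟩ : ∃ N : ℕ, N = NW W w := ⟨_, rfl⟩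
  have hq : 1 < q := by
    rw [hqd]
    exact H55K.DD.d6_one_lt w
  rw [← hqd, ← hNd] at h ⊢
  obtain ⟨α, β, h1, h2, hα, hβ⟩ := roots_of_hasse h
  have hlf := lf_ef W w hg (α := α) (β := β) (by rw [← hqd, ← hNd]; exact h1) (by rw [← hqd]; exact h2)
  rw [← hqd] at hlf
  have hA := ef_ser hq hα hs
  have hB := ef_ser hq hβ hs
  have hAB := ArithmeticFunction.LSeriesHasSum_mul hA hB
  rw [hlf]
  have hq0 : (q : ℂ) ≠ 0 := by
    have : q ≠ 0 := by omega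
    exact_mod_cast this
  have hE : Ew q N s = (1 - α * (q : ℂ) ^ (-s)) * (1 - β * (q : ℂ) ^ (-s)) := by
    have h3 : (q : ℂ) ^ (1 - 2 * s) = q * ((q : ℂ) ^ (-s) * (q : ℂ) ^ (-s)) := by
      rw [← Complex.cpow_add _ _ hq0]
      have h4 : 1 - 2 * s = 1 + (-s + -s) := by ring
      rw [h4, Complex.cpow_add _ _ hq0, Complex.cpow_one]
    unfold Ew
    rw [h3, ← h1]
    obtain ⟨x, hx⟩ : ∃ x : ℂ, x = (q : ℂ) ^ (-s) := ⟨_, rfl⟩
    rw [← hx]
    linear_combination (-(x * x)) * h2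
  rw [hE, mul_inv]
  exact hAB

end H55G
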