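import Mathlib
import Pool.Agent.Lib.H55G.D0
import Pool.Agent.Lib.H55G.F1
import Pool.Agent.Lib.H55G.F4c

/-! # H55G, part F: the Euler factors as Dirichlet series -/

open NumberField IsDedekindDomain WeierstrassCurve

namespace H55G

open H55P (IQ embF eF LF Per IsHecke Pt ac Inert Dec Nm PsiP mK UnitP UnrP)
open H55K (CMA Tor TN ak xc yc cj GoodAt Abw)
open H55K.DD (LF' ef)
open H55K.TQ

/-- The product of the factors over the primes in TE W K. -/
noncomputable def EK (W : WeierstrassCurve ℤ) (K : Type) [Field K] [NumberField K] (s : ℂ) : ℂ :=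
  ∏ᶠ w ∈ TE W K, Ew (Ideal.absNorm w.asIdeal) (NW (W⁄K) w) s

theorem F4d_one (s : ℂ) : LSeriesHasSum (fun n => (1 : ArithmeticFunction ℂ) n) s 1 := by
  have h1 : ∀ n : ℕ, n ≠ 1 → LSeries.term (fun n => (1 : ArithmeticFunction ℂ) n) s n = 0 := by
    intro n hn
    rcases eq_or_ne n 0 with rfl | h0
    · exact LSeries.term_zero _ _
    · rw [LSeries.term_of_ne_zero h0, ArithmeticFunction.one_apply_ne hn, zero_div]
  have h2 : LSeries.term (fun n => (1 : ArithmeticFunction ℂ) n) s 1 = 1 := by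
    rw [LSeries.term_of_ne_zero one_ne_zero, ArithmeticFunction.one_one, Nat.cast_one,
      Complex.one_cpow, div_one]
  have h3 := hasSum_single 1 h1
  rw [h2] at h3
  exact h3

theorem F4d_EK (W : WeierstrassCurve ℤ) (K : Type) [Field K] [NumberField K]
    (T : Finset (HeightOneSpectrum (𝓞 K))) (hT : ∀ w, w ∈ T ↔ w ∈ TE W K) (s : ℂ) :
    EK W K s = ∏ w ∈ T, Ew (Ideal.absNorm w.asIdeal) (NW (W⁄K) w) s := by
  have h : TE W K = (T : Set (HeightOneSpectrum (𝓞 K))) := by
    ext w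
    exact (hT w).symm
  unfold EK
  rw [h, finprod_mem_coe_finset]

/-- Chunk F4C (S/M). finprod_mem over a finite set is a Finset product (te_fin, finprod_mem_eq_finite_toFinset_prod); induction on the Finset with lf_ser and LSeriesHasSum_mul (the empty product: the Dirichlet series of 1 is 1, LSeries of ArithmeticFunction.one: δ function; H55N or Mathlib: LSeriesHasSum for delta). -/
theorem ek_ser (W : WeierstrassCurve ℤ) (hΔ : W.Δ ≠ 0) (K : Type) [Field K] [NumberField K]
    (h : ∀ w ∈ TE W K, ((Ideal.absNorm w.asIdeal : ℤ) + 1 - (NW (W⁄K) w : ℤ)) ^ 2 ≤ 4 * Ideal.absNorm w.asIdeal)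
    (T : Finset (HeightOneSpectrum (𝓞 K))) (hT : ∀ w, w ∈ T ↔ w ∈ TE W K) {s : ℂ} (hs : 1 / 2 < s.re) :
    LSeriesHasSum (fun n => (∏ w ∈ T, LF' (W⁄K) w) n) s (EK W K s)⁻¹ := by
  classical
  rw [F4d_EK W K T hT s]
  have key : ∀ S : Finset (HeightOneSpectrum (𝓞 K)), S ⊆ T →
      LSeriesHasSum (fun n => (∏ w ∈ S, LF' (W⁄K) w) n) s
        (∏ w ∈ S, Ew (Ideal.absNorm w.asIdeal) (NW (W⁄K) w) s)⁻¹ := by
    intro S
    induction S using Finset.induction_on with
    | empty =>
      intro _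
      rw [Finset.prod_empty, Finset.prod_empty, inv_one]
      exact F4d_one s
    | insert w S hw ih =>
      intro hS
      rw [Finset.prod_insert hw, Finset.prod_insert hw, mul_inv]
      have hwT : w ∈ TE W K := (hT w).1 (hS (Finset.mem_insert_self w S))
      exact ArithmeticFunction.LSeriesHasSum_mul (lf_ser (W⁄K) w hwT.2 (h w hwT) hs)
        (ih fun x hx => hS (Finset.mem_insert_of_mem hx))
  exact key T (Finset.Subset.refl T)

/-- Chunk F4C (S). Products of ew_an, ew_ne, ew_conj, ew_one over the finite set. -/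
theorem ek_props (W : WeierstrassCurve ℤ) (hΔ : W.Δ ≠ 0) (K : Type) [Field K] [NumberField K]
    (h : ∀ w ∈ TE W K, ((Ideal.absNorm w.asIdeal : ℤ) + 1 - (NW (W⁄K) w : ℤ)) ^ 2 ≤ 4 * Ideal.absNorm w.asIdeal) :
    Differentiable ℂ (EK W K) ∧ (∀ s : ℂ, 1 / 2 < s.re → EK W K s ≠ 0) ∧
      (∀ s : ℂ, (starRingEnd ℂ) (EK W K ((starRingEnd ℂ) s)) = EK W K s) ∧
      EK W K 1 = ∏ᶠ w ∈ TE W K, ((NW (W⁄K) w : ℂ) / (Ideal.absNorm w.asIdeal : ℂ)) := by
  classical
  obtain ⟨T, hT⟩ : ∃ T : Finset (HeightOneSpectrum (𝓞 K)), ∀ w, w ∈ T ↔ w ∈ TE W K :=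
    ⟨(te_fin W hΔ K).toFinset, fun w => Set.Finite.mem_toFinset _⟩
  have hE := F4d_EK W K T hT
  refine ⟨?_, ?_, ?_, ?_⟩
  · have hE' : EK W K = fun s => ∏ w ∈ T, Ew (Ideal.absNorm w.asIdeal) (NW (W⁄K) w) s := funext hE
    rw [hE']
    have key : ∀ S : Finset (HeightOneSpectrum (𝓞 K)),
        Differentiable ℂ (fun s => ∏ w ∈ S, Ew (Ideal.absNorm w.asIdeal) (NW (W⁄K) w) s) := by
      intro S
      induction S using Finset.induction_on with
      | empty =>
        simp only [Finset.prod_empty]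
        exact differentiable_const _
      | insert w S hw ih =>
        have e : (fun s => ∏ w ∈ insert w S, Ew (Ideal.absNorm w.asIdeal) (NW (W⁄K) w) s) =
            fun s => Ew (Ideal.absNorm w.asIdeal) (NW (W⁄K) w) s *
              ∏ w ∈ S, Ew (Ideal.absNorm w.asIdeal) (NW (W⁄K) w) s := by
          funext s
          exact Finset.prod_insert hw
        rw [e]
        exact (ew_an (H55K.DD.d6_one_lt w) _).mul ih
    exact key T
  · intro s hs
    rw [hE s, Finset.prod_ne_zero_iff]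
    intro w hw
    exact ew_ne (H55K.DD.d6_one_lt w) (h w ((hT w).1 hw)) hs
  · intro s
    rw [hE, hE, map_prod]
    exact Finset.prod_congr rfl fun w _ => ew_conj (H55K.DD.d6_one_lt w) _ s
  · rw [hE 1]
    have h : TE W K = (T : Set (HeightOneSpectrum (𝓞 K))) := by
      ext w
      exact (hT w).symm
    rw [h, finprod_mem_coe_finset]
    exact Finset.prod_congr rfl fun w _ => ew_one (H55K.DD.d6_one_lt w) _

end H55G
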