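import Mathlib
import Pool.Agent.Lib.H55G.F4a
import Pool.Agent.Lib.H55G.F4b
import Pool.Agent.Lib.H55G.F4c
import Pool.Agent.Lib.H55G.F4d
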