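import Mathlib
import Pool.Agent.Lib.H13R.D1
import Pool.Agent.Lib.H55G.E2C
import Pool.Agent.Lib.H55G.F1
import Pool.Agent.Lib.H55G.F4

/-! # H55G, part F: the L-function over K in terms of the Hecke L-series -/

open NumberField IsDedekindDomain WeierstrassCurve

namespace H55G

open H55P (IQ embF eF LF Per IsHecke Pt ac Inert Dec Nm PsiP mK UnitP UnrP)
open H35P (WAB Ker GoodW IntW)
open H55K (CMA Tor TN ak xc yc cj cj_cj mul_cj Nm_cj Nm_mul Nm_nat GoodAt Abw)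
open H55K.DD (LF' ef)
open H55K.MG (VC Crd)
open H55K.TQ

variable {F : Type} [Field F] [NumberField F] [IQ F] {W : WeierstrassCurve ℤ} {Om : ℂ} {m : Ideal (𝓞 F)}
  {ψ : Ideal (𝓞 F) →*₀ 𝓞 F} {p : ℕ}

/-- The relation between the L-function over K and the Hecke L-series over KG: two cases. As H55K.TQ.LRel, with the factor EK. -/
def LRelE (W : WeierstrassCurve ℤ) (ψ : Ideal (𝓞 F) →*₀ 𝓞 F) (K : Type) [Field K] [NumberField K] (K' : IntermediateField F (AlgebraicClosure F))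
    [NumberField K'] : Prop :=
  (Module.finrank ℚ K = 2 * Module.finrank F K' ∧
    ∀ Φ : ℂ → ℂ, (∀ s : ℂ, 3 / 2 < s.re → HasSum (H55N.tm (PsiP K' ψ) s) (Φ s)) → ∀ s : ℂ, 3 / 2 < s.re →
      LSeriesHasSum (fun n => (((W⁄K).LFunction n : ℤ) : ℂ)) s (Φ s * (starRingEnd ℂ) (Φ ((starRingEnd ℂ) s)) / EK W K s)) ∨
  (Module.finrank ℚ K = Module.finrank F K' ∧
    ∀ Φ : ℂ → ℂ, (∀ s : ℂ, 3 / 2 < s.re → HasSum (H55N.tm (PsiP K' ψ) s) (Φ s)) → ∀ s : ℂ, 3 / 2 < s.re →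
      LSeriesHasSum (fun n => (((W⁄K).LFunction n : ℤ) : ℂ)) s (Φ s / EK W K s))

/-- Chunk F5 (M). Port of H13R.lrelR with lser_FR, lser_QR (Lib/H13R/D1.lean). First case (kg_dich, kg_iso; θ : K ≃ₐ[F] K'): lser_FR with lfun_KD (T = the Finset of te_fin) in place of lfun_K: the series is the product of h3 (as in lser_FR) and ek_ser (F4.lean; hasse_Z, E2C.lean): LSeriesHasSum_mul. Second case: Algebra K (KG F K ι) by KGmap, QuadG gives QT F K (KG F K ι) τ (hQ.rank, hQ.tau); lfun_quadD and ek_ser in lser_QR.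
The degrees as there. -/
theorem lrelE (hH : BaseH F (W⁄(𝓞 F)) Om m ψ) (K : Type) [Field K] [NumberField K] (ι : K →ₐ[ℚ] AlgebraicClosure F)
    [NumberField (KG F K ι)] : LRelE W ψ K (KG F K ι) := by
  classical
  have hΔ : W.Δ ≠ 0 := by
    intro h0
    apply hH.data.ell
    rw [WeierstrassCurve.baseChange, WeierstrassCurve.map_Δ, h0, map_zero]
  have hfin := te_fin W hΔ K
  obtain ⟨T, hT⟩ : ∃ T : Finset (HeightOneSpectrum (𝓞 K)), ∀ w, w ∈ T ↔ w ∈ TE W K :=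
    ⟨hfin.toFinset, fun w => hfin.mem_toFinset⟩
  have hE : ∀ s : ℂ, 3 / 2 < s.re → LSeriesHasSum (fun n => (∏ w ∈ T, LF' (W⁄K) w) n) s (EK W K s)⁻¹ := by
    intro s hs
    exact ek_ser W hΔ K (fun w hw => hasse_Z hH K w hw.2) T hT (by linarith)
  have h := hH.data.hecke
  rcases kg_dich F K ι with ⟨f, hf⟩ | hQ
  · left
    let : Algebra F K := f.toAlgebra
    obtain ⟨θ⟩ := kg_iso F K ι f hf
    refine ⟨?_, fun Φ hΦ s hs => ?_⟩
    · have h1 := Module.finrank_mul_finrank ℚ F K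
      have h2 : Module.finrank F K = Module.finrank F (KG F K ι) := θ.toLinearEquiv.finrank_eq
      have h3 : Module.finrank ℚ F = 2 := IQ.deg
      rw [h3, h2] at h1
      exact h1.symm
    · have hLs : ∀ s : ℂ, 3 / 2 < s.re → HasSum (H55N.tm (H55P.PsiP K ψ) s) (Φ s) :=
        fun s hs => tm_congr K (KG F K ι) θ s _ (hΦ s hs)
      have hs' : 3 / 2 < ((starRingEnd ℂ) s).re := by simpa using hs
      have h0 : H55P.PsiP K ψ ⊥ = 0 := (H55P.PsiP K ψ).map_zero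
      have h1 := H55N.AI_LSeries (fun a => H55P.PsiP K ψ a) h0 s (H55N.tm_summable _ (H55P.PsiP_norm_le h) s hs)
      have h2 := H55N.AI_LSeries (fun a => (starRingEnd ℂ) (H55P.PsiP K ψ a)) (by rw [h0, map_zero]) s
        (H55N.tm_summable _ (fun a => by rw [RCLike.norm_conj]; exact H55P.PsiP_norm_le h a) s hs)
      have e1 : ∑' a, H55N.tm (fun a => H55P.PsiP K ψ a) s a = Φ s := (hLs s hs).tsum_eq
      have e2 : ∑' a, H55N.tm (fun a => (starRingEnd ℂ) (H55P.PsiP K ψ a)) s a =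
          (starRingEnd ℂ) (Φ ((starRingEnd ℂ) s)) := by
        have h3 := (Complex.hasSum_conj').2 (hLs _ hs')
        have h4 := h3.tsum_eq
        rw [← h4]
        exact tsum_congr fun a => H55N.H8_tm _ s a
      rw [e1] at h1
      rw [e2] at h2
      have h3 := ArithmeticFunction.LSeriesHasSum_mul (ArithmeticFunction.LSeriesHasSum_mul h1 h2) (hE s hs)
      have e3 : (fun n => (((W⁄K).LFunction n : ℤ) : ℂ)) = fun n =>
          (H55N.AI (H55P.PsiP K ψ) * H55N.AI (fun a => (starRingEnd ℂ) (H55P.PsiP K ψ a)) *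
            ∏ w ∈ T, LF' (W⁄K) w) n := by
        funext n
        exact lfun_KD hH T hT n
      rw [e3, div_eq_mul_inv]
      exact h3
  · right
    let : Algebra K (KG F K ι) := (KGmap F K ι).toAlgebra
    refine ⟨quad_deg F hQ, fun Φ hΦ s hs => ?_⟩
    obtain ⟨τ, hτ⟩ := hQ.tau
    have h0 : H55P.PsiP (KG F K ι) ψ ⊥ = 0 := (H55P.PsiP (KG F K ι) ψ).map_zero
    have h1 := H55N.AI_LSeries (fun a => H55P.PsiP (KG F K ι) ψ a) h0 s
      (H55N.tm_summable _ (H55P.PsiP_norm_le h) s hs)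
    have h2 : ∑' a : Ideal (𝓞 (KG F K ι)), H55N.tm (fun a => H55P.PsiP (KG F K ι) ψ a) s a = Φ s := (hΦ s hs).tsum_eq
    rw [h2] at h1
    have h3 := ArithmeticFunction.LSeriesHasSum_mul h1 (hE s hs)
    have e1 : (fun n => (((W⁄K).LFunction n : ℤ) : ℂ)) = fun n =>
        (H55N.AI (fun a => H55P.PsiP (KG F K ι) ψ a) * ∏ w ∈ T, LF' (W⁄K) w) n := by
      funext n
      exact lfun_quadD hH (K := KG F K ι) (τ := τ) ⟨hQ.rank, hτ⟩ T hT n
    rw [e1, div_eq_mul_inv]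
    exact h3

end H55G
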