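import Mathlib
import Pool.Agent.Lib.H13R.D1
import Pool.Agent.Lib.H55G.E2C
import Pool.Agent.Lib.H55G.F1
import Pool.Agent.Lib.H55G.F4
import Pool.Agent.Lib.H55G.F5a

/-! # H55G, part F: the L-function over K in terms of the Hecke L-series -/

open NumberField IsDedekindDomain WeierstrassCurve

namespace H55G

open H55P (IQ embF eF LF Per IsHecke Pt ac Inert Dec Nm PsiP mK UnitP UnrP)
open H35P (WAB Ker GoodW IntW)
open H55K (CMA Tor TN ak xc yc cj cj_cj mul_cj Nm_cj Nm_mul Nm_nat GoodAt Abw)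
open H55K.DD (LF' ef)
open H55K.MG (VC Crd)
open H55K.TQ

variable {F : Type} [Field F] [NumberField F] [IQ F] {W : WeierstrassCurve ℤ} {Om : ℂ} {m : Ideal (𝓞 F)}
  {ψ : Ideal (𝓞 F) →*₀ 𝓞 F} {p : ℕ}

/-- The condition for a prime w of K' which contains the discriminant of W and at which W has good reduction. -/
theorem f5b_use (K' : Type) [Field K'] [NumberField K'] [Algebra F K']
    (hOk : ∀ w : HeightOneSpectrum (𝓞 K'), algebraMap (𝓞 F) (𝓞 K') (W⁄(𝓞 F)).Δ ∈ w.asIdeal →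
      GoodAt (((W⁄(𝓞 F))⁄F)⁄K') w → ¬ p ∣ NW (((W⁄(𝓞 F))⁄F)⁄K') w) (w : HeightOneSpectrum (𝓞 K'))
    (hw : ((W.Δ : ℤ) : 𝓞 K') ∈ w.asIdeal) (hg : GoodAt (W⁄K') w) : ¬ p ∣ NW (W⁄K') w := by
  have hc : ((W⁄(𝓞 F))⁄F)⁄K' = W⁄K' := cur_eq K'
  have h1 : algebraMap (𝓞 F) (𝓞 K') (W⁄(𝓞 F)).Δ ∈ w.asIdeal := by
    have h2 : (W⁄(𝓞 F)).Δ = ((W.Δ : ℤ) : 𝓞 F) := by
      show (W.map (algebraMap ℤ (𝓞 F))).Δ = _
      rw [WeierstrassCurve.map_Δ]
      rfl
    rw [h2, map_intCast]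
    exact hw
  have h3 := hOk w h1 (by rw [hc]; exact hg)
  rwa [hc] at h3

/-- A rational integer in the prime v lies in every prime above v. -/
theorem f5b_mem {K K' : Type} [Field K] [NumberField K] [Field K'] [NumberField K'] [Algebra K K'] {v : HeightOneSpectrum (𝓞 K)}
    {w : HeightOneSpectrum (𝓞 K')} (hv : v.asIdeal = w.asIdeal.under (𝓞 K)) (n : ℤ) (hn : (n : 𝓞 K) ∈ v.asIdeal) :
    (n : 𝓞 K') ∈ w.asIdeal := by
  rw [hv] at hn
  have h1 : algebraMap (𝓞 K) (𝓞 K') (n : 𝓞 K) ∈ w.asIdeal := hn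
  rwa [map_intCast] at h1

/-- Good reduction goes up. -/
theorem f5b_up {K K' : Type} [Field K] [NumberField K] [Field K'] [NumberField K'] [Algebra K K'] {v : HeightOneSpectrum (𝓞 K)}
    {w : HeightOneSpectrum (𝓞 K')} (hv : v.asIdeal = w.asIdeal.under (𝓞 K)) (hg : GoodAt (W⁄K) v) :
    GoodAt (W⁄K') w := by
  have ecur : ((W⁄K)⁄K') = W⁄K' := by
    show (W.map (algebraMap ℤ K)).map (algebraMap K K') = W.map (algebraMap ℤ K')
    rw [WeierstrassCurve.map_map]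
    congr 1
    exact Subsingleton.elim _ _
  have h2 := good_up hv hg
  rwa [ecur] at h2

/-- Chunk F6 (M). kg_dich. First case: θ : K ≃ₐ[F] KG F K ι; let Algebra K KG be given by θ (as in fb3b_badR in H13R/D1.lean); w the prime of KG above v (exists by integrality), W⁄KG is good at w (good_up), Δ is in w; hOk for w (((W⁄(𝓞 F))⁄F)⁄KG = W⁄KG: cur_eq): p does not divide NW (W⁄KG) w = NW (W⁄K) v (nw_iso, E2C.lean). Second case: KG/K quadratic (QT); quad_primes' (E3.lean) for v: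
third case: bad_ram: contradiction to v good. Two primes w₁, w₂: NW w₁ = NW v (nw_split), w₁ is good (good_up): hOk. One prime, norm q^2: nw_inert: NW w₁ = (q + 1)^2 = (NW v)^2: if p ∣ NW v then p ∣ NW w₁. -/
theorem ok_of (hH : BaseH F (W⁄(𝓞 F)) Om m ψ) (K : Type) [Field K] [NumberField K] (ι : K →ₐ[ℚ] AlgebraicClosure F)
    [NumberField (KG F K ι)] (hOk : OkM p (W⁄(𝓞 F)) (KG F K ι)) : ∀ v ∈ TE W K, ¬ p ∣ NW (W⁄K) v := by
  rintro v ⟨hv1, hv2⟩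
  rcases kg_dich F K ι with ⟨f, hf⟩ | hQ
  · let _ : Algebra F K := f.toAlgebra
    obtain ⟨θ⟩ := kg_iso F K ι f hf
    let _ : Algebra K (KG F K ι) := (θ : K →+* KG F K ι).toAlgebra
    have hs : Function.Surjective (algebraMap K (KG F K ι)) := θ.surjective
    have hwm := v.isMaximal
    obtain ⟨Q, hQ1, hQ2⟩ := Ideal.exists_maximal_ideal_liesOver_of_isIntegral (S := 𝓞 (KG F K ι)) v.asIdeal
    have hQ0 : Q ≠ ⊥ := Ideal.ne_bot_of_liesOver_of_ne_bot v.ne_bot Q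
    have hover : v.asIdeal = (⟨Q, hQ1.isPrime, hQ0⟩ : HeightOneSpectrum (𝓞 (KG F K ι))).asIdeal.under (𝓞 K) := hQ2.over
    have h1 := f5b_use (KG F K ι) hOk ⟨Q, hQ1.isPrime, hQ0⟩ (f5b_mem hover _ hv1) (f5b_up hover hv2)
    rwa [nw_iso hH hs hover hv2] at h1
  · let _ : Algebra K (KG F K ι) := (KGmap F K ι).toAlgebra
    obtain ⟨hrank, τ, hτ⟩ : QuadG F K (KG F K ι) := hQ
    have hT : QT F K (KG F K ι) τ := ⟨hrank, hτ⟩
    rcases quad_primes' hT v with ⟨w₁, w₂, hne, hN1, hN2, ⟨x1, hx1, hx1'⟩, ⟨x2, hx2, hx2'⟩, h⟩ |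
      ⟨w₁, hN1, hnr, h⟩ | ⟨w₁, hr, h⟩
    · have hw1 := (h w₁).2 (Or.inl rfl)
      have n1 := nw_split hH hT hw1 hN1 ⟨x1, hx1, hx1'⟩ hv2
      have h1 := f5b_use (KG F K ι) hOk w₁ (f5b_mem hw1 _ hv1) (f5b_up hw1 hv2)
      rwa [n1] at h1
    · have hw1 := (h w₁).2 rfl
      obtain ⟨n1, n2⟩ := nw_inert hH hT hw1 hN1 hv2
      have h1 := f5b_use (KG F K ι) hOk w₁ (f5b_mem hw1 _ hv1) (f5b_up hw1 hv2)
      rw [n2] at h1
      rw [n1]
      exact fun h2 => h1 (dvd_pow h2 two_ne_zero)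
    · have hw1 := (h w₁).2 rfl
      exact fun _ => (bad_ram hH hT hw1 hr).2 hv2

end H55G
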