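import Mathlib
import Pool.Agent.Lib.H13R.D1
import Pool.Agent.Lib.H55G.E2C
import Pool.Agent.Lib.H55G.F1
import Pool.Agent.Lib.H55G.F4
import Pool.Agent.Lib.H55G.F5b
import Pool.Agent.Lib.H55K.FB6B

/-! # H55G, part F: the L-function over K in terms of the Hecke L-series -/

open NumberField IsDedekindDomain WeierstrassCurve

namespace H55G

open H55P (IQ embF eF LF Per IsHecke Pt ac Inert Dec Nm PsiP mK UnitP UnrP)
open H35P (WAB Ker GoodW IntW)
open H55K (CMA Tor TN ak xc yc cj cj_cj mul_cj Nm_cj Nm_mul Nm_nat GoodAt Abw)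
open H55K.DD (LF' ef)
open H55K.MG (VC Crd)
open H55K.TQ

variable {F : Type} [Field F] [NumberField F] [IQ F] {W : WeierstrassCurve ℤ} {Om : ℂ} {m : Ideal (𝓞 F)}
  {ψ : Ideal (𝓞 F) →*₀ 𝓞 F} {p : ℕ}

/-- The discriminant is not 0. -/
theorem f5c_hd (hH : BaseH F (W⁄(𝓞 F)) Om m ψ) : W.Δ ≠ 0 := by
  intro h
  apply hH.data.ell
  have e := WeierstrassCurve.map_Δ W (algebraMap ℤ (𝓞 F))
  rw [h, map_zero] at e
  exact e

/-- A prime number which divides the norm of the prime w lies in w. -/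
theorem f5c_mem {K : Type} [Field K] [NumberField K] (w : HeightOneSpectrum (𝓞 K)) (hp : p.Prime)
    (h : p ∣ Ideal.absNorm w.asIdeal) : (p : 𝓞 K) ∈ w.asIdeal := by
  have : Fact p.Prime := ⟨hp⟩
  have hfin : Finite (𝓞 K ⧸ w.asIdeal) := Ideal.finiteQuotientOfFreeOfNeBot w.asIdeal w.ne_bot
  have hw := w.isPrime
  have h1 : p ∣ Nat.card (𝓞 K ⧸ w.asIdeal) := h
  obtain ⟨x, hx⟩ := exists_prime_addOrderOf_dvd_card' p h1
  have hx0 : x ≠ 0 := by
    rintro rfl
    rw [addOrderOf_zero] at hx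
    exact hp.one_lt.ne hx
  have h2 : (p : 𝓞 K ⧸ w.asIdeal) * x = 0 := by
    rw [← nsmul_eq_mul, ← hx]
    exact addOrderOf_nsmul_eq_zero x
  rcases mul_eq_zero.1 h2 with h3 | h3
  · rw [← Ideal.Quotient.eq_zero_iff_mem, map_natCast]
    exact h3
  · exact absurd h3 hx0

/-- Chunk F7 (S/M). ek_props: the value at 1 is the product of NW/absNorm over the finite set TE W K. V(NW) = 1 for p not dividing NW (H55P.val_nat). V(absNorm v) = 1: absNorm v is a power of the prime number l in v; l ≠ p because Δ in v and p is coprime to Δ (fb6b_ndvd, FB6B.lean: p does not divide W.Δ; if p were in v then p and W.Δ would generate 1). -/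
theorem ek_unit (hH : BaseH F (W⁄(𝓞 F)) Om m ψ) (hp : PrimeH F (W⁄(𝓞 F)) p) (K : Type) [Field K] [NumberField K]
    (h : ∀ v ∈ TE W K, ¬ p ∣ NW (W⁄K) v) (V : ValuationSubring ℂ) (hV : V.valuation (p : ℂ) < 1) :
    V.valuation (EK W K 1) = 1 := by
  have hd := f5c_hd hH
  have hfin := te_fin W hd K
  obtain ⟨_, _, _, h1⟩ := ek_props W hd K (fun w hw => hasse_Z hH K w hw.2)
  rw [h1, finprod_mem_eq_finite_toFinset_prod _ hfin, map_prod]
  refine Finset.prod_eq_one fun w hw => ?_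
  rw [Set.Finite.mem_toFinset] at hw
  have hn : ¬ p ∣ Ideal.absNorm w.asIdeal := by
    intro h2
    have h3 := f5c_mem w hp.prime h2
    have h4 : IsCoprime (p : ℤ) W.Δ :=
      ((Nat.prime_iff_prime_int.1 hp.prime).coprime_iff_not_dvd).2 (fb6b_ndvd hp)
    obtain ⟨a, b, hab⟩ := h4
    have hw' := w.isPrime
    apply hw'.ne_top
    rw [Ideal.eq_top_iff_one]
    have h5 : (1 : 𝓞 K) = (a : 𝓞 K) * (p : 𝓞 K) + (b : 𝓞 K) * ((W.Δ : ℤ) : 𝓞 K) := by
      exact_mod_cast hab.symm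
    rw [h5]
    exact w.asIdeal.add_mem (Ideal.mul_mem_left _ _ h3) (Ideal.mul_mem_left _ _ hw.1)
  rw [map_div₀, H55P.val_nat p hp.prime V hV _ (h w hw), H55P.val_nat p hp.prime V hV _ hn, div_one]

/-- Chunk F7 (S). Only finitely many primes p divide one of the numbers NW (W⁄K) v > 0, v in TE W K (finite). NW > 0: the value EK at 1 is not 0 (ek_props, hasse_Z); or the zero point and finiteness. -/
theorem ok_almost (hH : BaseH F (W⁄(𝓞 F)) Om m ψ) (K : Type) [Field K] [NumberField K] :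
    {p : ℕ | p.Prime ∧ ¬ ∀ v ∈ TE W K, ¬ p ∣ NW (W⁄K) v}.Finite := by
  have hd := f5c_hd hH
  have hfin := te_fin W hd K
  obtain ⟨_, h0, _, h1⟩ := ek_props W hd K (fun w hw => hasse_Z hH K w hw.2)
  have h2 := h0 1 (by norm_num)
  rw [h1, finprod_mem_eq_finite_toFinset_prod _ hfin, Finset.prod_ne_zero_iff] at h2
  refine (hfin.biUnion (t := fun v => {p : ℕ | p ∣ NW (W⁄K) v}) fun v hv => ?_).subset ?_
  · have h3 := h2 v (hfin.mem_toFinset.2 hv)
    have h4 : NW (W⁄K) v ≠ 0 := by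
      intro h5
      apply h3
      rw [h5, Nat.cast_zero, zero_div]
    refine (Finset.finite_toSet (NW (W⁄K) v).divisors).subset fun p hp => ?_
    rw [Finset.mem_coe, Nat.mem_divisors]
    exact ⟨hp, h4⟩
  · rintro p ⟨_, hp⟩
    push Not at hp
    obtain ⟨v, hv, h3⟩ := hp
    exact Set.mem_biUnion hv h3

end H55G
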