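import Mathlib
import Pool.Agent.Lib.H55G.F5
import Pool.Agent.Lib.H55Z.P1

/-! # H55G, part F: the value of the L-function over K, with the factor EK -/

open NumberField IsDedekindDomain WeierstrassCurve

namespace H55G

open H55P (IQ embF eF LF Per IsHecke Pt ac Inert Dec Nm PsiP mK UnitP UnrP)
open H55K (CMA Tor TN ak xc yc cj GoodAt Abw)
open H55K.TQ

variable {F : Type} [Field F] [NumberField F] [IQ F]

/-- The relation between the algebraic part of L(W/K, 1) and the Hecke L-value over K' (K' = KG F K ι), up to units at the primes above p: the conclusion of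
H55K.TQ.lG_rel. -/
def RelV1 (p : ℕ) (W : WeierstrassCurve ℤ) (Om : ℂ) (ψ : Ideal (𝓞 F) →*₀ 𝓞 F) (K : Type) [Field K] [NumberField K]
    (K' : IntermediateField F (AlgebraicClosure F)) [NumberField K'] : Prop :=
  ∀ Φ : ℂ → ℂ, AnalyticOnNhd ℂ Φ {s | 1 / 2 < s.re} →
    (∀ s : ℂ, 3 / 2 < s.re → HasSum (H55N.tm (H55P.PsiP K' ψ) s) (Φ s)) →
    ∃ Λ : ℂ → ℂ, AnalyticOnNhd ℂ Λ {s | 1 / 2 < s.re} ∧
      (∀ s : ℂ, 3 / 2 < s.re → LSeriesSummable (fun n => (((W⁄K).LFunction n : ℤ) : ℂ)) s ∧ Λ s = (W⁄K).LSeries s) ∧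
      (Φ 1 ≠ 0 → Λ 1 ≠ 0) ∧
      ∀ V : ValuationSubring ℂ, V.valuation (p : ℂ) < 1 → ∀ L : PeriodPair, PerZ W L →
        (V.valuation (lG K W L (Λ 1)) = V.valuation (Φ 1 / Om ^ Module.finrank F K') * V.valuation ((starRingEnd ℂ) (Φ 1 / Om ^ Module.finrank F K'))) ∨
        (V.valuation (lG K W L (Λ 1)) = V.valuation (Φ 1 / Om ^ Module.finrank F K') ∧
          V.valuation ((starRingEnd ℂ) (Φ 1 / Om ^ Module.finrank F K')) = V.valuation (Φ 1 / Om ^ Module.finrank F K'))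

/-- The same without the hypothesis that p is unramified in K: the conclusion of H55Z.lG_relD. -/
def RelV2 (p : ℕ) (W : WeierstrassCurve ℤ) (Om : ℂ) (ψ : Ideal (𝓞 F) →*₀ 𝓞 F) (K : Type) [Field K] [NumberField K]
    (K' : IntermediateField F (AlgebraicClosure F)) [NumberField K'] : Prop :=
  ∀ Φ : ℂ → ℂ, AnalyticOnNhd ℂ Φ {s | 1 / 2 < s.re} →
    (∀ s : ℂ, 3 / 2 < s.re → HasSum (H55N.tm (H55P.PsiP K' ψ) s) (Φ s)) →
    ∃ Λ : ℂ → ℂ, AnalyticOnNhd ℂ Λ {s | 1 / 2 < s.re} ∧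
      (∀ s : ℂ, 3 / 2 < s.re → LSeriesSummable (fun n => (((W⁄K).LFunction n : ℤ) : ℂ)) s ∧ Λ s = (W⁄K).LSeries s) ∧
      (Φ 1 ≠ 0 → Λ 1 ≠ 0) ∧
      ∀ V : ValuationSubring ℂ, V.valuation (p : ℂ) < 1 → ∀ L : PeriodPair, PerZ W L →
        (Module.finrank ℚ K = 2 * Module.finrank F K' ∧
          V.valuation (lG K W L (Λ 1)) = V.valuation (Φ 1 / Om ^ Module.finrank F K') *
            V.valuation ((starRingEnd ℂ) (Φ 1 / Om ^ Module.finrank F K')) * H55Z.sD V K) ∨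
        (Module.finrank ℚ K = Module.finrank F K' ∧
          V.valuation (lG K W L (Λ 1)) = V.valuation (Φ 1 / Om ^ Module.finrank F K') * H55Z.sD V K)

variable {W : WeierstrassCurve ℤ} {Om : ℂ} {m : Ideal (𝓞 F)} {ψ : Ideal (𝓞 F) →*₀ 𝓞 F} {p : ℕ}

/-- Chunk F8a (S). ek_props (F4.lean) with hasse_Z (E2C.lean), W.Δ ≠ 0 (hH.data.ell; see the proof of lfun_KD) and te_fin: Φ / EK is analytic on Re s > 1/2 (AnalyticOnNhd.div; EK is entire (Differentiable.analyticAt) and not 0 there); and V(EK 1) = 1 (ek_unit with hOk). EK 1 is real: conj (EK (conj 1)) = EK 1. -/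
theorem ek_an (hH : BaseH F (W⁄(𝓞 F)) Om m ψ) (K : Type) [Field K] [NumberField K] :
    (∀ Φ : ℂ → ℂ, AnalyticOnNhd ℂ Φ {s | 1 / 2 < s.re} → AnalyticOnNhd ℂ (fun s => Φ s / EK W K s) {s | 1 / 2 < s.re}) ∧
      EK W K 1 ≠ 0 ∧ (starRingEnd ℂ) (EK W K 1) = EK W K 1 := by
  obtain ⟨h1, h2, h3, -⟩ := ek_props W (f5c_hd hH) K (fun w hw => hasse_Z hH K w hw.2)
  refine ⟨fun Φ hΦ s hs => ?_, h2 1 (by norm_num), ?_⟩
  · exact (hΦ s hs).div (h1.analyticAt s) (h2 s hs)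
  · have h4 := h3 1
    rwa [map_one] at h4

end H55G
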