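import Mathlib
import Pool.Agent.Lib.H55G.F8a

/-! # H55G, part F: the value of the L-function over K, with the factor EK -/

open NumberField IsDedekindDomain WeierstrassCurve

namespace H55G

open H55P (IQ embF eF LF Per IsHecke Pt ac Inert Dec Nm PsiP mK UnitP UnrP)
open H55K (CMA Tor TN ak xc yc cj GoodAt Abw)
open H55K.TQ

variable {F : Type} [Field F] [NumberField F] [IQ F] {W : WeierstrassCurve ℤ} {Om : ℂ} {m : Ideal (𝓞 F)}
  {ψ : Ideal (𝓞 F) →*₀ 𝓞 F} {p : ℕ}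

/-- Chunk F8b (S/M). Port of H55K.TQ.lG_rel (Lib/H55K/FB6B.lean) with LRelE (lrelE, F5.lean) in place of LRel: Λ = Φ Φ̄ / EK in the first case, Φ / EK in the second (ek_an, F8a.lean). The value of lG: lG_val for L1 = Λ 1, V(x / EK 1) = V(x) (ek_unit, F5.lean: V(EK 1) = 1). Second case: Λ 1 = Φ 1 / EK 1 is real by fb6b_real applied to Λ, and EK 1 is real and not 0, so Φ 1 is real; fb6b_conj as there. -/
theorem relV1_of (hH : BaseH F (W⁄(𝓞 F)) Om m ψ) (hp : PrimeH F (W⁄(𝓞 F)) p) (K : Type) [Field K] [NumberField K]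
    (ι : K →ₐ[ℚ] AlgebraicClosure F) [NumberField (KG F K ι)] (hU : UnrP p K) (hOk : ∀ v ∈ TE W K, ¬ p ∣ NW (W⁄K) v) :
    RelV1 p W Om ψ K (KG F K ι) := by
  classical
  intro Φ hΦa hΦ
  have hper := perW_of hH
  have hj := jint_Z hH
  have hΔ := fb6b_ndvd hp
  have hOm : Om ≠ 0 := hper.ne
  obtain ⟨han, hE0, hEr⟩ := ek_an hH K
  have hE1 : ∀ V : ValuationSubring ℂ, V.valuation (p : ℂ) < 1 → V.valuation (EK W K 1) = 1 :=
    fun V hV => ek_unit hH hp K hOk V hV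
  rcases lrelE hH K ι with ⟨hd, hR⟩ | ⟨hd, hR⟩
  · have hser := hR Φ hΦ
    refine ⟨fun z => Φ z * (starRingEnd ℂ) (Φ ((starRingEnd ℂ) z)) / EK W K z, han _ (hΦa.mul (H55B.I4_conj hΦa)),
      fun s hs => ⟨(hser s hs).LSeriesSummable, (hser s hs).LSeries_eq.symm⟩, fun h0 => ?_, fun V hV L hL => Or.inl ?_⟩
    · simp only [map_one]
      exact div_ne_zero (mul_ne_zero h0 ((map_ne_zero _).2 h0)) hE0
    · rw [lG_val K hper hL hp.prime hp.five hp.unr hU hΔ hj _ V hV, hd, fb6b_conj hper V, ← map_mul]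
      simp only [map_one]
      rw [two_mul, pow_add, div_right_comm, map_div₀ V.valuation (_ / _) (EK W K 1), hE1 V hV, div_one, mul_div_mul_comm]
  · have hser := hR Φ hΦ
    have hreal := fb6b_real K (han Φ hΦa) hser
    rw [map_div₀, hEr, div_left_inj' hE0] at hreal
    refine ⟨fun z => Φ z / EK W K z, han Φ hΦa, fun s hs => ⟨(hser s hs).LSeriesSummable, (hser s hs).LSeries_eq.symm⟩,
      fun h0 => div_ne_zero h0 hE0, fun V hV L hL => Or.inr ⟨?_, ?_⟩⟩
    · rw [lG_val K hper hL hp.prime hp.five hp.unr hU hΔ hj _ V hV, hd, div_right_comm, map_div₀ V.valuation (_ / _) (EK W K 1),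
        hE1 V hV, div_one]
    · rw [fb6b_conj hper V, hreal]

/-- Chunk F8b (S). The same with lG_valD (Lib/H55Z/P1.lean): port of H55Z.lG_relD. -/
theorem relV2_of (hH : BaseH F (W⁄(𝓞 F)) Om m ψ) (hp : PrimeH F (W⁄(𝓞 F)) p) (K : Type) [Field K] [NumberField K]
    (ι : K →ₐ[ℚ] AlgebraicClosure F) [NumberField (KG F K ι)] (hOk : ∀ v ∈ TE W K, ¬ p ∣ NW (W⁄K) v) :
    RelV2 p W Om ψ K (KG F K ι) := by
  classical
  intro Φ hΦa hΦ
  have hper := perW_of hH
  have hj := jint_Z hH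
  have hΔ := fb6b_ndvd hp
  have hOm : Om ≠ 0 := hper.ne
  obtain ⟨han, hE0, hEr⟩ := ek_an hH K
  have hE1 : ∀ V : ValuationSubring ℂ, V.valuation (p : ℂ) < 1 → V.valuation (EK W K 1) = 1 :=
    fun V hV => ek_unit hH hp K hOk V hV
  rcases lrelE hH K ι with ⟨hd, hR⟩ | ⟨hd, hR⟩
  · have hser := hR Φ hΦ
    refine ⟨fun z => Φ z * (starRingEnd ℂ) (Φ ((starRingEnd ℂ) z)) / EK W K z, han _ (hΦa.mul (H55B.I4_conj hΦa)),
      fun s hs => ⟨(hser s hs).LSeriesSummable, (hser s hs).LSeries_eq.symm⟩, fun h0 => ?_, fun V hV L hL => Or.inl ⟨hd, ?_⟩⟩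
    · simp only [map_one]
      exact div_ne_zero (mul_ne_zero h0 ((map_ne_zero _).2 h0)) hE0
    · rw [H55Z.lG_valD K hper hL hp.prime hp.five hp.unr hΔ hj _ V hV, hd, fb6b_conj hper V, ← map_mul]
      simp only [map_one]
      rw [two_mul, pow_add, div_right_comm, map_div₀ V.valuation (_ / _) (EK W K 1), hE1 V hV, div_one, mul_div_mul_comm]
  · have hser := hR Φ hΦ
    refine ⟨fun z => Φ z / EK W K z, han Φ hΦa, fun s hs => ⟨(hser s hs).LSeriesSummable, (hser s hs).LSeries_eq.symm⟩,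
      fun h0 => div_ne_zero h0 hE0, fun V hV L hL => Or.inr ⟨hd, ?_⟩⟩
    rw [H55Z.lG_valD K hper hL hp.prime hp.five hp.unr hΔ hj _ V hV, hd, div_right_comm,
      map_div₀ V.valuation (_ / _) (EK W K 1), hE1 V hV, div_one]

end H55G
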