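import Mathlib
import Pool.Agent.Lib.H55G.F8
import Pool.Agent.Lib.H13R.J4
import Pool.Agent.Lib.H55K.F3
import Pool.Agent.Lib.H55K.FB7C

/-! # H55G, part H: the analytic part over K and the Hecke L-value, from RelV1 -/

open NumberField IsDedekindDomain WeierstrassCurve

namespace H55G

open H55P (IQ embF eF LF Per IsHecke Pt ac Inert Dec Nm UnitP UnrP)
open H35P (WAB Ker tt GoodW IntW)
open H55K H55K.TQ

variable {F : Type} [Field F] [NumberField F] [IQ F] {W : WeierstrassCurve ℤ} {Om : ℂ}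
    {m : Ideal (𝓞 F)} {ψ : Ideal (𝓞 F) →*₀ 𝓞 F} {p : ℕ}

theorem lunit_iffV (hH : BaseH F (W⁄(𝓞 F)) Om m ψ) (hp : PrimeH F (W⁄(𝓞 F)) p) (K : Type) [Field K] [NumberField K]
    (K' : IntermediateField F (AlgebraicClosure F)) [NumberField K'] (hR : RelV1 p W Om ψ K K')
    (hI : H55P.IntG p Om ψ K') : H13R.LUnitG p W K ↔ H55P.ValG p Om ψ K' := by
  constructor
  · intro hA
    obtain ⟨Φ, hΦa, hΦs, hΦi⟩ := hI
    obtain ⟨Λ, hΛa, hΛs, -, hΛv⟩ := hR Φ hΦa hΦs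
    obtain ⟨⟨L, hL⟩, Λ', hΛa', hΛs', -, hΛu'⟩ := hA
    have e1 : Λ 1 = Λ' 1 := H55N.ident Λ Λ' hΛa hΛa' (fun s hs => by
      rw [(hΛs s hs).2, (hΛs' s hs).2]) 1 (by norm_num)
    have hunit : UnitP p (Φ 1 / Om ^ Module.finrank F K') := by
      intro V hV
      have hx : V.valuation (Φ 1 / Om ^ Module.finrank F K') ≤ 1 :=
        (V.valuation_le_one_iff _).2 (hΦi V hV)
      have hxc : V.valuation ((starRingEnd ℂ) (Φ 1 / Om ^ Module.finrank F K')) ≤ 1 := by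
        refine H55P.i5_conj V _ ?_
        rw [ValuationSubring.valuation_le_one_iff]
        exact hΦi _ (H55P.i5_above p hp.prime V hV)
      have hl1 : V.valuation (lG K W L (Λ 1)) = 1 := by
        rw [e1]
        exact hΛu' L hL V hV
      rcases hΛv V hV L hL with h | h
      · rw [h, ← map_mul] at hl1
        exact H55P.i5_two V _ _ hx hxc hl1
      · rw [h.1] at hl1
        exact hl1
    refine ⟨Φ, hΦa, hΦs, ?_, hunit⟩
    intro h0
    apply H55P.pz6_ne hp.prime hunit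
    rw [h0, zero_div]
  · intro hV
    obtain ⟨Φ, hΦa, hΦs, hΦ1, hΦu⟩ := hV
    obtain ⟨Λ, hΛa, hΛs, hΛ1, hΛv⟩ := hR Φ hΦa hΦs
    refine ⟨exists_perZ (perW_of hH), Λ, hΛa, hΛs, hΛ1 hΦ1, ?_⟩
    intro L hL V hV
    have hx := hΦu V hV
    have hxc := H55P.pz6_conj hp.prime (H55P.pz6_ne hp.prime hΦu) hΦu V hV
    rcases hΛv V hV L hL with h | h
    · rw [h, hx, hxc, one_mul]
    · rw [h.1, hx]

/-- Integrality over K from integrality of the Hecke L-value. -/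
theorem int_ofV (hH : BaseH F (W⁄(𝓞 F)) Om m ψ) (hp : PrimeH F (W⁄(𝓞 F)) p) (K : Type) [Field K] [NumberField K]
    (K' : IntermediateField F (AlgebraicClosure F)) [NumberField K'] (hR : RelV1 p W Om ψ K K')
    (hI : H55P.IntG p Om ψ K') : AnIntG p W K := by
  obtain ⟨Φ, hΦa, hΦ, hx⟩ := hI
  obtain ⟨Λ, hΛa, hΛs, -, hΛv⟩ := hR Φ hΦa hΦ
  refine ⟨exists_perZ (perW_of hH), Λ, hΛa, hΛs, fun L hL V hV => ?_⟩
  have h1 : V.valuation (Φ 1 / Om ^ Module.finrank F K') ≤ 1 := (V.valuation_le_one_iff _).2 (hx V hV)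
  have h2 : V.valuation ((starRingEnd ℂ) (Φ 1 / Om ^ Module.finrank F K')) ≤ 1 :=
    H55P.i5_conj V _ (((V.comap (starRingEnd ℂ)).valuation_le_one_iff _).2
      (hx _ (H55P.i5_above p hp.prime V hV)))
  rw [← V.valuation_le_one_iff]
  rcases hΛv V hV L hL with h | h
  · rw [h]
    exact mul_le_one' h1 h2
  · rw [h.1]
    exact h1

/-- If V(x) V(conj x) < 1 for all V above p then V(lG) < 1. -/
theorem non_ofV (hH : BaseH F (W⁄(𝓞 F)) Om m ψ) (K : Type) [Field K] [NumberField K]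
    (K' : IntermediateField F (AlgebraicClosure F)) [NumberField K'] (hR : RelV1 p W Om ψ K K')
    {Φ : ℂ → ℂ} (hΦa : AnalyticOnNhd ℂ Φ {s | 1 / 2 < s.re})
    (hΦ : ∀ s : ℂ, 3 / 2 < s.re → HasSum (H55N.tm (H55P.PsiP K' ψ) s) (Φ s))
    (hN : ∀ V : ValuationSubring ℂ, V.valuation (p : ℂ) < 1 →
      V.valuation (Φ 1 / Om ^ Module.finrank F K') * V.valuation ((starRingEnd ℂ) (Φ 1 / Om ^ Module.finrank F K')) < 1) :
    AnNonG p W K := by
  obtain ⟨Λ, hΛa, hΛs, -, hΛv⟩ := hR Φ hΦa hΦ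
  refine ⟨exists_perZ (perW_of hH), Λ, hΛa, hΛs, ?_⟩
  intro L hL V hV
  have hn := hN V hV
  rcases hΛv V hV L hL with h | h
  · rw [h]
    exact hn
  · rw [h.2] at hn
    rw [h.1]
    by_contra hc
    have h1 := not_lt.1 hc
    have h2 : 1 ≤ V.valuation (Φ 1 / Om ^ Module.finrank F K') *
        V.valuation (Φ 1 / Om ^ Module.finrank F K') := one_le_mul h1 h1
    exact absurd hn (not_lt.2 h2)

end H55G
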