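import Mathlib
import Pool.Agent.Lib.H55G.H1
import Pool.Agent.Lib.H55G.I4
import Pool.Agent.Lib.H55Z.Q9

/-! # H55G, part S: the analytic part over the layers, under OkM -/

open NumberField IsDedekindDomain WeierstrassCurve

namespace H55G

open H55P (IQ UnitP UnrP PExt)
open H55K H55K.TQ H55Z

variable {p : ℕ} [hpf : Fact p.Prime] {n : ℕ} {F : Type} [Field F] [NumberField F] [IQ F]

variable {W : WeierstrassCurve ℤ} {Om : ℂ} {m : Ideal (𝓞 F)} {ψ : Ideal (𝓞 F) →*₀ 𝓞 F} {M K : Type} [Field M] [NumberField M]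
  [Field K] [NumberField K] [Algebra M K]

/-- The analytic part over the n-th layer K of M. -/
theorem q9_mainO (hH : BaseH F (W⁄(𝓞 F)) Om m ψ) (hp : PrimeH F (W⁄(𝓞 F)) p) (ιM : M →ₐ[ℚ] AlgebraicClosure F)
    (hUM : UnrP p M) (hUG : UnrP p (KG F M ιM)) (hOk : OkM p (W⁄(𝓞 F)) (KG F M ιM)) (hL : H13R.LUnitG p W M) (h : Layer p n M K)
    (hE : ∀ k, 1 ≤ k → k ≤ n → ∀ χ : DirichletCharacter ℂ (p ^ (k + 1)), orderOf χ = p ^ k → ValK F (KG F M ιM) p Om ψ k χ) :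
    ∃ Λ : ℂ → ℂ, AnalyticOnNhd ℂ Λ {s | 1 / 2 < s.re} ∧
      (∀ s : ℂ, 3 / 2 < s.re → LSeriesSummable (fun n => (((W⁄K).LFunction n : ℤ) : ℂ)) s ∧ Λ s = (W⁄K).LSeries s) ∧
      Λ 1 ≠ 0 ∧
      ∀ L : PeriodPair, PerZ W L → ∀ V : ValuationSubring ℂ, V.valuation (p : ℂ) < 1 →
        V.valuation (lG K W L (Λ 1)) =
          V.valuation (p : ℂ) ^ (Module.finrank ℚ M * ∑ k ∈ Finset.range n, H35K.J p (k + 1)) := by
  classical
  have h5 := hp.five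
  have h2 : p ≠ 2 := by omega
  have hpp : p.Prime := hp.prime
  obtain ⟨ιK, hι⟩ := q8_ext (K := K) ιM
  have hle := q8_le ιM ιK hι
  letI i : Algebra (KG F M ιM) (KG F K ιK) := (IntermediateField.inclusion hle).toRingHom.toAlgebra
  have hlay : Layer p n (KG F M ιM) (KG F K ιK) := q8_layer h ιM ιK hι hle
  have hst : IsScalarTower F (KG F M ιM) (KG F K ιK) := IsScalarTower.of_algebraMap_eq fun x => rfl
  have hfd : FiniteDimensional F (KG F M ιM) := H13R.kg_fin F M ιM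
  have hI := H13R.gen_intR hH hp hUG (H13R.pext_self p (KG F M ιM)) le_rfl le_rfl hUG
  obtain ⟨Φ₀, hΦ₀a, hΦ₀s, hΦ₀1, hΦ₀u⟩ := (lunit_iffV hH hp M (KG F M ιM) (relV1_of hH hp M ιM hUM (ok_of hH M ιM hOk)) hI).1 hL
  have hdG := H55P.pl1_discr p hpp hUG
  have hdM := H55P.pl1_discr p hpp hUM
  have hnG := (layer_disc h2 hdG hlay).1
  have hnM := (layer_disc h2 hdM h).1
  obtain ⟨v, ⟨Φ, hΦa, hΦs, hΦ1⟩, hv0, hval⟩ := q6_val (KG F M ιM) (KG F K ιK) hH.data.hecke h2 hdG hlay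
    (Om := Om) ⟨Φ₀, hΦ₀a, hΦ₀s, rfl⟩ hΦ₀1 hΦ₀u hE
  have hpx : PExt p (KG F M ιM) (KG F K ιK) := q9_pext hle hnG hlay
  have hR : RelV2 p W Om ψ K (KG F K ιK) := relV2_of hH hp K ιK (ok_of hH K ιK (ok_up hH hp hpx hle le_rfl hOk))
  obtain ⟨Λ, hΛa, hΛs, hΛ1, hΛv⟩ := hR Φ hΦa hΦs
  have hOm : Om ≠ 0 := hH.data.per.ne
  refine ⟨Λ, hΛa, hΛs, hΛ1 (by rw [hΦ1]; exact hv0), fun L hL V hV => ?_⟩
  have hp0 : V.valuation (p : ℂ) ≠ 0 := (Valuation.ne_zero_iff _).2 (Nat.cast_ne_zero.2 hpp.ne_zero)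
  have hsD := layer_sD h2 hdM h V hV
  have hx := hval V hV
  have hx0 : v / Om ^ Module.finrank F (KG F K ιK) ≠ 0 := div_ne_zero hv0 (pow_ne_zero _ hOm)
  have hxc := q9_conj hx0 hval V hV
  have e1 : Module.finrank ℚ K = Module.finrank ℚ M * p ^ n := by
    rw [← hnM]
    exact (Module.finrank_mul_finrank ℚ M K).symm
  have e2 : Module.finrank F (KG F K ιK) = Module.finrank F (KG F M ιM) * p ^ n := by
    rw [← hnG]
    exact (Module.finrank_mul_finrank F (KG F M ιM) (KG F K ιK)).symm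
  have hpos : 0 < p ^ n := pow_pos hpp.pos n
  rcases hΛv V hV L hL with ⟨hd, hl⟩ | ⟨hd, hl⟩
  · have e3 : Module.finrank ℚ M = 2 * Module.finrank F (KG F M ιM) := by
      rw [e1, e2, ← mul_assoc] at hd
      exact Nat.eq_of_mul_eq_mul_right hpos hd
    rw [hΦ1] at hl
    rw [e3]
    refine q9_val hp0 hx hxc ?_ hl
    rw [hsD, e3]
    congr 1
    ring
  · have e3 : Module.finrank ℚ M = Module.finrank F (KG F M ιM) := by
      rw [e1, e2] at hd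
      exact Nat.eq_of_mul_eq_mul_right hpos hd
    rw [hΦ1] at hl
    rw [e3]
    refine q9_val2 (a := Module.finrank F (KG F M ιM) * En p n) ?_ ?_ hl
    · rw [hx]
      congr 1
      ring
    · rw [hsD, e3, mul_comm]

end H55G
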