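import Mathlib
import Pool.Agent.Lib.H28I.V6
import Pool.Agent.Lib.H55K.CG

/-! # H55G, part J: the isogeny with its y-coordinate -/

open NumberField IsDedekindDomain WeierstrassCurve

namespace H55G

open H55P (IQ embF eF LF Per IsHecke Pt ac Inert Dec Nm)
open H35P (WAB Ker tt GoodW IntW)
open H55K (xc yc acr xc_acr yc_acr acr_zero_iff acr_inj acr_eq_ac acr_trans)
open H28I
open H55K.MG (VC Crd)

variable {K : Type} [Field K] {Ω : Type} [Field Ω] [DecidableEq Ω] [Algebra K Ω]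

/-- The isogeny with its y-coordinate. -/
structure IsY (A B A'' B'' e t u lam : K) (Φ : Pt (WAB A B) Ω →+ Pt (WAB A'' B'') Ω) : Prop where
  w : IsW A B A'' B'' e t u lam Φ
  y : ∀ P, P ≠ 0 → xc P ≠ algebraMap K Ω e →
    algebraMap K Ω lam ^ 3 * yc (Φ P) = vd (algebraMap K Ω e) (algebraMap K Ω t) (algebraMap K Ω u) (xc P) * yc P

/-- Chunk J0a (S). The proof of H28I.exists_W (Lib/H28I/V6.lean), where hy is the additional claim. -/
theorem exists_Y [CharZero Ω] [IsAlgClosed Ω] (j : Ω →+* ℂ) (L : PeriodPair) {A B A'' B'' e t u lam : K} (hl : lam ≠ 0)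
    (h : VI A B (lam ^ 4 * A'') (lam ^ 6 * B'') e t u) (g2 : L.g₂ = -4 * j (algebraMap K Ω A))
    (g3 : L.g₃ = -4 * j (algebraMap K Ω B)) : ∃ Φ : Pt (WAB A B) Ω →+ Pt (WAB A'' B'') Ω, IsY A B A'' B'' e t u lam Φ := by
  classical
  set a : K →+* Ω := algebraMap K Ω with ha
  have hv := vi_map a h
  have hla : a lam ≠ 0 := (map_ne_zero a).2 hl
  have hE : (WAB A B)⁄Ω = WAB (a A) (a B) := by
    ext
    · exact map_zero a
    · exact map_zero a
    · exact map_zero a
    · rfl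
    · rfl
  obtain ⟨Φ₀, h₀⟩ := exists_h j hv L g2 g3 ((WAB A B)⁄Ω) (WAB (a (lam ^ 4 * A'')) (a (lam ^ 6 * B''))) hE rfl
  -- the scaling
  have hVC : VC (WAB (a (lam ^ 4 * A'')) (a (lam ^ 6 * B''))) ((WAB A'' B'')⁄Ω) (a lam) 0 0 0 := by
    refine ⟨hla, ?_, ?_, ?_, ?_, ?_⟩
    · show a lam * a 0 = 0 + 2 * 0
      rw [map_zero]; ring
    · show a lam ^ 2 * a 0 = 0 - 0 * 0 + 3 * 0 - 0 ^ 2
      rw [map_zero]; ring
    · show a lam ^ 3 * a 0 = 0 + 0 * 0 + 2 * 0
      rw [map_zero]; ring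
    · show a lam ^ 4 * a A'' = a (lam ^ 4 * A'') - 0 * 0 + 2 * 0 * 0 - (0 + 0 * 0) * 0 + 3 * 0 ^ 2 - 2 * 0 * 0
      rw [map_mul, map_pow]; ring
    · show a lam ^ 6 * a B'' = a (lam ^ 6 * B'') + 0 * a (lam ^ 4 * A'') + 0 ^ 2 * 0 + 0 ^ 3 - 0 * 0 - 0 ^ 2 - 0 * 0 * 0
      rw [map_mul, map_pow]; ring
  have hd1 : (WAB (a (lam ^ 4 * A'')) (a (lam ^ 6 * B''))).Δ ≠ 0 := by
    rw [v6_delta]
    exact mul_ne_zero (by norm_num) hv.disc'
  have hd2 : ((WAB A'' B'')⁄Ω).Δ ≠ 0 := by
    have e1 : ((WAB A'' B'')⁄Ω).Δ = a (WAB A'' B'').Δ := (WAB A'' B'').map_Δ _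
    rw [e1]
    refine (map_ne_zero a).2 ?_
    rw [v6_delta]
    have h16 : (-16 : K) ≠ 0 := by
      intro h0
      have h1 := congrArg a h0
      rw [map_neg, map_ofNat, map_zero] at h1
      norm_num at h1
    refine mul_ne_zero h16 fun h0 => h.disc' ?_
    linear_combination lam ^ 12 * h0
  obtain ⟨Θ, hΘ⟩ := H55K.MG.vc_iso hVC hd1 hd2
  set Φ : Pt (WAB A B) Ω →+ Pt (WAB A'' B'') Ω := Θ.toAddMonoidHom.comp Φ₀ with hΦ
  have hΦ1 : ∀ P, Φ P = Θ (Φ₀ P) := fun P => rfl
  have hne : ∀ P, P ≠ 0 → xc P ≠ a e → Φ P ≠ 0 := by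
    intro P hP hx
    rw [hΦ1]
    exact (hΘ _ (h₀.ne P hP hx)).1
  have hx : ∀ P, P ≠ 0 → xc P ≠ a e → a lam ^ 2 * xc (Φ P) = vx (a e) (a t) (a u) (xc P) := by
    intro P hP hx
    rw [hΦ1, ← h₀.x P hP hx, (hΘ _ (h₀.ne P hP hx)).2.1, add_zero]
  have hy : ∀ P, P ≠ 0 → xc P ≠ a e → a lam ^ 3 * yc (Φ P) = vd (a e) (a t) (a u) (xc P) * yc P := by
    intro P hP hx
    rw [hΦ1, ← h₀.y P hP hx, (hΘ _ (h₀.ne P hP hx)).2.2]
    ring
  have hker : ∀ P, P ≠ 0 → xc P = a e → Φ P = 0 := by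
    intro P hP hx
    rw [hΦ1, h₀.ker P hP hx, map_zero]
  refine ⟨Φ, ⟨hker, hne, hx, ?_, ?_, ?_⟩, hy⟩
  · intro Q
    obtain ⟨P, hP⟩ := h₀.surj (Θ.symm Q)
    refine ⟨P, ?_⟩
    rw [hΦ1, hP, AddEquiv.apply_symm_apply]
  · intro P hP
    apply h₀.six
    rw [hΦ1] at hP
    exact (map_eq_zero_iff Θ Θ.injective).1 hP
  · intro s P
    by_cases hP : P = 0
    · rw [hP, map_zero, map_zero, map_zero]
    · have hsP := H55K.CC.c27_ne (WAB A B) s hP
      have hsx := H55K.CC.c27_xc (WAB A B) s P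
      have hsy := H55K.CC.c27_yc (WAB A B) s P
      by_cases hxe : xc P = a e
      · rw [hker P hP hxe, map_zero]
        apply hker _ hsP
        rw [hsx, hxe]
        exact s.commutes e
      · have hxe' : xc (ac (WAB A B) s P) ≠ a e := by
          rw [hsx]
          intro h0
          apply hxe
          apply s.injective
          rw [h0]
          exact (s.commutes e).symm
        have b1 := hx P hP hxe
        have b2 := hx _ hsP hxe'
        have b3 := hy P hP hxe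
        have b4 := hy _ hsP hxe'
        have c1 := congrArg s b1
        have c2 := congrArg s b3
        have sc : ∀ z : K, s (a z) = a z := fun z => s.commutes z
        have hlz : s (a lam) = a lam := sc lam
        refine H55K.CC.c14_ext (hne _ hsP hxe') (H55K.CC.c27_ne (WAB A'' B'') s (hne P hP hxe)) ?_ ?_
        · rw [H55K.CC.c27_xc]
          apply mul_left_cancel₀ (pow_ne_zero 2 hla)
          rw [b2, hsx]
          rw [map_mul, map_pow, hlz] at c1
          rw [c1]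
          unfold vx
          simp only [map_add, map_div₀, map_sub, map_pow, sc]
        · rw [H55K.CC.c27_yc]
          apply mul_left_cancel₀ (pow_ne_zero 3 hla)
          rw [b4, hsx, hsy]
          rw [map_mul, map_pow, hlz] at c2
          rw [c2]
          unfold vd
          simp only [map_mul, map_div₀, map_sub, map_pow, map_one, map_ofNat, sc]

/-- Chunk J0a (S). As the last part (gal) of the proof of H28I.exists_W, for a ring automorphism: xc_acr, yc_acr, acr_zero_iff (Lib/H55K/CG.lean) in place of c27_xc, c27_yc, c27_ne; H55K.CC.c14_ext. -/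
theorem isy_acr {A B A'' B'' e t u lam : K} {Φ : Pt (WAB A B) Ω →+ Pt (WAB A'' B'') Ω} (hΦ : IsY A B A'' B'' e t u lam Φ)
    (hl : lam ≠ 0) (g : Ω ≃+* Ω) (he : g (algebraMap K Ω e) = algebraMap K Ω e) (ht : g (algebraMap K Ω t) = algebraMap K Ω t)
    (hu : g (algebraMap K Ω u) = algebraMap K Ω u) (hlam : g (algebraMap K Ω lam) = algebraMap K Ω lam)
    (hA : g (algebraMap K Ω A) = algebraMap K Ω A) (hB : g (algebraMap K Ω B) = algebraMap K Ω B)
    (hA' : g (algebraMap K Ω A'') = algebraMap K Ω A'') (hB' : g (algebraMap K Ω B'') = algebraMap K Ω B'')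
    (P : Pt (WAB A B) Ω) : Φ (acr g hA hB P) = acr g hA' hB' (Φ P) := by
  have hla : algebraMap K Ω lam ≠ 0 := (map_ne_zero _).2 hl
  by_cases hP : P = 0
  · rw [hP, map_zero, map_zero, map_zero]
  · have hsP : acr g hA hB P ≠ 0 := fun h0 => hP ((acr_zero_iff g hA hB P).1 h0)
    have hsx := xc_acr g hA hB P
    have hsy := yc_acr g hA hB P
    by_cases hxe : xc P = algebraMap K Ω e
    · rw [hΦ.w.ker P hP hxe, map_zero]
      apply hΦ.w.ker _ hsP
      rw [hsx, hxe]
      exact he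
    · have hxe' : xc (acr g hA hB P) ≠ algebraMap K Ω e := by
        rw [hsx]
        intro h0
        apply hxe
        apply g.injective
        rw [h0]
        exact he.symm
      have b1 := hΦ.w.x P hP hxe
      have b2 := hΦ.w.x _ hsP hxe'
      have b3 := hΦ.y P hP hxe
      have b4 := hΦ.y _ hsP hxe'
      have c1 := congrArg g b1
      have c2 := congrArg g b3
      have hne2 : acr g hA' hB' (Φ P) ≠ 0 := fun h0 => hΦ.w.ne P hP hxe ((acr_zero_iff g hA' hB' _).1 h0)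
      refine H55K.CC.c14_ext (hΦ.w.ne _ hsP hxe') hne2 ?_ ?_
      · rw [xc_acr]
        apply mul_left_cancel₀ (pow_ne_zero 2 hla)
        rw [b2, hsx]
        rw [map_mul, map_pow, hlam] at c1
        rw [c1]
        unfold vx
        simp only [map_add, map_div₀, map_sub, map_pow, he, ht, hu]
      · rw [yc_acr]
        apply mul_left_cancel₀ (pow_ne_zero 3 hla)
        rw [b4, hsx, hsy]
        rw [map_mul, map_pow, hlam] at c2
        rw [c2]
        unfold vd
        simp only [map_mul, map_div₀, map_sub, map_pow, map_one, map_ofNat, he, ht, hu]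

end H55G
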