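import Mathlib
import Pool.Agent.Lib.H28I.V0
import Pool.Agent.Lib.H55K.E0
import Pool.Agent.Lib.H55K.CG

/-! # H55G, part J: the identity e2 for the isogeny -/

open NumberField IsDedekindDomain WeierstrassCurve

namespace H55G

open H55P (IQ embF eF LF Per IsHecke Pt ac Inert Dec Nm)
open H35P (WAB Ker tt GoodW IntW)
open H55K (xc yc)
open H28I

/-- Chunk J1a (S). vx x - vx w = (x - w)(1 - t/((x - e)(w - e)) - u ((x - e) + (w - e))/((x - e)^2 (w - e)^2)), u = 0. The right side: the point (e, 0): X = ((y - 0)/(x - e))^2 - x - e, y^2 = x^3 + A x + B, B = - e^3 - A e. So X = e + t/(x - e). field_simp, linear_combination. -/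
theorem j1_two {k : Type} [Field k] {A B e t x y w X : k} (hx : x ≠ e) (hw : w ≠ e) (he : e ^ 3 + A * e + B = 0)
    (ht : t = 3 * e ^ 2 + A) (hy : y ^ 2 = x ^ 3 + A * x + B) (hX : X = (y / (x - e)) ^ 2 - x - e) :
    (vx e t 0 x - vx e t 0 w) * (e - w) = (x - w) * (X - w) := by
  have hz : x - e ≠ 0 := sub_ne_zero.mpr hx
  have hv : w - e ≠ 0 := sub_ne_zero.mpr hw
  have h1 : X = e + t / (x - e) := by
    rw [hX, div_pow, hy, ht]
    field_simp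
    linear_combination he
  rw [h1]
  unfold vx
  field_simp
  ring

/-- Chunk J1a (M). f = y₀^2 = e^3 + A e + B, z = x - e. X₁, X₂ are the x-coordinates of P ± (e, y₀). With a = (y - y₀)/z, b = (y + y₀)/z: a b = (x^2 + x e + e^2 + A)/z (since y^2 - y₀^2 = z (x^2 + x e + e^2 + A)), a^2 + b^2 = 2 (y^2 + f)/z^2, X₁ - w = a^2 - (x + e + w), X₂ - w = b^2 - (x + e + w). So z^2 (X₁ - w)(X₂ - w) = (x^2 + x e + e^2 + A)^2 - 2 (x + e + w)(x^3 + A x + B + f) + (x + e + w)^2 z^2 =: R.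
The left side is (x - w) times: (w - e)^2 - t (w - e)/z - u (z + (w - e))/z^2; times z^2: L = (w - e)^2 z^2 - t (w - e) z - u (z + w - e). With t = 2 (3 e^2 + A), u = 4 f: R - L = -(3 e^4 + 6 A e^2 + 12 B e - A^2) = 0 (checked by computer): linear_combination. -/
theorem j1_three {k : Type} [Field k] {A B e t u x y y₀ w X₁ X₂ : k} (hx : x ≠ e) (hw : w ≠ e) (hy₀ : y₀ ^ 2 = e ^ 3 + A * e + B)
    (ht : t = 2 * (3 * e ^ 2 + A)) (hu : u = 4 * (e ^ 3 + A * e + B)) (h3 : 3 * e ^ 4 + 6 * A * e ^ 2 + 12 * B * e - A ^ 2 = 0)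
    (hy : y ^ 2 = x ^ 3 + A * x + B) (hX₁ : X₁ = ((y - y₀) / (x - e)) ^ 2 - x - e) (hX₂ : X₂ = ((y + y₀) / (x - e)) ^ 2 - x - e) :
    (vx e t u x - vx e t u w) * ((e - w) * (e - w)) = (x - w) * ((X₁ - w) * (X₂ - w)) := by
  have hz : x - e ≠ 0 := sub_ne_zero.mpr hx
  have hv : w - e ≠ 0 := sub_ne_zero.mpr hw
  have hL : (vx e t u x - vx e t u w) * ((e - w) * (e - w)) * (x - e) ^ 2 =
      (x - w) * ((w - e) ^ 2 * (x - e) ^ 2 - t * (w - e) * (x - e) - u * ((x - e) + (w - e))) := by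
    unfold vx
    field_simp
    ring
  have hq : y ^ 2 - y₀ ^ 2 = (x - e) * (x ^ 2 + x * e + e ^ 2 + A) := by
    rw [hy, hy₀]
    ring
  have hR0 : (X₁ - w) * (X₂ - w) * (x - e) ^ 2 = ((y ^ 2 - y₀ ^ 2) / (x - e)) ^ 2 -
      2 * (x + e + w) * (y ^ 2 + y₀ ^ 2) + (x + e + w) ^ 2 * (x - e) ^ 2 := by
    rw [hX₁, hX₂]
    field_simp
    ring
  have hR : (X₁ - w) * (X₂ - w) * (x - e) ^ 2 = (x ^ 2 + x * e + e ^ 2 + A) ^ 2 -
      2 * (x + e + w) * (y ^ 2 + y₀ ^ 2) + (x + e + w) ^ 2 * (x - e) ^ 2 := by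
    rw [hR0, hq, mul_div_cancel_left₀ _ hz]
  have hLR : (w - e) ^ 2 * (x - e) ^ 2 - t * (w - e) * (x - e) - u * ((x - e) + (w - e)) =
      (x ^ 2 + x * e + e ^ 2 + A) ^ 2 - 2 * (x + e + w) * (y ^ 2 + y₀ ^ 2) +
        (x + e + w) ^ 2 * (x - e) ^ 2 := by
    linear_combination (-(w - e) * (x - e)) * ht - ((x - e) + (w - e)) * hu +
      2 * (x + e + w) * hy + 2 * (x + e + w) * hy₀ + h3
  refine mul_right_cancel₀ (pow_ne_zero 2 hz) ?_
  rw [hL, hLR, ← hR]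
  ring

end H55G
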