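import Mathlib
import Pool.Agent.Lib.H55G.J1a

/-! # H55G, part J: the identity e2 for the isogeny -/

open NumberField IsDedekindDomain WeierstrassCurve

namespace H55G

open H55P (IQ embF eF LF Per IsHecke Pt ac Inert Dec Nm)
open H35P (WAB Ker tt GoodW IntW)
open H55K (xc yc)
open H28I

variable {K : Type} [Field K] {Ω : Type} [Field Ω] [DecidableEq Ω] [Algebra K Ω] [CharZero Ω] [IsAlgClosed Ω]
  {A B A'' B'' e t u lam : K} {Φ : Pt (WAB A B) Ω →+ Pt (WAB A'' B'') Ω}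

/-- The points of the kernel and the identity, for a curve over an algebraically closed field. -/
theorem j1b_gen {k : Type} [Field k] [DecidableEq k] [CharZero k] [IsAlgClosed k] {a b e t u : k}
    (hd : 4 * a ^ 3 + 27 * b ^ 2 ≠ 0)
    (hcs : (u = 0 ∧ e ^ 3 + a * e + b = 0 ∧ t = 3 * e ^ 2 + a) ∨
      (t = 2 * (3 * e ^ 2 + a) ∧ u = 4 * (e ^ 3 + a * e + b) ∧ 3 * e ^ 4 + 6 * a * e ^ 2 + 12 * b * e - a ^ 2 = 0))
    (E : WeierstrassCurve k) (hE : E = WAB a b) :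
    ∃ S : Finset E.toAffine.Point, (∀ R, R ∈ S ↔ R ≠ 0 ∧ xc R = e) ∧ (∀ R ∈ S, ∀ R' ∈ S, R' = R ∨ R' = -R) ∧
      ∀ X Y : E.toAffine.Point, X ≠ 0 → Y ≠ 0 → xc X ≠ e → xc Y ≠ e →
        (vx e t u (xc X) - vx e t u (xc Y)) * ∏ R ∈ S, (xc R - xc Y) =
          (xc X - xc Y) * ∏ R ∈ S, (xc (X + R) - xc Y) := by
  subst hE
  classical
  obtain ⟨y₀, hy₀⟩ := IsAlgClosed.exists_pow_nat_eq (e ^ 3 + a * e + b) (n := 2) (by norm_num)
  have hD : (WAB a b).Δ ≠ 0 := by
    rw [H55K.s_Δ]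
    exact mul_ne_zero (by norm_num) hd
  have hns : (WAB a b).toAffine.Nonsingular e y₀ := by
    refine (Affine.equation_iff_nonsingular_of_Δ_ne_zero hD).1 ?_
    rw [Affine.equation_iff]
    simp only [WAB]
    linear_combination hy₀
  obtain ⟨R₀, hR₀0, hxR, hyR⟩ : ∃ R₀ : (WAB a b).toAffine.Point, R₀ ≠ 0 ∧ xc R₀ = e ∧ yc R₀ = y₀ :=
    ⟨Affine.Point.some e y₀ hns, Affine.Point.some_ne_zero _, rfl, rfl⟩
  have heqn : ∀ X : (WAB a b).toAffine.Point, X ≠ 0 → yc X ^ 2 = xc X ^ 3 + a * xc X + b := fun X hX => H55K.eqn hX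
  have hadd : ∀ X : (WAB a b).toAffine.Point, X ≠ 0 → xc X ≠ e →
      xc (X + R₀) = ((yc X - y₀) / (xc X - e)) ^ 2 - xc X - e := by
    intro X hX hx
    have h1 := (H55K.add_coords hX hR₀0 (by rw [hxR]; exact hx)).2.1
    rw [hxR, hyR] at h1
    exact h1
  have hmem : ∀ R : (WAB a b).toAffine.Point, R ≠ 0 ∧ xc R = e ↔ R = R₀ ∨ R = -R₀ := by
    intro R
    constructor
    · rintro ⟨h1, h2⟩
      exact H55K.xc_eq h1 hR₀0 (h2.trans hxR.symm)
    · rintro (h | h)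
      · rw [h]
        exact ⟨hR₀0, hxR⟩
      · rw [h]
        exact ⟨H55K.neg_ne hR₀0, by rw [H55K.xc_neg, hxR]⟩
  rcases hcs with ⟨hu, hf, ht⟩ | ⟨ht, hu, h3⟩
  · -- degree two
    have hy0 : y₀ = 0 := by
      rw [hf] at hy₀
      exact pow_eq_zero_iff two_ne_zero |>.1 hy₀
    have hneg : -R₀ = R₀ := by
      refine H55K.pt_ext (H55K.neg_ne hR₀0) hR₀0 (H55K.xc_neg R₀) ?_
      rw [H55K.yc_neg, hyR, hy0, neg_zero]
    refine ⟨{R₀}, fun R => ?_, fun R hR R' hR' => ?_, fun X Y hX hY hx hy => ?_⟩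
    · rw [Finset.mem_singleton, hmem, hneg, or_self]
    · rw [Finset.mem_singleton] at hR hR'
      exact Or.inl (hR'.trans hR.symm)
    · rw [Finset.prod_singleton, Finset.prod_singleton, hxR, hadd X hX hx, hy0, sub_zero, hu]
      exact j1_two hx hy hf ht (heqn X hX) rfl
  · -- degree three
    have hy0 : y₀ ≠ 0 := by
      intro h0
      have hf : e ^ 3 + a * e + b = 0 := by
        rw [← hy₀, h0]
        ring
      apply hd
      have h4 : (3 * e ^ 2 + a) ^ 2 = 0 := by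
        linear_combination (12 * e) * hf - h3
      have h5 : 3 * e ^ 2 + a = 0 := pow_eq_zero_iff two_ne_zero |>.1 h4
      have ha : a = -3 * e ^ 2 := by linear_combination h5
      have hb : b = 2 * e ^ 3 := by
        rw [ha] at hf
        linear_combination hf
      rw [ha, hb]
      ring
    have hne : R₀ ≠ -R₀ := by
      intro h
      have h1 := congrArg yc h
      rw [H55K.yc_neg, hyR] at h1
      apply hy0
      have h2 : 2 * y₀ = 0 := by linear_combination h1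
      exact (mul_eq_zero.1 h2).resolve_left two_ne_zero
    have hadd' : ∀ X : (WAB a b).toAffine.Point, X ≠ 0 → xc X ≠ e →
        xc (X + -R₀) = ((yc X + y₀) / (xc X - e)) ^ 2 - xc X - e := by
      intro X hX hx
      have h1 := (H55K.add_coords hX (H55K.neg_ne hR₀0) (by rw [H55K.xc_neg, hxR]; exact hx)).2.1
      rw [H55K.xc_neg, H55K.yc_neg, hxR, hyR, sub_neg_eq_add] at h1
      exact h1
    refine ⟨{R₀, -R₀}, fun R => ?_, fun R hR R' hR' => ?_, fun X Y hX hY hx hy => ?_⟩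
    · rw [Finset.mem_insert, Finset.mem_singleton, hmem]
    · rw [Finset.mem_insert, Finset.mem_singleton] at hR hR'
      rcases hR with h | h <;> rcases hR' with h' | h'
      · exact Or.inl (h'.trans h.symm)
      · right; rw [h, h']
      · right; rw [h, h', neg_neg]
      · exact Or.inl (h'.trans h.symm)
    · rw [Finset.prod_pair hne, Finset.prod_pair hne, H55K.xc_neg, hxR, hadd X hX hx, hadd' X hX hx]
      exact j1_three hx hy hy₀ ht hu h3 (heqn X hX) rfl rfl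

/-- Chunk J1b (M). The points of (WAB A B)⁄Ω are those of y^2 = x^3 + A x + B with the images of A, B (write e, A, .. for the images; see v4_key, exists_W in H28I for the equality (WAB A B)⁄Ω = WAB ..; add_coords in H55K/E0.lean for the addition, c14_ext, neg: xc (-P) = xc P, yc (-P) = - yc P (WAB has a₁ = a₃ = 0)). y₀ with y₀^2 = e^3 + A e + B (IsAlgClosed.exists_pow_nat_eq), R₀ = (e, y₀) a point
(nonsingular since the discriminant is not 0: h.disc; v2_ns). The nonzero R with Φ R = 0 are those with xc R = e (hΦ.ker, hΦ.ne), i.e. R₀ and -R₀. First case of h.cs (u = 0): y₀ = 0, R₀ = -R₀, S = {R₀}; second case: y₀^2 = u/4 ≠ 0 (f_ne), R₀ ≠ -R₀, S = {R₀, -R₀}.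
X, Y nonzero with x-coordinates ≠ e (since Φ X, Φ Y ≠ 0; Φ 0 = 0, hΦ.ker): hΦ.x. xc (X + R₀) = ((yc X - y₀)/(xc X - e))^2 - xc X - e, xc (X - R₀) = ((yc X + y₀)/(xc X - e))^2 - xc X - e (add_coords). j1_two or j1_three. -/
theorem phi_e2 (hΦ : IsW A B A'' B'' e t u lam Φ) (h : VI A B (lam ^ 4 * A'') (lam ^ 6 * B'') e t u) :
    ∃ S : Finset (Pt (WAB A B) Ω), (∀ R, R ∈ S ↔ Φ R = 0 ∧ R ≠ 0) ∧ (∀ R ∈ S, ∀ R' ∈ S, R' = R ∨ R' = -R) ∧
      ∀ X Y : Pt (WAB A B) Ω, Φ X ≠ 0 → Φ Y ≠ 0 →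
        algebraMap K Ω lam ^ 2 * (xc (Φ X) - xc (Φ Y)) * ∏ R ∈ S, (xc R - xc Y) =
          (xc X - xc Y) * ∏ R ∈ S, (xc (X + R) - xc Y) := by
  obtain ⟨a, ha⟩ : ∃ a : K →+* Ω, a = algebraMap K Ω := ⟨_, rfl⟩
  have hd : 4 * a A ^ 3 + 27 * a B ^ 2 ≠ 0 := by
    have e1 : 4 * a A ^ 3 + 27 * a B ^ 2 = a (4 * A ^ 3 + 27 * B ^ 2) := by
      simp only [map_add, map_mul, map_pow, map_ofNat]
    rw [e1]
    exact (map_ne_zero a).2 h.disc
  have hcs : (a u = 0 ∧ a e ^ 3 + a A * a e + a B = 0 ∧ a t = 3 * a e ^ 2 + a A) ∨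
      (a t = 2 * (3 * a e ^ 2 + a A) ∧ a u = 4 * (a e ^ 3 + a A * a e + a B) ∧
        3 * a e ^ 4 + 6 * a A * a e ^ 2 + 12 * a B * a e - a A ^ 2 = 0) := by
    rcases h.cs with ⟨h1, h2, h3⟩ | ⟨h1, h2, h3⟩
    · refine Or.inl ⟨by rw [h1, map_zero], ?_, ?_⟩
      · have e1 := congrArg a h2
        simpa only [map_add, map_mul, map_pow, map_ofNat, map_zero] using e1
      · have e1 := congrArg a h3
        simpa only [map_add, map_mul, map_pow, map_ofNat, map_zero] using e1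
    · refine Or.inr ⟨?_, ?_, ?_⟩
      · have e1 := congrArg a h1
        simpa only [map_add, map_mul, map_pow, map_ofNat, map_zero] using e1
      · have e1 := congrArg a h2
        simpa only [map_add, map_mul, map_pow, map_ofNat, map_zero] using e1
      · have e1 := congrArg a h3
        simpa only [map_add, map_sub, map_mul, map_pow, map_ofNat, map_zero] using e1
  have hE : (WAB A B)⁄Ω = WAB (a A) (a B) := by
    rw [ha]
    ext
    · exact map_zero (algebraMap K Ω)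
    · exact map_zero (algebraMap K Ω)
    · exact map_zero (algebraMap K Ω)
    · rfl
    · rfl
  obtain ⟨S, hS1, hS2, hS3⟩ := j1b_gen hd hcs ((WAB A B)⁄Ω) hE
  have hne : ∀ X : Pt (WAB A B) Ω, Φ X ≠ 0 → X ≠ 0 ∧ xc X ≠ a e := by
    intro X hX
    have h0 : X ≠ 0 := by
      rintro rfl
      exact hX (map_zero Φ)
    refine ⟨h0, fun h1 => hX (hΦ.ker X h0 ?_)⟩
    rw [h1, ha]
  refine ⟨S, fun R => ?_, hS2, fun X Y hX hY => ?_⟩
  · rw [hS1]
    constructor
    · rintro ⟨h1, h2⟩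
      refine ⟨hΦ.ker R h1 ?_, h1⟩
      rw [h2, ha]
    · rintro ⟨h1, h2⟩
      refine ⟨h2, ?_⟩
      by_contra h3
      refine hΦ.ne R h2 ?_ h1
      rw [← ha]
      exact h3
  · obtain ⟨x1, x2⟩ := hne X hX
    obtain ⟨y1, y2⟩ := hne Y hY
    have e1 := hΦ.x X x1 (by rw [← ha]; exact x2)
    have e2 := hΦ.x Y y1 (by rw [← ha]; exact y2)
    rw [← ha] at e1 e2 ⊢
    rw [mul_sub, e1, e2]
    exact hS3 X Y x1 y1 x2 y2

end H55G
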