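import Mathlib
import Pool.Agent.Lib.H55G.B2
import Pool.Agent.Lib.H55G.B3

/-! # H55G, part J: the isogeny and the kernels of reduction -/

open NumberField IsDedekindDomain WeierstrassCurve

namespace H55G

open H55P (IQ embF eF LF Per IsHecke Pt ac Inert Dec Nm)
open H35P (WAB Ker GoodW IntW)
open H55K (CMA Tor TN ak xc yc)
open H55K.MG (VC Crd)

/-- The data of an isogeny Φ from the curve WAB A B (with complex multiplication) to the curve WAB A₂ B₂, with good models of both curves at V. S is the set of the nonzero elements of the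
kernel of Φ. -/
structure PD {F : Type} [Field F] {A B A₂ B₂ : F} {Ω : Type} [Field Ω] [DecidableEq Ω] [Algebra F Ω] (V : ValuationSubring Ω)
    (W' : WeierstrassCurve Ω) (u r s t : Ω) (Θ : Pt (WAB A B) Ω ≃+ W'.toAffine.Point) (Kg : AddSubgroup (Pt (WAB A B) Ω))
    (W₂ : WeierstrassCurve Ω) (u₂ r₂ s₂ t₂ : Ω) (Θ₂ : Pt (WAB A₂ B₂) Ω ≃+ W₂.toAffine.Point) (Kg₂ : AddSubgroup (Pt (WAB A₂ B₂) Ω))
    (Φ : Pt (WAB A B) Ω →+ Pt (WAB A₂ B₂) Ω) (S : Finset (Pt (WAB A B) Ω)) (c₀ : Ω) : Prop where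
  gd : GD V W' u r s t Θ Kg
  gd₂ : GD V W₂ u₂ r₂ s₂ t₂ Θ₂ Kg₂
  div : ∀ n : ℕ, n ≠ 0 → ∀ P : Pt (WAB A B) Ω, ∃ Q, n • Q = P
  surj : Function.Surjective Φ
  c0 : c₀ ≠ 0
  mem : ∀ R, R ∈ S ↔ Φ R = 0 ∧ R ≠ 0
  pm : ∀ R ∈ S, ∀ R' ∈ S, R' = R ∨ R' = -R
  e2 : ∀ X Y : Pt (WAB A B) Ω, Φ X ≠ 0 → Φ Y ≠ 0 →
    c₀ * (xc (Φ X) - xc (Φ Y)) * ∏ R ∈ S, (xc R - xc Y) = (xc X - xc Y) * ∏ R ∈ S, (xc (X + R) - xc Y)

variable {F : Type} [Field F] {A B A₂ B₂ : F} {Ω : Type} [Field Ω] [DecidableEq Ω] [Algebra F Ω] {V : ValuationSubring Ω}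
  {W' : WeierstrassCurve Ω} {u r s t : Ω} {Θ : Pt (WAB A B) Ω ≃+ W'.toAffine.Point} {Kg : AddSubgroup (Pt (WAB A B) Ω)}
  {W₂ : WeierstrassCurve Ω} {u₂ r₂ s₂ t₂ : Ω} {Θ₂ : Pt (WAB A₂ B₂) Ω ≃+ W₂.toAffine.Point} {Kg₂ : AddSubgroup (Pt (WAB A₂ B₂) Ω)}
  {Φ : Pt (WAB A B) Ω →+ Pt (WAB A₂ B₂) Ω} {S : Finset (Pt (WAB A B) Ω)} {c₀ : Ω}

/-- Auxiliary: a root of T^2 + a T - b. -/
theorem j2a_root {Ω : Type} [Field Ω] [IsAlgClosed Ω] (a b : Ω) : ∃ y : Ω, y ^ 2 + a * y = b := by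
  have hd : (Polynomial.X ^ 2 + Polynomial.C a * Polynomial.X + Polynomial.C (-b) : Polynomial Ω).degree ≠ 0 := by
    have h1 : (Polynomial.X ^ 2 + Polynomial.C a * Polynomial.X + Polynomial.C (-b) : Polynomial Ω).degree = 2 := by
      have h2 := Polynomial.degree_quadratic (R := Ω) (a := 1) (b := a) (c := -b) one_ne_zero
      rw [map_one, one_mul] at h2
      exact h2
    rw [h1]
    decide
  obtain ⟨y, hy⟩ := IsAlgClosed.exists_root _ hd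
  refine ⟨y, ?_⟩
  rw [Polynomial.IsRoot.def] at hy
  simp only [Polynomial.eval_add, Polynomial.eval_pow, Polynomial.eval_X, Polynomial.eval_mul, Polynomial.eval_C] at hy
  linear_combination hy

/-- Chunk J2a (S). Ω algebraically closed: y with y^2 + a₃ y = a₆ (IsAlgClosed: a root of T^2 + a₃ T - a₆); (0, y) satisfies the equation of W' and is nonsingular because the discriminant is not 0 (hG.good.disc: V(Δ) = 1; Affine.equation_iff_nonsingular_of_Δ_ne_zero or H35P.B1_delta). P = Θ⁻¹ (0, y); it is not in Kg (hG.kg: Ker V (.some 0 y _) means 1 < V(0) = 0). -/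
theorem kg_ne' [IsAlgClosed Ω] (hG : GD V W' u r s t Θ Kg) : ∃ P : Pt (WAB A B) Ω, P ∉ Kg := by
  obtain ⟨y, hy⟩ := j2a_root W'.a₃ W'.a₆
  have hD : W'.Δ ≠ 0 := by
    intro h0
    have h1 := hG.good.disc
    rw [h0, map_zero] at h1
    exact zero_ne_one h1
  have he : W'.toAffine.Equation 0 y := by
    rw [Affine.equation_iff]
    linear_combination hy
  have hn : W'.toAffine.Nonsingular 0 y := (Affine.equation_iff_nonsingular_of_Δ_ne_zero hD).1 he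
  refine ⟨Θ.symm (Affine.Point.some 0 y hn), fun hP => ?_⟩
  have h1 := (hG.kg _).1 hP
  rw [AddEquiv.apply_symm_apply] at h1
  have h2 : 1 < V.valuation (0 : Ω) := h1
  rw [map_zero] at h2
  exact not_lt_of_ge zero_le h2

/-- Chunk J2a (S/M). e2 in the coordinates of the good models. For P ≠ 0: xc P = u^2 xp Θ P + r (hG.crd, H55K.MG.Crd), so xc P - xc Q = u^2 (xp P - xp Q); the same for the second curve. All points are nonzero: X, Y (Φ X ≠ 0), R in S, X + R (Φ (X + R) = Φ X ≠ 0), Φ X, Φ Y. Both sides have the factor u^(2 (card S)) (Finset.prod_const, prod_mul_distrib), and the right side one more u^2: c = c₀ (u₂/u)^2. Compare e2x (B1.lean). -/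
theorem e2p (h : PD V W' u r s t Θ Kg W₂ u₂ r₂ s₂ t₂ Θ₂ Kg₂ Φ S c₀) {X Y : Pt (WAB A B) Ω} (hX : Φ X ≠ 0) (hY : Φ Y ≠ 0) :
    c₀ * (u₂ / u) ^ 2 * (xp Θ₂ (Φ X) - xp Θ₂ (Φ Y)) * ∏ R ∈ S, (xp Θ R - xp Θ Y) =
      (xp Θ X - xp Θ Y) * ∏ R ∈ S, (xp Θ (X + R) - xp Θ Y) := by
  have key : ∀ P Q : Pt (WAB A B) Ω, P ≠ 0 → Q ≠ 0 → xc P - xc Q = u ^ 2 * (xp Θ P - xp Θ Q) := by
    intro P Q hP hQ
    rw [(h.gd.crd P hP).2.1, (h.gd.crd Q hQ).2.1]
    simp only [xp]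
    ring
  have key₂ : ∀ P Q : Pt (WAB A₂ B₂) Ω, P ≠ 0 → Q ≠ 0 → xc P - xc Q = u₂ ^ 2 * (xp Θ₂ P - xp Θ₂ Q) := by
    intro P Q hP hQ
    rw [(h.gd₂.crd P hP).2.1, (h.gd₂.crd Q hQ).2.1]
    simp only [xp]
    ring
  have hX0 : X ≠ 0 := by
    rintro rfl
    exact hX (map_zero _)
  have hY0 : Y ≠ 0 := by
    rintro rfl
    exact hY (map_zero _)
  have e := h.e2 X Y hX hY
  have p1 : ∏ R ∈ S, (xc R - xc Y) = ∏ R ∈ S, (u ^ 2 * (xp Θ R - xp Θ Y)) :=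
    Finset.prod_congr rfl fun R hR => key R Y ((h.mem R).1 hR).2 hY0
  have p2 : ∏ R ∈ S, (xc (X + R) - xc Y) = ∏ R ∈ S, (u ^ 2 * (xp Θ (X + R) - xp Θ Y)) := by
    refine Finset.prod_congr rfl fun R hR => key (X + R) Y (fun h0 => hX ?_) hY0
    have h1 : Φ (X + R) = 0 := by rw [h0, map_zero]
    rwa [map_add, ((h.mem R).1 hR).1, add_zero] at h1
  rw [key₂ _ _ hX hY, key _ _ hX0 hY0, p1, p2, Finset.prod_mul_distrib, Finset.prod_mul_distrib, Finset.prod_const] at e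
  have hu0 : u ≠ 0 := h.gd.une
  have hu : u ^ 2 * (u ^ 2) ^ S.card ≠ 0 :=
    mul_ne_zero (pow_ne_zero _ hu0) (pow_ne_zero _ (pow_ne_zero _ hu0))
  have hc : (u₂ / u) ^ 2 * u ^ 2 = u₂ ^ 2 := by
    rw [← mul_pow, div_mul_cancel₀ _ hu0]
  apply mul_left_cancel₀ hu
  linear_combination e + (c₀ * (xp Θ₂ (Φ X) - xp Θ₂ (Φ Y)) * (∏ R ∈ S, (xp Θ R - xp Θ Y)) * (u ^ 2) ^ S.card) * hc

/-- Auxiliary: avoid for linear conditions on a pair. -/
theorem j2a_gen0 {G : Type} [AddCommGroup G] (hdiv : ∀ n : ℕ, n ≠ 0 → ∀ g : G, ∃ g' : G, n • g' = g) {ι : Type} (I : Set ι)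
    (hI : I.Finite) (L : ι → (G × G →+ G)) (hL : ∀ i ∈ I, Function.Surjective (L i)) (K : ι → AddSubgroup G)
    (hK : ∀ i ∈ I, K i ≠ ⊤) (R : ι → G) : ∃ g : G × G, ∀ i ∈ I, L i g + R i ∉ K i := by
  classical
  have hdiv2 : ∀ n : ℕ, n ≠ 0 → ∀ g : G × G, ∃ g', n • g' = g := by
    intro n hn g
    obtain ⟨a, ha⟩ := hdiv n hn g.1
    obtain ⟨b, hb⟩ := hdiv n hn g.2
    exact ⟨(a, b), Prod.ext ha hb⟩
  let c : ι → G × G := fun i => if hi : i ∈ I then (hL i hi (-R i)).choose else 0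
  have hc : ∀ i ∈ I, L i (c i) = -R i := by
    intro i hi
    have e : c i = (hL i hi (-R i)).choose := by
      simp only [c, dif_pos hi]
    rw [e]
    exact (hL i hi (-R i)).choose_spec
  obtain ⟨g, hg⟩ := avoid hdiv2 I hI (fun i => (K i).comap (L i)) (fun i hi h0 => hK i hi (by
    rw [eq_top_iff]
    intro x _
    obtain ⟨y, rfl⟩ := hL i hi x
    have h1 : y ∈ (K i).comap (L i) := by
      rw [h0]
      exact AddSubgroup.mem_top _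
    exact AddSubgroup.mem_comap.1 h1)) c
  refine ⟨g, fun i hi hh => hg i hi ?_⟩
  rw [AddSubgroup.mem_comap, map_sub, hc i hi, sub_neg_eq_add]
  exact hh

/-- Auxiliary: the generic pair for two proper subgroups of a divisible group. -/
theorem j2a_gen {G : Type} [AddCommGroup G] (hdiv : ∀ n : ℕ, n ≠ 0 → ∀ g : G, ∃ g' : G, n • g' = g) (T : Finset G)
    {K K' : AddSubgroup G} (hK : K ≠ ⊤) (hK' : K' ≠ ⊤) : ∃ X Y : G, ∀ R ∈ T,
      (X + R ∉ K ∧ R - Y ∉ K ∧ R + Y ∉ K ∧ X + R - Y ∉ K ∧ X + R + Y ∉ K) ∧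
      (X + R ∉ K' ∧ R - Y ∉ K' ∧ R + Y ∉ K' ∧ X + R - Y ∉ K' ∧ X + R + Y ∉ K') := by
  obtain ⟨g, hg⟩ := j2a_gen0 hdiv (ι := (ℤ × ℤ) × Bool × G)
    ((({(1, 0), (0, -1), (0, 1), (1, -1), (1, 1)} : Finset (ℤ × ℤ)) : Set (ℤ × ℤ)) ×ˢ (Set.univ ×ˢ (T : Set G)))
    ((Finset.finite_toSet _).prod (Set.finite_univ.prod (Finset.finite_toSet _)))
    (fun i => i.1.1 • AddMonoidHom.fst G G + i.1.2 • AddMonoidHom.snd G G)
    (fun i hi x => by
      obtain ⟨hi, -⟩ := hi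
      rw [Finset.mem_coe] at hi
      simp only [Finset.mem_insert, Finset.mem_singleton] at hi
      rcases hi with h | h | h | h | h <;> rw [h]
      · exact ⟨(x, 0), by simp⟩
      · exact ⟨(0, -x), by simp⟩
      · exact ⟨(0, x), by simp⟩
      · exact ⟨(x, 0), by simp⟩
      · exact ⟨(x, 0), by simp⟩)
    (fun i => if i.2.1 then K else K')
    (fun i hi => by
      rcases i with ⟨i, b, R⟩
      cases b
      · simpa using hK'
      · simpa using hK)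
    (fun i => i.2.2)
  have key : ∀ R ∈ T, ∀ b : Bool, (g.1 + R ∉ (if b then K else K') ∧ R - g.2 ∉ (if b then K else K') ∧ R + g.2 ∉ (if b then K else K') ∧
      g.1 + R - g.2 ∉ (if b then K else K') ∧ g.1 + R + g.2 ∉ (if b then K else K')) := by
    intro R hR b
    have k1 : ∀ z : ℤ × ℤ, z ∈ ({(1, 0), (0, -1), (0, 1), (1, -1), (1, 1)} : Finset (ℤ × ℤ)) →
        z.1 • g.1 + z.2 • g.2 + R ∉ (if b then K else K') := fun z hz =>
      hg (z, b, R) ⟨by rw [Finset.mem_coe]; exact hz, Set.mem_univ _, hR⟩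
    have l1 := k1 (1, 0) (by simp)
    have l2 := k1 (0, -1) (by simp)
    have l3 := k1 (0, 1) (by simp)
    have l4 := k1 (1, -1) (by simp)
    have l5 := k1 (1, 1) (by simp)
    simp only [one_smul, zero_smul, neg_smul, add_zero, zero_add] at l1 l2 l3 l4 l5
    refine ⟨l1, ?_, ?_, ?_, ?_⟩
    · rwa [sub_eq_add_neg, add_comm]
    · rwa [add_comm]
    · rwa [sub_eq_add_neg, add_right_comm]
    · rwa [add_right_comm]
  exact ⟨g.1, g.2, fun R hR => ⟨by simpa using key R hR true, by simpa using key R hR false⟩⟩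

/-- Chunk J2a (M). avoid (B2.lean) for the group Pt × Pt (h.div, componentwise), with the finite set of the conditions: the proper subgroups are the preimages of Kg under (X, Y) ↦ X, Y, X - Y, X + Y (not everything: kg_ne') and of Kg₂ under (X, Y) ↦ Φ X, Φ Y, Φ X - Φ Y, Φ X + Φ Y (not everything: kg_ne' for the second curve, h.surj); the cosets: for R in S: X + R, R - Y, R + Y, X + R - Y, X + R + Y.
(For example index set ι = Fin 2 × ℤ × ℤ × Pt restricted to a finite set, H i = the preimage of Kg (first component 0) or Kg₂ under (X, Y) ↦ a X + b Y (or Φ of it), a, b in {0, 1, -1} not both 0; c i = a pair with a X₀ + b Y₀ = R.) -/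
theorem gen_phi [IsAlgClosed Ω] (h : PD V W' u r s t Θ Kg W₂ u₂ r₂ s₂ t₂ Θ₂ Kg₂ Φ S c₀) : ∃ X Y : Pt (WAB A B) Ω,
    X ∉ Kg ∧ Y ∉ Kg ∧ X - Y ∉ Kg ∧ X + Y ∉ Kg ∧ Φ X ∉ Kg₂ ∧ Φ Y ∉ Kg₂ ∧ Φ X - Φ Y ∉ Kg₂ ∧ Φ X + Φ Y ∉ Kg₂ ∧
      ∀ R ∈ S, X + R ∉ Kg ∧ R - Y ∉ Kg ∧ R + Y ∉ Kg ∧ X + R - Y ∉ Kg ∧ X + R + Y ∉ Kg := by
  classical
  obtain ⟨P, hP⟩ := kg_ne' h.gd
  obtain ⟨P₂, hP₂⟩ := kg_ne' h.gd₂
  obtain ⟨P₃, hP₃⟩ := h.surj P₂
  have hKK : Kg₂.comap Φ ≠ ⊤ := by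
    intro h0
    have h1 : P₃ ∈ Kg₂.comap Φ := by
      rw [h0]
      exact AddSubgroup.mem_top _
    rw [AddSubgroup.mem_comap, hP₃] at h1
    exact hP₂ h1
  have hK : Kg ≠ ⊤ := by
    intro h0
    rw [h0] at hP
    exact hP (AddSubgroup.mem_top _)
  obtain ⟨X, Y, hXY⟩ := j2a_gen h.div (insert 0 S) hK hKK
  refine ⟨X, Y, ?_⟩
  obtain ⟨h0, h0'⟩ := hXY 0 (Finset.mem_insert_self _ _)
  obtain ⟨a1, a2, a3, a4, a5⟩ := h0
  obtain ⟨b1, b2, b3, b4, b5⟩ := h0'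
  simp only [add_zero, zero_add, AddSubgroup.mem_comap, map_sub, map_add] at a1 a2 a3 a4 a5 b1 b2 b3 b4 b5
  exact ⟨a1, a3, a4, a5, b1, b3, b4, b5, fun R hR => (hXY R (Finset.mem_insert_of_mem hR)).1⟩

end H55G
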