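import Mathlib
import Pool.Agent.Lib.H55G.J2a

/-! # H55G, part J: the isogeny and the kernels of reduction -/

open NumberField IsDedekindDomain WeierstrassCurve

namespace H55G

open H55P (IQ embF eF LF Per IsHecke Pt ac Inert Dec Nm)
open H35P (WAB Ker GoodW IntW)
open H55K (CMA Tor TN ak xc yc)
open H55K.MG (VC Crd)

variable {F : Type} [Field F] {A B A₂ B₂ : F} {Ω : Type} [Field Ω] [DecidableEq Ω] [Algebra F Ω] {V : ValuationSubring Ω}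
  {W' : WeierstrassCurve Ω} {u r s t : Ω} {Θ : Pt (WAB A B) Ω ≃+ W'.toAffine.Point} {Kg : AddSubgroup (Pt (WAB A B) Ω)}
  {W₂ : WeierstrassCurve Ω} {u₂ r₂ s₂ t₂ : Ω} {Θ₂ : Pt (WAB A₂ B₂) Ω ≃+ W₂.toAffine.Point} {Kg₂ : AddSubgroup (Pt (WAB A₂ B₂) Ω)}
  {Φ : Pt (WAB A B) Ω →+ Pt (WAB A₂ B₂) Ω} {S : Finset (Pt (WAB A B) Ω)} {c₀ : Ω}

/-- Auxiliary: the values of the two sides of e2p. -/
theorem j2b_e (h : PD V W' u r s t Θ Kg W₂ u₂ r₂ s₂ t₂ Θ₂ Kg₂ Φ S c₀) {X Y : Pt (WAB A B) Ω} (hX : Φ X ≠ 0) (hY : Φ Y ≠ 0) :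
    V.valuation (c₀ * (u₂ / u) ^ 2) * V.valuation (xp Θ₂ (Φ X) - xp Θ₂ (Φ Y)) * ∏ R ∈ S, V.valuation (xp Θ R - xp Θ Y) =
      V.valuation (xp Θ X - xp Θ Y) * ∏ R ∈ S, V.valuation (xp Θ (X + R) - xp Θ Y) := by
  have e := congrArg V.valuation (e2p h hX hY)
  generalize c₀ * (u₂ / u) ^ 2 = c at e ⊢
  simpa only [map_mul, map_prod] using e

/-- Auxiliary: no element of S or all of them are in Kg. -/
theorem j2b_cases (h : PD V W' u r s t Θ Kg W₂ u₂ r₂ s₂ t₂ Θ₂ Kg₂ Φ S c₀) :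
    (∀ R ∈ S, R ∉ Kg) ∨ (∀ R ∈ S, R ∈ Kg) := by
  by_cases hh : ∃ R ∈ S, R ∈ Kg
  · obtain ⟨R, hR, hK⟩ := hh
    right
    intro R' hR'
    rcases h.pm R hR R' hR' with h1 | h1
    · rw [h1]
      exact hK
    · rw [h1]
      exact Kg.neg_mem hK
  · left
    intro R hR hK
    exact hh ⟨R, hR, hK⟩

/-- Chunk J2b (S/M). X, Y from gen_phi. e2p (Φ X, Φ Y ≠ 0 since they are not in Kg₂): V(xp₂ (Φ X) - xp₂ (Φ Y)) = 1, V(xp X - xp Y) = 1, V(xp (X + R) - xp Y) = 1 (xp_diff, B1.lean). First claim: V(xp R - xp Y) = 1 (R, Y, R ± Y not in Kg). Second claim: V(xp R - xp Y) = V(xp R) (xp_far: R in Kg, R ≠ 0 by h.mem, Y not in Kg). -/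
theorem c_val [IsAlgClosed Ω] (h : PD V W' u r s t Θ Kg W₂ u₂ r₂ s₂ t₂ Θ₂ Kg₂ Φ S c₀) :
    ((∀ R ∈ S, R ∉ Kg) → V.valuation (c₀ * (u₂ / u) ^ 2) = 1) ∧
      ((∀ R ∈ S, R ∈ Kg) → V.valuation (c₀ * (u₂ / u) ^ 2 * ∏ R ∈ S, xp Θ R) = 1) := by
  obtain ⟨X, Y, hX, hY, hm, hp, hX₂, hY₂, hm₂, hp₂, hR⟩ := gen_phi h
  have hX0 : Φ X ≠ 0 := fun h0 => hX₂ (by rw [h0]; exact Kg₂.zero_mem)
  have hY0 : Φ Y ≠ 0 := fun h0 => hY₂ (by rw [h0]; exact Kg₂.zero_mem)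
  have e := j2b_e h hX0 hY0
  have p2 : ∏ R ∈ S, V.valuation (xp Θ (X + R) - xp Θ Y) = 1 :=
    Finset.prod_eq_one fun R hRS => xp_diff h.gd (hR R hRS).1 hY (hR R hRS).2.2.2.1 (hR R hRS).2.2.2.2
  rw [xp_diff h.gd₂ hX₂ hY₂ hm₂ hp₂, xp_diff h.gd hX hY hm hp, p2, mul_one, mul_one] at e
  refine ⟨fun hS => ?_, fun hS => ?_⟩
  · have p1 : ∏ R ∈ S, V.valuation (xp Θ R - xp Θ Y) = 1 :=
      Finset.prod_eq_one fun R hRS => xp_diff h.gd (hS R hRS) hY (hR R hRS).2.1 (hR R hRS).2.2.1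
    rw [p1, mul_one] at e
    exact e
  · have p1 : ∏ R ∈ S, V.valuation (xp Θ R - xp Θ Y) = ∏ R ∈ S, V.valuation (xp Θ R) :=
      Finset.prod_congr rfl fun R hRS => (xp_far h.gd (hS R hRS) ((h.mem R).1 hRS).2 hY).2
    rw [p1] at e
    rw [map_mul, map_prod]
    exact e

/-- Auxiliary: the value of xp₂ (Φ X) - xp₂ (Φ Y). -/
theorem j2b_val [IsAlgClosed Ω] (h : PD V W' u r s t Θ Kg W₂ u₂ r₂ s₂ t₂ Θ₂ Kg₂ Φ S c₀) {X Y : Pt (WAB A B) Ω} (hX : Φ X ≠ 0)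
    (hY : Φ Y ≠ 0) (hYK : Y ∉ Kg) (hR : ∀ R ∈ S, R - Y ∉ Kg ∧ R + Y ∉ Kg) :
    V.valuation (xp Θ₂ (Φ X) - xp Θ₂ (Φ Y)) =
      V.valuation (xp Θ X - xp Θ Y) * ∏ R ∈ S, V.valuation (xp Θ (X + R) - xp Θ Y) := by
  rw [← j2b_e h hX hY]
  rcases j2b_cases h with hS | hS
  · have p1 : ∏ R ∈ S, V.valuation (xp Θ R - xp Θ Y) = 1 :=
      Finset.prod_eq_one fun R hRS => xp_diff h.gd (hS R hRS) hYK (hR R hRS).1 (hR R hRS).2
    rw [p1, (c_val h).1 hS, one_mul, mul_one]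
  · have p1 : ∏ R ∈ S, V.valuation (xp Θ R - xp Θ Y) = ∏ R ∈ S, V.valuation (xp Θ R) :=
      Finset.prod_congr rfl fun R hRS => (xp_far h.gd (hS R hRS) ((h.mem R).1 hRS).2 hYK).2
    have h1 := (c_val h).2 hS
    rw [map_mul, map_prod] at h1
    rw [p1, mul_right_comm, h1, one_mul]

/-- Chunk J2b (M). If Φ X = 0: clear (0 in Kg₂). Y from gen_phi. Write c = c₀ (u₂/u)^2. By h.pm either no R in S is in Kg or all are. In both cases e2p for X, Y: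
(1) No R in Kg: V(c) = 1 (c_val), V(xp R - xp Y) = 1, X + R, X + R ± Y not in Kg (X in Kg), so V(xp (X + R) - xp Y) = 1; V(xp X - xp Y) = V(xp X) > 1 (xp_far; X ≠ 0). So V(xp₂ (Φ X) - xp₂ (Φ Y)) > 1; Φ X not in Kg₂ would give ≤ 1 (xp_int: both in V₂'s ring).
(2) All R in Kg: V(xp R - xp Y) = V(xp R), so the left side has value V(xp₂ (Φ X) - xp₂ (Φ Y)) (c_val); X + R is in Kg and ≠ 0 (Φ (X + R) = Φ X ≠ 0): V(xp (X + R) - xp Y) > 1, V(xp X - xp Y) > 1. The same conclusion. -/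
theorem phi_kg [IsAlgClosed Ω] (h : PD V W' u r s t Θ Kg W₂ u₂ r₂ s₂ t₂ Θ₂ Kg₂ Φ S c₀) {X : Pt (WAB A B) Ω} (hX : X ∈ Kg) :
    Φ X ∈ Kg₂ := by
  by_contra hc
  have hX0 : Φ X ≠ 0 := fun h0 => hc (by rw [h0]; exact Kg₂.zero_mem)
  have hne : X ≠ 0 := by
    rintro rfl
    exact hX0 (map_zero _)
  obtain ⟨X', Y, -, hY, -, -, -, hY₂, -, -, hR⟩ := gen_phi h
  have hY0 : Φ Y ≠ 0 := fun h0 => hY₂ (by rw [h0]; exact Kg₂.zero_mem)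
  have e := j2b_val h hX0 hY0 hY fun R hRS => ⟨(hR R hRS).2.1, (hR R hRS).2.2.1⟩
  have h1 : 1 < V.valuation (xp Θ X - xp Θ Y) := by
    have h2 := xp_far h.gd hX hne hY
    rw [h2.2]
    exact h2.1
  have h3 : ∀ R ∈ S, 1 ≤ V.valuation (xp Θ (X + R) - xp Θ Y) := by
    intro R hRS
    by_cases hRK : R ∈ Kg
    · have h4 : X + R ≠ 0 := by
        intro h5
        apply hX0
        have h6 : Φ (X + R) = 0 := by rw [h5, map_zero]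
        rwa [map_add, ((h.mem R).1 hRS).1, add_zero] at h6
      have h7 := xp_far h.gd (Kg.add_mem hX hRK) h4 hY
      rw [h7.2]
      exact h7.1.le
    · rw [xp_diff h.gd (fun hm => hRK ((Kg.add_mem_cancel_left hX).1 hm)) hY (fun hm => (hR R hRS).2.1 ?_)
        (fun hm => (hR R hRS).2.2.1 ?_)]
      · rw [add_sub_assoc] at hm
        exact (Kg.add_mem_cancel_left hX).1 hm
      · rw [add_assoc] at hm
        exact (Kg.add_mem_cancel_left hX).1 hm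
  have h4 : 1 ≤ ∏ R ∈ S, V.valuation (xp Θ (X + R) - xp Θ Y) := Finset.one_le_prod' h3
  have h5 : 1 < V.valuation (xp Θ₂ (Φ X) - xp Θ₂ (Φ Y)) := by
    rw [e]
    exact lt_of_lt_of_le h1 (le_mul_of_one_le_right' h4)
  have h6 : V.valuation (xp Θ₂ (Φ X) - xp Θ₂ (Φ Y)) ≤ 1 :=
    V.valuation.map_sub_le ((V.valuation_le_one_iff _).2 (xp_int h.gd₂ hc).2.1)
      ((V.valuation_le_one_iff _).2 (xp_int h.gd₂ hY₂).2.1)
  exact absurd (lt_of_lt_of_le h5 h6) (lt_irrefl _)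

/-- Chunk J2b (M). If Φ X = 0: R = X. Otherwise suppose X is not in Kg and X + R is not in Kg for all R in S (if X in Kg: R = 0; if X + R in Kg: take -R). Y from gen_phi (only conditions on Y). e2p for X, Y: V(xp₂ (Φ X) - xp₂ (Φ Y)) > 1 (xp_far for the second curve: Φ X in Kg₂, ≠ 0, Φ Y not in Kg₂).
Cases as in phi_kg: in both the left side has value > 1 (c_val: (1) V(c) = 1, V(xp R - xp Y) = 1; (2) V(c ∏ xp R) = 1). The right side has value ≤ 1: xp X, xp Y, xp (X + R) are in V (xp_int). Contradiction. -/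
theorem phi_lift [IsAlgClosed Ω] (h : PD V W' u r s t Θ Kg W₂ u₂ r₂ s₂ t₂ Θ₂ Kg₂ Φ S c₀) {X : Pt (WAB A B) Ω} (hX : Φ X ∈ Kg₂) :
    ∃ R, Φ R = 0 ∧ X - R ∈ Kg := by
  by_contra hc
  have hX0 : Φ X ≠ 0 := fun h0 => hc ⟨X, h0, by rw [sub_self]; exact Kg.zero_mem⟩
  have hXK : X ∉ Kg := fun hK => hc ⟨0, map_zero _, by rw [sub_zero]; exact hK⟩
  have hXR : ∀ R ∈ S, X + R ∉ Kg := fun R hRS hK =>
    hc ⟨-R, by rw [map_neg, ((h.mem R).1 hRS).1, neg_zero], by rw [sub_neg_eq_add]; exact hK⟩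
  obtain ⟨X', Y, -, hY, -, -, -, hY₂, -, -, hR⟩ := gen_phi h
  have hY0 : Φ Y ≠ 0 := fun h0 => hY₂ (by rw [h0]; exact Kg₂.zero_mem)
  have e := j2b_val h hX0 hY0 hY fun R hRS => ⟨(hR R hRS).2.1, (hR R hRS).2.2.1⟩
  have h1 : 1 < V.valuation (xp Θ₂ (Φ X) - xp Θ₂ (Φ Y)) := by
    have h2 := xp_far h.gd₂ hX hX0 hY₂
    rw [h2.2]
    exact h2.1
  have hle : ∀ P : Pt (WAB A B) Ω, P ∉ Kg → V.valuation (xp Θ P - xp Θ Y) ≤ 1 := fun P hP =>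
    V.valuation.map_sub_le ((V.valuation_le_one_iff _).2 (xp_int h.gd hP).2.1)
      ((V.valuation_le_one_iff _).2 (xp_int h.gd hY).2.1)
  have h3 : ∏ R ∈ S, V.valuation (xp Θ (X + R) - xp Θ Y) ≤ 1 :=
    Finset.prod_le_one' fun R hRS => hle _ (hXR R hRS)
  rw [e] at h1
  exact absurd (lt_of_lt_of_le h1 (mul_le_one' (hle X hXK) h3)) (lt_irrefl _)

end H55G
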