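import Mathlib
import Pool.Agent.Lib.H55G.A3
import Pool.Agent.Lib.H55G.J2b

/-! # H55G, part J: counting fixed points -/

open NumberField IsDedekindDomain WeierstrassCurve

namespace H55G

open H55P (IQ embF eF LF Per IsHecke Pt ac Inert Dec Nm)
open H35P (WAB Ker GoodW IntW)
open H55K (CMA Tor TN ak xc yc acr xc_acr yc_acr acr_zero_iff acr_inj acr_eq_ac acr_trans)
open H55K.MG (VC Crd)

variable {F : Type} [Field F] {A B A₂ B₂ : F} {Ω : Type} [Field Ω] [DecidableEq Ω] [Algebra F Ω] {V : ValuationSubring Ω}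
  {W' : WeierstrassCurve Ω} {u r s t : Ω} {Θ : Pt (WAB A B) Ω ≃+ W'.toAffine.Point} {Kg : AddSubgroup (Pt (WAB A B) Ω)}
  {W₂ : WeierstrassCurve Ω} {u₂ r₂ s₂ t₂ : Ω} {Θ₂ : Pt (WAB A₂ B₂) Ω ≃+ W₂.toAffine.Point} {Kg₂ : AddSubgroup (Pt (WAB A₂ B₂) Ω)}
  {Φ : Pt (WAB A B) Ω →+ Pt (WAB A₂ B₂) Ω} {S : Finset (Pt (WAB A B) Ω)} {c₀ : Ω}

/-- Chunk J3a (S/M). f = QuotientAddGroup.map Kg Kg₂ Φ (phi_kg): surjective (h.surj). Its kernel: the classes of X with Φ X in Kg₂; by phi_lift such a class is the class of some R with Φ R = 0, and these R are finitely many (R = 0 or R in S: h.mem). f commutes with the maps qmap (acr g) (hc; classes of points, qmap_mk). iso_count (A3.lean) with φ = qmap (acr g) on the first quotient (hs) and φ' on the second. -/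
theorem pd_count [IsAlgClosed Ω] (h : PD V W' u r s t Θ Kg W₂ u₂ r₂ s₂ t₂ Θ₂ Kg₂ Φ S c₀) {g : Ω ≃+* Ω}
    {hA : g (algebraMap F Ω A) = algebraMap F Ω A} {hB : g (algebraMap F Ω B) = algebraMap F Ω B}
    {hA₂ : g (algebraMap F Ω A₂) = algebraMap F Ω A₂} {hB₂ : g (algebraMap F Ω B₂) = algebraMap F Ω B₂}
    (hc : ∀ P, Φ (acr g hA hB P) = acr g hA₂ hB₂ (Φ P)) (hK : ∀ P ∈ Kg, acr g hA hB P ∈ Kg)
    (hK₂ : ∀ P ∈ Kg₂, acr g hA₂ hB₂ P ∈ Kg₂)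
    (hs : ∀ P : Pt (WAB A B) Ω ⧸ Kg, ∃ Q, qmap Kg (acr g hA hB) hK Q - Q = P) :
    Nat.card {c : Pt (WAB A B) Ω ⧸ Kg // qmap Kg (acr g hA hB) hK c = c} =
      Nat.card {c : Pt (WAB A₂ B₂) Ω ⧸ Kg₂ // qmap Kg₂ (acr g hA₂ hB₂) hK₂ c = c} := by
  classical
  have hle : Kg ≤ Kg₂.comap Φ := fun X hX => phi_kg h hX
  let f : (Pt (WAB A B) Ω ⧸ Kg) →+ (Pt (WAB A₂ B₂) Ω ⧸ Kg₂) := QuotientAddGroup.map Kg Kg₂ Φ hle
  have hf : ∀ X : Pt (WAB A B) Ω, f (QuotientAddGroup.mk X) = QuotientAddGroup.mk (Φ X) := fun X => rfl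
  refine iso_count f ?_ ?_ (qmap Kg (acr g hA hB) hK) (qmap Kg₂ (acr g hA₂ hB₂) hK₂) ?_ hs
  · intro q
    obtain ⟨y, rfl⟩ := QuotientAddGroup.mk_surjective q
    obtain ⟨x, rfl⟩ := h.surj y
    exact ⟨QuotientAddGroup.mk x, hf x⟩
  · have hfin : ((QuotientAddGroup.mk : Pt (WAB A B) Ω → Pt (WAB A B) Ω ⧸ Kg) '' (↑(insert 0 S) : Set (Pt (WAB A B) Ω))).Finite :=
      (Finset.finite_toSet _).image _
    have hsub : {P : Pt (WAB A B) Ω ⧸ Kg | f P = 0} ⊆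
        ((QuotientAddGroup.mk : Pt (WAB A B) Ω → Pt (WAB A B) Ω ⧸ Kg) '' (↑(insert 0 S) : Set (Pt (WAB A B) Ω))) := by
      intro q hq
      obtain ⟨X, rfl⟩ := QuotientAddGroup.mk_surjective q
      have h1 : f (QuotientAddGroup.mk X) = 0 := hq
      rw [hf] at h1
      have h2 : Φ X ∈ Kg₂ := (QuotientAddGroup.eq_zero_iff _).1 h1
      obtain ⟨R, hR, hXR⟩ := phi_lift h h2
      refine ⟨R, ?_, ?_⟩
      · rw [Finset.mem_coe, Finset.mem_insert]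
        by_cases hR0 : R = 0
        · exact Or.inl hR0
        · exact Or.inr ((h.mem R).2 ⟨hR, hR0⟩)
      · refine QuotientAddGroup.eq.2 ?_
        rw [neg_add_eq_sub]
        exact hXR
    exact (hfin.subset hsub).to_subtype
  · intro P
    obtain ⟨X, rfl⟩ := QuotientAddGroup.mk_surjective P
    exact congrArg (fun z : Pt (WAB A₂ B₂) Ω => (QuotientAddGroup.mk z : Pt (WAB A₂ B₂) Ω ⧸ Kg₂)) (hc X)

end H55G
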