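import Mathlib
import Pool.Agent.Lib.H55G.E2
import Pool.Agent.Lib.H55G.J0
import Pool.Agent.Lib.H55G.J1b
import Pool.Agent.Lib.H55G.J3a
import Pool.Agent.Lib.H28I.L0

/-! # H55G, part J: the numbers of points of isogenous curves -/

open NumberField IsDedekindDomain WeierstrassCurve

namespace H55G

open H55P (IQ embF eF LF Per IsHecke Pt ac Inert Dec Nm)
open H35P (WAB Ker tt GoodW IntW)
open H55K (CMA Tor TN ak xc yc acr xc_acr yc_acr acr_zero_iff acr_inj acr_eq_ac acr_trans GoodAt Abw)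
open H55K.MG (VC Crd)
open H55K.TQ
open H28I (TW VI IsW IP sA sB)

variable {F : Type} [Field F] [NumberField F] [IQ F] {W W' : WeierstrassCurve ℤ} {Om : ℂ} {m : Ideal (𝓞 F)}
  {ψ : Ideal (𝓞 F) →*₀ 𝓞 F} {kap : ℤ} {e t u lam : ℚ}

omit [IQ F] in
/-- Chunk J3b (S). A = -c₄/48 with c₄ the image of the integer W.c₄ (map_c₄, Sh); sA, sB in H28I/D.lean. -/
theorem sh_s {A B : F} (hS : Sh (W⁄(𝓞 F)) A B) : A = sA W F ∧ B = sB W F := by
  have hA : sA W F = -(algebraMap (𝓞 F) F (W⁄(𝓞 F)).c₄) / 48 := by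
    have e1 : (W⁄(𝓞 F)).c₄ = algebraMap ℤ (𝓞 F) W.c₄ := W.map_c₄ _
    rw [e1, sA]
    simp
  have hB : sB W F = -(algebraMap (𝓞 F) F (W⁄(𝓞 F)).c₆) / 864 := by
    have e1 : (W⁄(𝓞 F)).c₆ = algebraMap ℤ (𝓞 F) W.c₆ := W.map_c₆ _
    rw [e1, sB]
    simp
  exact ⟨hS.hA.trans hA.symm, hS.hB.trans hB.symm⟩

omit [IQ F] in
theorem j3b_sh (W : WeierstrassCurve ℤ) : Sh (W⁄(𝓞 F)) (sA W F) (sB W F) := by
  refine ⟨?_, ?_⟩
  · have e1 : (W⁄(𝓞 F)).c₄ = algebraMap ℤ (𝓞 F) W.c₄ := W.map_c₄ _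
    rw [e1, sA]
    simp
  · have e1 : (W⁄(𝓞 F)).c₆ = algebraMap ℤ (𝓞 F) W.c₆ := W.map_c₆ _
    rw [e1, sB]
    simp

/-- Chunk J3b (M). Ω an algebraically closed field, algebraic over the image of F, with act .. from setup (E2.lean) for W: A = sA W F, B = sB W F (sh_s). A₂ = sA W' F, B₂ = sB W' F; Sh (W'⁄(𝓞 F)) A₂ B₂. VI A B (lam^4 A₂) (lam^6 B₂) e t u over F: h.ip.vi mapped from ℚ to F (vi_map in H28I/V4.lean; sA W F = image of sA W ℚ).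
Φ with IsY: exists_Y (J0.lean) for this j and L from exists_perZ (perW_of h.base); g2, g3, VI over F, lam ≠ 0: as in the proof of H28I.iso6_of (Lib/H28I/K1.lean). -/
theorem exists_phi (h : TW F W W' Om m ψ kap e t u lam) (Ω : Type) [Field Ω] [DecidableEq Ω] [Algebra F Ω] [IsAlgClosed Ω]
    [Algebra.IsAlgebraic F Ω] : ∃ (j : Ω →+* ℂ) (act : 𝓞 F →+* AddMonoid.End (Pt (WAB (sA W F) (sB W F)) Ω))
      (Φ : Pt (WAB (sA W F) (sB W F)) Ω →+ Pt (WAB (sA W' F) (sB W' F)) Ω),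
      Sh (W⁄(𝓞 F)) (sA W F) (sB W F) ∧ Sh (W'⁄(𝓞 F)) (sA W' F) (sB W' F) ∧ CMA F (sA W F) (sB W F) Om j act ∧
      4 * sA W' F ^ 3 + 27 * sB W' F ^ 2 ≠ 0 ∧
      VI (sA W F) (sB W F) ((lam : F) ^ 4 * sA W' F) ((lam : F) ^ 6 * sB W' F) (e : F) (t : F) (u : F) ∧
      IsY (sA W F) (sB W F) (sA W' F) (sB W' F) (e : F) (t : F) (u : F) (lam : F) Φ := by
  classical
  obtain ⟨A, B, j, act, hS, hd, hC⟩ := setup h.base Ω
  obtain ⟨rfl, rfl⟩ := sh_s hS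
  obtain ⟨L, hL⟩ := H55K.TQ.exists_perZ (H55K.TQ.perW_of h.base)
  have hl : (lam : F) ≠ 0 := by
    exact_mod_cast h.ip.lam0
  have hg2 : L.g₂ = -4 * j (algebraMap F Ω (sA W F)) := by
    rw [hL.g2, sA]
    simp only [map_div₀, map_neg, map_intCast, map_ofNat]
    ring
  have hg3 : L.g₃ = -4 * j (algebraMap F Ω (sB W F)) := by
    rw [hL.g3, sB]
    simp only [map_div₀, map_neg, map_intCast, map_ofNat]
    ring
  have hc : CharZero Ω := charZero_of_injective_algebraMap (algebraMap F Ω).injective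
  have hVI := H28I.vi_K h.ip F
  obtain ⟨Φ, hΦ⟩ := exists_Y (Ω := Ω) j L hl hVI hg2 hg3
  refine ⟨j, act, Φ, hS, j3b_sh W', hC, ?_, hVI, hΦ⟩
  intro h0
  apply hVI.disc'
  linear_combination (lam : F) ^ 12 * h0

end H55G
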