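import Mathlib
import Pool.Agent.Lib.H55G.J3b
import Pool.Agent.Lib.H55G.E1

/-! # H55G, part J: the numbers of points of isogenous curves -/

open NumberField IsDedekindDomain WeierstrassCurve

namespace H55G

open H55P (IQ embF eF LF Per IsHecke Pt ac Inert Dec Nm)
open H35P (WAB Ker tt GoodW IntW)
open H55K (CMA Tor TN ak xc yc acr xc_acr yc_acr acr_zero_iff acr_inj acr_eq_ac acr_trans GoodAt Abw)
open H55K.MG (VC Crd)
open H55K.TQ
open H28I (TW VI IsW IP sA sB)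

variable {F : Type} [Field F] [NumberField F] [IQ F] {W W' : WeierstrassCurve ℤ} {Om : ℂ} {m : Ideal (𝓞 F)}
  {ψ : Ideal (𝓞 F) →*₀ 𝓞 F} {kap : ℤ} {e t u lam : ℚ}

/-- Chunk J3c (M). As hasse_Z (E2C.lean): Ω = AlgebraicClosure k with an embedding of F (Algebra F Ω), algebraic over F; classical DecidableEq. exists_phi (J3b.lean): j, act, Φ. V above w: exists_abw. C with GC (W⁄k) w C (hg), C₂ with GC (W'⁄k) w C₂ (H28I.tw_good). exists_GD (D2.lean) with vck_Z (E2.lean) for both curves: GD V ((C • (W⁄k))⁄Ω) .. Θ Kg and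
GD V ((C₂ • (W'⁄k))⁄Ω) .. Θ₂ Kg₂, with u, r, s, t, u₂, .. images of elements of k. phi_e2 (J1b.lean; IsY.w, c₀ = lam^2 ≠ 0) gives S: PD (div: CMA.surj for n ≠ 0, map_natCast). g from exists_g (E2.lean): FrD k V w g; it fixes all rational numbers, so A, B, A₂, B₂ (fix_AB) and e, t, u, lam: isy_acr (J0.lean) gives hc; Fx for both models; hK, hK₂: acr_kg.
e_all (E1.lean), third claim: hs. pd_count (J3a.lean) and NW_fr (D4.lean) for both curves. -/
theorem nw_tw (h : TW F W W' Om m ψ kap e t u lam) (k : Type) [Field k] [NumberField k] (w : HeightOneSpectrum (𝓞 k))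
    (hg : GoodAt (W⁄k) w) : NW (W'⁄k) w = NW (W⁄k) w := by
  classical
  let ι : F →+* AlgebraicClosure k :=
    ((IsAlgClosed.lift (R := ℚ) (S := F) (M := AlgebraicClosure k) : F →ₐ[ℚ] AlgebraicClosure k) : F →+* AlgebraicClosure k)
  letI algF : Algebra F (AlgebraicClosure k) := ι.toAlgebra
  have htow : IsScalarTower ℚ F (AlgebraicClosure k) :=
    IsScalarTower.of_algebraMap_eq' (Subsingleton.elim _ _)
  have halgQ : Algebra.IsAlgebraic ℚ (AlgebraicClosure k) := Algebra.IsAlgebraic.trans ℚ k (AlgebraicClosure k)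
  have halg : Algebra.IsAlgebraic F (AlgebraicClosure k) := Algebra.IsAlgebraic.tower_top (K := ℚ) F
  obtain ⟨j, act, Φ, hS, hS', hC, hd₂, hVI, hY⟩ := exists_phi h (AlgebraicClosure k)
  have hd := hC.disc
  obtain ⟨V, hV⟩ := H55K.exists_abw (AlgebraicClosure k) w
  obtain ⟨C, hCg⟩ := (good_iff _ w).1 hg
  obtain ⟨C₂, hCg₂⟩ := (good_iff _ w).1 ((H28I.tw_good h k w).2 hg)
  obtain ⟨u₁, r₁, s₁, t₁, Θ, Kg, hG⟩ := exists_GD hd hV (vck_Z hS) hCg
  obtain ⟨u₂, r₂, s₂, t₂, Θ₂, Kg₂, hG₂⟩ := exists_GD hd₂ hV (vck_Z hS') hCg₂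
  obtain ⟨S, hmem, hpm, he2⟩ := phi_e2 hY.w hVI
  obtain ⟨g, hfr⟩ := exists_g hV
  have hlam : (lam : F) ≠ 0 := Rat.cast_ne_zero.2 h.ip.lam0
  have hrat : ∀ q : ℚ, g (algebraMap F (AlgebraicClosure k) (q : F)) = algebraMap F (AlgebraicClosure k) (q : F) := by
    intro q
    rw [map_ratCast, map_ratCast]
  obtain ⟨fA, fB⟩ := fix_AB hS g
  obtain ⟨fA₂, fB₂⟩ := fix_AB hS' g
  have hc : ∀ P, Φ (acr g fA fB P) = acr g fA₂ fB₂ (Φ P) :=
    isy_acr hY hlam g (hrat e) (hrat t) (hrat u) (hrat lam) fA fB fA₂ fB₂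
  have hgx : Fx g (algebraMap k (AlgebraicClosure k) u₁) (algebraMap k (AlgebraicClosure k) r₁)
      (algebraMap k (AlgebraicClosure k) s₁) (algebraMap k (AlgebraicClosure k) t₁) :=
    ⟨hfr.fix _, hfr.fix _, hfr.fix _, hfr.fix _⟩
  have hgx₂ : Fx g (algebraMap k (AlgebraicClosure k) u₂) (algebraMap k (AlgebraicClosure k) r₂)
      (algebraMap k (AlgebraicClosure k) s₂) (algebraMap k (AlgebraicClosure k) t₂) :=
    ⟨hfr.fix _, hfr.fix _, hfr.fix _, hfr.fix _⟩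
  have hq : 0 < Ideal.absNorm w.asIdeal := Nat.pos_of_ne_zero fun h => w.ne_bot (Ideal.absNorm_eq_zero_iff.1 h)
  have hK : ∀ P ∈ Kg, acr g fA fB P ∈ Kg := fun P hP => (acr_kg hG hgx hq hfr.frob P).2 hP
  have hK₂ : ∀ P ∈ Kg₂, acr g fA₂ fB₂ P ∈ Kg₂ := fun P hP => (acr_kg hG₂ hgx₂ hq hfr.frob P).2 hP
  have hs := (e_all hC hfr hCg rfl hG hgx hK).2.2
  have hdiv : ∀ n : ℕ, n ≠ 0 → ∀ P : Pt (WAB (sA W F) (sB W F)) (AlgebraicClosure k), ∃ Q, n • Q = P := by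
    intro n hn P
    obtain ⟨Q, hQ⟩ := hC.surj ((n : ℕ) : 𝓞 F) (by exact_mod_cast hn) P
    refine ⟨Q, ?_⟩
    rw [map_natCast, AddMonoid.End.natCast_apply] at hQ
    exact hQ
  have hla : algebraMap F (AlgebraicClosure k) (lam : F) ^ 2 ≠ 0 := pow_ne_zero 2 ((map_ne_zero _).2 hlam)
  have hPD : PD V ((C • (W⁄k))⁄(AlgebraicClosure k)) _ _ _ _ Θ Kg ((C₂ • (W'⁄k))⁄(AlgebraicClosure k)) _ _ _ _ Θ₂ Kg₂ Φ S
      (algebraMap F (AlgebraicClosure k) (lam : F) ^ 2) :=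
    { gd := hG
      gd₂ := hG₂
      div := hdiv
      surj := hY.w.surj
      c0 := hla
      mem := hmem
      pm := hpm
      e2 := he2 }
  have h1 := pd_count hPD hc hK hK₂ hs
  have h2 := NW_fr hfr hCg rfl hG hgx hK
  have h3 := NW_fr hfr hCg₂ rfl hG₂ hgx₂ hK₂
  rw [h2, h3, h1]

end H55G
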