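import Mathlib
import Pool.Agent.Lib.H55G.J3c
import Pool.Agent.Lib.H55G.E8
import Pool.Agent.Lib.H55G.F5
import Pool.Agent.Lib.H55K.RI1
import Pool.Agent.Lib.H13R.I1

/-! # H55G, part J: the L-functions of isogenous curves agree -/

open NumberField IsDedekindDomain WeierstrassCurve

namespace H55G

open H55P (IQ embF eF LF Per IsHecke Pt ac Inert Dec Nm UnitP UnrP PExt)
open H55K H55K.TQ
open H55K.DD (LF' ef)
open H28I (TW)

variable {F : Type} [Field F] [NumberField F] [IQ F] {W W' : WeierstrassCurve ℤ} {Om : ℂ} {m : Ideal (𝓞 F)}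
    {ψ : Ideal (𝓞 F) →*₀ 𝓞 F} {kap : ℤ} {e t u lam : ℚ} {p : ℕ}

/-- Chunk J4 (S). Good w (for W, equivalently for W' : H28I.tw_good): lf_same (E8.lean) with nw_tw. Bad w: both are 1: lf_W_bad (H55K/RA2.lean) with jint_Z h.base and h.jint. -/
theorem lf_tw (h : TW F W W' Om m ψ kap e t u lam) (K : Type) [Field K] [NumberField K] (w : HeightOneSpectrum (𝓞 K)) :
    LF' (W'⁄K) w = LF' (W⁄K) w := by
  by_cases hg : GoodAt (W⁄K) w
  · exact lf_same ((H28I.tw_good h K w).2 hg) hg rfl (nw_tw h K w hg)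
  · obtain ⟨j₀, hj⟩ := jint_Z h.base
    obtain ⟨j₁, hj₁⟩ := h.jint
    rw [lf_W_bad W w hj hg, lf_W_bad W' w hj₁ fun hg' => hg ((H28I.tw_good h K w).1 hg')]

/-- Chunk J4 (S). ri1_ev (H55K/RI1.lean) for both curves: eventually in T the coefficients are those of the products over T, which agree (lf_tw, Finset.prod_congr). Filter.Eventually.and, exists; Int.cast_injective. -/
theorem lfun_tw (h : TW F W W' Om m ψ kap e t u lam) (K : Type) [Field K] [NumberField K] (n : ℕ) :
    (W'⁄K).LFunction n = (W⁄K).LFunction n := by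
  obtain ⟨T, h1, h2⟩ := ((ri1_ev (W⁄K) n).and (ri1_ev (W'⁄K) n)).exists
  have h3 : (((W'⁄K).LFunction n : ℤ) : ℂ) = (((W⁄K).LFunction n : ℤ) : ℂ) := by
    rw [← h1, ← h2, Finset.prod_congr rfl fun w _ => lf_tw h K w]
  exact Int.cast_injective h3

/-- Chunk J4 (S). H13R.i1_supp, cur_eq (as in H13R.i1_bad), H28I.tw_good, nw_tw. -/
theorem okm_tw (h : TW F W W' Om m ψ kap e t u lam) (M : IntermediateField F (AlgebraicClosure F)) [NumberField M] :
    OkM p (W'⁄(𝓞 F)) M ↔ OkM p (W⁄(𝓞 F)) M := by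
  unfold OkM
  refine forall_congr' fun w => ?_
  rw [H13R.i1_supp h w, cur_eq M, cur_eq M, H28I.tw_good h M w]
  refine imp_congr_right fun _ => imp_congr_right fun hg => ?_
  rw [nw_tw h M w hg]

end H55G
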