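import Mathlib
import Pool.Agent.Lib.H55G.H1
import Pool.Agent.Lib.H13R.K1

/-! # H55G, part H: almost all prime numbers -/

open NumberField IsDedekindDomain WeierstrassCurve

namespace H55G

open H55P (IQ embF eF LF Per IsHecke Pt ac Inert Dec Nm UnitP UnrP PExt)
open H35P (WAB Ker tt GoodW IntW)
open H55K H55K.TQ
open H13R

variable {F : Type} [Field F] [NumberField F] [IQ F] {W : WeierstrassCurve ℤ} {Om : ℂ}
    {m : Ideal (𝓞 F)} {ψ : Ideal (𝓞 F) →*₀ 𝓞 F} {p : ℕ}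

/-- Chunk H2 (S/M). If L(W/M, 1) is not zero, its algebraic part is a p-adic unit for all but finitely many p (no hypothesis on the reduction). Port of H13R.lunit_almost (Lib/H13R/K1.lean). hR := lrelE hH M ι (F5.lean): Φ 1 Φ̄ 1 / EK W M 1 = Λ 1 or Φ 1 / EK W M 1 = Λ 1 (TW1_ident with ek_an, F8a.lean: the left sides are analytic), so Φ 1 ≠ 0. val_almostM as there.
For the last step: for p outside the finite sets and outside ok_almost (F5.lean): lunit_iffV (H1.lean) with relV1_of (F8.lean; hU: unr_KG hp M ι hU). -/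
theorem lunit_almostE (hH : BaseH F (W⁄(𝓞 F)) Om m ψ) (M : Type) [Field M] [NumberField M] (ι : M →ₐ[ℚ] AlgebraicClosure F)
    (hL : LNz W M) : {p : ℕ | p.Prime ∧ ¬ LUnitG p W M}.Finite := by
  classical
  have hfin := (prime_almost (W⁄(𝓞 F)) hH.data.ell).union (unr_almost (KG F M ι))
  by_cases hex : ∃ p, PrimeH F (W⁄(𝓞 F)) p ∧ UnrP p (KG F M ι)
  swap
  · refine hfin.subset ?_
    rintro p ⟨hp, -⟩
    by_cases h1 : PrimeH F (W⁄(𝓞 F)) p
    · exact Or.inr ⟨hp, fun h2 => hex ⟨p, h1, h2⟩⟩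
    · exact Or.inl ⟨hp, h1⟩
  obtain ⟨p₀, hp₀, hU₀⟩ := hex
  have hfd : FiniteDimensional F (KG F M ι) := kg_fin F M ι
  obtain ⟨Φ, hΦa, hΦs, -⟩ := gen_intR hH hp₀ hU₀ (pext_self p₀ (KG F M ι)) le_rfl le_rfl hU₀
  have hR := lrelE hH M ι
  obtain ⟨hEa, -, -⟩ := ek_an hH M
  obtain ⟨Λ, hΛa, hΛs, hΛ1⟩ := hL
  have hΦ1 : Φ 1 ≠ 0 := by
    rcases hR with ⟨-, hR⟩ | ⟨-, hR⟩
    · have h1 : Φ 1 * (starRingEnd ℂ) (Φ ((starRingEnd ℂ) 1)) / EK W M 1 = Λ 1 :=
        H55N.TW1_ident (1 / 2) (fun z => Φ z * (starRingEnd ℂ) (Φ ((starRingEnd ℂ) z)) / EK W M z) Λ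
        (hEa (fun z => Φ z * (starRingEnd ℂ) (Φ ((starRingEnd ℂ) z))) (hΦa.mul (H55B.I4_conj hΦa))) hΛa
        (fun s hs => by
          rw [(hΛs s hs).2]
          exact ((hR Φ hΦs s hs).LSeries_eq).symm) (by norm_num) 1 (by norm_num)
      intro h0
      apply hΛ1
      rw [← h1, h0, zero_mul, zero_div]
    · have h1 : Φ 1 / EK W M 1 = Λ 1 := H55N.TW1_ident (1 / 2) (fun z => Φ z / EK W M z) Λ (hEa Φ hΦa) hΛa
        (fun s hs => by
          rw [(hΛs s hs).2]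
          exact ((hR Φ hΦs s hs).LSeries_eq).symm) (by norm_num) 1 (by norm_num)
      intro h0
      apply hΛ1
      rw [← h1, h0, zero_div]
  have hval := val_almostM hH (KG F M ι) ⟨Φ, hΦa, hΦs, hΦ1⟩
  have hok := ok_almost hH M
  refine ((hfin.union hval).union hok).subset ?_
  rintro p ⟨hp, hA⟩
  by_cases hP : PrimeH F (W⁄(𝓞 F)) p
  · by_cases hU : UnrP p (KG F M ι)
    · by_cases hO : ∀ v ∈ TE W M, ¬ p ∣ NW (W⁄M) v
      · left
        right
        refine ⟨hP, hU, fun hV => hA ?_⟩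
        exact (lunit_iffV hH hP M (KG F M ι) (relV1_of hH hP M ι (unr_KG hp M ι hU) hO)
          (gen_intR hH hP hU (pext_self p (KG F M ι)) le_rfl le_rfl hU)).2 hV
      · right
        exact ⟨hp, hO⟩
    · exact Or.inl (Or.inl (Or.inr ⟨hp, hU⟩))
  · exact Or.inl (Or.inl (Or.inl ⟨hp, hP⟩))

end H55G
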