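import Mathlib
import Pool.Agent.Lib.H55G.H2
import Pool.Agent.Lib.H55G.J4

/-! # H55G, part J: almost all prime numbers, for isogenous curves -/

open NumberField IsDedekindDomain WeierstrassCurve

namespace H55G

open H55P (IQ embF eF LF Per IsHecke Pt ac Inert Dec Nm UnitP UnrP PExt)
open H55K H55K.TQ
open H13R
open H28I (TW)

variable {F : Type} [Field F] [NumberField F] [IQ F] {W W' : WeierstrassCurve ℤ} {Om : ℂ} {m : Ideal (𝓞 F)}
    {ψ : Ideal (𝓞 F) →*₀ 𝓞 F} {kap : ℤ} {e t u lam : ℚ} {p : ℕ}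

/-- Almost all prime numbers, for isogenous curves. -/
theorem lunit_almost_isoE (h : TW F W W' Om m ψ kap e t u lam) (M : Type) [Field M] [NumberField M]
    (ι : M →ₐ[ℚ] AlgebraicClosure F) (hL : LNz W' M) : {p : ℕ | p.Prime ∧ ¬ LUnitG p W' M}.Finite := by
  have hl := lfun_tw h M
  have hL' : LNz W M := by
    obtain ⟨Λ, hΛ, hs, hne⟩ := hL
    refine ⟨Λ, hΛ, fun s h32 => ?_, hne⟩
    have e : (fun n => (((W'⁄M).LFunction n : ℤ) : ℂ)) = fun n => (((W⁄M).LFunction n : ℤ) : ℂ) := by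
      funext n
      rw [hl n]
    obtain ⟨a, b⟩ := hs s h32
    rw [e] at a
    refine ⟨a, b.trans ?_⟩
    show LSeries (fun n => (((W'⁄M).LFunction n : ℤ) : ℂ)) s = LSeries (fun n => (((W⁄M).LFunction n : ℤ) : ℂ)) s
    rw [e]
  refine ((prime_almost (W⁄(𝓞 F)) h.base.data.ell).union (lunit_almostE h.base M ι hL')).subset ?_
  rintro p ⟨hp, hA⟩
  by_cases hP : PrimeH F (W⁄(𝓞 F)) p
  · exact Or.inr ⟨hp, fun hV => hA ((i1_lunit (i1_same h hP M hl)).2 hV)⟩
  · exact Or.inl ⟨hp, hP⟩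

end H55G
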