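import Mathlib
import Pool.Agent.Lib.H55G.I4b
import Pool.Agent.Lib.H13R.E1
import Pool.Agent.Lib.H19B.SB

/-! # H55G, part I: Selmer groups in the tower over M, under OkM -/

open NumberField IsDedekindDomain WeierstrassCurve

namespace H55G

open H55P (IQ embF eF LF Per IsHecke Pt ac acR Inert Dec Nm UnitP Ram RamF PExt SelG ShaG PtsG clos UnrP Below)
open H35P (WAB Ker tt GoodW IntW)
open H55K.TQ
open H13R (BadM NoRel)
open H19B (Spl)

variable {F : Type} [Field F] [NumberField F] [IQ F] {W₀ : WeierstrassCurve (𝓞 F)} {Om : ℂ}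
    {m : Ideal (𝓞 F)} {ψ : Ideal (𝓞 F) →*₀ 𝓞 F} {p : ℕ}

open Classical in
/-- Chunk I5 (S/M). The local alternative at a prime v of M which divides the discriminant, in the form needed in H19B.sel_towerG: if W₀ is bad at v over M: the left side, bad_tors1 (I4b.lean); p is not in v (see selB in Lib/H19B/SB.lean: hΔ there, coprimality hp.cop). If it is good at v: the right side: alt_ok (I2.lean) with locOk_of (I3b.lean), hOk v hΔ hg; finiteness of the points killed by p: tors_fin (as in sel_towerG in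
Lib/H19B/ST3.lean) for the elliptic curve W₀⁄F (H55P.gen_ell). -/
theorem loc_alt (hH : BaseH F W₀ Om m ψ) (hp : PrimeH F W₀ p) {M L : IntermediateField F (AlgebraicClosure F)}
    [NumberField M] (hL : PExt p M L) (hOk : OkM p W₀ M) {v : HeightOneSpectrum (𝓞 M)}
    (hΔ : algebraMap (𝓞 F) (𝓞 M) W₀.Δ ∈ v.asIdeal) :
    ((p : 𝓞 M) ∉ v.asIdeal ∧
      ∀ V : ValuationSubring (AlgebraicClosure F), Below V M v.asIdeal → ∀ T : Pt (W₀⁄F) (AlgebraicClosure F), p • T = 0 →
        (∀ s ∈ L.fixingSubgroup, Inert V s → ac (W₀⁄F) s T = T) → T = 0) ∨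
      ∀ V : ValuationSubring (AlgebraicClosure F), Below V M v.asIdeal →
        ∀ N K : IntermediateField F (AlgebraicClosure F), M ≤ N → N ≤ K → K ≤ L → H19B.Alt (W₀⁄F) p N K V := by
  have hell : (W₀⁄F).IsElliptic := H55P.gen_ell W₀ hH.data.ell
  by_cases hg : H55K.GoodAt ((W₀⁄F)⁄M) v
  · right
    intro V hV N K hMN hNK hKL
    exact alt_ok hp.prime (H55P.tors_fin (W₀⁄F) p hp.prime.pos) hL (locOk_of hH hp hV hΔ hg (hOk v hΔ hg)) hMN hNK hKL
  · left
    refine ⟨fun hpv => ?_, fun V hV T hT hf => ?_⟩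
    · obtain ⟨a, ha, b, hb, hab⟩ := (Ideal.isCoprime_iff_exists.1 hp.cop)
      rw [Ideal.mem_span_singleton] at ha hb
      obtain ⟨a, rfl⟩ := ha
      obtain ⟨b, rfl⟩ := hb
      apply v.isPrime.ne_top
      rw [Ideal.eq_top_iff_one]
      have e : (1 : 𝓞 M) = algebraMap (𝓞 F) (𝓞 M) W₀.Δ * algebraMap (𝓞 F) (𝓞 M) a + (p : 𝓞 M) * algebraMap (𝓞 F) (𝓞 M) b := by
        rw [← map_one (algebraMap (𝓞 F) (𝓞 M)), ← hab, map_add, map_mul, map_mul, map_natCast]
      rw [e]
      exact v.asIdeal.add_mem (v.asIdeal.mul_mem_right _ hΔ) (v.asIdeal.mul_mem_right _ hpv)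
    · exact bad_tors1 hH hp hL le_rfl (V := V) (v := v) hg (fun a ha => (hV _).1 ha) hΔ T hT hf

end H55G
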