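import Mathlib
import Pool.Agent.Lib.H55G.I4b
import Pool.Agent.Lib.H13R.E1
import Pool.Agent.Lib.H19B.SB
import Pool.Agent.Lib.H55G.I5a

/-! # H55G, part I: Selmer groups in the tower over M, under OkM -/

open NumberField IsDedekindDomain WeierstrassCurve

namespace H55G

open H55P (IQ embF eF LF Per IsHecke Pt ac acR Inert Dec Nm UnitP Ram RamF PExt SelG ShaG PtsG clos UnrP Below)
open H35P (WAB Ker tt GoodW IntW)
open H55K.TQ
open H13R (BadM NoRel)
open H19B (Spl)

variable {F : Type} [Field F] [NumberField F] [IQ F] {W₀ : WeierstrassCurve (𝓞 F)} {Om : ℂ}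
    {m : Ideal (𝓞 F)} {ψ : Ideal (𝓞 F) →*₀ 𝓞 F} {p : ℕ}

open Classical in
/-- Chunk I5 (S/M). Copy the proof of H13R.selR (Lib/H13R/E1.lean), with H19B.sel_towerG (Lib/H19B/ST3.lean) in place of sel_towerB, L = clos M K (hC' : PExt p M (clos M K)): at v: p is not in v (as there); if Δ is not in v: left, left (NoRel). If Δ in v: loc_alt for hC'. -/
theorem selRO (hH : BaseH F W₀ Om m ψ) (hp : PrimeH F W₀ p) {M L K : IntermediateField F (AlgebraicClosure F)}
    [NumberField M] [NumberField K] (hUM : UnrP p M) (hOk : OkM p W₀ M) (hL : PExt p M L) (hMK : M ≤ K) (hK : K ≤ L)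
    (hU : UnrP p K) (hN : NoRel p W₀ M K) (hS : SelG p W₀ M) : SelG p W₀ K ∧ ShaG p W₀ K ∧ PtsG p W₀ K := by
  have hLf : FiniteDimensional F L := hL.fin
  have hKf : FiniteDimensional F K := H55P.finDim_of_le hK
  have hMf : FiniteDimensional F M := H55P.finDim_of_le hL.le
  have hell : (W₀⁄F).IsElliptic := H55P.gen_ell W₀ hH.data.ell
  obtain ⟨v₀, hv₀⟩ := H13R.exists_goodGR hH hp M hUM
  have hC' := H55P.clos_pext p hp.prime M K L hL hMK hK
  have h0 : ∀ T : Pt (W₀⁄F) (AlgebraicClosure F), p • T = 0 →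
      (∀ s ∈ M.fixingSubgroup, ac (W₀⁄F) s T = T) → T = 0 := fun T hT hf =>
    H55P.tors_of_prime W₀ p hp.prime M v₀ hv₀.disc hv₀.res hv₀.pts T hT hf
  have hSK : H55P.SelZero (W₀⁄F) p K := H19B.sel_towerG W₀ p hp.prime M (clos M K) hC' h0
    (fun s _ t _ T hT => H55K.NB.comm_tors hH hp.prime s t T hT)
    (fun v hv => by
      have hv' := H55P.clos_ram M K L hMK hK hL.norm v hv
      have hn := H55P.ram_norm p hp.prime M L hL K hMK hK hU v hv'
      by_cases hΔ : algebraMap (𝓞 F) (𝓞 M) W₀.Δ ∈ v.asIdeal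
      · rcases loc_alt hH hp hC' hOk hΔ with h | h
        · exact Or.inl ⟨h.1, Or.inr h.2⟩
        · exact Or.inr h
      · refine Or.inl ⟨fun hpv => ?_, Or.inl ⟨hΔ, hN v hv' hΔ⟩⟩
        have h1 : v.asIdeal ∣ Ideal.span {(p : 𝓞 M)} := by
          rw [Ideal.dvd_iff_le, Ideal.span_singleton_le_iff_mem]
          exact hpv
        have h2 := map_dvd Ideal.absNorm h1
        rw [Ideal.absNorm_span_natCast] at h2
        obtain ⟨k, -, hk⟩ := (Nat.dvd_prime_pow hp.prime).1 h2
        have hk0 : k ≠ 0 := by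
          rintro rfl
          rw [pow_zero, Ideal.absNorm_eq_one_iff] at hk
          exact v.isPrime.ne_top hk
        have h3 : p ∣ Ideal.absNorm v.asIdeal := by
          rw [hk]
          exact dvd_pow_self p hk0
        have h4 : 0 < Ideal.absNorm v.asIdeal := by
          rw [hk]
          exact pow_pos hp.prime.pos k
        have h5 : p ∣ 1 := by
          have h6 := Nat.dvd_sub h3 hn
          rwa [Nat.sub_sub_self h4] at h6
        exact hp.prime.one_lt.ne' (Nat.dvd_one.1 h5)) hS K hMK (H55P.le_clos M K)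
  exact ⟨hSK, H55P.sha_zero (W₀⁄F) p hp.prime K hSK, H55P.pts_fin (W₀⁄F) p hp.prime K hSK⟩

open Classical in
/-- Chunk I5 (S). Copy the proof of H19B.selB (Lib/H19B/SB.lean); at v not above p with Δ in v: loc_alt for hC'. -/
theorem selBO (hH : BaseH F W₀ Om m ψ) (hp : PrimeH F W₀ p) (hsp : Spl F p) {M L K : IntermediateField F (AlgebraicClosure F)}
    [NumberField M] [NumberField K] (hOk : OkM p W₀ M) (hL : PExt p M L) (hMK : M ≤ K) (hK : K ≤ L)
    (hN : NoRel p W₀ M K) (hS : SelG p W₀ M) : SelG p W₀ K ∧ ShaG p W₀ K ∧ PtsG p W₀ K := by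
  have hLf : FiniteDimensional F L := hL.fin
  have hKf : FiniteDimensional F K := H55P.finDim_of_le hK
  have hMf : FiniteDimensional F M := H55P.finDim_of_le hL.le
  have hell : (W₀⁄F).IsElliptic := H55P.gen_ell W₀ hH.data.ell
  have hC' := H55P.clos_pext p hp.prime M K L hL hMK hK
  have h0 : ∀ T : Pt (W₀⁄F) (AlgebraicClosure F), p • T = 0 →
      (∀ s ∈ M.fixingSubgroup, ac (W₀⁄F) s T = T) → T = 0 := fun T hT hf =>
    H19B.tors_of_sel (W₀⁄F) p hp.prime M hS T hT hf
  have hSK : H55P.SelZero (W₀⁄F) p K := H19B.sel_towerG W₀ p hp.prime M (clos M K) hC' h0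
    (fun s _ t _ T hT => H55K.NB.comm_tors hH hp.prime s t T hT)
    (fun v hv => by
      have hv' := H55P.clos_ram M K L hMK hK hL.norm v hv
      by_cases hΔ : algebraMap (𝓞 F) (𝓞 M) W₀.Δ ∈ v.asIdeal
      · rcases loc_alt hH hp hC' hOk hΔ with h | h
        · exact Or.inl ⟨h.1, Or.inr h.2⟩
        · exact Or.inr h
      · by_cases hpv : (p : 𝓞 M) ∈ v.asIdeal
        · right
          intro V hV N K' hMN hNK hKL
          exact H19B.alt_w0 hH hp hsp hC' v hpv hΔ (hN v hv' hΔ) V hV N K' hMN hNK hKL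
        · exact Or.inl ⟨hpv, Or.inl ⟨hΔ, hN v hv' hΔ⟩⟩) hS K hMK (H55P.le_clos M K)
  exact ⟨hSK, H55P.sha_zero (W₀⁄F) p hp.prime K hSK, H55P.pts_fin (W₀⁄F) p hp.prime K hSK⟩

end H55G
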