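import Mathlib
import Pool.Agent.Lib.H55G.J4
import Pool.Agent.Lib.H55G.S1
import Pool.Agent.Lib.H55G.S2
import Pool.Agent.Lib.SSG.Z.Fin

/-! # H55G, part S: the theorem for the maximal order and for isogenous curves, under OkM -/

open NumberField IsDedekindDomain WeierstrassCurve

namespace H55G

open H55P (IQ embF eF LF Per IsHecke Pt ac Inert Dec Nm UnitP UnrP PExt)
open H35P (WAB Ker tt GoodW IntW)
open H55K H55K.TQ
open H55Z (Layer Spl ValK)
open SSG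

open Classical in
/-- Interface (AL): the algebraic side over the fields between F and its algebraic closure. -/
def ALcO (F : Type) [Field F] [NumberField F] [IQ F] (p : ℕ) (W : WeierstrassCurve ℤ) : Prop :=
  ∀ (M K : IntermediateField F (AlgebraicClosure F)) [NumberField M] [NumberField K] (hle : M ≤ K) (n : ℕ),
    Spl F p M → UnrP p M → H55P.SelG p (W⁄(𝓞 F)) M →
    (letI : Algebra M K := (IntermediateField.inclusion hle).toRingHom.toAlgebra; Layer p n M K) →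
    Nat.card (PP p ((galS ((W⁄(𝓞 F))⁄F) (AlgebraicClosure F)).res K.fixingSubgroup).Sha) = p ^ (2 * Module.finrank F M * H19A.JS p n) ∧
      {P : Pt ((W⁄(𝓞 F))⁄F) (AlgebraicClosure F) | ∀ s ∈ K.fixingSubgroup, ac ((W⁄(𝓞 F))⁄F) s P = P}.Finite

/-- Interface (E): the analytic side. -/
def EcO (F : Type) [Field F] [NumberField F] [IQ F] (p : ℕ) [Fact p.Prime] (W : WeierstrassCurve ℤ) (Om : ℂ) (ψ : Ideal (𝓞 F) →*₀ 𝓞 F) : Prop :=
  ∀ (M : IntermediateField F (AlgebraicClosure F)) [NumberField M],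
    Spl F p M → UnrP p M → H55P.ValG p Om ψ M →
    ∀ k, 1 ≤ k → ∀ χ : DirichletCharacter ℂ (p ^ (k + 1)), orderOf χ = p ^ k → ValK F M p Om ψ k χ

theorem JS_eqO (p n : ℕ) : H19A.JS p n = ∑ k ∈ Finset.range n, H35K.J p (k + 1) := rfl

variable {F : Type} [Field F] [NumberField F] [IQ F] {W : WeierstrassCurve ℤ} {Om : ℂ} {m : Ideal (𝓞 F)}
    {ψ : Ideal (𝓞 F) →*₀ 𝓞 F} {p : ℕ}

open Classical in
/-- THE THEOREM for complex multiplication by the integers of F. -/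
theorem tower_maxO [Fact p.Prime] (hH : BaseH F (W⁄(𝓞 F)) Om m ψ) (hp : PrimeH F (W⁄(𝓞 F)) p) (hI : H19A.InertQ F p)
    (hAL : ALcO F p W) (hE : EcO F p W Om ψ) : TowerThmO F p W := by
  intro M _ _ ιM hB n K _ _ _ hLay
  have h5 := hp.five
  have h2 : p ≠ 2 := by omega
  have hpp : p.Prime := hp.prime
  obtain ⟨hS, hUG, hUM⟩ := H55Z.q10_main (F := F) hpp h2 hI hB.split ιM
  have hdM := H55P.pl1_discr p hpp hUM
  have hdG := H55P.pl1_discr p hpp hUG
  have hLay' : Layer p n M K := H55Z.q7_conv h2 hdM hLay.1 hLay.2.some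
  have hLU : H13R.LUnitG p W M := by
    obtain ⟨⟨-, -, -, h1⟩, h3⟩ := hB.unit
    exact (H13R.an_iff hpp h1).1 h3
  have hI0 := H13R.gen_intR hH hp hUG (H13R.pext_self p (KG F M ιM)) le_rfl le_rfl hUG
  have hV := (lunit_iffV hH hp M (KG F M ιM) (relV1_of hH hp M ιM hUM (ok_of hH M ιM hB.ok)) hI0).1 hLU
  obtain ⟨Λ, hΛa, hΛs, hΛ1, hΛv⟩ := q9_mainO hH hp ιM hUM hUG hB.ok hLU hLay' (fun k h1 _ χ hχ => hE (KG F M ιM) hS hUG hV k h1 χ hχ)
  obtain ⟨ιK, hι⟩ := H55Z.q8_ext (K := K) ιM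
  have hle := H55Z.q8_le ιM ιK hι
  have hlay := H55Z.q8_layer hLay' ιM ιK hι hle
  have hSel : H55P.SelG p (W⁄(𝓞 F)) (KG F M ιM) := H13R.selG_of_triv hH hpp h2 hp.unr M ιM hB.unit.1.1
  obtain ⟨hc, hf⟩ := hAL (KG F M ιM) (KG F K ιK) hle n hS hUG hSel hlay
  letI i : Algebra (KG F M ιM) (KG F K ιK) := (IntermediateField.inclusion hle).toRingHom.toAlgebra
  have hnG : Module.finrank (KG F M ιM) (KG F K ιK) = p ^ n := (H55Z.layer_disc h2 hdG hlay).1
  have hpx : PExt p (KG F M ιM) (KG F K ιK) := H55Z.q9_pext hle hnG hlay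
  have hpts := pts_KG (F := F) W hpp K ιK hf (fun P hP hpP => H13R.tors_KR hH hp hUG hpx le_rfl P hpP hP)
  obtain ⟨d, hd0, hdeg, hd⟩ := card_KG hH hpp h2 hp.unr K ιK
  have hcard : Nat.card (ShaC p K (W⁄K)) = p ^ (Module.finrank ℚ M * H19A.JS p n) := by
    rw [hc] at hd
    have e1 : Module.finrank ℚ K = Module.finrank ℚ M * p ^ n := by
      rw [← hLay.1]
      exact (Module.finrank_mul_finrank ℚ M K).symm
    have e2 : Module.finrank ℚ (KG F K ιK) = 2 * Module.finrank F (KG F M ιM) * p ^ n := by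
      have hst : IsScalarTower F (KG F M ιM) (KG F K ιK) := IsScalarTower.of_algebraMap_eq fun x => rfl
      have e3 : Module.finrank F (KG F K ιK) = Module.finrank F (KG F M ιM) * p ^ n := by
        rw [← hnG]
        exact (Module.finrank_mul_finrank F (KG F M ιM) (KG F K ιK)).symm
      rw [← Module.finrank_mul_finrank ℚ F (KG F K ιK), e3, IQ.deg, mul_assoc]
    rw [e2, e1, ← mul_assoc] at hdeg
    have e4 := Nat.eq_of_mul_eq_mul_right (pow_pos hpp.pos n) hdeg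
    rw [e4, mul_assoc, mul_comm d, pow_mul] at hd
    exact Nat.pow_left_injective hd0.ne' hd
  have hsha : Finite (H19A.ShaP p K (W⁄K)) ∧ Nat.card (H19A.ShaP p K (W⁄K)) = p ^ (Module.finrank ℚ M * H19A.JS p n) := by
    have h1 : Nat.card (H19A.ShaP p K (W⁄K)) = p ^ (Module.finrank ℚ M * H19A.JS p n) := hcard
    refine ⟨Nat.finite_of_card_ne_zero ?_, h1⟩
    rw [h1]
    exact (pow_pos hpp.pos _).ne'
  refine ⟨hpts, hsha, exists_perZ (perW_of hH), Λ, hΛa, hΛs, hΛ1, fun L hL V hV => ?_⟩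
  rw [shaG_lG, map_mul, map_pow, H55P.val_nat p hpp V hV _ hpts.2, one_pow, mul_one, hΛv L hL V hV, hsha.2, Nat.cast_pow, map_pow]
  rfl

variable {W' : WeierstrassCurve ℤ} {kap : ℤ} {e t u lam : ℚ}

theorem fin_ellO {W : WeierstrassCurve ℤ} (hW : W.Δ ≠ 0) (K : Type) [Field K] [NumberField K] : (W⁄K).IsElliptic := by
  rw [WeierstrassCurve.isElliptic_iff]
  have e : (W⁄K).Δ = algebraMap ℤ K W.Δ := W.map_Δ (algebraMap ℤ K)
  rw [e]
  refine IsUnit.mk0 _ ?_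
  rw [eq_intCast]
  exact_mod_cast hW

open Classical in
/-- THE THEOREM for isogenous curves. -/
theorem tower_isoO [Fact p.Prime] (h : H28I.TW F W W' Om m ψ kap e t u lam) (hp' : PrimeH F (W'⁄(𝓞 F)) p) (hI : H19A.InertQ F p)
    (hAL : ALcO F p W) (hE : EcO F p W Om ψ) : TowerThmO F p W' := by
  intro M _ _ ιM hB n K _ _ _ hLay
  have hp := (H28I.tw_prime h).1 hp'
  have h5 := hp.five
  have h2 : p ≠ 2 := by omega
  have hpp : p.Prime := hp.prime
  obtain ⟨hS, hUG, hUM⟩ := H55Z.q10_main (F := F) hpp h2 hI hB.split ιM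
  have hdM := H55P.pl1_discr p hpp hUM
  have hdG := H55P.pl1_discr p hpp hUG
  have hLay' : Layer p n M K := H55Z.q7_conv h2 hdM hLay.1 hLay.2.some
  have hok : OkM p (W⁄(𝓞 F)) (KG F M ιM) := (okm_tw h _).1 hB.ok
  have hSM := H13R.i1_same h hp M (lfun_tw h M)
  have hB1 : BaseO F p W M ιM := by
    refine ⟨hB.split, hok, ?_⟩
    rw [H13R.bsd_iff h.base hp (H13R.pext_self p (KG F M ιM)) hUG M ιM le_rfl, ← H13R.i1_sel hpp h5 hSM, ← H13R.i1_lunit hSM]
    exact ⟨hB.unit.1.1, (H13R.an_iff hpp hB.unit.1.2.2.2).1 hB.unit.2⟩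
  have hT := tower_maxO h.base hp hI hAL hE M ιM hB1 n K hLay
  obtain ⟨ιK, hι⟩ := H55Z.q8_ext (K := K) ιM
  have hle := H55Z.q8_le ιM ιK hι
  have hlay := H55Z.q8_layer hLay' ιM ιK hι hle
  letI i : Algebra (KG F M ιM) (KG F K ιK) := (IntermediateField.inclusion hle).toRingHom.toAlgebra
  have hnG : Module.finrank (KG F M ιM) (KG F K ιK) = p ^ n := (H55Z.layer_disc h2 hdG hlay).1
  have hpx : PExt p (KG F M ιM) (KG F K ιK) := H55Z.q9_pext hle hnG hlay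
  have hSK := H13R.i1_same h hp K (lfun_tw h K)
  obtain ⟨q1, q2⟩ := H28I.pts_iso hpp h5 (H28I.a0_disc hSK.disc' K) hSK.iso hT.pts.1 hT.pts.2
  have hWK : (W⁄K).IsElliptic := fin_ellO hSK.disc K
  have hWK' : (W'⁄K).IsElliptic := fin_ellO hSK.disc' K
  have hcard : Nat.card (H19A.ShaP p K (W'⁄K)) = Nat.card (H19A.ShaP p K (W⁄K)) := by
    have e1 : Nat.card (ShaC p K (W⁄K)) = _ := bridge (W⁄K) hpp h2
    have e2 : Nat.card (ShaC p K (W'⁄K)) = _ := bridge (W'⁄K) hpp h2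
    have e3 := iso6_card hSK.iso hpp h5
    exact e2.trans (e3.symm.trans e1.symm)
  have hsha : Finite (H19A.ShaP p K (W'⁄K)) ∧ Nat.card (H19A.ShaP p K (W'⁄K)) = p ^ (Module.finrank ℚ M * H19A.JS p n) := by
    rw [hT.sha.2] at hcard
    refine ⟨Nat.finite_of_card_ne_zero ?_, hcard⟩
    rw [hcard]
    exact (pow_pos hpp.pos _).ne'
  obtain ⟨Λ, hΛa, hΛs, hΛ1, hΛv⟩ := hT.bsd
  refine ⟨⟨q1, q2⟩, hsha, hSK.ex', Λ, hΛa, (H28I.a0_ser hSK Λ).2 hΛs, hΛ1, fun L hL V hV => ?_⟩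
  obtain ⟨L₀, hL₀⟩ := hSK.ex
  have e1 := hΛv L₀ hL₀ V hV
  rw [shaG_lG, map_mul, map_pow, H55P.val_nat p hpp V hV _ hT.pts.2, one_pow, mul_one, hT.sha.2] at e1
  rw [shaG_lG, map_mul, map_pow, H55P.val_nat p hpp V hV _ q2, one_pow, mul_one, hsha.2, hSK.per L₀ L hL₀ hL V hV]
  exact e1

end H55G
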