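import Mathlib
import Pool.Agent.Lib.H55G.S3
import Pool.Agent.Lib.SSG.Z.AM
import Pool.Agent.Lib.SSG.S.A4
import Pool.Agent.Lib.H19A.LA
import Pool.Agent.Lib.H19A.Res

/-! # H55G, part S: the theorem on supersingular towers, under OkM -/

open NumberField IsDedekindDomain WeierstrassCurve

namespace H55G

open H55P (IQ embF eF LF Per IsHecke Pt ac Inert Dec Nm UnitP UnrP PExt)
open H35P (WAB Ker tt GoodW IntW)
open H55K H55K.TQ
open SSG SSG.S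

section al

variable {F : Type} [Field F] [NumberField F] [IQ F] {W : WeierstrassCurve ℤ} {Om : ℂ} {m : Ideal (𝓞 F)}
    {ψ : Ideal (𝓞 F) →*₀ 𝓞 F} {p : ℕ}

theorem alcO_of (hH : BaseH F (W⁄(𝓞 F)) Om m ψ) (hp : PrimeH F (W⁄(𝓞 F)) p) (hI : H19A.InertQ F p) (hL : LocC F p W Om m ψ) : ALcO F p W := by
  classical
  intro M K _ _ hle n hS hU hSel hlay
  have hpf : Fact p.Prime := ⟨hp.prime⟩
  have h5 := hp.five
  have hin : Prime (p : 𝓞 F) := (Ideal.span_singleton_prime (Nat.cast_ne_zero.2 hp.prime.ne_zero)).1 hI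
  obtain ⟨A, B, j, act, hA, hB, d⟩ := exists_dtaAB (p := p) hH hp
  obtain ⟨Θ, hΘ⟩ := short_iso (W⁄(𝓞 F)) hA hB hH.data.ell (Ω := AlgebraicClosure F)
  have hfd : FiniteDimensional F M := Module.Finite.of_restrictScalars_finite ℚ F M
  have hΘ' : ∀ (s : AlgebraicClosure F ≃ₐ[F] AlgebraicClosure F) (P : Pt (WAB A B) (AlgebraicClosure F)),
      Θ.symm (ac (WAB A B) s P) = ac ((W⁄(𝓞 F))⁄F) s (Θ.symm P) := by
    intro s P
    apply Θ.injective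
    rw [Θ.apply_symm_apply, hΘ, Θ.apply_symm_apply]
  have sel : H55P.SelZero (WAB A B) p M := y6_transport p M Θ.symm hΘ' hSel
  obtain ⟨h1, -, -, h4⟩ := H35L.al_main d hin M (fun V' hV' s hs => spl_dec hp.prime M hS hU V' hV' s hs) sel (hL A B j act hA hB d) n
    K.fixingSubgroup (layer_fix (by omega) M K hle hlay)
  refine ⟨?_, ?_⟩
  · rw [equiv_card Θ hΘ K.fixingSubgroup hp.prime, h4, mul_assoc]
    rfl
  · refine (h1.preimage Θ.injective.injOn).subset fun P hP => ?_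
    intro s hs
    rw [← hΘ, hP s hs]

end al

/-- THE ANALYTIC SIDE: the interface (E). -/
theorem ecO_all (F : Type) [Field F] [NumberField F] [IQ F] (W : WeierstrassCurve ℤ) (Om : ℂ) (m : Ideal (𝓞 F)) (ψ : Ideal (𝓞 F) →*₀ 𝓞 F)
    (p : ℕ) [Fact p.Prime] (hH : BaseH F (W⁄(𝓞 F)) Om m ψ) (hp : PrimeH F (W⁄(𝓞 F)) p) (hI : H19A.InertQ F p) : EcO F p W Om ψ := by
  classical
  intro M _ hS hU hV k hk χ hχ
  obtain ⟨A, B, j, act, hA, hB', d⟩ := exists_dtaAB (p := p) hH hp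
  have hin : (Ideal.span {(p : 𝓞 F)}).IsPrime := hI
  obtain ⟨Λ, h1, h2, -, h4⟩ := hV
  obtain ⟨u₀, hu₀⟩ := H13R.exists_goodGR hH hp M hU
  exact valK_of hp.five hH.data.hecke (base_of hH hp).cop.of_mul_left_right (psi_p hH hp hin) hin hU hS d
    (sup_p hH hp hin hA hB' d) (fun V hV => H55P.gen_ntp p hp.prime M u₀ hu₀ V hV) hk χ hχ ⟨Λ, h1, h2, rfl⟩ (fun V hV => h4 V hV)

/-- The conclusions for the prime p. -/
structure AtPO (F : Type) [Field F] [NumberField F] [IQ F] (p : ℕ) (W : WeierstrassCurve ℤ) : Prop where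
  tower : TowerThmO F p W
  exist : AnUnitG p W ℚ → ExistO F p W
  real : AnUnitG p W ℚ → ExistRealO F p W

theorem finalO (hL : LocAll) (F : Type) [Field F] [NumberField F] [IQ F] (W' : WeierstrassCurve ℤ) (hC : H55Y.CMO F W')
    (p : ℕ) (hp : p.Prime) (h5 : 5 ≤ p) (hI : H19A.InertQ F p) (hd : ¬ (p : ℤ) ∣ W'.Δ) : AtPO F p W' := by
  have hpf : Fact p.Prime := ⟨hp⟩
  have hcub : ∀ w : 𝓞 F, w ^ 2 + w + 1 = 0 → ∀ n : ℤ, n ≠ 0 →
      ∃ κ : 𝓞 F → 𝓞 F, H55W.PRC (𝓞 F) 3 n (3 * n) (27 * n) κ := fun w hw n hn => H55W.cub_F F IQ.deg w hw n hn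
  have hcub' : ∀ (F : Type) [Field F] [NumberField F] [IQ F], ∀ w : 𝓞 F, w ^ 2 + w + 1 = 0 → ∀ n : ℤ, n ≠ 0 →
      ∃ κ : 𝓞 F → 𝓞 F, H55W.PRC (𝓞 F) 3 n (3 * n) (27 * n) κ := fun F _ _ _ w hw n hn => H55W.cub_F F IQ.deg w hw n hn
  rcases H55Y.y5_cases hC hcub with ⟨Om, hper⟩ | ⟨W, Om, m, ψ, kap, e, t, u, lam, hΔ, hper, h⟩
  · obtain ⟨hΔ, hmin, -⟩ := hC
    obtain ⟨ψ, hH⟩ := H55W.base_all0 hcub W' Om hΔ hper hmin
    have hP := H55W.prime_simple hΔ hper hp h5 hd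
    exact ⟨tower_maxO hH hP hI (alcO_of hH hP hI (hL F W' Om _ ψ p hH hP hI)) (ecO_all F W' Om _ ψ p hH hP hI), fun hu => exist_o (H55Z.x1_exist hH hP hI hu), fun hu => existReal_o (H55Z.x1_real hH hP hI hu)⟩
  · have hP0 := H55W.prime_simple hΔ hper hp h5 fun h' => hd (H55Y.y6_dvd h hp h')
    have hP := (H28I.tw_prime h).2 hP0
    exact ⟨tower_isoO h hP hI (alcO_of h.base hP0 hI (hL F W Om m ψ p h.base hP0 hI)) (ecO_all F W Om m ψ p h.base hP0 hI), fun hu => exist_o (H55Z.x1_exist_iso h hP hI hu),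
      fun hu => existReal_o (H55Z.x1_real_iso h hP hI hu)⟩

end H55G
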